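import Pool.Agent.Lob34.Count

/-! Unloaded vertices in the window: comparability and cuts. -/

namespace Pool.Agent.Lob34

/-- The odd edge at the vertex `i`. -/
def oE (i : ℕ) : ℕ := if i % 2 = 1 then i else i + 1

/-- The even edge at the vertex `i`. -/
def eE (i : ℕ) : ℕ := if i % 2 = 1 then i + 1 else i

theorem pos_succ {k q i : ℕ} (hqk : q ≤ k) (h1 : 1 ≤ i) (h2 : i < k) (hq : i ≠ q) :
    pos k q (i + 1) = pos k q i + 1 := by
  unfold pos
  split_ifs <;> omega

theorem before_succ (T : ℕ → Prop) [DecidablePred T] {k q i : ℕ} (hqk : q ≤ k) (h1 : 1 ≤ i)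
    (h2 : i < k) (hq : i ≠ q) :
    before T k q (i + 1) = before T k q i + if T i then 1 else 0 := by
  unfold before
  have e := pos_succ hqk h1 h2 hq
  have key : (Finset.Icc 1 k).filter (fun x => T x ∧ pos k q x < pos k q (i + 1)) =
      if T i then insert i ((Finset.Icc 1 k).filter (fun x => T x ∧ pos k q x < pos k q i))
      else (Finset.Icc 1 k).filter (fun x => T x ∧ pos k q x < pos k q i) := by
    ext x
    split_ifs with hT
    · simp only [Finset.mem_filter, Finset.mem_insert, Finset.mem_Icc]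
      constructor
      · rintro ⟨a, b, d⟩
        rcases Nat.lt_or_ge (pos k q x) (pos k q i) with h | h
        · exact Or.inr ⟨a, b, h⟩
        · left
          exact pos_inj hqk a.1 a.2 h1 (by omega) (by omega)
      · rintro (rfl | ⟨a, b, d⟩)
        · exact ⟨⟨h1, by omega⟩, hT, by omega⟩
        · exact ⟨a, b, by omega⟩
    · simp only [Finset.mem_filter, Finset.mem_Icc]
      constructor
      · rintro ⟨a, b, d⟩
        refine ⟨a, b, ?_⟩
        rcases Nat.lt_or_ge (pos k q x) (pos k q i) with h | h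
        · exact h
        · have := pos_inj hqk a.1 a.2 h1 (by omega) (show pos k q x = pos k q i by omega)
          subst this
          exact absurd b hT
      · rintro ⟨a, b, d⟩
        exact ⟨a, b, by omega⟩
  rw [key]
  split_ifs with hT
  · rw [Finset.card_insert_of_notMem]
    simp
  · rfl

theorem before_le (T : ℕ → Prop) [DecidablePred T] {k q i j : ℕ}
    (h : pos k q i ≤ pos k q j) : before T k q i ≤ before T k q j := by
  unfold before
  apply Finset.card_le_card
  intro x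
  simp only [Finset.mem_filter]
  rintro ⟨a, b, d⟩
  exact ⟨a, b, by omega⟩

/-- Monotonicity of the ranks. -/
theorem rank_mono (c : ℕ → Bool) {k q i j : ℕ} (hq : q ≤ k) (hi1 : 1 ≤ i) (hi2 : i ≤ k)
    (h1 : 1 ≤ j) (h2 : j ≤ k) (h : pos k q i ≤ pos k q j) :
    (goodO c i → goodO c j → rank c k q i ≤ rank c k q j) ∧
    (goodE c i → goodE c j → rank c k q i ≤ rank c k q j) ∧
    (badO c i → badO c j → rank c k q j ≤ rank c k q i) ∧
    (badE c i → badE c j → rank c k q j ≤ rank c k q i) := by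
  refine ⟨fun a b => ?_, fun a b => ?_, fun a b => ?_, fun a b => ?_⟩
  · rw [rank_goodO c hq hi1 hi2 a, rank_goodO c hq h1 h2 b]
    have := before_le (goodO c) h
    omega
  · rw [rank_goodE c hq hi1 hi2 a, rank_goodE c hq h1 h2 b]
    have := before_le (goodE c) h
    omega
  · rw [rank_badO c hq hi1 hi2 a, rank_badO c hq h1 h2 b]
    have := before_le (badO c) h
    omega
  · rw [rank_badE c hq hi1 hi2 a, rank_badE c hq h1 h2 b]
    have := before_le (badE c) h
    omega

/-- The edges at two vertices are ordered in the same way. -/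
theorem pos_cmp {k q i j : ℕ} (hqk : q ≤ k) (hi1 : 1 ≤ i) (hi2 : i < k) (hiq : i ≠ q)
    (h1 : 1 ≤ j) (h2 : j < k) (hjq : j ≠ q) (h : pos k q i ≤ pos k q j) :
    pos k q (oE i) ≤ pos k q (oE j) ∧ pos k q (eE i) ≤ pos k q (eE j) := by
  unfold oE eE
  unfold pos at *
  rcases Nat.mod_two_eq_zero_or_one i with a | a <;>
    rcases Nat.mod_two_eq_zero_or_one j with b | b <;>
    simp only [a, b, if_true, if_false, zero_ne_one] <;>
    split_ifs at * <;> omega

theorem oE_mem {k i : ℕ} (h1 : 1 ≤ i) (h2 : i < k) :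
    1 ≤ oE i ∧ oE i ≤ k ∧ oE i % 2 = 1 ∧ 1 ≤ eE i ∧ eE i ≤ k ∧ eE i % 2 = 0 := by
  unfold oE eE
  split_ifs <;> omega

/-- The class of the edges at an unloaded vertex. -/
theorem oE_good (c : ℕ → Bool) {i : ℕ} (hl : c i = c (i + 1)) (h : c i = true) :
    goodO c (oE i) ∧ goodE c (eE i) := by
  unfold oE eE goodO goodE
  split_ifs with h1
  · exact ⟨⟨h1, h⟩, by omega, by rw [← hl]; exact h⟩
  · exact ⟨⟨by omega, by rw [← hl]; exact h⟩, by omega, h⟩

theorem oE_bad (c : ℕ → Bool) {i : ℕ} (hl : c i = c (i + 1)) (h : c i = false) :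
    badO c (oE i) ∧ badE c (eE i) := by
  unfold oE eE badO badE
  split_ifs with h1
  · exact ⟨⟨h1, h⟩, by omega, by rw [← hl]; exact h⟩
  · exact ⟨⟨by omega, by rw [← hl]; exact h⟩, by omega, h⟩

/-- Even classes, counted before the two edges at a vertex. -/
theorem before_adjE (T : ℕ → Prop) [DecidablePred T] {k q i : ℕ} (hqk : q ≤ k) (h1 : 1 ≤ i)
    (h2 : i < k) (hq : i ≠ q) (hT : ∀ x, T x → x % 2 = 0) (hi : T (eE i)) :
    before T k q (eE i) ≤ before T k q (oE i) ∧
    before T k q (oE i) ≤ before T k q (eE i) + 1 := by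
  have h := before_succ T hqk h1 h2 hq
  unfold oE eE at *
  split_ifs at * with h3 h4
  · have := hT _ h4
    omega
  · omega
  · omega

/-- The comparability of unloaded vertices of the same colour. -/
theorem cmpR (c : ℕ → Bool) {k q i j : ℕ} (hqk : q ≤ k) (hi1 : 1 ≤ i) (hi2 : i < k)
    (hiq : i ≠ q) (h1 : 1 ≤ j) (h2 : j < k) (hjq : j ≠ q) (hi : c i = c (i + 1))
    (hj : c j = c (j + 1)) (hij : c i = c j) :
    (rank c k q (oE i) ≤ rank c k q (oE j) ∧ rank c k q (eE i) ≤ rank c k q (eE j)) ∨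
    (rank c k q (oE j) ≤ rank c k q (oE i) ∧ rank c k q (eE j) ≤ rank c k q (eE i)) := by
  obtain ⟨m1, m2, m3, m4, m5, m6⟩ := oE_mem hi1 hi2
  obtain ⟨n1, n2, n3, n4, n5, n6⟩ := oE_mem h1 h2
  rcases Nat.le_total (pos k q i) (pos k q j) with h | h
  · obtain ⟨p1, p2⟩ := pos_cmp hqk hi1 hi2 hiq h1 h2 hjq h
    rcases Bool.eq_false_or_eq_true (c i) with a | a
    · obtain ⟨g1, g2⟩ := oE_good c hi a
      obtain ⟨g3, g4⟩ := oE_good c hj (by rw [← hij]; exact a)
      left
      exact ⟨(rank_mono c hqk m1 m2 n1 n2 p1).1 g1 g3, (rank_mono c hqk m4 m5 n4 n5 p2).2.1 g2 g4⟩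
    · obtain ⟨g1, g2⟩ := oE_bad c hi a
      obtain ⟨g3, g4⟩ := oE_bad c hj (by rw [← hij]; exact a)
      right
      exact ⟨(rank_mono c hqk m1 m2 n1 n2 p1).2.2.1 g1 g3,
        (rank_mono c hqk m4 m5 n4 n5 p2).2.2.2 g2 g4⟩
  · obtain ⟨p1, p2⟩ := pos_cmp hqk h1 h2 hjq hi1 hi2 hiq h
    rcases Bool.eq_false_or_eq_true (c i) with a | a
    · obtain ⟨g1, g2⟩ := oE_good c hi a
      obtain ⟨g3, g4⟩ := oE_good c hj (by rw [← hij]; exact a)
      right
      exact ⟨(rank_mono c hqk n1 n2 m1 m2 p1).1 g3 g1, (rank_mono c hqk n4 n5 m4 m5 p2).2.1 g4 g2⟩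
    · obtain ⟨g1, g2⟩ := oE_bad c hi a
      obtain ⟨g3, g4⟩ := oE_bad c hj (by rw [← hij]; exact a)
      left
      exact ⟨(rank_mono c hqk n1 n2 m1 m2 p1).2.2.1 g3 g1,
        (rank_mono c hqk n4 n5 m4 m5 p2).2.2.2 g4 g2⟩

/-- Number of good odd edges before the good even edge of rank `r`. -/
def cutGd (c : ℕ → Bool) (k q r : ℕ) : ℕ :=
  ((Finset.Icc 1 k).filter (fun g => goodO c g ∧
    (before (goodE c) k q g : ℤ) + Be c k + 1 ≤ r)).card

/-- Number of bad odd edges after the bad even edge of rank `r`. -/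
def cutBd (c : ℕ → Bool) (k q r : ℕ) : ℕ :=
  ((Finset.Icc 1 k).filter (fun g => badO c g ∧
    Be c k + 1 ≤ (before (badE c) k q g : ℤ) + r)).card

theorem cutGd_le (c : ℕ → Bool) (k q r : ℕ) : (cutGd c k q r : ℤ) ≤ Go c k := by
  rw [Go_card]
  have : cutGd c k q r ≤ ((Finset.Icc 1 k).filter (goodO c)).card := by
    apply Finset.card_le_card
    intro x
    simp only [Finset.mem_filter]
    tauto
  exact_mod_cast this

theorem cutBd_le (c : ℕ → Bool) (k q r : ℕ) : (cutBd c k q r : ℤ) ≤ Bo c k := by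
  rw [Bo_card]
  have : cutBd c k q r ≤ ((Finset.Icc 1 k).filter (badO c)).card := by
    apply Finset.card_le_card
    intro x
    simp only [Finset.mem_filter]
    tauto
  exact_mod_cast this

theorem cutGd_mono (c : ℕ → Bool) (k q r : ℕ) : cutGd c k q r ≤ cutGd c k q (r + 1) := by
  apply Finset.card_le_card
  intro x
  simp only [Finset.mem_filter]
  rintro ⟨a, b, d⟩
  refine ⟨a, b, ?_⟩
  push_cast
  omega

theorem cutGd_lt (c : ℕ → Bool) {k q i : ℕ} (r : ℕ) (hqk : q ≤ k) (h1 : 1 ≤ i) (h2 : i < k)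
    (hiq : i ≠ q) (hi : c i = c (i + 1)) (ht : c i = true) (hr : rank c k q (eE i) < r) :
    rank c k q (oE i) ≤ Bo c k + cutGd c k q r := by
  obtain ⟨m1, m2, m3, m4, m5, m6⟩ := oE_mem h1 h2
  obtain ⟨g1, g2⟩ := oE_good c hi ht
  rw [rank_goodE c hqk m4 m5 g2] at hr
  rw [rank_goodO c hqk m1 m2 g1]
  have ha := before_adjE (goodE c) hqk h1 h2 hiq (fun x hx => hx.1) g2
  have : before (goodO c) k q (oE i) < cutGd c k q r := by
    unfold before cutGd
    apply Finset.card_lt_card
    rw [Finset.ssubset_iff_subset_ne]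
    constructor
    · intro x
      simp only [Finset.mem_filter]
      rintro ⟨a, b, d⟩
      refine ⟨a, b, ?_⟩
      have := before_le (goodE c) (show pos k q x ≤ pos k q (oE i) by omega)
      omega
    · intro hcon
      have : oE i ∈ (Finset.Icc 1 k).filter (fun g => goodO c g ∧
          (before (goodE c) k q g : ℤ) + Be c k + 1 ≤ r) := by
        rw [Finset.mem_filter, Finset.mem_Icc]
        exact ⟨⟨m1, m2⟩, g1, by omega⟩
      rw [← hcon, Finset.mem_filter] at this
      omega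
  omega

theorem cutGd_gt (c : ℕ → Bool) {k q i : ℕ} (r : ℕ) (hqk : q ≤ k) (h1 : 1 ≤ i) (h2 : i < k)
    (hiq : i ≠ q) (hi : c i = c (i + 1)) (ht : c i = true) (hr : (r : ℤ) < rank c k q (eE i)) :
    Bo c k + cutGd c k q r < rank c k q (oE i) := by
  obtain ⟨m1, m2, m3, m4, m5, m6⟩ := oE_mem h1 h2
  obtain ⟨g1, g2⟩ := oE_good c hi ht
  rw [rank_goodE c hqk m4 m5 g2] at hr
  rw [rank_goodO c hqk m1 m2 g1]
  have ha := before_adjE (goodE c) hqk h1 h2 hiq (fun x hx => hx.1) g2
  have : cutGd c k q r ≤ before (goodO c) k q (oE i) := by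
    unfold before cutGd
    apply Finset.card_le_card
    intro x
    simp only [Finset.mem_filter]
    rintro ⟨a, b, d⟩
    refine ⟨a, b, ?_⟩
    by_contra hcon
    have := before_le (goodE c) (show pos k q (oE i) ≤ pos k q x by omega)
    omega
  omega

theorem cutBd_lt (c : ℕ → Bool) {k q i : ℕ} (r : ℕ) (hqk : q ≤ k) (h1 : 1 ≤ i) (h2 : i < k)
    (hiq : i ≠ q) (hi : c i = c (i + 1)) (ht : c i = false) (hr : rank c k q (eE i) < r) :
    rank c k q (oE i) ≤ cutBd c k q r := by
  obtain ⟨m1, m2, m3, m4, m5, m6⟩ := oE_mem h1 h2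
  obtain ⟨g1, g2⟩ := oE_bad c hi ht
  rw [rank_badE c hqk m4 m5 g2] at hr
  rw [rank_badO c hqk m1 m2 g1]
  have ha := before_adjE (badE c) hqk h1 h2 hiq (fun x hx => hx.1) g2
  have h3 : ((Finset.Icc 1 k).filter (badO c)).card ≤
      before (badO c) k q (oE i) + cutBd c k q r := by
    unfold before cutBd
    rw [← Finset.card_union_add_card_inter]
    refine le_trans (Finset.card_le_card ?_) (Nat.le_add_right _ _)
    intro x
    simp only [Finset.mem_filter, Finset.mem_union]
    rintro ⟨a, b⟩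
    rcases Nat.lt_or_ge (pos k q x) (pos k q (oE i)) with h | h
    · exact Or.inl ⟨a, b, h⟩
    · right
      refine ⟨a, b, ?_⟩
      have := before_le (badE c) h
      omega
  rw [Bo_card]
  omega

theorem cutBd_gt (c : ℕ → Bool) {k q i : ℕ} (r : ℕ) (hqk : q ≤ k) (h1 : 1 ≤ i) (h2 : i < k)
    (hiq : i ≠ q) (hi : c i = c (i + 1)) (ht : c i = false)
    (hr : (r : ℤ) < rank c k q (eE i)) :
    (cutBd c k q r : ℤ) < rank c k q (oE i) := by
  obtain ⟨m1, m2, m3, m4, m5, m6⟩ := oE_mem h1 h2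
  obtain ⟨g1, g2⟩ := oE_bad c hi ht
  rw [rank_badE c hqk m4 m5 g2] at hr
  rw [rank_badO c hqk m1 m2 g1]
  have ha := before_adjE (badE c) hqk h1 h2 hiq (fun x hx => hx.1) g2
  have h3 : before (badO c) k q (oE i) + 1 + cutBd c k q r ≤
      ((Finset.Icc 1 k).filter (badO c)).card := by
    have e : before (badO c) k q (oE i) + 1 = (insert (oE i) ((Finset.Icc 1 k).filter
        (fun x => badO c x ∧ pos k q x < pos k q (oE i)))).card := by
      rw [Finset.card_insert_of_notMem]
      · rfl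
      · simp
    rw [e]
    unfold cutBd
    rw [← Finset.card_union_of_disjoint]
    · apply Finset.card_le_card
      intro x
      simp only [Finset.mem_filter, Finset.mem_union, Finset.mem_insert]
      rintro ((rfl | ⟨a, b, d⟩) | ⟨a, b, d⟩)
      · exact ⟨by rw [Finset.mem_Icc]; exact ⟨m1, m2⟩, g1⟩
      · exact ⟨a, b⟩
      · exact ⟨a, b⟩
    · rw [Finset.disjoint_left]
      intro x
      simp only [Finset.mem_filter, Finset.mem_insert]
      intro hx
      rintro ⟨a, b, d⟩
      have hle : pos k q x ≤ pos k q (oE i) := by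
        rcases hx with rfl | ⟨_, _, hx⟩
        · exact le_refl _
        · omega
      have := before_le (badE c) hle
      omega
  rw [Bo_card]
  omega

end Pool.Agent.Lob34
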