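import Pool.Agent.Lob34.Main
import Pool.Agent.Lob34.Window
import Pool.Agent.Lob5.Seam

/-! Construction of the seam structure of `Lob5.Seam`. -/

namespace Pool.Agent.Lob34

open Pool.Agent.Lob5 in
theorem oE_eq (i : ℕ) : oe i = oE i := rfl

open Pool.Agent.Lob5 in
theorem eE_eq (i : ℕ) : ee i = eE i := rfl

open Classical in
/-- The colouring that changes exactly at the loaded vertices. -/
noncomputable def col (ld : ℕ → Prop) (s : Bool) : ℕ → Bool
  | 0 => s
  | i + 1 => if ld i then !(col ld s i) else col ld s i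

theorem col_yes (ld : ℕ → Prop) (s : Bool) {i : ℕ} (h : ld i) :
    col ld s (i + 1) = !(col ld s i) := by
  simp [col, h]

theorem col_no (ld : ℕ → Prop) (s : Bool) {i : ℕ} (h : ¬ ld i) :
    col ld s (i + 1) = col ld s i := by
  simp [col, h]

theorem col_iff (ld : ℕ → Prop) (s : Bool) (i : ℕ) :
    ld i ↔ col ld s i ≠ col ld s (i + 1) := by
  by_cases h : ld i
  · simp [col_yes ld s h, h]
  · simp [col_no ld s h, h]

theorem col_not (ld : ℕ → Prop) (s : Bool) (i : ℕ) : col ld (!s) i = !(col ld s i) := by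
  induction i with
  | zero => rfl
  | succ n ih =>
    by_cases h : ld n
    · rw [col_yes ld _ h, col_yes ld _ h, ih]
    · rw [col_no ld _ h, col_no ld _ h, ih]

theorem S_not (c c' : ℕ → Bool) (h : ∀ i, c' i = !(c i)) (n : ℕ) : S c' n = - S c n := by
  induction n with
  | zero => simp
  | succ n ih =>
    rw [S_succ, S_succ, ih, h]
    rcases Bool.eq_false_or_eq_true (c (n + 1)) with h1 | h1 <;> rw [h1] <;> simp <;> ring

theorem exists_col (ld : ℕ → Prop) {k : ℕ} (hk : k % 2 = 1) :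
    ∃ s, S (col ld s) k < 0 := by
  rcases lt_trichotomy (S (col ld true) k) 0 with h | h | h
  · exact ⟨true, h⟩
  · unfold S at h
    omega
  · refine ⟨false, ?_⟩
    have := S_not (col ld true) (col ld false) (fun i => by
      have := col_not ld true i
      simpa using this) k
    omega

theorem J_rk {c : ℕ → Bool} {k q : ℕ} (rk : ℕ → ℕ)
    (hrk : ∀ e, 1 ≤ e → e ≤ k → (rk e : ℤ) = rank c k q e) {i : ℕ} (h1 : 1 ≤ i) (h2 : i < k) :
    J c k q i = (rk i : ℤ) + rk (i + 1) := by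
  unfold J
  rw [hrk i h1 (by omega), hrk (i + 1) (by omega) (by omega)]

theorem KB_iff (c : ℕ → Bool) {i : ℕ} (h : c i ≠ c (i + 1)) :
    (KB c i ↔ c (oE i) = false) ∧ (KG c i ↔ ¬ c (oE i) = false) := by
  unfold KB KG ET OF OT EF oE
  rcases Nat.mod_two_eq_zero_or_one i with a | a <;>
    rcases Bool.eq_false_or_eq_true (c i) with b | b <;>
    rcases Bool.eq_false_or_eq_true (c (i + 1)) with d | d <;>
    simp [a, b, d] at h ⊢

open Pool.Agent.Lob5 in
open Classical in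
/-- The construction. -/
theorem mkSeam {k : ℕ} (hk : k % 2 = 1) (h3 : 3 ≤ k) (ld al : ℕ → Prop)
    (hal : ∀ i, al i → ld i) (hld : ∀ i, ld i → 1 ≤ i ∧ i < k) (c al' : ℕ → Bool)
    (hc : ∀ i, ld i ↔ Ld c k i) (hal' : ∀ i, al' i = true ↔ al i) (hD : S c k < 0)
    (q mode : ℕ) (hq : q < k) (hql : q = 0 ∨ ld q) {tbb tbg tgb tgg : ℤ}
    (out : SeamOut c al' k q tbb tbg tgb tgg)
    (ht1 : (if mode = 1 ∨ mode = 2 ∨ mode = 5 then 1 else 0) ≤ tbb)
    (ht2 : (if mode = 4 then 1 else 2) ≤ tbg)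
    (ht3 : (if mode = 0 ∨ mode = 3 then 1 else 2) ≤ tgb) (ht4 : 2 ≤ tgg)
    (mle : mode ≤ 5)
    (m0 : mode = 0 → q = 0 ∨ (ld q ∧ ¬ al q ∧ c q = true))
    (m1 : mode = 1 → al q ∧ c q = true ∧ q % 2 = 1)
    (m2 : mode = 2 ∨ mode = 3 → al q ∧ c q = true ∧ q % 2 = 0)
    (m3 : mode = 3 → q + 1 < k ∧ ld (q + 1) ∧ ¬ al (q + 1))
    (m4 : mode = 4 → al q ∧ c q = false ∧ q % 2 = 1)
    (m5 : mode = 5 → al q ∧ c q = false ∧ q % 2 = 0) (m5h : mode = 5 → 5 ≤ k) :
    ∃ S' : Pool.Agent.Lob5.Seam k ld al, S'.q = q ∧ S'.mode = mode ∧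
      (∀ i, S'.bad i ↔ c i = false) ∧
      (∀ e, 1 ≤ e → e ≤ k → (S'.rk e : ℤ) = rank c k q e) ∧
      (S'.P : ℤ) = Bo c k ∧ (S'.Q : ℤ) = Be c k ∧ S'.h = k / 2 ∧
      S'.cutG = cutGd c k q ∧ S'.cutB = cutBd c k q := by
  have hqk : q ≤ k := by omega
  have b0 := zeroB c
  have bk := bd c (Nat.zero_le k)
  have hDS := hD
  unfold S at hDS
  have hr1 : ∀ e, 1 ≤ e → e ≤ k → 1 ≤ rank c k q e := by
    intro e he1 he2
    obtain ⟨r1, r2, r3, r4⟩ := rank_range c hqk he1 he2
    rcases Nat.mod_two_eq_zero_or_one e with a | a <;>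
      rcases Bool.eq_false_or_eq_true (c e) with b | b
    · have := r4 ⟨a, b⟩
      omega
    · exact (r3 ⟨a, b⟩).1
    · have := r2 ⟨a, b⟩
      omega
    · exact (r1 ⟨a, b⟩).1
  obtain ⟨rk, hrk⟩ : ∃ rk : ℕ → ℕ, ∀ e, 1 ≤ e → e ≤ k → (rk e : ℤ) = rank c k q e := by
    refine ⟨fun e => (rank c k q e).toNat, fun e he1 he2 => ?_⟩
    have := hr1 e he1 he2
    simp only
    omega
  have hJ : ∀ i, ld i → J c k q i = (rk i : ℤ) + rk (i + 1) := by
    intro i hi
    exact J_rk rk hrk (hld i hi).1 (hld i hi).2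
  obtain ⟨P, hP⟩ : ∃ P : ℕ, (P : ℤ) = Bo c k := ⟨(Bo c k).toNat, by omega⟩
  obtain ⟨Q, hQ⟩ : ∃ Q : ℕ, (Q : ℤ) = Be c k := ⟨(Be c k).toNat, by omega⟩
  have hal2 : ∀ i, ¬ al i → al' i = false := by
    intro i hi
    rcases Bool.eq_false_or_eq_true (al' i) with h | h
    · exact absurd ((hal' i).1 h) hi
    · exact h
  have KBi : ∀ i, ld i → (c (oe i) = false → KB c i) := by
    intro i hi h
    exact (KB_iff c ((hc i).1 hi).2.2).1.2 h
  have KGi : ∀ i, ld i → (¬ c (oe i) = false → KG c i) := by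
    intro i hi h
    exact (KB_iff c ((hc i).1 hi).2.2).2.2 h
  have unl : ∀ i, 1 ≤ i → i < k → ¬ ld i → c i = c (i + 1) := by
    intro i h1 h2 h
    by_contra hcon
    exact h ((hc i).2 ⟨h1, h2, hcon⟩)
  have uq : ∀ i, 1 ≤ i → ¬ ld i → i ≠ q := by
    rintro i h1 h rfl
    rcases hql with h4 | h4
    · omega
    · exact h h4
  have ctrue : ∀ i, ¬ c i = false → c i = true := by
    intro i h
    rcases Bool.eq_false_or_eq_true (c i) with h' | h'
    · exact h'
    · exact absurd h' h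
  have low : ∀ z, (sg k ld al rk (k / 2) q z : ℤ) = lowc c al' k q z := by
    intro z
    unfold sg lowc
    congr 2
    ext i
    simp only [Finset.mem_filter, Finset.mem_range, LowP]
    constructor
    · rintro ⟨a, b, d, e, f, g⟩
      refine ⟨a, (hc i).1 b, hal2 i d, e, f, ?_⟩
      rw [hJ i b]
      exact_mod_cast g
    · rintro ⟨a, b, d, e, f, g⟩
      have hb := (hc i).2 b
      refine ⟨a, hb, ?_, e, f, ?_⟩
      · intro hh
        rw [(hal' i).2 hh] at d
        cases d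
      · rw [hJ i hb] at g
        exact_mod_cast g
  have lastX : 1 ≤ q → ∀ X : ℕ → ℤ, W X k q q = X k - X q + X (q - 1) := by
    intro _ X
    unfold W
    rw [if_neg (lt_irrefl _)]
  have firstX : ∀ X : ℕ → ℤ, W X k q (q + 1) = 0 := by
    intro X
    unfold W
    rw [if_pos (by omega)]
    simp
  have ldq : 1 ≤ q → ld q := by
    intro h
    rcases hql with h4 | h4
    · omega
    · exact h4
  have cdiff : ∀ i, ld i → c i = true → c (i + 1) = false := by
    intro i hi h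
    have h5 := ((hc i).1 hi).2.2
    rcases Bool.eq_false_or_eq_true (c (i + 1)) with h' | h'
    · rw [h, h'] at h5
      exact absurd rfl h5
    · exact h'
  have cdiff' : ∀ i, ld i → c i = false → c (i + 1) = true := by
    intro i hi h
    have h5 := ((hc i).1 hi).2.2
    rcases Bool.eq_false_or_eq_true (c (i + 1)) with h' | h'
    · exact h'
    · rw [h, h'] at h5
      exact absurd rfl h5
  -- ranks at the seam
  have rOT : ld q → c q = true → q % 2 = 1 → rk q = k / 2 + 1 ∧ rk (q + 1) = Q ∧ 1 ≤ Q := by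
    intro h h4 h5
    have hq1 := (hld q h).1
    have h6 := cdiff q h h4
    have s1 := st_OT c hq1 ⟨h5, h4, h6⟩
    have e1 := hrk q hq1 (by omega)
    have e2 := hrk (q + 1) (by omega) (by omega)
    have h7 : ¬ (q + 1) % 2 = 1 := by omega
    simp only [rank, h5, h4, h6, h7, lastX hq1, firstX, if_true, if_false,
      Bool.false_eq_true, Go] at e1 e2
    have e3 := hr1 (q + 1) (by omega) (by omega)
    rw [← hrk (q + 1) (by omega) (by omega)] at e3
    omega
  have rET : ld q → c q = true → q % 2 = 0 → rk q = k / 2 ∧ rk (q + 1) = P := by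
    intro h h4 h5
    have hq1 := (hld q h).1
    have h6 := cdiff q h h4
    have s1 := st_ET c hq1 ⟨h5, h4, h6⟩
    have e1 := hrk q hq1 (by omega)
    have e2 := hrk (q + 1) (by omega) (by omega)
    have h7 : (q + 1) % 2 = 1 := by omega
    have h8 : ¬ q % 2 = 1 := by omega
    simp only [rank, h8, h4, h6, h7, lastX hq1, firstX, if_true, if_false,
      Bool.false_eq_true, Ge] at e1 e2
    omega
  have rOF : ld q → c q = false → q % 2 = 1 → rk q = 1 ∧ rk (q + 1) = Q + 1 := by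
    intro h h4 h5
    have hq1 := (hld q h).1
    have h6 := cdiff' q h h4
    have s1 := st_OF c hq1 ⟨h5, h4, h6⟩
    have e1 := hrk q hq1 (by omega)
    have e2 := hrk (q + 1) (by omega) (by omega)
    have h7 : ¬ (q + 1) % 2 = 1 := by omega
    simp only [rank, h5, h4, h6, h7, lastX hq1, firstX, if_true, if_false,
      Bool.false_eq_true] at e1 e2
    omega
  have rEF : ld q → c q = false → q % 2 = 0 → rk q = 1 ∧ rk (q + 1) = P + 1 := by
    intro h h4 h5
    have hq1 := (hld q h).1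
    have h6 := cdiff' q h h4
    have s1 := st_EF c hq1 ⟨h5, h4, h6⟩
    have e1 := hrk q hq1 (by omega)
    have e2 := hrk (q + 1) (by omega) (by omega)
    have h7 : (q + 1) % 2 = 1 := by omega
    have h8 : ¬ q % 2 = 1 := by omega
    simp only [rank, h8, h4, h6, h7, lastX hq1, firstX, if_true, if_false,
      Bool.false_eq_true] at e1 e2
    omega
  refine ⟨{
    h := k / 2
    P := P
    Q := Q
    q := q
    mode := mode
    bad := fun i => c i = false
    rk := rk
    cutG := cutGd c k q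
    cutB := cutBd c k q
    al_ld := hal
    ld_pos := fun i hi => (hld i hi).1
    ld_lt := fun i hi => (hld i hi).2
    hk := by omega
    h1 := by omega
    P1 := by omega
    Ph := by omega
    Qh := by omega
    PQ := by omega
    hq := hq
    same := ?_
    diff := ?_
    rk_ob := ?_
    rk_og := ?_
    rk_eb := ?_
    rk_eg := ?_
    rk_inj := ?_
    cmp := ?_
    cutG_le := ?_
    cutG_mono := cutGd_mono c k q
    cutG_lt := ?_
    cutG_gt := ?_
    cutG_one := ?_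
    cutB_le := ?_
    cutB_lt := ?_
    cutB_gt := ?_
    mode_le := mle
    m0 := ?_
    m1 := ?_
    m2 := ?_
    m3 := ?_
    m4 := ?_
    m5 := ?_
    m5h := fun h => by have := m5h h; omega
    big := ?_
    lowb := ?_
    lowg := ?_
    sh := ?_
    tbb := ?_
    tbg := ?_
    tgb := ?_
    tgg := ?_ }, rfl, rfl, fun i => Iff.rfl, hrk, hP, hQ, rfl, rfl, rfl⟩
  -- same
  · intro i h1 h2 h4
    rw [unl i h1 h2 h4]
  -- diff
  · intro i hi
    constructor
    · intro h h'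
      rw [cdiff' i hi h] at h'
      cases h'
    · intro h
      by_contra h'
      exact h (cdiff i hi (ctrue i h'))
  -- ranges
  · intro e h1 h2 h4 h5
    have := (rank_range c hqk h1 h2).1 ⟨h4, h5⟩
    rw [← hrk e h1 h2, ← hP] at this
    omega
  · intro e h1 h2 h4 h5
    have := (rank_range c hqk h1 h2).2.1 ⟨h4, ctrue e h5⟩
    rw [← hrk e h1 h2, ← hP] at this
    omega
  · intro e h1 h2 h4 h5
    have := (rank_range c hqk h1 h2).2.2.1 ⟨h4, h5⟩
    rw [← hrk e h1 h2, ← hQ] at this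
    omega
  · intro e h1 h2 h4 h5
    have := (rank_range c hqk h1 h2).2.2.2 ⟨h4, ctrue e h5⟩
    rw [← hrk e h1 h2, ← hQ] at this
    omega
  -- injectivity
  · intro e f h1 h2 h4 h5 h6 h7
    refine rank_inj c hqk h1 h2 h4 h5 h6 ?_
    rw [← hrk e h1 h2, ← hrk f h4 h5, h7]
  -- cmp
  · intro i j h1 h2 h4 h5 h6 h7 h8
    obtain ⟨m1, m2, m3, m4, m5, m6⟩ := oE_mem h1 h2
    obtain ⟨n1, n2, n3, n4, n5, n6⟩ := oE_mem h5 h6
    have hcc : c i = c j := by
      rcases Bool.eq_false_or_eq_true (c i) with a | a <;>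
        rcases Bool.eq_false_or_eq_true (c j) with b | b <;> simp_all
    have := cmpR c hqk h1 h2 (uq i h1 h4) h5 h6 (uq j h5 h7) (unl i h1 h2 h4) (unl j h5 h6 h7) hcc
    rw [← hrk _ m1 m2, ← hrk _ m4 m5, ← hrk _ n1 n2, ← hrk _ n4 n5] at this
    rw [oE_eq, eE_eq, oE_eq, eE_eq]
    omega
  -- cutG
  · intro r
    have := cutGd_le c k q r
    unfold Go at this
    omega
  · intro r h1 h2 i h4 h5 h6 h7 h8
    obtain ⟨m1, m2, m3, m4, m5, m6⟩ := oE_mem h4 h5
    rw [oE_eq, eE_eq] at *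
    have := cutGd_lt c r hqk h4 h5 (uq i h4 h6) (unl i h4 h5 h6) (ctrue i h7)
      (by rw [← hrk _ m4 m5]; exact_mod_cast h8)
    rw [← hrk _ m1 m2] at this
    omega
  · intro r h1 h2 i h4 h5 h6 h7 h8
    obtain ⟨m1, m2, m3, m4, m5, m6⟩ := oE_mem h4 h5
    rw [oE_eq, eE_eq] at *
    have := cutGd_gt c r hqk h4 h5 (uq i h4 h6) (unl i h4 h5 h6) (ctrue i h7)
      (by rw [← hrk _ m4 m5]; exact_mod_cast h8)
    rw [← hrk _ m1 m2] at this
    omega
  · intro hm r h1 h2
    obtain ⟨w1, w2, w3⟩ := m5 hm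
    have hlq := hal q w1
    have hq1 := (hld q hlq).1
    have h6 := cdiff' q hlq w2
    have : q + 1 ∈ (Finset.Icc 1 k).filter (fun g => goodO c g ∧
        (before (goodE c) k q g : ℤ) + Be c k + 1 ≤ r) := by
      rw [Finset.mem_filter, Finset.mem_Icc]
      refine ⟨⟨by omega, by omega⟩, ⟨by omega, h6⟩, ?_⟩
      rw [before_eq _ hqk (by omega) (by omega), firstX]
      omega
    have h7 : 0 < cutGd c k q r := Finset.card_pos.2 ⟨_, this⟩
    omega
  -- cutB
  · intro r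
    have := cutBd_le c k q r
    omega
  · intro r h1 h2 i h4 h5 h6 h7 h8
    obtain ⟨m1, m2, m3, m4, m5, m6⟩ := oE_mem h4 h5
    rw [oE_eq, eE_eq] at *
    have := cutBd_lt c r hqk h4 h5 (uq i h4 h6) (unl i h4 h5 h6) h7
      (by rw [← hrk _ m4 m5]; exact_mod_cast h8)
    rw [← hrk _ m1 m2] at this
    omega
  · intro r h1 h2 i h4 h5 h6 h7 h8
    obtain ⟨m1, m2, m3, m4, m5, m6⟩ := oE_mem h4 h5
    rw [oE_eq, eE_eq] at *
    have := cutBd_gt c r hqk h4 h5 (uq i h4 h6) (unl i h4 h5 h6) h7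
      (by rw [← hrk _ m4 m5]; exact_mod_cast h8)
    rw [← hrk _ m1 m2] at this
    omega
  -- modes
  · intro hm
    rcases m0 hm with h | ⟨w1, w2, w3⟩
    · exact Or.inl h
    · right
      refine ⟨w1, w2, by rw [w3]; decide, fun h => ?_, fun h => ?_⟩
      · have := rOT w1 w3 h
        exact ⟨this.1, this.2.1⟩
      · exact rET w1 w3 h
  · intro hm
    obtain ⟨w1, w2, w3⟩ := m1 hm
    obtain ⟨x1, x2, x3⟩ := rOT (hal q w1) w2 w3
    exact ⟨w1, by rw [w2]; decide, w3, x1, x2, x3⟩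
  · intro hm
    obtain ⟨w1, w2, w3⟩ := m2 hm
    obtain ⟨x1, x2⟩ := rET (hal q w1) w2 w3
    exact ⟨w1, by rw [w2]; decide, w3, x1, x2⟩
  · intro hm
    obtain ⟨w1, w2, w3⟩ := m3 hm
    obtain ⟨v1, v2, v3⟩ := m2 (Or.inr hm)
    refine ⟨w1, w2, w3, ?_⟩
    have hlq := hal q v1
    have h6 := cdiff q hlq v2
    have h7 := cdiff' (q + 1) w2 h6
    have e2 := hrk (q + 2) (by omega) (by omega)
    have h8 : ¬ (q + 2) % 2 = 1 := by omega
    have h9 : c (q + 2) = true := h7
    have e3 : Ge c (q + 2 - 1) = Ge c q := by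
      have s1 := stepFo c h6 (by omega)
      have e4 : q + 2 - 1 = q + 1 := by omega
      rw [e4]
      unfold Ge
      omega
    have e5 : W (Ge c) k q (q + 2) = 0 := by
      unfold W
      rw [if_pos (by omega), e3]
      ring
    simp only [rank, h8, h9, if_true, if_false, e5] at e2
    omega
  · intro hm
    obtain ⟨w1, w2, w3⟩ := m4 hm
    obtain ⟨x1, x2⟩ := rOF (hal q w1) w2 w3
    exact ⟨w1, w2, w3, x1, x2⟩
  · intro hm
    obtain ⟨w1, w2, w3⟩ := m5 hm
    obtain ⟨x1, x2⟩ := rEF (hal q w1) w2 w3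
    exact ⟨w1, w2, w3, x1, x2⟩
  -- big
  · intro i h1 h2 h4
    have := out.high i ((hc i).1 h1) h2 (by
      rcases h4 with h4 | h4
      · exact Or.inr ((hal' i).2 h4)
      · exact Or.inl (ctrue i h4))
    rw [hJ i h1] at this
    omega
  · intro i h1 h2 h4
    have := out.lb i ((hc i).1 h1) h2 (KBi i h1 h4)
    rw [hJ i h1] at this
    omega
  · intro i h1 h2 h4
    have := out.lg i ((hc i).1 h1) h2 (KGi i h1 h4)
    rw [hJ i h1] at this
    omega
  -- sh
  · intro a x h1 h2 h4 h5 h6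
    have := out.hh a x ((hc a).1 (hal a h1)) ((hal' a).2 h1) h2 ((hc x).1 h5) (hal2 x h6)
      (KBi a (hal a h1) h4)
    rw [hJ a (hal a h1), hJ x h5] at this
    omega
  · intro a x h1 h2 h4 h5 h6 h7
    have := out.bb a x ((hc a).1 (hal a h1)) ((hal' a).2 h1) h2 ((hc x).1 h5) (hal2 x h6)
      (KBi a (hal a h1) h4) (KBi x h5 h7)
    rw [hJ a (hal a h1), hJ x h5] at this
    split_ifs at * <;> omega
  · intro a x h1 h2 h4 h5 h6 h7
    have := out.bg a x ((hc a).1 (hal a h1)) ((hal' a).2 h1) h2 ((hc x).1 h5) (hal2 x h6)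
      (KBi a (hal a h1) h4) (KGi x h5 h7)
    rw [hJ a (hal a h1), hJ x h5] at this
    split_ifs at * <;> omega
  · intro a x h1 h2 h4 h5 h6 h7
    have := out.gb a x ((hc a).1 (hal a h1)) ((hal' a).2 h1) h2 ((hc x).1 h5) (hal2 x h6)
      (KGi a (hal a h1) h4) (KBi x h5 h7)
    rw [hJ a (hal a h1), hJ x h5, ← low x] at this
    split_ifs at * <;> omega
  · intro a x h1 h2 h4 h5 h6 h7
    have := out.gg a x ((hc a).1 (hal a h1)) ((hal' a).2 h1) h2 ((hc x).1 h5) (hal2 x h6)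
      (KGi a (hal a h1) h4) (KGi x h5 h7)
    rw [hJ a (hal a h1), hJ x h5] at this
    omega

/-- The kind of the seam, with the facts about the walk. -/
inductive Kd (c al : ℕ → Bool) (k q : ℕ) : ℕ → Prop
  | z : q = 0 → (∀ i, Ld c k i → (c i = true ∨ al i = true) → S c k ≤ Fz c i) → Kd c al k q 0
  | n1 : OT c q → al q = false → MinF c al k q (S c q) → Kd c al k q 0
  | n2 : ET c q → al q = false → MinF c al k q (S c q) → Kd c al k q 0
  | k1 : OT c q → al q = true → MinF c al k q (S c q) → Kd c al k q 1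
  | k2 : ET c q → al q = true → q + 1 < k → c (q + 2) = false → MinF c al k q (S c q) →
      Kd c al k q 2
  | k2ii : ET c q → al q = true → Ld c k (q + 1) → al (q + 1) = false →
      MinF c al k q (S c q) → Kd c al k q 3
  | k3 : OF c q → al q = true → MinF c al k q (S c q + 1) →
      (S c q + 2 < S c k ∨ 2 ≤ q ∧ ET c (q - 1) ∧ al (q - 1) = true) → Kd c al k q 4
  | k4 : EF c q → al q = true → MinF c al k q (S c q + 4) → Kd c al k q 5

open Pool.Agent.Lob5 in
/-- The description of a seam by the walk of the colouring `c`. -/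
structure SeamW {k : ℕ} {ld al : ℕ → Prop} (s : Pool.Agent.Lob5.Seam k ld al)
    (c al' : ℕ → Bool) : Prop where
  al_iff : ∀ i, al' i = true ↔ al i
  ld_iff : ∀ i, ld i ↔ Ld c k i
  neg : S c k < 0
  bad : ∀ i, s.bad i ↔ c i = false
  rk : ∀ e, 1 ≤ e → e ≤ k → (s.rk e : ℤ) = rank c k s.q e
  P : (s.P : ℤ) = Bo c k
  Q : (s.Q : ℤ) = Be c k
  h : s.h = k / 2
  cutG : s.cutG = cutGd c k s.q
  cutB : s.cutB = cutBd c k s.q
  kd : Kd c al' k s.q s.mode

open Pool.Agent.Lob5 in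
open Classical in
/-- **The seam lemma**, with the description by the walk. -/
theorem exists_seamW {k : ℕ} (hk : k % 2 = 1) (h3 : 3 ≤ k) (ld al : ℕ → Prop)
    (hal : ∀ i, al i → ld i) (hld : ∀ i, ld i → 1 ≤ i ∧ i < k) :
    ∃ (s : Pool.Agent.Lob5.Seam k ld al) (c al' : ℕ → Bool), SeamW s c al' := by
  obtain ⟨s, hD⟩ := exists_col ld hk
  obtain ⟨c, hcc⟩ : ∃ c, c = col ld s := ⟨_, rfl⟩
  rw [← hcc] at hD
  have hc : ∀ i, ld i ↔ Ld c k i := by
    intro i
    have h := col_iff ld s i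
    rw [← hcc] at h
    constructor
    · intro hi
      exact ⟨(hld i hi).1, (hld i hi).2, h.1 hi⟩
    · intro hi
      exact h.2 hi.2.2
  obtain ⟨al', hal'⟩ : ∃ al' : ℕ → Bool, ∀ i, al' i = true ↔ al i :=
    ⟨fun i => decide (al i), fun i => by simp⟩
  have hno : ∀ i, al' i = false → ¬ al i := by
    intro i h h'
    rw [(hal' i).2 h'] at h
    cases h
  have fin : ∀ q mode, Kd c al' k q mode →
      (∃ S' : Pool.Agent.Lob5.Seam k ld al, S'.q = q ∧ S'.mode = mode ∧
      (∀ i, S'.bad i ↔ c i = false) ∧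
      (∀ e, 1 ≤ e → e ≤ k → (S'.rk e : ℤ) = rank c k q e) ∧
      (S'.P : ℤ) = Bo c k ∧ (S'.Q : ℤ) = Be c k ∧ S'.h = k / 2 ∧
      S'.cutG = cutGd c k q ∧ S'.cutB = cutBd c k q) →
      ∃ (s : Pool.Agent.Lob5.Seam k ld al) (c al' : ℕ → Bool), SeamW s c al' := by
    rintro q mode hkd ⟨S', rfl, rfl, e3, e4, e5, e6, e7, e8, e9⟩
    exact ⟨S', c, al', ⟨hal', hc, hD, e3, e4, e5, e6, e7, e8, e9, hkd⟩⟩
  obtain ⟨q, hs⟩ := seam c al' hk hD
  cases hs with
  | q0 hz out =>
    refine fin 0 0 (Kd.z rfl hz) ?_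
    exact mkSeam hk h3 ld al hal hld c al' hc hal' hD 0 0 (by omega) (Or.inl rfl) out
      (by simp) (by simp) (by simp) (by simp) (by omega) (fun _ => Or.inl rfl)
      (by omega) (by omega) (by omega) (by omega) (by omega) (by omega)
  | N1 h1 h2 ht ha M out =>
    have hl : ld q := (hc q).2 ⟨h1, h2, by rw [ht.2.1, ht.2.2]; decide⟩
    refine fin q 0 (Kd.n1 ht ha M) ?_
    exact mkSeam hk h3 ld al hal hld c al' hc hal' hD q 0 h2 (Or.inr hl) out
      (by simp) (by simp) (by simp) (by simp) (by omega)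
      (fun _ => Or.inr ⟨hl, hno q ha, ht.2.1⟩)
      (by omega) (by omega) (by omega) (by omega) (by omega) (by omega)
  | K1 h1 h2 ht ha M out =>
    have hl : ld q := (hc q).2 ⟨h1, h2, by rw [ht.2.1, ht.2.2]; decide⟩
    refine fin q 1 (Kd.k1 ht ha M) ?_
    exact mkSeam hk h3 ld al hal hld c al' hc hal' hD q 1 h2 (Or.inr hl) out
      (by simp) (by simp) (by simp) (by simp) (by omega) (by omega)
      (fun _ => ⟨(hal' q).1 ha, ht.2.1, ht.1⟩) (by omega) (by omega) (by omega) (by omega) (by omega)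
  | N2 h1 h2 ht ha M out =>
    have hl : ld q := (hc q).2 ⟨h1, h2, by rw [ht.2.1, ht.2.2]; decide⟩
    refine fin q 0 (Kd.n2 ht ha M) ?_
    exact mkSeam hk h3 ld al hal hld c al' hc hal' hD q 0 h2 (Or.inr hl) out
      (by simp) (by simp) (by simp) (by simp) (by omega)
      (fun _ => Or.inr ⟨hl, hno q ha, ht.2.1⟩)
      (by omega) (by omega) (by omega) (by omega) (by omega) (by omega)
  | K2ii h1 h2 ht ha hl1 ha1 M out =>
    have hl : ld q := (hc q).2 ⟨h1, h2, by rw [ht.2.1, ht.2.2]; decide⟩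
    refine fin q 3 (Kd.k2ii ht ha hl1 ha1 M) ?_
    exact mkSeam hk h3 ld al hal hld c al' hc hal' hD q 3 h2 (Or.inr hl) out
      (by simp) (by simp) (by simp) (by simp) (by omega) (by omega) (by omega)
      (fun _ => ⟨(hal' q).1 ha, ht.2.1, ht.1⟩)
      (fun _ => ⟨hl1.2.1, (hc _).2 hl1, hno _ ha1⟩) (by omega) (by omega) (by omega)
  | K2 h1 h2 ht ha hq1 hq2 M out =>
    have hl : ld q := (hc q).2 ⟨h1, h2, by rw [ht.2.1, ht.2.2]; decide⟩
    refine fin q 2 (Kd.k2 ht ha hq1 hq2 M) ?_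
    exact mkSeam hk h3 ld al hal hld c al' hc hal' hD q 2 h2 (Or.inr hl) out
      (by simp) (by simp) (by simp) (by simp) (by omega) (by omega) (by omega)
      (fun _ => ⟨(hal' q).1 ha, ht.2.1, ht.1⟩) (by omega) (by omega) (by omega) (by omega)
  | K3 h1 h2 ht ha M h5 out =>
    have hl : ld q := (hc q).2 ⟨h1, h2, by rw [ht.2.1, ht.2.2]; decide⟩
    refine fin q 4 (Kd.k3 ht ha M h5) ?_
    exact mkSeam hk h3 ld al hal hld c al' hc hal' hD q 4 h2 (Or.inr hl) out
      (by simp) (by simp) (by simp) (by simp) (by omega) (by omega) (by omega) (by omega)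
      (by omega) (fun _ => ⟨(hal' q).1 ha, ht.2.1, ht.1⟩) (by omega) (by omega)
  | K4 h1 h2 ht ha M out =>
    have hl : ld q := (hc q).2 ⟨h1, h2, by rw [ht.2.1, ht.2.2]; decide⟩
    refine fin q 5 (Kd.k4 ht ha M) ?_
    exact mkSeam hk h3 ld al hal hld c al' hc hal' hD q 5 h2 (Or.inr hl) out
      (by simp) (by simp) (by simp) (by simp) (by omega) (by omega) (by omega) (by omega)
      (by omega) (by omega) (fun _ => ⟨(hal' q).1 ha, ht.2.1, ht.1⟩) (fun _ => by
        have h3 := M.top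
        have h4 := bd c (Nat.zero_le q)
        have h5 := zeroB c
        unfold S at h3 hD
        omega)

open Pool.Agent.Lob5 in
/-- **The seam lemma.** -/
theorem exists_seam {k : ℕ} (hk : k % 2 = 1) (h3 : 3 ≤ k) (ld al : ℕ → Prop)
    (hal : ∀ i, al i → ld i) (hld : ∀ i, ld i → 1 ≤ i ∧ i < k) :
    Nonempty (Pool.Agent.Lob5.Seam k ld al) := by
  obtain ⟨s, _⟩ := exists_seamW hk h3 ld al hal hld
  exact ⟨s⟩

end Pool.Agent.Lob34
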