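import Pool.Agent.Lob34.Facts

/-! Comparison with the seam vertex, for the pure class, `k` even. -/

namespace Pool.Agent.Lob34

theorem L6a_OF_qz (c : ℕ → Bool) {k q z : ℕ} (hk : k % 2 = 1)
    (hf : 0 < q) (h0 : q < z) (hl : z < k) (lz : c z ≠ c (z + 1)) (hq : OF c q) :
    J c k q q + 1 ≤ J c k q z + ((k / 2 : ℕ) : ℤ) := by
  rcases loaded_cases c lz with hz | hz | hz | hz
  · have sz := st_OT c (by omega) hz
    have sq := st_OF c (by omega) hq
    rw [(JOT c (k := k) (q := q) (by omega) hz).1 (by omega), (JOF c (k := k) (q := q) (by omega) hq).2.2 rfl]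
    have pz := hz.1
    have pq := hq.1
    have b0 := zeroB c
    have e0 := bo1 c (show 0 ≤ q - 1 by omega)
    have e1 := be2 c (show q + 1 ≤ z by omega)
    have e2 := bo1 c (show z + 1 ≤ k by omega)
    omega
  · have sz := st_ET c (by omega) hz
    have sq := st_OF c (by omega) hq
    rw [(JET c (k := k) (q := q) (by omega) hz).1 (by omega), (JOF c (k := k) (q := q) (by omega) hq).2.2 rfl]
    have pz := hz.1
    have pq := hq.1
    have b0 := zeroB c
    have e0 := bo1 c (show 0 ≤ q - 1 by omega)
    have e1 := be2 c (show q + 1 ≤ z by omega)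
    have e2 := bo1 c (show z + 1 ≤ k by omega)
    omega
  · have sz := st_OF c (by omega) hz
    have sq := st_OF c (by omega) hq
    rw [(JOF c (k := k) (q := q) (by omega) hz).1 (by omega), (JOF c (k := k) (q := q) (by omega) hq).2.2 rfl]
    have pz := hz.1
    have pq := hq.1
    have b0 := zeroB c
    have e0 := bo1 c (show 0 ≤ q - 1 by omega)
    have e1 := be2 c (show q + 1 ≤ z by omega)
    have e2 := bo1 c (show z + 1 ≤ k by omega)
    omega
  · have sz := st_EF c (by omega) hz
    have sq := st_OF c (by omega) hq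
    rw [(JEF c (k := k) (q := q) (by omega) hz).1 (by omega), (JOF c (k := k) (q := q) (by omega) hq).2.2 rfl]
    have pz := hz.1
    have pq := hq.1
    have b0 := zeroB c
    have e0 := bo1 c (show 0 ≤ q - 1 by omega)
    have e1 := be2 c (show q + 1 ≤ z by omega)
    have e2 := bo1 c (show z + 1 ≤ k by omega)
    omega

theorem L6a_OF_zq (c : ℕ → Bool) {k q z : ℕ} (hk : k % 2 = 1)
    (hf : 0 < z) (h0 : z < q) (hl : q < k) (lz : c z ≠ c (z + 1)) (hq : OF c q) :
    J c k q q + 1 ≤ J c k q z + ((k / 2 : ℕ) : ℤ) := by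
  rcases loaded_cases c lz with hz | hz | hz | hz
  · have sz := st_OT c (by omega) hz
    have sq := st_OF c (by omega) hq
    rw [(JOT c (k := k) (q := q) (by omega) hz).2.1 (by omega), (JOF c (k := k) (q := q) (by omega) hq).2.2 rfl]
    have pz := hz.1
    have pq := hq.1
    have b0 := zeroB c
    have e0 := be2 c (show 0 ≤ z by omega)
    have e1 := bo1 c (show z ≤ q - 1 by omega)
    have e2 := be2 c (show q + 1 ≤ k by omega)
    omega
  · have sz := st_ET c (by omega) hz
    have sq := st_OF c (by omega) hq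
    rw [(JET c (k := k) (q := q) (by omega) hz).2.1 (by omega), (JOF c (k := k) (q := q) (by omega) hq).2.2 rfl]
    have pz := hz.1
    have pq := hq.1
    have b0 := zeroB c
    have e0 := be2 c (show 0 ≤ z - 1 by omega)
    have e1 := bo1 c (show z + 1 ≤ q by omega)
    have e2 := be2 c (show q + 1 ≤ k by omega)
    omega
  · have sz := st_OF c (by omega) hz
    have sq := st_OF c (by omega) hq
    rw [(JOF c (k := k) (q := q) (by omega) hz).2.1 (by omega), (JOF c (k := k) (q := q) (by omega) hq).2.2 rfl]
    have pz := hz.1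
    have pq := hq.1
    have b0 := zeroB c
    have e0 := be2 c (show 0 ≤ z by omega)
    have e1 := bo1 c (show z ≤ q - 1 by omega)
    have e2 := be2 c (show q + 1 ≤ k by omega)
    omega
  · have sz := st_EF c (by omega) hz
    have sq := st_OF c (by omega) hq
    rw [(JEF c (k := k) (q := q) (by omega) hz).2.1 (by omega), (JOF c (k := k) (q := q) (by omega) hq).2.2 rfl]
    have pz := hz.1
    have pq := hq.1
    have b0 := zeroB c
    have e0 := be2 c (show 0 ≤ z by omega)
    have e1 := bo2 c (show z + 1 ≤ q by omega)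
    have e2 := bo1 c (show z ≤ q - 1 by omega)
    have e3 := be2 c (show q + 1 ≤ k by omega)
    omega

theorem L6a_EF_qz (c : ℕ → Bool) {k q z : ℕ} (hk : k % 2 = 1)
    (hf : 0 < q) (h0 : q < z) (hl : z < k) (lz : c z ≠ c (z + 1)) (hq : EF c q) :
    J c k q q + 1 ≤ J c k q z + ((k / 2 : ℕ) : ℤ) := by
  rcases loaded_cases c lz with hz | hz | hz | hz
  · have sz := st_OT c (by omega) hz
    have sq := st_EF c (by omega) hq
    rw [(JOT c (k := k) (q := q) (by omega) hz).1 (by omega), (JEF c (k := k) (q := q) (by omega) hq).2.2 rfl]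
    have pz := hz.1
    have pq := hq.1
    have b0 := zeroB c
    have e0 := be1 c (show 0 ≤ q - 1 by omega)
    have e1 := bo2 c (show q + 1 ≤ z by omega)
    have e2 := be1 c (show z + 1 ≤ k by omega)
    omega
  · have sz := st_ET c (by omega) hz
    have sq := st_EF c (by omega) hq
    rw [(JET c (k := k) (q := q) (by omega) hz).1 (by omega), (JEF c (k := k) (q := q) (by omega) hq).2.2 rfl]
    have pz := hz.1
    have pq := hq.1
    have b0 := zeroB c
    have e0 := be1 c (show 0 ≤ q - 1 by omega)
    have e1 := bo2 c (show q + 1 ≤ z by omega)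
    have e2 := be1 c (show z + 1 ≤ k by omega)
    omega
  · have sz := st_OF c (by omega) hz
    have sq := st_EF c (by omega) hq
    rw [(JOF c (k := k) (q := q) (by omega) hz).1 (by omega), (JEF c (k := k) (q := q) (by omega) hq).2.2 rfl]
    have pz := hz.1
    have pq := hq.1
    have b0 := zeroB c
    have e0 := be1 c (show 0 ≤ q - 1 by omega)
    have e1 := bo2 c (show q + 1 ≤ z by omega)
    have e2 := bo1 c (show q ≤ z - 1 by omega)
    have e3 := be1 c (show z + 1 ≤ k by omega)
    omega
  · have sz := st_EF c (by omega) hz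
    have sq := st_EF c (by omega) hq
    rw [(JEF c (k := k) (q := q) (by omega) hz).1 (by omega), (JEF c (k := k) (q := q) (by omega) hq).2.2 rfl]
    have pz := hz.1
    have pq := hq.1
    have b0 := zeroB c
    have e0 := be1 c (show 0 ≤ q - 1 by omega)
    have e1 := bo2 c (show q + 1 ≤ z by omega)
    have e2 := be1 c (show z + 1 ≤ k by omega)
    omega

theorem L6a_EF_zq (c : ℕ → Bool) {k q z : ℕ} (hk : k % 2 = 1)
    (hf : 0 < z) (h0 : z < q) (hl : q < k) (lz : c z ≠ c (z + 1)) (hq : EF c q) :
    J c k q q + 1 ≤ J c k q z + ((k / 2 : ℕ) : ℤ) := by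
  rcases loaded_cases c lz with hz | hz | hz | hz
  · have sz := st_OT c (by omega) hz
    have sq := st_EF c (by omega) hq
    rw [(JOT c (k := k) (q := q) (by omega) hz).2.1 (by omega), (JEF c (k := k) (q := q) (by omega) hq).2.2 rfl]
    have pz := hz.1
    have pq := hq.1
    have b0 := zeroB c
    have e0 := bo2 c (show 0 ≤ z - 1 by omega)
    have e1 := be1 c (show z + 1 ≤ q by omega)
    have e2 := bo2 c (show q + 1 ≤ k by omega)
    omega
  · have sz := st_ET c (by omega) hz
    have sq := st_EF c (by omega) hq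
    rw [(JET c (k := k) (q := q) (by omega) hz).2.1 (by omega), (JEF c (k := k) (q := q) (by omega) hq).2.2 rfl]
    have pz := hz.1
    have pq := hq.1
    have b0 := zeroB c
    have e0 := bo2 c (show 0 ≤ z by omega)
    have e1 := be1 c (show z ≤ q - 1 by omega)
    have e2 := bo2 c (show q + 1 ≤ k by omega)
    omega
  · have sz := st_OF c (by omega) hz
    have sq := st_EF c (by omega) hq
    rw [(JOF c (k := k) (q := q) (by omega) hz).2.1 (by omega), (JEF c (k := k) (q := q) (by omega) hq).2.2 rfl]
    have pz := hz.1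
    have pq := hq.1
    have b0 := zeroB c
    have e0 := bo2 c (show 0 ≤ z by omega)
    have e1 := be2 c (show z + 1 ≤ q by omega)
    have e2 := be1 c (show z ≤ q - 1 by omega)
    have e3 := bo2 c (show q + 1 ≤ k by omega)
    omega
  · have sz := st_EF c (by omega) hz
    have sq := st_EF c (by omega) hq
    rw [(JEF c (k := k) (q := q) (by omega) hz).2.1 (by omega), (JEF c (k := k) (q := q) (by omega) hq).2.2 rfl]
    have pz := hz.1
    have pq := hq.1
    have b0 := zeroB c
    have e0 := bo2 c (show 0 ≤ z by omega)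
    have e1 := be1 c (show z ≤ q - 1 by omega)
    have e2 := bo2 c (show q + 1 ≤ k by omega)
    omega

theorem L6b_OT_qz (c : ℕ → Bool) {k q z : ℕ} (hk : k % 2 = 1)
    (hf : 0 < q) (h0 : q < z) (hl : z < k) (lz : c z ≠ c (z + 1)) (hq : OT c q)
    (hD : S c k < 0) (fD : S c q < S c k) (gz : c z = false)
    (nb : Bo c z - Bo c q = ((z + 1) / 2 : ℕ) - ((q + 1) / 2 : ℕ)) (nn : Be c z - Be c q = (z / 2 : ℕ) - (q / 2 : ℕ)) :
    J c k q q + 1 ≤ J c k q z + ((k / 2 : ℕ) : ℤ) := by
  rcases loaded_cases c lz with hz | hz | hz | hz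
  · have := hz.2.1
    rw [gz] at this
    cases this
  · have := hz.2.1
    rw [gz] at this
    cases this
  · have sz := st_OF c (by omega) hz
    have sq := st_OT c (by omega) hq
    rw [(JOF c (k := k) (q := q) (by omega) hz).1 (by omega), (JOT c (k := k) (q := q) (by omega) hq).2.2 rfl]
    have pz := hz.1
    have pq := hq.1
    have b0 := zeroB c
    have e0 := be2 c (show 0 ≤ q by omega)
    have e1 := be2 c (show q + 1 ≤ z by omega)
    have e2 := bo1 c (show z + 1 ≤ k by omega)
    simp only [S] at hD fD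
    omega
  · have sz := st_EF c (by omega) hz
    have sq := st_OT c (by omega) hq
    rw [(JEF c (k := k) (q := q) (by omega) hz).1 (by omega), (JOT c (k := k) (q := q) (by omega) hq).2.2 rfl]
    have pz := hz.1
    have pq := hq.1
    have b0 := zeroB c
    have e0 := be2 c (show 0 ≤ q by omega)
    have e1 := be2 c (show q + 1 ≤ z by omega)
    have e2 := bo1 c (show z + 1 ≤ k by omega)
    simp only [S] at hD fD
    omega

theorem L6b_OT_zq (c : ℕ → Bool) {k q z : ℕ} (hk : k % 2 = 1)
    (hf : 0 < z) (h0 : z < q) (hl : q < k) (lz : c z ≠ c (z + 1)) (hq : OT c q)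
    (hD : S c k < 0) (fD : S c q < S c k) (gz : c z = false)
    (nb : Bo c q = Bo c z) (nn : Be c q = Be c z) :
    J c k q q + 1 ≤ J c k q z + ((k / 2 : ℕ) : ℤ) := by
  rcases loaded_cases c lz with hz | hz | hz | hz
  · have := hz.2.1
    rw [gz] at this
    cases this
  · have := hz.2.1
    rw [gz] at this
    cases this
  · clear hD
    have sz := st_OF c (by omega) hz
    have sq := st_OT c (by omega) hq
    rw [(JOF c (k := k) (q := q) (by omega) hz).2.1 (by omega), (JOT c (k := k) (q := q) (by omega) hq).2.2 rfl]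
    have pz := hz.1
    have pq := hq.1
    have b0 := zeroB c
    have e0 := be2 c (show 0 ≤ z by omega)
    have e1 := bo1 c (show z + 1 ≤ q by omega)
    have e2 := bo1 c (show q + 1 ≤ k by omega)
    simp only [S] at fD
    omega
  · clear hD
    have sz := st_EF c (by omega) hz
    have sq := st_OT c (by omega) hq
    rw [(JEF c (k := k) (q := q) (by omega) hz).2.1 (by omega), (JOT c (k := k) (q := q) (by omega) hq).2.2 rfl]
    have pz := hz.1
    have pq := hq.1
    have b0 := zeroB c
    have e0 := be2 c (show 0 ≤ z by omega)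
    have e1 := bo1 c (show z + 1 ≤ q by omega)
    have e2 := bo1 c (show q + 1 ≤ k by omega)
    simp only [S] at fD
    omega

theorem L6b_ET_qz (c : ℕ → Bool) {k q z : ℕ} (hk : k % 2 = 1)
    (hf : 0 < q) (h0 : q < z) (hl : z < k) (lz : c z ≠ c (z + 1)) (hq : ET c q)
    (hD : S c k < 0) (fD : S c q < S c k) (gz : c z = false)
    (nb : Bo c z - Bo c q = ((z + 1) / 2 : ℕ) - ((q + 1) / 2 : ℕ)) (nn : Be c z - Be c q = (z / 2 : ℕ) - (q / 2 : ℕ)) :
    J c k q q + 1 ≤ J c k q z + ((k / 2 : ℕ) : ℤ) := by
  rcases loaded_cases c lz with hz | hz | hz | hz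
  · have := hz.2.1
    rw [gz] at this
    cases this
  · have := hz.2.1
    rw [gz] at this
    cases this
  · have sz := st_OF c (by omega) hz
    have sq := st_ET c (by omega) hq
    rw [(JOF c (k := k) (q := q) (by omega) hz).1 (by omega), (JET c (k := k) (q := q) (by omega) hq).2.2 rfl]
    have pz := hz.1
    have pq := hq.1
    have b0 := zeroB c
    have e0 := bo2 c (show 0 ≤ q by omega)
    have e1 := bo2 c (show q + 1 ≤ z by omega)
    have e2 := be1 c (show z + 1 ≤ k by omega)
    simp only [S] at hD fD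
    omega
  · have sz := st_EF c (by omega) hz
    have sq := st_ET c (by omega) hq
    rw [(JEF c (k := k) (q := q) (by omega) hz).1 (by omega), (JET c (k := k) (q := q) (by omega) hq).2.2 rfl]
    have pz := hz.1
    have pq := hq.1
    have b0 := zeroB c
    have e0 := bo2 c (show 0 ≤ q by omega)
    have e1 := bo2 c (show q + 1 ≤ z by omega)
    have e2 := be1 c (show z + 1 ≤ k by omega)
    simp only [S] at hD fD
    omega

theorem L6b_ET_zq (c : ℕ → Bool) {k q z : ℕ} (hk : k % 2 = 1)
    (hf : 0 < z) (h0 : z < q) (hl : q < k) (lz : c z ≠ c (z + 1)) (hq : ET c q)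
    (hD : S c k < 0) (fD : S c q < S c k) (gz : c z = false)
    (nb : Bo c q = Bo c z) (nn : Be c q = Be c z) :
    J c k q q + 1 ≤ J c k q z + ((k / 2 : ℕ) : ℤ) := by
  rcases loaded_cases c lz with hz | hz | hz | hz
  · have := hz.2.1
    rw [gz] at this
    cases this
  · have := hz.2.1
    rw [gz] at this
    cases this
  · clear hD
    have sz := st_OF c (by omega) hz
    have sq := st_ET c (by omega) hq
    rw [(JOF c (k := k) (q := q) (by omega) hz).2.1 (by omega), (JET c (k := k) (q := q) (by omega) hq).2.2 rfl]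
    have pz := hz.1
    have pq := hq.1
    have b0 := zeroB c
    have e0 := bo2 c (show 0 ≤ z by omega)
    have e1 := be1 c (show z + 1 ≤ q by omega)
    have e2 := be1 c (show q + 1 ≤ k by omega)
    simp only [S] at fD
    omega
  · clear hD
    have sz := st_EF c (by omega) hz
    have sq := st_ET c (by omega) hq
    rw [(JEF c (k := k) (q := q) (by omega) hz).2.1 (by omega), (JET c (k := k) (q := q) (by omega) hq).2.2 rfl]
    have pz := hz.1
    have pq := hq.1
    have b0 := zeroB c
    have e0 := bo2 c (show 0 ≤ z by omega)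
    have e1 := be1 c (show z + 1 ≤ q by omega)
    have e2 := be1 c (show q + 1 ≤ k by omega)
    simp only [S] at fD
    omega

end Pool.Agent.Lob34
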