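import Pool.Agent.Lob34.Facts

/-! Two count statements for the pure class, `k` even (all cases are linear). -/

namespace Pool.Agent.Lob34

theorem Pp_OF_qaz (c : ℕ → Bool) {k q a z : ℕ} (hk : k % 2 = 1)
    (hf : 0 < q) (h0 : q < a) (h1 : a < z) (hl : z < k)
    (la : c a ≠ c (a + 1)) (lz : c z ≠ c (z + 1)) (hq : OF c q)
    (hD : S c k < 0) (fD : S c q < S c k)
    (hJ : J c k q q + 1 ≤ J c k q z) (h3 : 7 ≤ k) (qk : q + 2 ≤ k) :
    J c k q a + 2 ≤ J c k q z + ((k / 2 : ℕ) : ℤ) := by
  rcases loaded_cases c la with ha | ha | ha | ha <;> rcases loaded_cases c lz with hz | hz | hz | hz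
  · clear hD
    have sa := st_OT c (by omega) ha
    have sz := st_OT c (by omega) hz
    have sq := st_OF c (by omega) hq
    have ja := (JOT c (k := k) (q := q) (by omega) ha).1 (by omega)
    have jz := (JOT c (k := k) (q := q) (by omega) hz).1 (by omega)
    have jq := (JOF c (k := k) (q := q) (by omega) hq).2.2 rfl
    rw [jq, jz] at hJ
    rw [ja, jz]
    clear ja jz jq
    have pa := ha.1
    have pz := hz.1
    have pq := hq.1
    have b0 := zeroB c
    have e0 := bo2 c (show 0 ≤ q by omega)
    have e1 := bo1 c (show q + 1 ≤ a by omega)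
    have e2 := be1 c (show q + 1 ≤ a by omega)
    have e3 := be2 c (show a + 1 ≤ z by omega)
    have e4 := bo2 c (show a ≤ z - 1 by omega)
    have e5 := be1 c (show z + 1 ≤ k by omega)
    simp only [S] at fD
    omega
  · clear hD hJ
    have sa := st_OT c (by omega) ha
    have sz := st_ET c (by omega) hz
    have sq := st_OF c (by omega) hq
    have ja := (JOT c (k := k) (q := q) (by omega) ha).1 (by omega)
    have jz := (JET c (k := k) (q := q) (by omega) hz).1 (by omega)
    rw [ja, jz]
    clear ja jz
    have pa := ha.1
    have pz := hz.1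
    have pq := hq.1
    have b0 := zeroB c
    have e0 := bo1 c (show q + 1 ≤ a by omega)
    have e1 := be1 c (show q + 1 ≤ a by omega)
    have e2 := bo2 c (show a + 1 ≤ z by omega)
    have e3 := be2 c (show a ≤ z - 1 by omega)
    have e4 := bo1 c (show z + 1 ≤ k by omega)
    have e5 := be1 c (show z + 1 ≤ k by omega)
    simp only [S] at fD
    omega
  · clear hD hJ
    have sa := st_OT c (by omega) ha
    have sz := st_OF c (by omega) hz
    have sq := st_OF c (by omega) hq
    have ja := (JOT c (k := k) (q := q) (by omega) ha).1 (by omega)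
    have jz := (JOF c (k := k) (q := q) (by omega) hz).1 (by omega)
    rw [ja, jz]
    clear ja jz
    have pa := ha.1
    have pz := hz.1
    have pq := hq.1
    have b0 := zeroB c
    have e0 := bo1 c (show q + 1 ≤ a by omega)
    have e1 := be1 c (show q + 1 ≤ a by omega)
    have e2 := bo2 c (show a + 1 ≤ z by omega)
    have e3 := be2 c (show a + 1 ≤ z by omega)
    have e4 := bo1 c (show z + 1 ≤ k by omega)
    have e5 := be1 c (show z + 1 ≤ k by omega)
    simp only [S] at fD
    omega
  · clear hD hJ
    have sa := st_OT c (by omega) ha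
    have sz := st_EF c (by omega) hz
    have sq := st_OF c (by omega) hq
    have ja := (JOT c (k := k) (q := q) (by omega) ha).1 (by omega)
    have jz := (JEF c (k := k) (q := q) (by omega) hz).1 (by omega)
    rw [ja, jz]
    clear ja jz
    have pa := ha.1
    have pz := hz.1
    have pq := hq.1
    have b0 := zeroB c
    have e0 := bo1 c (show q + 1 ≤ a by omega)
    have e1 := be1 c (show q + 1 ≤ a by omega)
    have e2 := bo2 c (show a + 1 ≤ z by omega)
    have e3 := be2 c (show a + 1 ≤ z by omega)
    have e4 := bo1 c (show z + 1 ≤ k by omega)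
    have e5 := be1 c (show z + 1 ≤ k by omega)
    simp only [S] at fD
    omega
  · have sa := st_ET c (by omega) ha
    have sz := st_OT c (by omega) hz
    have sq := st_OF c (by omega) hq
    have ja := (JET c (k := k) (q := q) (by omega) ha).1 (by omega)
    have jz := (JOT c (k := k) (q := q) (by omega) hz).1 (by omega)
    have jq := (JOF c (k := k) (q := q) (by omega) hq).2.2 rfl
    rw [jq, jz] at hJ
    rw [ja, jz]
    clear ja jz jq
    have pa := ha.1
    have pz := hz.1
    have pq := hq.1
    have b0 := zeroB c
    have e0 := bo2 c (show 0 ≤ q by omega)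
    have e1 := be2 c (show 0 ≤ q by omega)
    have e2 := bo1 c (show q + 1 ≤ a by omega)
    have e3 := be1 c (show q + 1 ≤ a by omega)
    have e4 := be2 c (show a + 1 ≤ z by omega)
    have e5 := bo2 c (show a ≤ z - 1 by omega)
    have e6 := be1 c (show z + 1 ≤ k by omega)
    simp only [S] at hD fD
    omega
  · clear hD hJ
    have sa := st_ET c (by omega) ha
    have sz := st_ET c (by omega) hz
    have sq := st_OF c (by omega) hq
    have ja := (JET c (k := k) (q := q) (by omega) ha).1 (by omega)
    have jz := (JET c (k := k) (q := q) (by omega) hz).1 (by omega)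
    rw [ja, jz]
    clear ja jz
    have pa := ha.1
    have pz := hz.1
    have pq := hq.1
    have b0 := zeroB c
    have e0 := bo1 c (show q + 1 ≤ a by omega)
    have e1 := be1 c (show q + 1 ≤ a by omega)
    have e2 := bo2 c (show a + 1 ≤ z by omega)
    have e3 := be2 c (show a ≤ z - 1 by omega)
    have e4 := bo1 c (show z + 1 ≤ k by omega)
    have e5 := be1 c (show z + 1 ≤ k by omega)
    simp only [S] at fD
    omega
  · clear hD hJ
    have sa := st_ET c (by omega) ha
    have sz := st_OF c (by omega) hz
    have sq := st_OF c (by omega) hq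
    have ja := (JET c (k := k) (q := q) (by omega) ha).1 (by omega)
    have jz := (JOF c (k := k) (q := q) (by omega) hz).1 (by omega)
    rw [ja, jz]
    clear ja jz
    have pa := ha.1
    have pz := hz.1
    have pq := hq.1
    have b0 := zeroB c
    have e0 := bo1 c (show q + 1 ≤ a by omega)
    have e1 := be1 c (show q + 1 ≤ a by omega)
    have e2 := bo2 c (show a + 1 ≤ z by omega)
    have e3 := be2 c (show a + 1 ≤ z by omega)
    have e4 := bo1 c (show z + 1 ≤ k by omega)
    have e5 := be1 c (show z + 1 ≤ k by omega)
    simp only [S] at fD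
    omega
  · clear hD hJ
    have sa := st_ET c (by omega) ha
    have sz := st_EF c (by omega) hz
    have sq := st_OF c (by omega) hq
    have ja := (JET c (k := k) (q := q) (by omega) ha).1 (by omega)
    have jz := (JEF c (k := k) (q := q) (by omega) hz).1 (by omega)
    rw [ja, jz]
    clear ja jz
    have pa := ha.1
    have pz := hz.1
    have pq := hq.1
    have b0 := zeroB c
    have e0 := bo1 c (show q + 1 ≤ a by omega)
    have e1 := be1 c (show q + 1 ≤ a by omega)
    have e2 := bo2 c (show a + 1 ≤ z by omega)
    have e3 := be2 c (show a + 1 ≤ z by omega)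
    have e4 := bo1 c (show z + 1 ≤ k by omega)
    have e5 := be1 c (show z + 1 ≤ k by omega)
    simp only [S] at fD
    omega
  · clear hJ
    have sa := st_OF c (by omega) ha
    have sz := st_OT c (by omega) hz
    have sq := st_OF c (by omega) hq
    have ja := (JOF c (k := k) (q := q) (by omega) ha).1 (by omega)
    have jz := (JOT c (k := k) (q := q) (by omega) hz).1 (by omega)
    rw [ja, jz]
    clear ja jz
    have pa := ha.1
    have pz := hz.1
    have pq := hq.1
    have b0 := zeroB c
    have e0 := bo2 c (show 0 ≤ q by omega)
    have e1 := be2 c (show 0 ≤ q by omega)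
    have e2 := be2 c (show a + 1 ≤ z by omega)
    have e3 := bo2 c (show a ≤ z - 1 by omega)
    simp only [S] at hD fD
    omega
  · clear hJ
    have sa := st_OF c (by omega) ha
    have sz := st_ET c (by omega) hz
    have sq := st_OF c (by omega) hq
    have ja := (JOF c (k := k) (q := q) (by omega) ha).1 (by omega)
    have jz := (JET c (k := k) (q := q) (by omega) hz).1 (by omega)
    rw [ja, jz]
    clear ja jz
    have pa := ha.1
    have pz := hz.1
    have pq := hq.1
    have b0 := zeroB c
    have e0 := bo2 c (show 0 ≤ q by omega)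
    have e1 := be2 c (show 0 ≤ q by omega)
    have e2 := be1 c (show q + 1 ≤ a by omega)
    have e3 := bo1 c (show q ≤ a - 1 by omega)
    have e4 := bo2 c (show a + 1 ≤ z by omega)
    have e5 := be2 c (show a + 1 ≤ z by omega)
    have e6 := bo1 c (show z + 1 ≤ k by omega)
    have e7 := be1 c (show z + 1 ≤ k by omega)
    simp only [S] at hD fD
    omega
  · clear hD hJ
    have sa := st_OF c (by omega) ha
    have sz := st_OF c (by omega) hz
    have sq := st_OF c (by omega) hq
    have ja := (JOF c (k := k) (q := q) (by omega) ha).1 (by omega)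
    have jz := (JOF c (k := k) (q := q) (by omega) hz).1 (by omega)
    rw [ja, jz]
    clear ja jz
    have pa := ha.1
    have pz := hz.1
    have pq := hq.1
    have b0 := zeroB c
    have e0 := be1 c (show q + 1 ≤ a by omega)
    have e1 := bo1 c (show q ≤ a - 1 by omega)
    have e2 := bo2 c (show a + 1 ≤ z by omega)
    have e3 := be2 c (show a + 1 ≤ z by omega)
    have e4 := bo1 c (show z + 1 ≤ k by omega)
    have e5 := be1 c (show z + 1 ≤ k by omega)
    simp only [S] at fD
    omega
  · clear hJ
    have sa := st_OF c (by omega) ha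
    have sz := st_EF c (by omega) hz
    have sq := st_OF c (by omega) hq
    have ja := (JOF c (k := k) (q := q) (by omega) ha).1 (by omega)
    have jz := (JEF c (k := k) (q := q) (by omega) hz).1 (by omega)
    rw [ja, jz]
    clear ja jz
    have pa := ha.1
    have pz := hz.1
    have pq := hq.1
    have b0 := zeroB c
    have e0 := bo2 c (show 0 ≤ q by omega)
    have e1 := be2 c (show 0 ≤ q by omega)
    have e2 := be1 c (show q + 1 ≤ a by omega)
    have e3 := bo1 c (show q ≤ a - 1 by omega)
    have e4 := bo2 c (show a + 1 ≤ z by omega)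
    have e5 := be2 c (show a + 1 ≤ z by omega)
    have e6 := bo1 c (show z + 1 ≤ k by omega)
    have e7 := be1 c (show z + 1 ≤ k by omega)
    simp only [S] at hD fD
    omega
  · have sa := st_EF c (by omega) ha
    have sz := st_OT c (by omega) hz
    have sq := st_OF c (by omega) hq
    have ja := (JEF c (k := k) (q := q) (by omega) ha).1 (by omega)
    have jz := (JOT c (k := k) (q := q) (by omega) hz).1 (by omega)
    have jq := (JOF c (k := k) (q := q) (by omega) hq).2.2 rfl
    rw [jq, jz] at hJ
    rw [ja, jz]
    clear ja jz jq
    have pa := ha.1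
    have pz := hz.1
    have pq := hq.1
    have b0 := zeroB c
    have e0 := bo2 c (show 0 ≤ q by omega)
    have e1 := be2 c (show 0 ≤ q by omega)
    have e2 := bo1 c (show q + 1 ≤ a by omega)
    have e3 := be1 c (show q ≤ a - 1 by omega)
    have e4 := bo2 c (show a + 1 ≤ z by omega)
    have e5 := be2 c (show a + 1 ≤ z by omega)
    have e6 := be1 c (show z + 1 ≤ k by omega)
    simp only [S] at hD fD
    omega
  · clear hD hJ
    have sa := st_EF c (by omega) ha
    have sz := st_ET c (by omega) hz
    have sq := st_OF c (by omega) hq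
    have ja := (JEF c (k := k) (q := q) (by omega) ha).1 (by omega)
    have jz := (JET c (k := k) (q := q) (by omega) hz).1 (by omega)
    rw [ja, jz]
    clear ja jz
    have pa := ha.1
    have pz := hz.1
    have pq := hq.1
    have b0 := zeroB c
    have e0 := bo1 c (show q + 1 ≤ a by omega)
    have e1 := be1 c (show q ≤ a - 1 by omega)
    have e2 := bo2 c (show a + 1 ≤ z by omega)
    have e3 := be2 c (show a ≤ z - 1 by omega)
    have e4 := bo1 c (show z + 1 ≤ k by omega)
    have e5 := be1 c (show z + 1 ≤ k by omega)
    simp only [S] at fD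
    omega
  · clear hD hJ
    have sa := st_EF c (by omega) ha
    have sz := st_OF c (by omega) hz
    have sq := st_OF c (by omega) hq
    have ja := (JEF c (k := k) (q := q) (by omega) ha).1 (by omega)
    have jz := (JOF c (k := k) (q := q) (by omega) hz).1 (by omega)
    rw [ja, jz]
    clear ja jz
    have pa := ha.1
    have pz := hz.1
    have pq := hq.1
    have b0 := zeroB c
    have e0 := bo1 c (show q + 1 ≤ a by omega)
    have e1 := be1 c (show q ≤ a - 1 by omega)
    have e2 := bo2 c (show a + 1 ≤ z by omega)
    have e3 := be2 c (show a + 1 ≤ z by omega)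
    have e4 := bo1 c (show z + 1 ≤ k by omega)
    have e5 := be1 c (show z + 1 ≤ k by omega)
    simp only [S] at fD
    omega
  · clear hD
    have sa := st_EF c (by omega) ha
    have sz := st_EF c (by omega) hz
    have sq := st_OF c (by omega) hq
    have ja := (JEF c (k := k) (q := q) (by omega) ha).1 (by omega)
    have jz := (JEF c (k := k) (q := q) (by omega) hz).1 (by omega)
    have jq := (JOF c (k := k) (q := q) (by omega) hq).2.2 rfl
    rw [jq, jz] at hJ
    rw [ja, jz]
    clear ja jz jq
    have pa := ha.1
    have pz := hz.1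
    have pq := hq.1
    have b0 := zeroB c
    have e0 := bo2 c (show 0 ≤ q by omega)
    have e1 := bo1 c (show q + 1 ≤ a by omega)
    have e2 := be1 c (show q ≤ a - 1 by omega)
    have e3 := bo2 c (show a + 1 ≤ z by omega)
    have e4 := be2 c (show a + 1 ≤ z by omega)
    have e5 := be1 c (show z + 1 ≤ k by omega)
    simp only [S] at fD
    omega

theorem Pp_OF_qza (c : ℕ → Bool) {k q a z : ℕ} (hk : k % 2 = 1)
    (hf : 0 < q) (h0 : q < z) (h1 : z < a) (hl : a < k)
    (la : c a ≠ c (a + 1)) (lz : c z ≠ c (z + 1)) (hq : OF c q)
    (hD : S c k < 0) (fD : S c q < S c k)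
    (hJ : J c k q q + 1 ≤ J c k q z) (h3 : 7 ≤ k) (qk : q + 2 ≤ k) :
    J c k q a + 2 ≤ J c k q z + ((k / 2 : ℕ) : ℤ) := by
  rcases loaded_cases c la with ha | ha | ha | ha <;> rcases loaded_cases c lz with hz | hz | hz | hz
  · clear fD
    have sa := st_OT c (by omega) ha
    have sz := st_OT c (by omega) hz
    have sq := st_OF c (by omega) hq
    have ja := (JOT c (k := k) (q := q) (by omega) ha).1 (by omega)
    have jz := (JOT c (k := k) (q := q) (by omega) hz).1 (by omega)
    have jq := (JOF c (k := k) (q := q) (by omega) hq).2.2 rfl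
    rw [jq, jz] at hJ
    rw [ja, jz]
    clear ja jz jq
    have pa := ha.1
    have pz := hz.1
    have pq := hq.1
    have b0 := zeroB c
    have e0 := bo2 c (show 0 ≤ q by omega)
    have e1 := be2 c (show 0 ≤ q by omega)
    have e2 := bo2 c (show q ≤ z - 1 by omega)
    have e3 := bo1 c (show z + 1 ≤ a by omega)
    have e4 := be1 c (show z + 1 ≤ a by omega)
    have e5 := bo2 c (show a + 1 ≤ k by omega)
    have e6 := be2 c (show a + 1 ≤ k by omega)
    simp only [S] at hD
    omega
  · clear hD fD hJ
    have sa := st_OT c (by omega) ha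
    have sz := st_ET c (by omega) hz
    have sq := st_OF c (by omega) hq
    have ja := (JOT c (k := k) (q := q) (by omega) ha).1 (by omega)
    have jz := (JET c (k := k) (q := q) (by omega) hz).1 (by omega)
    rw [ja, jz]
    clear ja jz
    have pa := ha.1
    have pz := hz.1
    have pq := hq.1
    have b0 := zeroB c
    have e0 := bo1 c (show z + 1 ≤ a by omega)
    have e1 := be1 c (show z + 1 ≤ a by omega)
    omega
  · clear hD fD hJ
    have sa := st_OT c (by omega) ha
    have sz := st_OF c (by omega) hz
    have sq := st_OF c (by omega) hq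
    have ja := (JOT c (k := k) (q := q) (by omega) ha).1 (by omega)
    have jz := (JOF c (k := k) (q := q) (by omega) hz).1 (by omega)
    rw [ja, jz]
    clear ja jz
    have pa := ha.1
    have pz := hz.1
    have pq := hq.1
    have b0 := zeroB c
    have e0 := bo1 c (show z + 1 ≤ a by omega)
    have e1 := be1 c (show z + 1 ≤ a by omega)
    omega
  · clear hD fD hJ
    have sa := st_OT c (by omega) ha
    have sz := st_EF c (by omega) hz
    have sq := st_OF c (by omega) hq
    have ja := (JOT c (k := k) (q := q) (by omega) ha).1 (by omega)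
    have jz := (JEF c (k := k) (q := q) (by omega) hz).1 (by omega)
    rw [ja, jz]
    clear ja jz
    have pa := ha.1
    have pz := hz.1
    have pq := hq.1
    have b0 := zeroB c
    have e0 := be2 c (show q + 1 ≤ z by omega)
    have e1 := be1 c (show q ≤ z - 1 by omega)
    have e2 := bo1 c (show z + 1 ≤ a by omega)
    have e3 := be1 c (show z + 1 ≤ a by omega)
    omega
  · clear fD hJ
    have sa := st_ET c (by omega) ha
    have sz := st_OT c (by omega) hz
    have sq := st_OF c (by omega) hq
    have ja := (JET c (k := k) (q := q) (by omega) ha).1 (by omega)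
    have jz := (JOT c (k := k) (q := q) (by omega) hz).1 (by omega)
    rw [ja, jz]
    clear ja jz
    have pa := ha.1
    have pz := hz.1
    have pq := hq.1
    have b0 := zeroB c
    have e0 := bo2 c (show 0 ≤ q by omega)
    have e1 := be2 c (show 0 ≤ q by omega)
    have e2 := be2 c (show q + 1 ≤ z by omega)
    have e3 := bo2 c (show q ≤ z - 1 by omega)
    have e4 := bo1 c (show z + 1 ≤ a by omega)
    have e5 := be1 c (show z + 1 ≤ a by omega)
    have e6 := bo2 c (show a + 1 ≤ k by omega)
    have e7 := be2 c (show a + 1 ≤ k by omega)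
    simp only [S] at hD
    omega
  · clear fD hJ
    have sa := st_ET c (by omega) ha
    have sz := st_ET c (by omega) hz
    have sq := st_OF c (by omega) hq
    have ja := (JET c (k := k) (q := q) (by omega) ha).1 (by omega)
    have jz := (JET c (k := k) (q := q) (by omega) hz).1 (by omega)
    rw [ja, jz]
    clear ja jz
    have pa := ha.1
    have pz := hz.1
    have pq := hq.1
    have b0 := zeroB c
    have e0 := bo2 c (show 0 ≤ q by omega)
    have e1 := be2 c (show 0 ≤ q by omega)
    have e2 := bo2 c (show q + 1 ≤ z by omega)
    have e3 := be2 c (show q + 1 ≤ z by omega)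
    have e4 := bo1 c (show z + 1 ≤ a by omega)
    have e5 := be1 c (show z + 1 ≤ a by omega)
    have e6 := bo2 c (show a + 1 ≤ k by omega)
    have e7 := be2 c (show a + 1 ≤ k by omega)
    simp only [S] at hD
    omega
  · clear fD hJ
    have sa := st_ET c (by omega) ha
    have sz := st_OF c (by omega) hz
    have sq := st_OF c (by omega) hq
    have ja := (JET c (k := k) (q := q) (by omega) ha).1 (by omega)
    have jz := (JOF c (k := k) (q := q) (by omega) hz).1 (by omega)
    rw [ja, jz]
    clear ja jz
    have pa := ha.1
    have pz := hz.1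
    have pq := hq.1
    have b0 := zeroB c
    have e0 := bo2 c (show 0 ≤ q by omega)
    have e1 := be2 c (show 0 ≤ q by omega)
    have e2 := bo2 c (show q + 1 ≤ z by omega)
    have e3 := be2 c (show q + 1 ≤ z by omega)
    have e4 := bo1 c (show z + 1 ≤ a by omega)
    have e5 := be1 c (show z + 1 ≤ a by omega)
    have e6 := bo2 c (show a + 1 ≤ k by omega)
    have e7 := be2 c (show a + 1 ≤ k by omega)
    simp only [S] at hD
    omega
  · clear fD hJ
    have sa := st_ET c (by omega) ha
    have sz := st_EF c (by omega) hz
    have sq := st_OF c (by omega) hq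
    have ja := (JET c (k := k) (q := q) (by omega) ha).1 (by omega)
    have jz := (JEF c (k := k) (q := q) (by omega) hz).1 (by omega)
    rw [ja, jz]
    clear ja jz
    have pa := ha.1
    have pz := hz.1
    have pq := hq.1
    have b0 := zeroB c
    have e0 := bo2 c (show 0 ≤ q by omega)
    have e1 := be2 c (show 0 ≤ q by omega)
    have e2 := bo2 c (show q + 1 ≤ z by omega)
    have e3 := be2 c (show q + 1 ≤ z by omega)
    have e4 := bo1 c (show z + 1 ≤ a by omega)
    have e5 := be1 c (show z + 1 ≤ a by omega)
    have e6 := bo2 c (show a + 1 ≤ k by omega)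
    have e7 := be2 c (show a + 1 ≤ k by omega)
    simp only [S] at hD
    omega
  · clear hJ
    have sa := st_OF c (by omega) ha
    have sz := st_OT c (by omega) hz
    have sq := st_OF c (by omega) hq
    have ja := (JOF c (k := k) (q := q) (by omega) ha).1 (by omega)
    have jz := (JOT c (k := k) (q := q) (by omega) hz).1 (by omega)
    rw [ja, jz]
    clear ja jz
    have pa := ha.1
    have pz := hz.1
    have pq := hq.1
    have b0 := zeroB c
    have e0 := bo2 c (show 0 ≤ q by omega)
    have e1 := be2 c (show 0 ≤ q by omega)
    have e2 := be1 c (show z + 1 ≤ a by omega)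
    have e3 := bo1 c (show z ≤ a - 1 by omega)
    simp only [S] at hD fD
    omega
  · clear hJ
    have sa := st_OF c (by omega) ha
    have sz := st_ET c (by omega) hz
    have sq := st_OF c (by omega) hq
    have ja := (JOF c (k := k) (q := q) (by omega) ha).1 (by omega)
    have jz := (JET c (k := k) (q := q) (by omega) hz).1 (by omega)
    rw [ja, jz]
    clear ja jz
    have pa := ha.1
    have pz := hz.1
    have pq := hq.1
    have b0 := zeroB c
    have e0 := bo2 c (show 0 ≤ q by omega)
    have e1 := be2 c (show 0 ≤ q by omega)
    have e2 := bo1 c (show z + 1 ≤ a by omega)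
    have e3 := be1 c (show z + 1 ≤ a by omega)
    simp only [S] at hD fD
    omega
  · clear hD fD hJ
    have sa := st_OF c (by omega) ha
    have sz := st_OF c (by omega) hz
    have sq := st_OF c (by omega) hq
    have ja := (JOF c (k := k) (q := q) (by omega) ha).1 (by omega)
    have jz := (JOF c (k := k) (q := q) (by omega) hz).1 (by omega)
    rw [ja, jz]
    clear ja jz
    have pa := ha.1
    have pz := hz.1
    have pq := hq.1
    have b0 := zeroB c
    have e0 := be1 c (show z + 1 ≤ a by omega)
    have e1 := bo1 c (show z ≤ a - 1 by omega)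
    omega
  · clear hJ
    have sa := st_OF c (by omega) ha
    have sz := st_EF c (by omega) hz
    have sq := st_OF c (by omega) hq
    have ja := (JOF c (k := k) (q := q) (by omega) ha).1 (by omega)
    have jz := (JEF c (k := k) (q := q) (by omega) hz).1 (by omega)
    rw [ja, jz]
    clear ja jz
    have pa := ha.1
    have pz := hz.1
    have pq := hq.1
    have b0 := zeroB c
    have e0 := bo2 c (show 0 ≤ q by omega)
    have e1 := be2 c (show 0 ≤ q by omega)
    have e2 := be2 c (show q + 1 ≤ z by omega)
    have e3 := be1 c (show q ≤ z - 1 by omega)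
    have e4 := be1 c (show z + 1 ≤ a by omega)
    have e5 := bo1 c (show z ≤ a - 1 by omega)
    simp only [S] at hD fD
    omega
  · clear fD
    have sa := st_EF c (by omega) ha
    have sz := st_OT c (by omega) hz
    have sq := st_OF c (by omega) hq
    have ja := (JEF c (k := k) (q := q) (by omega) ha).1 (by omega)
    have jz := (JOT c (k := k) (q := q) (by omega) hz).1 (by omega)
    have jq := (JOF c (k := k) (q := q) (by omega) hq).2.2 rfl
    rw [jq, jz] at hJ
    rw [ja, jz]
    clear ja jz jq
    have pa := ha.1
    have pz := hz.1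
    have pq := hq.1
    have b0 := zeroB c
    have e0 := bo2 c (show 0 ≤ q by omega)
    have e1 := be2 c (show 0 ≤ q by omega)
    have e2 := bo2 c (show q ≤ z - 1 by omega)
    have e3 := bo1 c (show z + 1 ≤ a by omega)
    have e4 := be1 c (show z + 1 ≤ a by omega)
    have e5 := bo2 c (show a + 1 ≤ k by omega)
    have e6 := be2 c (show a + 1 ≤ k by omega)
    simp only [S] at hD
    omega
  · clear fD hJ
    have sa := st_EF c (by omega) ha
    have sz := st_ET c (by omega) hz
    have sq := st_OF c (by omega) hq
    have ja := (JEF c (k := k) (q := q) (by omega) ha).1 (by omega)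
    have jz := (JET c (k := k) (q := q) (by omega) hz).1 (by omega)
    rw [ja, jz]
    clear ja jz
    have pa := ha.1
    have pz := hz.1
    have pq := hq.1
    have b0 := zeroB c
    have e0 := bo2 c (show 0 ≤ q by omega)
    have e1 := be2 c (show 0 ≤ q by omega)
    have e2 := bo2 c (show q + 1 ≤ z by omega)
    have e3 := be2 c (show q + 1 ≤ z by omega)
    have e4 := bo1 c (show z + 1 ≤ a by omega)
    have e5 := be1 c (show z ≤ a - 1 by omega)
    have e6 := bo2 c (show a + 1 ≤ k by omega)
    have e7 := be2 c (show a + 1 ≤ k by omega)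
    simp only [S] at hD
    omega
  · clear fD hJ
    have sa := st_EF c (by omega) ha
    have sz := st_OF c (by omega) hz
    have sq := st_OF c (by omega) hq
    have ja := (JEF c (k := k) (q := q) (by omega) ha).1 (by omega)
    have jz := (JOF c (k := k) (q := q) (by omega) hz).1 (by omega)
    rw [ja, jz]
    clear ja jz
    have pa := ha.1
    have pz := hz.1
    have pq := hq.1
    have b0 := zeroB c
    have e0 := bo2 c (show 0 ≤ q by omega)
    have e1 := be2 c (show 0 ≤ q by omega)
    have e2 := bo2 c (show q + 1 ≤ z by omega)
    have e3 := be2 c (show q + 1 ≤ z by omega)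
    have e4 := bo1 c (show z + 1 ≤ a by omega)
    have e5 := be1 c (show z ≤ a - 1 by omega)
    have e6 := bo2 c (show a + 1 ≤ k by omega)
    have e7 := be2 c (show a + 1 ≤ k by omega)
    simp only [S] at hD
    omega
  · clear hD fD
    have sa := st_EF c (by omega) ha
    have sz := st_EF c (by omega) hz
    have sq := st_OF c (by omega) hq
    have ja := (JEF c (k := k) (q := q) (by omega) ha).1 (by omega)
    have jz := (JEF c (k := k) (q := q) (by omega) hz).1 (by omega)
    have jq := (JOF c (k := k) (q := q) (by omega) hq).2.2 rfl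
    rw [jq, jz] at hJ
    rw [ja, jz]
    clear ja jz jq
    have pa := ha.1
    have pz := hz.1
    have pq := hq.1
    have b0 := zeroB c
    have e0 := bo2 c (show 0 ≤ q by omega)
    have e1 := be1 c (show q ≤ z - 1 by omega)
    have e2 := be1 c (show z ≤ a - 1 by omega)
    have e3 := bo2 c (show a + 1 ≤ k by omega)
    omega

theorem Pp_OF_aqz (c : ℕ → Bool) {k q a z : ℕ} (hk : k % 2 = 1)
    (hf : 0 < a) (h0 : a < q) (h1 : q < z) (hl : z < k)
    (la : c a ≠ c (a + 1)) (lz : c z ≠ c (z + 1)) (hq : OF c q)
    (hD : S c k < 0) (fD : S c q < S c k)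
    (hJ : J c k q q + 1 ≤ J c k q z) (h3 : 7 ≤ k) (qk : q + 2 ≤ k) :
    J c k q a + 2 ≤ J c k q z + ((k / 2 : ℕ) : ℤ) := by
  rcases loaded_cases c la with ha | ha | ha | ha <;> rcases loaded_cases c lz with hz | hz | hz | hz
  · clear hD fD
    have sa := st_OT c (by omega) ha
    have sz := st_OT c (by omega) hz
    have sq := st_OF c (by omega) hq
    have ja := (JOT c (k := k) (q := q) (by omega) ha).2.1 (by omega)
    have jz := (JOT c (k := k) (q := q) (by omega) hz).1 (by omega)
    have jq := (JOF c (k := k) (q := q) (by omega) hq).2.2 rfl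
    rw [jq, jz] at hJ
    rw [ja, jz]
    clear ja jz jq
    have pa := ha.1
    have pz := hz.1
    have pq := hq.1
    have b0 := zeroB c
    have e0 := be1 c (show 0 ≤ a by omega)
    have e1 := bo2 c (show a + 1 ≤ q by omega)
    have e2 := be1 c (show q + 1 ≤ z by omega)
    have e3 := be1 c (show z + 1 ≤ k by omega)
    omega
  · clear fD hJ
    have sa := st_OT c (by omega) ha
    have sz := st_ET c (by omega) hz
    have sq := st_OF c (by omega) hq
    have ja := (JOT c (k := k) (q := q) (by omega) ha).2.1 (by omega)
    have jz := (JET c (k := k) (q := q) (by omega) hz).1 (by omega)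
    rw [ja, jz]
    clear ja jz
    have pa := ha.1
    have pz := hz.1
    have pq := hq.1
    have b0 := zeroB c
    have e0 := bo1 c (show 0 ≤ a by omega)
    have e1 := be1 c (show 0 ≤ a by omega)
    have e2 := bo2 c (show a + 1 ≤ q by omega)
    have e3 := be2 c (show a + 1 ≤ q by omega)
    have e4 := bo2 c (show q + 1 ≤ z by omega)
    have e5 := be2 c (show q + 1 ≤ z by omega)
    have e6 := bo1 c (show z + 1 ≤ k by omega)
    have e7 := be1 c (show z + 1 ≤ k by omega)
    simp only [S] at hD
    omega
  · clear fD hJ
    have sa := st_OT c (by omega) ha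
    have sz := st_OF c (by omega) hz
    have sq := st_OF c (by omega) hq
    have ja := (JOT c (k := k) (q := q) (by omega) ha).2.1 (by omega)
    have jz := (JOF c (k := k) (q := q) (by omega) hz).1 (by omega)
    rw [ja, jz]
    clear ja jz
    have pa := ha.1
    have pz := hz.1
    have pq := hq.1
    have b0 := zeroB c
    have e0 := bo1 c (show 0 ≤ a by omega)
    have e1 := be1 c (show 0 ≤ a by omega)
    have e2 := bo2 c (show a + 1 ≤ q by omega)
    have e3 := be2 c (show a + 1 ≤ q by omega)
    have e4 := bo2 c (show q + 1 ≤ z by omega)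
    have e5 := be2 c (show q + 1 ≤ z by omega)
    have e6 := bo1 c (show z + 1 ≤ k by omega)
    have e7 := be1 c (show z + 1 ≤ k by omega)
    simp only [S] at hD
    omega
  · clear hD fD
    have sa := st_OT c (by omega) ha
    have sz := st_EF c (by omega) hz
    have sq := st_OF c (by omega) hq
    have ja := (JOT c (k := k) (q := q) (by omega) ha).2.1 (by omega)
    have jz := (JEF c (k := k) (q := q) (by omega) hz).1 (by omega)
    have jq := (JOF c (k := k) (q := q) (by omega) hq).2.2 rfl
    rw [jq, jz] at hJ
    rw [ja, jz]
    clear ja jz jq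
    have pa := ha.1
    have pz := hz.1
    have pq := hq.1
    have b0 := zeroB c
    have e0 := be1 c (show 0 ≤ a by omega)
    have e1 := bo2 c (show a + 1 ≤ q by omega)
    have e2 := be1 c (show q ≤ z - 1 by omega)
    have e3 := be1 c (show z + 1 ≤ k by omega)
    omega
  · clear fD
    have sa := st_ET c (by omega) ha
    have sz := st_OT c (by omega) hz
    have sq := st_OF c (by omega) hq
    have ja := (JET c (k := k) (q := q) (by omega) ha).2.1 (by omega)
    have jz := (JOT c (k := k) (q := q) (by omega) hz).1 (by omega)
    have jq := (JOF c (k := k) (q := q) (by omega) hq).2.2 rfl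
    rw [jq, jz] at hJ
    rw [ja, jz]
    clear ja jz jq
    have pa := ha.1
    have pz := hz.1
    have pq := hq.1
    have b0 := zeroB c
    have e0 := be1 c (show 0 ≤ a by omega)
    have e1 := bo2 c (show a + 1 ≤ q by omega)
    have e2 := be2 c (show a + 1 ≤ q by omega)
    have e3 := bo2 c (show q ≤ z - 1 by omega)
    have e4 := be1 c (show z + 1 ≤ k by omega)
    simp only [S] at hD
    omega
  · clear hJ
    have sa := st_ET c (by omega) ha
    have sz := st_ET c (by omega) hz
    have sq := st_OF c (by omega) hq
    have ja := (JET c (k := k) (q := q) (by omega) ha).2.1 (by omega)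
    have jz := (JET c (k := k) (q := q) (by omega) hz).1 (by omega)
    rw [ja, jz]
    clear ja jz
    have pa := ha.1
    have pz := hz.1
    have pq := hq.1
    have b0 := zeroB c
    have e0 := bo2 c (show a + 1 ≤ q by omega)
    have e1 := be2 c (show a + 1 ≤ q by omega)
    have e2 := bo1 c (show z + 1 ≤ k by omega)
    have e3 := be1 c (show z + 1 ≤ k by omega)
    simp only [S] at hD fD
    omega
  · clear fD hJ
    have sa := st_ET c (by omega) ha
    have sz := st_OF c (by omega) hz
    have sq := st_OF c (by omega) hq
    have ja := (JET c (k := k) (q := q) (by omega) ha).2.1 (by omega)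
    have jz := (JOF c (k := k) (q := q) (by omega) hz).1 (by omega)
    rw [ja, jz]
    clear ja jz
    have pa := ha.1
    have pz := hz.1
    have pq := hq.1
    have b0 := zeroB c
    have e0 := bo2 c (show a + 1 ≤ q by omega)
    have e1 := be2 c (show a + 1 ≤ q by omega)
    have e2 := bo2 c (show q + 1 ≤ z by omega)
    have e3 := be2 c (show q + 1 ≤ z by omega)
    simp only [S] at hD
    omega
  · clear fD hJ
    have sa := st_ET c (by omega) ha
    have sz := st_EF c (by omega) hz
    have sq := st_OF c (by omega) hq
    have ja := (JET c (k := k) (q := q) (by omega) ha).2.1 (by omega)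
    have jz := (JEF c (k := k) (q := q) (by omega) hz).1 (by omega)
    rw [ja, jz]
    clear ja jz
    have pa := ha.1
    have pz := hz.1
    have pq := hq.1
    have b0 := zeroB c
    have e0 := bo1 c (show 0 ≤ a by omega)
    have e1 := be1 c (show 0 ≤ a by omega)
    have e2 := bo2 c (show a + 1 ≤ q by omega)
    have e3 := be2 c (show a + 1 ≤ q by omega)
    have e4 := bo2 c (show q + 1 ≤ z by omega)
    have e5 := be2 c (show q + 1 ≤ z by omega)
    have e6 := bo1 c (show z + 1 ≤ k by omega)
    have e7 := be1 c (show z + 1 ≤ k by omega)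
    simp only [S] at hD
    omega
  · clear fD hJ
    have sa := st_OF c (by omega) ha
    have sz := st_OT c (by omega) hz
    have sq := st_OF c (by omega) hq
    have ja := (JOF c (k := k) (q := q) (by omega) ha).2.1 (by omega)
    have jz := (JOT c (k := k) (q := q) (by omega) hz).1 (by omega)
    rw [ja, jz]
    clear ja jz
    have pa := ha.1
    have pz := hz.1
    have pq := hq.1
    have b0 := zeroB c
    have e0 := bo2 c (show a + 1 ≤ q by omega)
    have e1 := be2 c (show a + 1 ≤ q by omega)
    have e2 := be2 c (show q + 1 ≤ z by omega)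
    have e3 := bo2 c (show q ≤ z - 1 by omega)
    simp only [S] at hD
    omega
  · clear fD hJ
    have sa := st_OF c (by omega) ha
    have sz := st_ET c (by omega) hz
    have sq := st_OF c (by omega) hq
    have ja := (JOF c (k := k) (q := q) (by omega) ha).2.1 (by omega)
    have jz := (JET c (k := k) (q := q) (by omega) hz).1 (by omega)
    rw [ja, jz]
    clear ja jz
    have pa := ha.1
    have pz := hz.1
    have pq := hq.1
    have b0 := zeroB c
    have e0 := be1 c (show 0 ≤ a by omega)
    have e1 := bo1 c (show 0 ≤ a - 1 by omega)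
    have e2 := bo2 c (show a + 1 ≤ q by omega)
    have e3 := be2 c (show a + 1 ≤ q by omega)
    have e4 := bo2 c (show q + 1 ≤ z by omega)
    have e5 := be2 c (show q + 1 ≤ z by omega)
    have e6 := bo1 c (show z + 1 ≤ k by omega)
    have e7 := be1 c (show z + 1 ≤ k by omega)
    simp only [S] at hD
    omega
  · clear fD hJ
    have sa := st_OF c (by omega) ha
    have sz := st_OF c (by omega) hz
    have sq := st_OF c (by omega) hq
    have ja := (JOF c (k := k) (q := q) (by omega) ha).2.1 (by omega)
    have jz := (JOF c (k := k) (q := q) (by omega) hz).1 (by omega)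
    rw [ja, jz]
    clear ja jz
    have pa := ha.1
    have pz := hz.1
    have pq := hq.1
    have b0 := zeroB c
    have e0 := be1 c (show 0 ≤ a by omega)
    have e1 := bo1 c (show 0 ≤ a - 1 by omega)
    have e2 := bo2 c (show a + 1 ≤ q by omega)
    have e3 := be2 c (show a + 1 ≤ q by omega)
    have e4 := bo2 c (show q + 1 ≤ z by omega)
    have e5 := be2 c (show q + 1 ≤ z by omega)
    have e6 := bo1 c (show z + 1 ≤ k by omega)
    have e7 := be1 c (show z + 1 ≤ k by omega)
    simp only [S] at hD
    omega
  · clear fD hJ
    have sa := st_OF c (by omega) ha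
    have sz := st_EF c (by omega) hz
    have sq := st_OF c (by omega) hq
    have ja := (JOF c (k := k) (q := q) (by omega) ha).2.1 (by omega)
    have jz := (JEF c (k := k) (q := q) (by omega) hz).1 (by omega)
    rw [ja, jz]
    clear ja jz
    have pa := ha.1
    have pz := hz.1
    have pq := hq.1
    have b0 := zeroB c
    have e0 := be1 c (show 0 ≤ a by omega)
    have e1 := bo1 c (show 0 ≤ a - 1 by omega)
    have e2 := bo2 c (show a + 1 ≤ q by omega)
    have e3 := be2 c (show a + 1 ≤ q by omega)
    have e4 := bo2 c (show q + 1 ≤ z by omega)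
    have e5 := be2 c (show q + 1 ≤ z by omega)
    have e6 := bo1 c (show z + 1 ≤ k by omega)
    have e7 := be1 c (show z + 1 ≤ k by omega)
    simp only [S] at hD
    omega
  · clear hD fD
    have sa := st_EF c (by omega) ha
    have sz := st_OT c (by omega) hz
    have sq := st_OF c (by omega) hq
    have ja := (JEF c (k := k) (q := q) (by omega) ha).2.1 (by omega)
    have jz := (JOT c (k := k) (q := q) (by omega) hz).1 (by omega)
    have jq := (JOF c (k := k) (q := q) (by omega) hq).2.2 rfl
    rw [jq, jz] at hJ
    rw [ja, jz]
    clear ja jz jq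
    have pa := ha.1
    have pz := hz.1
    have pq := hq.1
    have b0 := zeroB c
    have e0 := be1 c (show 0 ≤ a - 1 by omega)
    have e1 := bo2 c (show a + 1 ≤ q by omega)
    have e2 := be1 c (show q + 1 ≤ z by omega)
    have e3 := be1 c (show z + 1 ≤ k by omega)
    omega
  · clear hJ
    have sa := st_EF c (by omega) ha
    have sz := st_ET c (by omega) hz
    have sq := st_OF c (by omega) hq
    have ja := (JEF c (k := k) (q := q) (by omega) ha).2.1 (by omega)
    have jz := (JET c (k := k) (q := q) (by omega) hz).1 (by omega)
    rw [ja, jz]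
    clear ja jz
    have pa := ha.1
    have pz := hz.1
    have pq := hq.1
    have b0 := zeroB c
    have e0 := bo2 c (show a + 1 ≤ q by omega)
    have e1 := be2 c (show a + 1 ≤ q by omega)
    have e2 := bo1 c (show z + 1 ≤ k by omega)
    have e3 := be1 c (show z + 1 ≤ k by omega)
    simp only [S] at hD fD
    omega
  · clear fD hJ
    have sa := st_EF c (by omega) ha
    have sz := st_OF c (by omega) hz
    have sq := st_OF c (by omega) hq
    have ja := (JEF c (k := k) (q := q) (by omega) ha).2.1 (by omega)
    have jz := (JOF c (k := k) (q := q) (by omega) hz).1 (by omega)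
    rw [ja, jz]
    clear ja jz
    have pa := ha.1
    have pz := hz.1
    have pq := hq.1
    have b0 := zeroB c
    have e0 := bo2 c (show a + 1 ≤ q by omega)
    have e1 := be2 c (show a + 1 ≤ q by omega)
    have e2 := bo2 c (show q + 1 ≤ z by omega)
    have e3 := be2 c (show q + 1 ≤ z by omega)
    simp only [S] at hD
    omega
  · clear hD fD
    have sa := st_EF c (by omega) ha
    have sz := st_EF c (by omega) hz
    have sq := st_OF c (by omega) hq
    have ja := (JEF c (k := k) (q := q) (by omega) ha).2.1 (by omega)
    have jz := (JEF c (k := k) (q := q) (by omega) hz).1 (by omega)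
    have jq := (JOF c (k := k) (q := q) (by omega) hq).2.2 rfl
    rw [jq, jz] at hJ
    rw [ja, jz]
    clear ja jz jq
    have pa := ha.1
    have pz := hz.1
    have pq := hq.1
    have b0 := zeroB c
    have e0 := be1 c (show 0 ≤ a - 1 by omega)
    have e1 := bo2 c (show a + 1 ≤ q by omega)
    have e2 := be1 c (show q ≤ z - 1 by omega)
    have e3 := be1 c (show z + 1 ≤ k by omega)
    omega

theorem Pp_OF_zqa (c : ℕ → Bool) {k q a z : ℕ} (hk : k % 2 = 1)
    (hf : 0 < z) (h0 : z < q) (h1 : q < a) (hl : a < k)
    (la : c a ≠ c (a + 1)) (lz : c z ≠ c (z + 1)) (hq : OF c q)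
    (hD : S c k < 0) (fD : S c q < S c k)
    (hJ : J c k q q + 1 ≤ J c k q z) (h3 : 7 ≤ k) (qk : q + 2 ≤ k) :
    J c k q a + 2 ≤ J c k q z + ((k / 2 : ℕ) : ℤ) := by
  rcases loaded_cases c la with ha | ha | ha | ha <;> rcases loaded_cases c lz with hz | hz | hz | hz
  · clear hD hJ
    have sa := st_OT c (by omega) ha
    have sz := st_OT c (by omega) hz
    have sq := st_OF c (by omega) hq
    have ja := (JOT c (k := k) (q := q) (by omega) ha).1 (by omega)
    have jz := (JOT c (k := k) (q := q) (by omega) hz).2.1 (by omega)
    rw [ja, jz]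
    clear ja jz
    have pa := ha.1
    have pz := hz.1
    have pq := hq.1
    have b0 := zeroB c
    have e0 := be2 c (show 0 ≤ z by omega)
    have e1 := bo2 c (show 0 ≤ z - 1 by omega)
    have e2 := bo1 c (show q + 1 ≤ a by omega)
    have e3 := be1 c (show q + 1 ≤ a by omega)
    simp only [S] at fD
    omega
  · clear hD hJ
    have sa := st_OT c (by omega) ha
    have sz := st_ET c (by omega) hz
    have sq := st_OF c (by omega) hq
    have ja := (JOT c (k := k) (q := q) (by omega) ha).1 (by omega)
    have jz := (JET c (k := k) (q := q) (by omega) hz).2.1 (by omega)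
    rw [ja, jz]
    clear ja jz
    have pa := ha.1
    have pz := hz.1
    have pq := hq.1
    have b0 := zeroB c
    have e0 := bo2 c (show 0 ≤ z by omega)
    have e1 := be2 c (show 0 ≤ z - 1 by omega)
    have e2 := bo1 c (show q + 1 ≤ a by omega)
    have e3 := be1 c (show q + 1 ≤ a by omega)
    simp only [S] at fD
    omega
  · clear hD hJ
    have sa := st_OT c (by omega) ha
    have sz := st_OF c (by omega) hz
    have sq := st_OF c (by omega) hq
    have ja := (JOT c (k := k) (q := q) (by omega) ha).1 (by omega)
    have jz := (JOF c (k := k) (q := q) (by omega) hz).2.1 (by omega)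
    rw [ja, jz]
    clear ja jz
    have pa := ha.1
    have pz := hz.1
    have pq := hq.1
    have b0 := zeroB c
    have e0 := bo2 c (show 0 ≤ z by omega)
    have e1 := be2 c (show 0 ≤ z by omega)
    have e2 := bo1 c (show q + 1 ≤ a by omega)
    have e3 := be1 c (show q + 1 ≤ a by omega)
    simp only [S] at fD
    omega
  · clear hD hJ
    have sa := st_OT c (by omega) ha
    have sz := st_EF c (by omega) hz
    have sq := st_OF c (by omega) hq
    have ja := (JOT c (k := k) (q := q) (by omega) ha).1 (by omega)
    have jz := (JEF c (k := k) (q := q) (by omega) hz).2.1 (by omega)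
    rw [ja, jz]
    clear ja jz
    have pa := ha.1
    have pz := hz.1
    have pq := hq.1
    have b0 := zeroB c
    have e0 := bo2 c (show 0 ≤ z by omega)
    have e1 := be2 c (show 0 ≤ z by omega)
    have e2 := bo2 c (show z + 1 ≤ q by omega)
    have e3 := bo1 c (show z ≤ q - 1 by omega)
    have e4 := bo1 c (show q + 1 ≤ a by omega)
    have e5 := be1 c (show q + 1 ≤ a by omega)
    simp only [S] at fD
    omega
  · clear hD hJ
    have sa := st_ET c (by omega) ha
    have sz := st_OT c (by omega) hz
    have sq := st_OF c (by omega) hq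
    have ja := (JET c (k := k) (q := q) (by omega) ha).1 (by omega)
    have jz := (JOT c (k := k) (q := q) (by omega) hz).2.1 (by omega)
    rw [ja, jz]
    clear ja jz
    have pa := ha.1
    have pz := hz.1
    have pq := hq.1
    have b0 := zeroB c
    have e0 := be2 c (show 0 ≤ z by omega)
    have e1 := bo2 c (show 0 ≤ z - 1 by omega)
    have e2 := bo1 c (show q + 1 ≤ a by omega)
    have e3 := be1 c (show q + 1 ≤ a by omega)
    simp only [S] at fD
    omega
  · clear hD hJ
    have sa := st_ET c (by omega) ha
    have sz := st_ET c (by omega) hz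
    have sq := st_OF c (by omega) hq
    have ja := (JET c (k := k) (q := q) (by omega) ha).1 (by omega)
    have jz := (JET c (k := k) (q := q) (by omega) hz).2.1 (by omega)
    rw [ja, jz]
    clear ja jz
    have pa := ha.1
    have pz := hz.1
    have pq := hq.1
    have b0 := zeroB c
    have e0 := bo2 c (show 0 ≤ z by omega)
    have e1 := be2 c (show 0 ≤ z - 1 by omega)
    have e2 := bo1 c (show q + 1 ≤ a by omega)
    have e3 := be1 c (show q + 1 ≤ a by omega)
    simp only [S] at fD
    omega
  · clear hD hJ
    have sa := st_ET c (by omega) ha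
    have sz := st_OF c (by omega) hz
    have sq := st_OF c (by omega) hq
    have ja := (JET c (k := k) (q := q) (by omega) ha).1 (by omega)
    have jz := (JOF c (k := k) (q := q) (by omega) hz).2.1 (by omega)
    rw [ja, jz]
    clear ja jz
    have pa := ha.1
    have pz := hz.1
    have pq := hq.1
    have b0 := zeroB c
    have e0 := bo2 c (show 0 ≤ z by omega)
    have e1 := be2 c (show 0 ≤ z by omega)
    have e2 := bo1 c (show q + 1 ≤ a by omega)
    have e3 := be1 c (show q + 1 ≤ a by omega)
    simp only [S] at fD
    omega
  · clear hD hJ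
    have sa := st_ET c (by omega) ha
    have sz := st_EF c (by omega) hz
    have sq := st_OF c (by omega) hq
    have ja := (JET c (k := k) (q := q) (by omega) ha).1 (by omega)
    have jz := (JEF c (k := k) (q := q) (by omega) hz).2.1 (by omega)
    rw [ja, jz]
    clear ja jz
    have pa := ha.1
    have pz := hz.1
    have pq := hq.1
    have b0 := zeroB c
    have e0 := bo2 c (show 0 ≤ z by omega)
    have e1 := be2 c (show 0 ≤ z by omega)
    have e2 := bo2 c (show z + 1 ≤ q by omega)
    have e3 := bo1 c (show z ≤ q - 1 by omega)
    have e4 := bo1 c (show q + 1 ≤ a by omega)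
    have e5 := be1 c (show q + 1 ≤ a by omega)
    simp only [S] at fD
    omega
  · clear hD hJ
    have sa := st_OF c (by omega) ha
    have sz := st_OT c (by omega) hz
    have sq := st_OF c (by omega) hq
    have ja := (JOF c (k := k) (q := q) (by omega) ha).1 (by omega)
    have jz := (JOT c (k := k) (q := q) (by omega) hz).2.1 (by omega)
    rw [ja, jz]
    clear ja jz
    have pa := ha.1
    have pz := hz.1
    have pq := hq.1
    have b0 := zeroB c
    have e0 := be2 c (show 0 ≤ z by omega)
    have e1 := bo2 c (show 0 ≤ z - 1 by omega)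
    have e2 := be1 c (show q + 1 ≤ a by omega)
    have e3 := bo1 c (show q ≤ a - 1 by omega)
    simp only [S] at fD
    omega
  · clear hD hJ
    have sa := st_OF c (by omega) ha
    have sz := st_ET c (by omega) hz
    have sq := st_OF c (by omega) hq
    have ja := (JOF c (k := k) (q := q) (by omega) ha).1 (by omega)
    have jz := (JET c (k := k) (q := q) (by omega) hz).2.1 (by omega)
    rw [ja, jz]
    clear ja jz
    have pa := ha.1
    have pz := hz.1
    have pq := hq.1
    have b0 := zeroB c
    have e0 := bo2 c (show 0 ≤ z by omega)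
    have e1 := be2 c (show 0 ≤ z - 1 by omega)
    have e2 := be1 c (show q + 1 ≤ a by omega)
    have e3 := bo1 c (show q ≤ a - 1 by omega)
    simp only [S] at fD
    omega
  · clear hD hJ
    have sa := st_OF c (by omega) ha
    have sz := st_OF c (by omega) hz
    have sq := st_OF c (by omega) hq
    have ja := (JOF c (k := k) (q := q) (by omega) ha).1 (by omega)
    have jz := (JOF c (k := k) (q := q) (by omega) hz).2.1 (by omega)
    rw [ja, jz]
    clear ja jz
    have pa := ha.1
    have pz := hz.1
    have pq := hq.1
    have b0 := zeroB c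
    have e0 := bo2 c (show 0 ≤ z by omega)
    have e1 := be2 c (show 0 ≤ z by omega)
    have e2 := be1 c (show q + 1 ≤ a by omega)
    have e3 := bo1 c (show q ≤ a - 1 by omega)
    simp only [S] at fD
    omega
  · clear hD hJ
    have sa := st_OF c (by omega) ha
    have sz := st_EF c (by omega) hz
    have sq := st_OF c (by omega) hq
    have ja := (JOF c (k := k) (q := q) (by omega) ha).1 (by omega)
    have jz := (JEF c (k := k) (q := q) (by omega) hz).2.1 (by omega)
    rw [ja, jz]
    clear ja jz
    have pa := ha.1
    have pz := hz.1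
    have pq := hq.1
    have b0 := zeroB c
    have e0 := bo2 c (show 0 ≤ z by omega)
    have e1 := be2 c (show 0 ≤ z by omega)
    have e2 := bo2 c (show z + 1 ≤ q by omega)
    have e3 := bo1 c (show z ≤ q - 1 by omega)
    have e4 := be1 c (show q + 1 ≤ a by omega)
    have e5 := bo1 c (show q ≤ a - 1 by omega)
    simp only [S] at fD
    omega
  · clear hD fD
    have sa := st_EF c (by omega) ha
    have sz := st_OT c (by omega) hz
    have sq := st_OF c (by omega) hq
    have ja := (JEF c (k := k) (q := q) (by omega) ha).1 (by omega)
    have jz := (JOT c (k := k) (q := q) (by omega) hz).2.1 (by omega)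
    have jq := (JOF c (k := k) (q := q) (by omega) hq).2.2 rfl
    rw [jq, jz] at hJ
    rw [ja, jz]
    clear ja jz jq
    have pa := ha.1
    have pz := hz.1
    have pq := hq.1
    have b0 := zeroB c
    have e0 := bo2 c (show 0 ≤ z - 1 by omega)
    have e1 := bo2 c (show z + 1 ≤ q by omega)
    have e2 := be1 c (show q ≤ a - 1 by omega)
    have e3 := bo2 c (show a + 1 ≤ k by omega)
    omega
  · clear hD fD
    have sa := st_EF c (by omega) ha
    have sz := st_ET c (by omega) hz
    have sq := st_OF c (by omega) hq
    have ja := (JEF c (k := k) (q := q) (by omega) ha).1 (by omega)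
    have jz := (JET c (k := k) (q := q) (by omega) hz).2.1 (by omega)
    have jq := (JOF c (k := k) (q := q) (by omega) hq).2.2 rfl
    rw [jq, jz] at hJ
    rw [ja, jz]
    clear ja jz jq
    have pa := ha.1
    have pz := hz.1
    have pq := hq.1
    have b0 := zeroB c
    have e0 := bo2 c (show 0 ≤ z by omega)
    have e1 := bo2 c (show z + 1 ≤ q by omega)
    have e2 := be1 c (show q ≤ a - 1 by omega)
    have e3 := bo2 c (show a + 1 ≤ k by omega)
    omega
  · clear hD fD hJ
    have sa := st_EF c (by omega) ha
    have sz := st_OF c (by omega) hz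
    have sq := st_OF c (by omega) hq
    have ja := (JEF c (k := k) (q := q) (by omega) ha).1 (by omega)
    have jz := (JOF c (k := k) (q := q) (by omega) hz).2.1 (by omega)
    rw [ja, jz]
    clear ja jz
    have pa := ha.1
    have pz := hz.1
    have pq := hq.1
    have b0 := zeroB c
    have e0 := bo2 c (show 0 ≤ z by omega)
    have e1 := be2 c (show 0 ≤ z by omega)
    have e2 := be2 c (show q + 1 ≤ a by omega)
    have e3 := be1 c (show q ≤ a - 1 by omega)
    have e4 := bo2 c (show a + 1 ≤ k by omega)
    have e5 := be2 c (show a + 1 ≤ k by omega)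
    omega
  · clear hD fD hJ
    have sa := st_EF c (by omega) ha
    have sz := st_EF c (by omega) hz
    have sq := st_OF c (by omega) hq
    have ja := (JEF c (k := k) (q := q) (by omega) ha).1 (by omega)
    have jz := (JEF c (k := k) (q := q) (by omega) hz).2.1 (by omega)
    rw [ja, jz]
    clear ja jz
    have pa := ha.1
    have pz := hz.1
    have pq := hq.1
    have b0 := zeroB c
    have e0 := bo2 c (show 0 ≤ z by omega)
    have e1 := be2 c (show 0 ≤ z by omega)
    have e2 := bo2 c (show z + 1 ≤ q by omega)
    have e3 := bo1 c (show z ≤ q - 1 by omega)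
    have e4 := be2 c (show q + 1 ≤ a by omega)
    have e5 := be1 c (show q ≤ a - 1 by omega)
    have e6 := bo2 c (show a + 1 ≤ k by omega)
    have e7 := be2 c (show a + 1 ≤ k by omega)
    omega

theorem Pp_OF_azq (c : ℕ → Bool) {k q a z : ℕ} (hk : k % 2 = 1)
    (hf : 0 < a) (h0 : a < z) (h1 : z < q) (hl : q < k)
    (la : c a ≠ c (a + 1)) (lz : c z ≠ c (z + 1)) (hq : OF c q)
    (hD : S c k < 0) (fD : S c q < S c k)
    (hJ : J c k q q + 1 ≤ J c k q z) (h3 : 7 ≤ k) (qk : q + 2 ≤ k) :
    J c k q a + 2 ≤ J c k q z + ((k / 2 : ℕ) : ℤ) := by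
  rcases loaded_cases c la with ha | ha | ha | ha <;> rcases loaded_cases c lz with hz | hz | hz | hz
  · clear hD fD hJ
    have sa := st_OT c (by omega) ha
    have sz := st_OT c (by omega) hz
    have sq := st_OF c (by omega) hq
    have ja := (JOT c (k := k) (q := q) (by omega) ha).2.1 (by omega)
    have jz := (JOT c (k := k) (q := q) (by omega) hz).2.1 (by omega)
    rw [ja, jz]
    clear ja jz
    have pa := ha.1
    have pz := hz.1
    have pq := hq.1
    have b0 := zeroB c
    have e0 := be2 c (show a + 1 ≤ z by omega)
    have e1 := bo2 c (show a ≤ z - 1 by omega)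
    omega
  · clear hD fD hJ
    have sa := st_OT c (by omega) ha
    have sz := st_ET c (by omega) hz
    have sq := st_OF c (by omega) hq
    have ja := (JOT c (k := k) (q := q) (by omega) ha).2.1 (by omega)
    have jz := (JET c (k := k) (q := q) (by omega) hz).2.1 (by omega)
    rw [ja, jz]
    clear ja jz
    have pa := ha.1
    have pz := hz.1
    have pq := hq.1
    have b0 := zeroB c
    have e0 := bo2 c (show a + 1 ≤ z by omega)
    have e1 := be2 c (show a ≤ z - 1 by omega)
    omega
  · clear hD fD hJ
    have sa := st_OT c (by omega) ha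
    have sz := st_OF c (by omega) hz
    have sq := st_OF c (by omega) hq
    have ja := (JOT c (k := k) (q := q) (by omega) ha).2.1 (by omega)
    have jz := (JOF c (k := k) (q := q) (by omega) hz).2.1 (by omega)
    rw [ja, jz]
    clear ja jz
    have pa := ha.1
    have pz := hz.1
    have pq := hq.1
    have b0 := zeroB c
    have e0 := bo2 c (show a + 1 ≤ z by omega)
    have e1 := be2 c (show a + 1 ≤ z by omega)
    omega
  · clear hD fD hJ
    have sa := st_OT c (by omega) ha
    have sz := st_EF c (by omega) hz
    have sq := st_OF c (by omega) hq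
    have ja := (JOT c (k := k) (q := q) (by omega) ha).2.1 (by omega)
    have jz := (JEF c (k := k) (q := q) (by omega) hz).2.1 (by omega)
    rw [ja, jz]
    clear ja jz
    have pa := ha.1
    have pz := hz.1
    have pq := hq.1
    have b0 := zeroB c
    have e0 := bo2 c (show a + 1 ≤ z by omega)
    have e1 := be2 c (show a + 1 ≤ z by omega)
    have e2 := bo2 c (show z + 1 ≤ q by omega)
    have e3 := bo1 c (show z ≤ q - 1 by omega)
    omega
  · clear hD fD hJ
    have sa := st_ET c (by omega) ha
    have sz := st_OT c (by omega) hz
    have sq := st_OF c (by omega) hq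
    have ja := (JET c (k := k) (q := q) (by omega) ha).2.1 (by omega)
    have jz := (JOT c (k := k) (q := q) (by omega) hz).2.1 (by omega)
    rw [ja, jz]
    clear ja jz
    have pa := ha.1
    have pz := hz.1
    have pq := hq.1
    have b0 := zeroB c
    have e0 := be2 c (show a + 1 ≤ z by omega)
    have e1 := bo2 c (show a ≤ z - 1 by omega)
    omega
  · clear hD fD hJ
    have sa := st_ET c (by omega) ha
    have sz := st_ET c (by omega) hz
    have sq := st_OF c (by omega) hq
    have ja := (JET c (k := k) (q := q) (by omega) ha).2.1 (by omega)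
    have jz := (JET c (k := k) (q := q) (by omega) hz).2.1 (by omega)
    rw [ja, jz]
    clear ja jz
    have pa := ha.1
    have pz := hz.1
    have pq := hq.1
    have b0 := zeroB c
    have e0 := bo2 c (show a + 1 ≤ z by omega)
    have e1 := be2 c (show a ≤ z - 1 by omega)
    omega
  · clear hD fD hJ
    have sa := st_ET c (by omega) ha
    have sz := st_OF c (by omega) hz
    have sq := st_OF c (by omega) hq
    have ja := (JET c (k := k) (q := q) (by omega) ha).2.1 (by omega)
    have jz := (JOF c (k := k) (q := q) (by omega) hz).2.1 (by omega)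
    rw [ja, jz]
    clear ja jz
    have pa := ha.1
    have pz := hz.1
    have pq := hq.1
    have b0 := zeroB c
    have e0 := bo2 c (show a + 1 ≤ z by omega)
    have e1 := be2 c (show a + 1 ≤ z by omega)
    omega
  · clear hD fD hJ
    have sa := st_ET c (by omega) ha
    have sz := st_EF c (by omega) hz
    have sq := st_OF c (by omega) hq
    have ja := (JET c (k := k) (q := q) (by omega) ha).2.1 (by omega)
    have jz := (JEF c (k := k) (q := q) (by omega) hz).2.1 (by omega)
    rw [ja, jz]
    clear ja jz
    have pa := ha.1
    have pz := hz.1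
    have pq := hq.1
    have b0 := zeroB c
    have e0 := bo2 c (show a + 1 ≤ z by omega)
    have e1 := be2 c (show a + 1 ≤ z by omega)
    have e2 := bo2 c (show z + 1 ≤ q by omega)
    have e3 := bo1 c (show z ≤ q - 1 by omega)
    omega
  · clear hD fD hJ
    have sa := st_OF c (by omega) ha
    have sz := st_OT c (by omega) hz
    have sq := st_OF c (by omega) hq
    have ja := (JOF c (k := k) (q := q) (by omega) ha).2.1 (by omega)
    have jz := (JOT c (k := k) (q := q) (by omega) hz).2.1 (by omega)
    rw [ja, jz]
    clear ja jz
    have pa := ha.1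
    have pz := hz.1
    have pq := hq.1
    have b0 := zeroB c
    have e0 := be2 c (show a + 1 ≤ z by omega)
    have e1 := bo2 c (show a ≤ z - 1 by omega)
    omega
  · rcases Nat.eq_or_lt_of_le (show a + 1 ≤ z by omega) with hs | hs
    · clear hD fD hJ
      have sa := st_OF c (by omega) ha
      have sz := st_ET c (by omega) hz
      have sq := st_OF c (by omega) hq
      have ja := (JOF c (k := k) (q := q) (by omega) ha).2.1 (by omega)
      have jz := (JET c (k := k) (q := q) (by omega) hz).2.1 (by omega)
      rw [ja, jz]
      clear ja jz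
      have pa := ha.1
      have pz := hz.1
      have pq := hq.1
      have b0 := zeroB c
      have e0 := bo2 c (show a + 1 ≤ z by omega)
      have e1 := be2 c (show a + 1 ≤ z by omega)
      omega
    · clear hD fD hJ
      have sa := st_OF c (by omega) ha
      have sz := st_ET c (by omega) hz
      have sq := st_OF c (by omega) hq
      have ja := (JOF c (k := k) (q := q) (by omega) ha).2.1 (by omega)
      have jz := (JET c (k := k) (q := q) (by omega) hz).2.1 (by omega)
      rw [ja, jz]
      clear ja jz
      have pa := ha.1
      have pz := hz.1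
      have pq := hq.1
      have b0 := zeroB c
      have e0 := bo2 c (show a + 1 ≤ z by omega)
      have e1 := be2 c (show a + 1 ≤ z - 1 by omega)
      omega
  · clear hD fD hJ
    have sa := st_OF c (by omega) ha
    have sz := st_OF c (by omega) hz
    have sq := st_OF c (by omega) hq
    have ja := (JOF c (k := k) (q := q) (by omega) ha).2.1 (by omega)
    have jz := (JOF c (k := k) (q := q) (by omega) hz).2.1 (by omega)
    rw [ja, jz]
    clear ja jz
    have pa := ha.1
    have pz := hz.1
    have pq := hq.1
    have b0 := zeroB c
    have e0 := bo2 c (show a + 1 ≤ z by omega)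
    have e1 := be2 c (show a + 1 ≤ z by omega)
    omega
  · clear hD fD hJ
    have sa := st_OF c (by omega) ha
    have sz := st_EF c (by omega) hz
    have sq := st_OF c (by omega) hq
    have ja := (JOF c (k := k) (q := q) (by omega) ha).2.1 (by omega)
    have jz := (JEF c (k := k) (q := q) (by omega) hz).2.1 (by omega)
    rw [ja, jz]
    clear ja jz
    have pa := ha.1
    have pz := hz.1
    have pq := hq.1
    have b0 := zeroB c
    have e0 := bo2 c (show a + 1 ≤ z by omega)
    have e1 := be2 c (show a + 1 ≤ z by omega)
    have e2 := bo2 c (show z + 1 ≤ q by omega)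
    have e3 := bo1 c (show z ≤ q - 1 by omega)
    omega
  · clear hD fD hJ
    have sa := st_EF c (by omega) ha
    have sz := st_OT c (by omega) hz
    have sq := st_OF c (by omega) hq
    have ja := (JEF c (k := k) (q := q) (by omega) ha).2.1 (by omega)
    have jz := (JOT c (k := k) (q := q) (by omega) hz).2.1 (by omega)
    rw [ja, jz]
    clear ja jz
    have pa := ha.1
    have pz := hz.1
    have pq := hq.1
    have b0 := zeroB c
    have e0 := bo2 c (show a + 1 ≤ z by omega)
    have e1 := be2 c (show a + 1 ≤ z by omega)
    omega
  · clear hD fD hJ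
    have sa := st_EF c (by omega) ha
    have sz := st_ET c (by omega) hz
    have sq := st_OF c (by omega) hq
    have ja := (JEF c (k := k) (q := q) (by omega) ha).2.1 (by omega)
    have jz := (JET c (k := k) (q := q) (by omega) hz).2.1 (by omega)
    rw [ja, jz]
    clear ja jz
    have pa := ha.1
    have pz := hz.1
    have pq := hq.1
    have b0 := zeroB c
    have e0 := bo2 c (show a + 1 ≤ z by omega)
    have e1 := be2 c (show a ≤ z - 1 by omega)
    omega
  · clear hD fD hJ
    have sa := st_EF c (by omega) ha
    have sz := st_OF c (by omega) hz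
    have sq := st_OF c (by omega) hq
    have ja := (JEF c (k := k) (q := q) (by omega) ha).2.1 (by omega)
    have jz := (JOF c (k := k) (q := q) (by omega) hz).2.1 (by omega)
    rw [ja, jz]
    clear ja jz
    have pa := ha.1
    have pz := hz.1
    have pq := hq.1
    have b0 := zeroB c
    have e0 := bo2 c (show a + 1 ≤ z by omega)
    have e1 := be2 c (show a + 1 ≤ z by omega)
    omega
  · clear hD fD hJ
    have sa := st_EF c (by omega) ha
    have sz := st_EF c (by omega) hz
    have sq := st_OF c (by omega) hq
    have ja := (JEF c (k := k) (q := q) (by omega) ha).2.1 (by omega)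
    have jz := (JEF c (k := k) (q := q) (by omega) hz).2.1 (by omega)
    rw [ja, jz]
    clear ja jz
    have pa := ha.1
    have pz := hz.1
    have pq := hq.1
    have b0 := zeroB c
    have e0 := bo2 c (show a + 1 ≤ z by omega)
    have e1 := be2 c (show a + 1 ≤ z by omega)
    have e2 := bo2 c (show z + 1 ≤ q by omega)
    have e3 := bo1 c (show z ≤ q - 1 by omega)
    omega

theorem Pp_OF_zaq (c : ℕ → Bool) {k q a z : ℕ} (hk : k % 2 = 1)
    (hf : 0 < z) (h0 : z < a) (h1 : a < q) (hl : q < k)
    (la : c a ≠ c (a + 1)) (lz : c z ≠ c (z + 1)) (hq : OF c q)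
    (hD : S c k < 0) (fD : S c q < S c k)
    (hJ : J c k q q + 1 ≤ J c k q z) (h3 : 7 ≤ k) (qk : q + 2 ≤ k) :
    J c k q a + 2 ≤ J c k q z + ((k / 2 : ℕ) : ℤ) := by
  rcases loaded_cases c la with ha | ha | ha | ha <;> rcases loaded_cases c lz with hz | hz | hz | hz
  · clear hJ
    have sa := st_OT c (by omega) ha
    have sz := st_OT c (by omega) hz
    have sq := st_OF c (by omega) hq
    have ja := (JOT c (k := k) (q := q) (by omega) ha).2.1 (by omega)
    have jz := (JOT c (k := k) (q := q) (by omega) hz).2.1 (by omega)
    rw [ja, jz]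
    clear ja jz
    have pa := ha.1
    have pz := hz.1
    have pq := hq.1
    have b0 := zeroB c
    have e0 := be2 c (show 0 ≤ z by omega)
    have e1 := bo2 c (show 0 ≤ z - 1 by omega)
    have e2 := bo1 c (show z + 1 ≤ a by omega)
    have e3 := be1 c (show z + 1 ≤ a by omega)
    have e4 := bo2 c (show a + 1 ≤ q by omega)
    have e5 := be2 c (show a + 1 ≤ q by omega)
    simp only [S] at hD fD
    omega
  · clear hD fD hJ
    have sa := st_OT c (by omega) ha
    have sz := st_ET c (by omega) hz
    have sq := st_OF c (by omega) hq
    have ja := (JOT c (k := k) (q := q) (by omega) ha).2.1 (by omega)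
    have jz := (JET c (k := k) (q := q) (by omega) hz).2.1 (by omega)
    rw [ja, jz]
    clear ja jz
    have pa := ha.1
    have pz := hz.1
    have pq := hq.1
    have b0 := zeroB c
    have e0 := bo1 c (show z + 1 ≤ a by omega)
    have e1 := be1 c (show z + 1 ≤ a by omega)
    omega
  · clear hJ
    have sa := st_OT c (by omega) ha
    have sz := st_OF c (by omega) hz
    have sq := st_OF c (by omega) hq
    have ja := (JOT c (k := k) (q := q) (by omega) ha).2.1 (by omega)
    have jz := (JOF c (k := k) (q := q) (by omega) hz).2.1 (by omega)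
    rw [ja, jz]
    clear ja jz
    have pa := ha.1
    have pz := hz.1
    have pq := hq.1
    have b0 := zeroB c
    have e0 := bo2 c (show 0 ≤ z by omega)
    have e1 := be2 c (show 0 ≤ z by omega)
    have e2 := bo1 c (show z + 1 ≤ a by omega)
    have e3 := be1 c (show z + 1 ≤ a by omega)
    have e4 := bo2 c (show a + 1 ≤ q by omega)
    have e5 := be2 c (show a + 1 ≤ q by omega)
    simp only [S] at hD fD
    omega
  · clear hD fD hJ
    have sa := st_OT c (by omega) ha
    have sz := st_EF c (by omega) hz
    have sq := st_OF c (by omega) hq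
    have ja := (JOT c (k := k) (q := q) (by omega) ha).2.1 (by omega)
    have jz := (JEF c (k := k) (q := q) (by omega) hz).2.1 (by omega)
    rw [ja, jz]
    clear ja jz
    have pa := ha.1
    have pz := hz.1
    have pq := hq.1
    have b0 := zeroB c
    have e0 := bo1 c (show z + 1 ≤ a by omega)
    have e1 := be1 c (show z + 1 ≤ a by omega)
    omega
  · clear hJ
    have sa := st_ET c (by omega) ha
    have sz := st_OT c (by omega) hz
    have sq := st_OF c (by omega) hq
    have ja := (JET c (k := k) (q := q) (by omega) ha).2.1 (by omega)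
    have jz := (JOT c (k := k) (q := q) (by omega) hz).2.1 (by omega)
    rw [ja, jz]
    clear ja jz
    have pa := ha.1
    have pz := hz.1
    have pq := hq.1
    have b0 := zeroB c
    have e0 := be2 c (show 0 ≤ z by omega)
    have e1 := bo2 c (show 0 ≤ z - 1 by omega)
    have e2 := bo1 c (show z + 1 ≤ a by omega)
    have e3 := be1 c (show z + 1 ≤ a by omega)
    have e4 := bo2 c (show a + 1 ≤ q by omega)
    have e5 := be2 c (show a + 1 ≤ q by omega)
    simp only [S] at hD fD
    omega
  · clear hJ
    have sa := st_ET c (by omega) ha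
    have sz := st_ET c (by omega) hz
    have sq := st_OF c (by omega) hq
    have ja := (JET c (k := k) (q := q) (by omega) ha).2.1 (by omega)
    have jz := (JET c (k := k) (q := q) (by omega) hz).2.1 (by omega)
    rw [ja, jz]
    clear ja jz
    have pa := ha.1
    have pz := hz.1
    have pq := hq.1
    have b0 := zeroB c
    have e0 := bo2 c (show 0 ≤ z by omega)
    have e1 := be2 c (show 0 ≤ z - 1 by omega)
    have e2 := bo1 c (show z + 1 ≤ a by omega)
    have e3 := be1 c (show z + 1 ≤ a by omega)
    have e4 := bo2 c (show a + 1 ≤ q by omega)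
    have e5 := be2 c (show a + 1 ≤ q by omega)
    simp only [S] at hD fD
    omega
  · clear hJ
    have sa := st_ET c (by omega) ha
    have sz := st_OF c (by omega) hz
    have sq := st_OF c (by omega) hq
    have ja := (JET c (k := k) (q := q) (by omega) ha).2.1 (by omega)
    have jz := (JOF c (k := k) (q := q) (by omega) hz).2.1 (by omega)
    rw [ja, jz]
    clear ja jz
    have pa := ha.1
    have pz := hz.1
    have pq := hq.1
    have b0 := zeroB c
    have e0 := bo2 c (show 0 ≤ z by omega)
    have e1 := be2 c (show 0 ≤ z by omega)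
    have e2 := bo1 c (show z + 1 ≤ a by omega)
    have e3 := be1 c (show z + 1 ≤ a by omega)
    have e4 := bo2 c (show a + 1 ≤ q by omega)
    have e5 := be2 c (show a + 1 ≤ q by omega)
    simp only [S] at hD fD
    omega
  · clear hJ
    have sa := st_ET c (by omega) ha
    have sz := st_EF c (by omega) hz
    have sq := st_OF c (by omega) hq
    have ja := (JET c (k := k) (q := q) (by omega) ha).2.1 (by omega)
    have jz := (JEF c (k := k) (q := q) (by omega) hz).2.1 (by omega)
    rw [ja, jz]
    clear ja jz
    have pa := ha.1
    have pz := hz.1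
    have pq := hq.1
    have b0 := zeroB c
    have e0 := bo2 c (show 0 ≤ z by omega)
    have e1 := be2 c (show 0 ≤ z by omega)
    have e2 := bo1 c (show z + 1 ≤ a by omega)
    have e3 := be1 c (show z + 1 ≤ a by omega)
    have e4 := bo2 c (show a + 1 ≤ q by omega)
    have e5 := be2 c (show a + 1 ≤ q by omega)
    simp only [S] at hD fD
    omega
  · clear hJ
    have sa := st_OF c (by omega) ha
    have sz := st_OT c (by omega) hz
    have sq := st_OF c (by omega) hq
    have ja := (JOF c (k := k) (q := q) (by omega) ha).2.1 (by omega)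
    have jz := (JOT c (k := k) (q := q) (by omega) hz).2.1 (by omega)
    rw [ja, jz]
    clear ja jz
    have pa := ha.1
    have pz := hz.1
    have pq := hq.1
    have b0 := zeroB c
    have e0 := be2 c (show 0 ≤ z by omega)
    have e1 := bo2 c (show 0 ≤ z - 1 by omega)
    have e2 := be1 c (show z + 1 ≤ a by omega)
    have e3 := bo1 c (show z ≤ a - 1 by omega)
    have e4 := bo2 c (show a + 1 ≤ q by omega)
    have e5 := be2 c (show a + 1 ≤ q by omega)
    simp only [S] at hD fD
    omega
  · clear hJ
    have sa := st_OF c (by omega) ha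
    have sz := st_ET c (by omega) hz
    have sq := st_OF c (by omega) hq
    have ja := (JOF c (k := k) (q := q) (by omega) ha).2.1 (by omega)
    have jz := (JET c (k := k) (q := q) (by omega) hz).2.1 (by omega)
    rw [ja, jz]
    clear ja jz
    have pa := ha.1
    have pz := hz.1
    have pq := hq.1
    have b0 := zeroB c
    have e0 := bo2 c (show 0 ≤ z by omega)
    have e1 := be2 c (show 0 ≤ z - 1 by omega)
    have e2 := bo1 c (show z + 1 ≤ a by omega)
    have e3 := be1 c (show z + 1 ≤ a by omega)
    have e4 := bo2 c (show a + 1 ≤ q by omega)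
    have e5 := be2 c (show a + 1 ≤ q by omega)
    simp only [S] at hD fD
    omega
  · clear hJ
    have sa := st_OF c (by omega) ha
    have sz := st_OF c (by omega) hz
    have sq := st_OF c (by omega) hq
    have ja := (JOF c (k := k) (q := q) (by omega) ha).2.1 (by omega)
    have jz := (JOF c (k := k) (q := q) (by omega) hz).2.1 (by omega)
    rw [ja, jz]
    clear ja jz
    have pa := ha.1
    have pz := hz.1
    have pq := hq.1
    have b0 := zeroB c
    have e0 := bo2 c (show 0 ≤ z by omega)
    have e1 := be2 c (show 0 ≤ z by omega)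
    have e2 := be1 c (show z + 1 ≤ a by omega)
    have e3 := bo1 c (show z ≤ a - 1 by omega)
    have e4 := bo2 c (show a + 1 ≤ q by omega)
    have e5 := be2 c (show a + 1 ≤ q by omega)
    simp only [S] at hD fD
    omega
  · clear hD fD hJ
    have sa := st_OF c (by omega) ha
    have sz := st_EF c (by omega) hz
    have sq := st_OF c (by omega) hq
    have ja := (JOF c (k := k) (q := q) (by omega) ha).2.1 (by omega)
    have jz := (JEF c (k := k) (q := q) (by omega) hz).2.1 (by omega)
    rw [ja, jz]
    clear ja jz
    have pa := ha.1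
    have pz := hz.1
    have pq := hq.1
    have b0 := zeroB c
    have e0 := be1 c (show z + 1 ≤ a by omega)
    have e1 := bo1 c (show z ≤ a - 1 by omega)
    omega
  · clear hJ
    have sa := st_EF c (by omega) ha
    have sz := st_OT c (by omega) hz
    have sq := st_OF c (by omega) hq
    have ja := (JEF c (k := k) (q := q) (by omega) ha).2.1 (by omega)
    have jz := (JOT c (k := k) (q := q) (by omega) hz).2.1 (by omega)
    rw [ja, jz]
    clear ja jz
    have pa := ha.1
    have pz := hz.1
    have pq := hq.1
    have b0 := zeroB c
    have e0 := be2 c (show 0 ≤ z by omega)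
    have e1 := bo2 c (show 0 ≤ z - 1 by omega)
    have e2 := bo1 c (show z + 1 ≤ a by omega)
    have e3 := be1 c (show z + 1 ≤ a by omega)
    have e4 := bo2 c (show a + 1 ≤ q by omega)
    have e5 := be2 c (show a + 1 ≤ q by omega)
    simp only [S] at hD fD
    omega
  · clear hD fD hJ
    have sa := st_EF c (by omega) ha
    have sz := st_ET c (by omega) hz
    have sq := st_OF c (by omega) hq
    have ja := (JEF c (k := k) (q := q) (by omega) ha).2.1 (by omega)
    have jz := (JET c (k := k) (q := q) (by omega) hz).2.1 (by omega)
    rw [ja, jz]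
    clear ja jz
    have pa := ha.1
    have pz := hz.1
    have pq := hq.1
    have b0 := zeroB c
    have e0 := bo1 c (show z + 1 ≤ a by omega)
    have e1 := be1 c (show z ≤ a - 1 by omega)
    have e2 := bo2 c (show a + 1 ≤ q by omega)
    have e3 := bo1 c (show a ≤ q - 1 by omega)
    omega
  · clear hJ
    have sa := st_EF c (by omega) ha
    have sz := st_OF c (by omega) hz
    have sq := st_OF c (by omega) hq
    have ja := (JEF c (k := k) (q := q) (by omega) ha).2.1 (by omega)
    have jz := (JOF c (k := k) (q := q) (by omega) hz).2.1 (by omega)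
    rw [ja, jz]
    clear ja jz
    have pa := ha.1
    have pz := hz.1
    have pq := hq.1
    have b0 := zeroB c
    have e0 := bo2 c (show 0 ≤ z by omega)
    have e1 := be2 c (show 0 ≤ z by omega)
    have e2 := bo1 c (show z + 1 ≤ a by omega)
    have e3 := be1 c (show z ≤ a - 1 by omega)
    have e4 := bo2 c (show a + 1 ≤ q by omega)
    have e5 := be2 c (show a + 1 ≤ q by omega)
    simp only [S] at hD fD
    omega
  · clear hD fD hJ
    have sa := st_EF c (by omega) ha
    have sz := st_EF c (by omega) hz
    have sq := st_OF c (by omega) hq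
    have ja := (JEF c (k := k) (q := q) (by omega) ha).2.1 (by omega)
    have jz := (JEF c (k := k) (q := q) (by omega) hz).2.1 (by omega)
    rw [ja, jz]
    clear ja jz
    have pa := ha.1
    have pz := hz.1
    have pq := hq.1
    have b0 := zeroB c
    have e0 := bo1 c (show z + 1 ≤ a by omega)
    have e1 := be1 c (show z ≤ a - 1 by omega)
    have e2 := bo2 c (show a + 1 ≤ q by omega)
    have e3 := bo1 c (show a ≤ q - 1 by omega)
    omega

theorem Pp_EF_qaz (c : ℕ → Bool) {k q a z : ℕ} (hk : k % 2 = 1)
    (hf : 0 < q) (h0 : q < a) (h1 : a < z) (hl : z < k)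
    (la : c a ≠ c (a + 1)) (lz : c z ≠ c (z + 1)) (hq : EF c q)
    (hD : S c k < 0) (fD : S c q < S c k)
    (hJ : J c k q q + 1 ≤ J c k q z) (h3 : 7 ≤ k) (qk : q + 2 ≤ k) :
    J c k q a + 2 ≤ J c k q z + ((k / 2 : ℕ) : ℤ) := by
  rcases loaded_cases c la with ha | ha | ha | ha <;> rcases loaded_cases c lz with hz | hz | hz | hz
  · clear hD hJ
    have sa := st_OT c (by omega) ha
    have sz := st_OT c (by omega) hz
    have sq := st_EF c (by omega) hq
    have ja := (JOT c (k := k) (q := q) (by omega) ha).1 (by omega)
    have jz := (JOT c (k := k) (q := q) (by omega) hz).1 (by omega)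
    rw [ja, jz]
    clear ja jz
    have pa := ha.1
    have pz := hz.1
    have pq := hq.1
    have b0 := zeroB c
    have e0 := bo1 c (show q + 1 ≤ a by omega)
    have e1 := be1 c (show q + 1 ≤ a by omega)
    have e2 := be2 c (show a + 1 ≤ z by omega)
    have e3 := bo2 c (show a ≤ z - 1 by omega)
    have e4 := bo1 c (show z + 1 ≤ k by omega)
    have e5 := be1 c (show z + 1 ≤ k by omega)
    simp only [S] at fD
    omega
  · clear hD fD
    have sa := st_OT c (by omega) ha
    have sz := st_ET c (by omega) hz
    have sq := st_EF c (by omega) hq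
    have ja := (JOT c (k := k) (q := q) (by omega) ha).1 (by omega)
    have jz := (JET c (k := k) (q := q) (by omega) hz).1 (by omega)
    have jq := (JEF c (k := k) (q := q) (by omega) hq).2.2 rfl
    rw [jq, jz] at hJ
    rw [ja, jz]
    clear ja jz jq
    have pa := ha.1
    have pz := hz.1
    have pq := hq.1
    have b0 := zeroB c
    have e0 := be2 c (show 0 ≤ q by omega)
    have e1 := bo1 c (show q + 1 ≤ a by omega)
    have e2 := be2 c (show a ≤ z - 1 by omega)
    have e3 := be2 c (show z + 1 ≤ k by omega)
    omega
  · clear hD
    have sa := st_OT c (by omega) ha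
    have sz := st_OF c (by omega) hz
    have sq := st_EF c (by omega) hq
    have ja := (JOT c (k := k) (q := q) (by omega) ha).1 (by omega)
    have jz := (JOF c (k := k) (q := q) (by omega) hz).1 (by omega)
    have jq := (JEF c (k := k) (q := q) (by omega) hq).2.2 rfl
    rw [jq, jz] at hJ
    rw [ja, jz]
    clear ja jz jq
    have pa := ha.1
    have pz := hz.1
    have pq := hq.1
    have b0 := zeroB c
    have e0 := be2 c (show 0 ≤ q by omega)
    have e1 := bo1 c (show q + 1 ≤ a by omega)
    have e2 := be1 c (show q + 1 ≤ a by omega)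
    have e3 := bo2 c (show a + 1 ≤ z by omega)
    have e4 := be2 c (show a + 1 ≤ z by omega)
    have e5 := bo1 c (show z + 1 ≤ k by omega)
    simp only [S] at fD
    omega
  · clear hD hJ
    have sa := st_OT c (by omega) ha
    have sz := st_EF c (by omega) hz
    have sq := st_EF c (by omega) hq
    have ja := (JOT c (k := k) (q := q) (by omega) ha).1 (by omega)
    have jz := (JEF c (k := k) (q := q) (by omega) hz).1 (by omega)
    rw [ja, jz]
    clear ja jz
    have pa := ha.1
    have pz := hz.1
    have pq := hq.1
    have b0 := zeroB c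
    have e0 := bo1 c (show q + 1 ≤ a by omega)
    have e1 := be1 c (show q + 1 ≤ a by omega)
    have e2 := bo2 c (show a + 1 ≤ z by omega)
    have e3 := be2 c (show a + 1 ≤ z by omega)
    have e4 := bo1 c (show z + 1 ≤ k by omega)
    have e5 := be1 c (show z + 1 ≤ k by omega)
    simp only [S] at fD
    omega
  · clear hD fD hJ
    have sa := st_ET c (by omega) ha
    have sz := st_OT c (by omega) hz
    have sq := st_EF c (by omega) hq
    have ja := (JET c (k := k) (q := q) (by omega) ha).1 (by omega)
    have jz := (JOT c (k := k) (q := q) (by omega) hz).1 (by omega)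
    rw [ja, jz]
    clear ja jz
    have pa := ha.1
    have pz := hz.1
    have pq := hq.1
    have b0 := zeroB c
    have e0 := be2 c (show a + 1 ≤ z by omega)
    have e1 := bo2 c (show a ≤ z - 1 by omega)
    omega
  · clear hD fD
    have sa := st_ET c (by omega) ha
    have sz := st_ET c (by omega) hz
    have sq := st_EF c (by omega) hq
    have ja := (JET c (k := k) (q := q) (by omega) ha).1 (by omega)
    have jz := (JET c (k := k) (q := q) (by omega) hz).1 (by omega)
    have jq := (JEF c (k := k) (q := q) (by omega) hq).2.2 rfl
    rw [jq, jz] at hJ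
    rw [ja, jz]
    clear ja jz jq
    have pa := ha.1
    have pz := hz.1
    have pq := hq.1
    have b0 := zeroB c
    have e0 := be2 c (show 0 ≤ q by omega)
    have e1 := bo1 c (show q + 1 ≤ a by omega)
    have e2 := be2 c (show a ≤ z - 1 by omega)
    have e3 := be2 c (show z + 1 ≤ k by omega)
    omega
  · clear hD fD hJ
    have sa := st_ET c (by omega) ha
    have sz := st_OF c (by omega) hz
    have sq := st_EF c (by omega) hq
    have ja := (JET c (k := k) (q := q) (by omega) ha).1 (by omega)
    have jz := (JOF c (k := k) (q := q) (by omega) hz).1 (by omega)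
    rw [ja, jz]
    clear ja jz
    have pa := ha.1
    have pz := hz.1
    have pq := hq.1
    have b0 := zeroB c
    have e0 := bo2 c (show a + 1 ≤ z by omega)
    have e1 := be2 c (show a + 1 ≤ z by omega)
    omega
  · clear hD hJ
    have sa := st_ET c (by omega) ha
    have sz := st_EF c (by omega) hz
    have sq := st_EF c (by omega) hq
    have ja := (JET c (k := k) (q := q) (by omega) ha).1 (by omega)
    have jz := (JEF c (k := k) (q := q) (by omega) hz).1 (by omega)
    rw [ja, jz]
    clear ja jz
    have pa := ha.1
    have pz := hz.1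
    have pq := hq.1
    have b0 := zeroB c
    have e0 := bo1 c (show q + 1 ≤ a by omega)
    have e1 := be1 c (show q + 1 ≤ a by omega)
    have e2 := bo2 c (show a + 1 ≤ z by omega)
    have e3 := be2 c (show a + 1 ≤ z by omega)
    have e4 := bo1 c (show z + 1 ≤ k by omega)
    have e5 := be1 c (show z + 1 ≤ k by omega)
    simp only [S] at fD
    omega
  · clear hD fD hJ
    have sa := st_OF c (by omega) ha
    have sz := st_OT c (by omega) hz
    have sq := st_EF c (by omega) hq
    have ja := (JOF c (k := k) (q := q) (by omega) ha).1 (by omega)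
    have jz := (JOT c (k := k) (q := q) (by omega) hz).1 (by omega)
    rw [ja, jz]
    clear ja jz
    have pa := ha.1
    have pz := hz.1
    have pq := hq.1
    have b0 := zeroB c
    have e0 := bo2 c (show q + 1 ≤ a by omega)
    have e1 := bo1 c (show q ≤ a - 1 by omega)
    have e2 := be2 c (show a + 1 ≤ z by omega)
    have e3 := bo2 c (show a ≤ z - 1 by omega)
    omega
  · clear hD fD
    have sa := st_OF c (by omega) ha
    have sz := st_ET c (by omega) hz
    have sq := st_EF c (by omega) hq
    have ja := (JOF c (k := k) (q := q) (by omega) ha).1 (by omega)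
    have jz := (JET c (k := k) (q := q) (by omega) hz).1 (by omega)
    have jq := (JEF c (k := k) (q := q) (by omega) hq).2.2 rfl
    rw [jq, jz] at hJ
    rw [ja, jz]
    clear ja jz jq
    have pa := ha.1
    have pz := hz.1
    have pq := hq.1
    have b0 := zeroB c
    have e0 := be2 c (show 0 ≤ q by omega)
    have e1 := bo1 c (show q ≤ a - 1 by omega)
    have e2 := be2 c (show a + 1 ≤ z by omega)
    have e3 := be2 c (show z + 1 ≤ k by omega)
    omega
  · clear hD fD
    have sa := st_OF c (by omega) ha
    have sz := st_OF c (by omega) hz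
    have sq := st_EF c (by omega) hq
    have ja := (JOF c (k := k) (q := q) (by omega) ha).1 (by omega)
    have jz := (JOF c (k := k) (q := q) (by omega) hz).1 (by omega)
    have jq := (JEF c (k := k) (q := q) (by omega) hq).2.2 rfl
    rw [jq, jz] at hJ
    rw [ja, jz]
    clear ja jz jq
    have pa := ha.1
    have pz := hz.1
    have pq := hq.1
    have b0 := zeroB c
    have e0 := be2 c (show 0 ≤ q by omega)
    have e1 := bo1 c (show q ≤ a - 1 by omega)
    have e2 := be2 c (show a + 1 ≤ z by omega)
    have e3 := be2 c (show z + 1 ≤ k by omega)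
    omega
  · clear hD hJ
    have sa := st_OF c (by omega) ha
    have sz := st_EF c (by omega) hz
    have sq := st_EF c (by omega) hq
    have ja := (JOF c (k := k) (q := q) (by omega) ha).1 (by omega)
    have jz := (JEF c (k := k) (q := q) (by omega) hz).1 (by omega)
    rw [ja, jz]
    clear ja jz
    have pa := ha.1
    have pz := hz.1
    have pq := hq.1
    have b0 := zeroB c
    have e0 := be1 c (show q + 1 ≤ a by omega)
    have e1 := bo1 c (show q ≤ a - 1 by omega)
    have e2 := bo2 c (show a + 1 ≤ z by omega)
    have e3 := be2 c (show a + 1 ≤ z by omega)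
    have e4 := bo1 c (show z + 1 ≤ k by omega)
    have e5 := be1 c (show z + 1 ≤ k by omega)
    simp only [S] at fD
    omega
  · clear hD hJ
    have sa := st_EF c (by omega) ha
    have sz := st_OT c (by omega) hz
    have sq := st_EF c (by omega) hq
    have ja := (JEF c (k := k) (q := q) (by omega) ha).1 (by omega)
    have jz := (JOT c (k := k) (q := q) (by omega) hz).1 (by omega)
    rw [ja, jz]
    clear ja jz
    have pa := ha.1
    have pz := hz.1
    have pq := hq.1
    have b0 := zeroB c
    have e0 := bo1 c (show q + 1 ≤ a by omega)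
    have e1 := be1 c (show q ≤ a - 1 by omega)
    have e2 := bo2 c (show a + 1 ≤ z by omega)
    have e3 := be2 c (show a + 1 ≤ z by omega)
    have e4 := bo1 c (show z + 1 ≤ k by omega)
    have e5 := be1 c (show z + 1 ≤ k by omega)
    simp only [S] at fD
    omega
  · clear hD
    have sa := st_EF c (by omega) ha
    have sz := st_ET c (by omega) hz
    have sq := st_EF c (by omega) hq
    have ja := (JEF c (k := k) (q := q) (by omega) ha).1 (by omega)
    have jz := (JET c (k := k) (q := q) (by omega) hz).1 (by omega)
    have jq := (JEF c (k := k) (q := q) (by omega) hq).2.2 rfl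
    rw [jq, jz] at hJ
    rw [ja, jz]
    clear ja jz jq
    have pa := ha.1
    have pz := hz.1
    have pq := hq.1
    have b0 := zeroB c
    have e0 := be2 c (show 0 ≤ q by omega)
    have e1 := bo1 c (show q + 1 ≤ a by omega)
    have e2 := be1 c (show q ≤ a - 1 by omega)
    have e3 := bo2 c (show a + 1 ≤ z by omega)
    have e4 := be2 c (show a ≤ z - 1 by omega)
    have e5 := bo1 c (show z + 1 ≤ k by omega)
    simp only [S] at fD
    omega
  · clear hD fD hJ
    have sa := st_EF c (by omega) ha
    have sz := st_OF c (by omega) hz
    have sq := st_EF c (by omega) hq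
    have ja := (JEF c (k := k) (q := q) (by omega) ha).1 (by omega)
    have jz := (JOF c (k := k) (q := q) (by omega) hz).1 (by omega)
    rw [ja, jz]
    clear ja jz
    have pa := ha.1
    have pz := hz.1
    have pq := hq.1
    have b0 := zeroB c
    have e0 := bo2 c (show a + 1 ≤ z by omega)
    have e1 := be2 c (show a + 1 ≤ z by omega)
    omega
  · clear hD hJ
    have sa := st_EF c (by omega) ha
    have sz := st_EF c (by omega) hz
    have sq := st_EF c (by omega) hq
    have ja := (JEF c (k := k) (q := q) (by omega) ha).1 (by omega)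
    have jz := (JEF c (k := k) (q := q) (by omega) hz).1 (by omega)
    rw [ja, jz]
    clear ja jz
    have pa := ha.1
    have pz := hz.1
    have pq := hq.1
    have b0 := zeroB c
    have e0 := bo1 c (show q + 1 ≤ a by omega)
    have e1 := be1 c (show q ≤ a - 1 by omega)
    have e2 := bo2 c (show a + 1 ≤ z by omega)
    have e3 := be2 c (show a + 1 ≤ z by omega)
    have e4 := bo1 c (show z + 1 ≤ k by omega)
    have e5 := be1 c (show z + 1 ≤ k by omega)
    simp only [S] at fD
    omega

theorem Pp_EF_qza (c : ℕ → Bool) {k q a z : ℕ} (hk : k % 2 = 1)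
    (hf : 0 < q) (h0 : q < z) (h1 : z < a) (hl : a < k)
    (la : c a ≠ c (a + 1)) (lz : c z ≠ c (z + 1)) (hq : EF c q)
    (hD : S c k < 0) (fD : S c q < S c k)
    (hJ : J c k q q + 1 ≤ J c k q z) (h3 : 7 ≤ k) (qk : q + 2 ≤ k) :
    J c k q a + 2 ≤ J c k q z + ((k / 2 : ℕ) : ℤ) := by
  rcases loaded_cases c la with ha | ha | ha | ha <;> rcases loaded_cases c lz with hz | hz | hz | hz
  · clear hD fD hJ
    have sa := st_OT c (by omega) ha
    have sz := st_OT c (by omega) hz
    have sq := st_EF c (by omega) hq
    have ja := (JOT c (k := k) (q := q) (by omega) ha).1 (by omega)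
    have jz := (JOT c (k := k) (q := q) (by omega) hz).1 (by omega)
    rw [ja, jz]
    clear ja jz
    have pa := ha.1
    have pz := hz.1
    have pq := hq.1
    have b0 := zeroB c
    have e0 := bo1 c (show z + 1 ≤ a by omega)
    have e1 := be1 c (show z + 1 ≤ a by omega)
    omega
  · clear hD fD hJ
    have sa := st_OT c (by omega) ha
    have sz := st_ET c (by omega) hz
    have sq := st_EF c (by omega) hq
    have ja := (JOT c (k := k) (q := q) (by omega) ha).1 (by omega)
    have jz := (JET c (k := k) (q := q) (by omega) hz).1 (by omega)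
    rw [ja, jz]
    clear ja jz
    have pa := ha.1
    have pz := hz.1
    have pq := hq.1
    have b0 := zeroB c
    have e0 := bo1 c (show z + 1 ≤ a by omega)
    have e1 := be1 c (show z + 1 ≤ a by omega)
    omega
  · clear hD fD hJ
    have sa := st_OT c (by omega) ha
    have sz := st_OF c (by omega) hz
    have sq := st_EF c (by omega) hq
    have ja := (JOT c (k := k) (q := q) (by omega) ha).1 (by omega)
    have jz := (JOF c (k := k) (q := q) (by omega) hz).1 (by omega)
    rw [ja, jz]
    clear ja jz
    have pa := ha.1
    have pz := hz.1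
    have pq := hq.1
    have b0 := zeroB c
    have e0 := bo2 c (show q + 1 ≤ z by omega)
    have e1 := bo1 c (show q ≤ z - 1 by omega)
    have e2 := bo1 c (show z + 1 ≤ a by omega)
    have e3 := be1 c (show z + 1 ≤ a by omega)
    omega
  · clear hD fD hJ
    have sa := st_OT c (by omega) ha
    have sz := st_EF c (by omega) hz
    have sq := st_EF c (by omega) hq
    have ja := (JOT c (k := k) (q := q) (by omega) ha).1 (by omega)
    have jz := (JEF c (k := k) (q := q) (by omega) hz).1 (by omega)
    rw [ja, jz]
    clear ja jz
    have pa := ha.1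
    have pz := hz.1
    have pq := hq.1
    have b0 := zeroB c
    have e0 := bo1 c (show z + 1 ≤ a by omega)
    have e1 := be1 c (show z + 1 ≤ a by omega)
    omega
  · clear fD
    have sa := st_ET c (by omega) ha
    have sz := st_OT c (by omega) hz
    have sq := st_EF c (by omega) hq
    have ja := (JET c (k := k) (q := q) (by omega) ha).1 (by omega)
    have jz := (JOT c (k := k) (q := q) (by omega) hz).1 (by omega)
    have jq := (JEF c (k := k) (q := q) (by omega) hq).2.2 rfl
    rw [jq, jz] at hJ
    rw [ja, jz]
    clear ja jz jq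
    have pa := ha.1
    have pz := hz.1
    have pq := hq.1
    have b0 := zeroB c
    have e0 := bo2 c (show 0 ≤ q by omega)
    have e1 := be2 c (show 0 ≤ q by omega)
    have e2 := be2 c (show q + 1 ≤ z by omega)
    have e3 := bo1 c (show z + 1 ≤ a by omega)
    have e4 := be1 c (show z + 1 ≤ a by omega)
    have e5 := bo2 c (show a + 1 ≤ k by omega)
    have e6 := be2 c (show a + 1 ≤ k by omega)
    simp only [S] at hD
    omega
  · clear hD fD
    have sa := st_ET c (by omega) ha
    have sz := st_ET c (by omega) hz
    have sq := st_EF c (by omega) hq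
    have ja := (JET c (k := k) (q := q) (by omega) ha).1 (by omega)
    have jz := (JET c (k := k) (q := q) (by omega) hz).1 (by omega)
    have jq := (JEF c (k := k) (q := q) (by omega) hq).2.2 rfl
    rw [jq, jz] at hJ
    rw [ja, jz]
    clear ja jz jq
    have pa := ha.1
    have pz := hz.1
    have pq := hq.1
    have b0 := zeroB c
    have e0 := be2 c (show 0 ≤ q by omega)
    have e1 := bo1 c (show q + 1 ≤ z by omega)
    have e2 := bo1 c (show z + 1 ≤ a by omega)
    have e3 := be2 c (show a + 1 ≤ k by omega)
    omega
  · clear hD fD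
    have sa := st_ET c (by omega) ha
    have sz := st_OF c (by omega) hz
    have sq := st_EF c (by omega) hq
    have ja := (JET c (k := k) (q := q) (by omega) ha).1 (by omega)
    have jz := (JOF c (k := k) (q := q) (by omega) hz).1 (by omega)
    have jq := (JEF c (k := k) (q := q) (by omega) hq).2.2 rfl
    rw [jq, jz] at hJ
    rw [ja, jz]
    clear ja jz jq
    have pa := ha.1
    have pz := hz.1
    have pq := hq.1
    have b0 := zeroB c
    have e0 := be2 c (show 0 ≤ q by omega)
    have e1 := bo1 c (show q ≤ z - 1 by omega)
    have e2 := bo1 c (show z + 1 ≤ a by omega)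
    have e3 := be2 c (show a + 1 ≤ k by omega)
    omega
  · clear hD fD hJ
    have sa := st_ET c (by omega) ha
    have sz := st_EF c (by omega) hz
    have sq := st_EF c (by omega) hq
    have ja := (JET c (k := k) (q := q) (by omega) ha).1 (by omega)
    have jz := (JEF c (k := k) (q := q) (by omega) hz).1 (by omega)
    rw [ja, jz]
    clear ja jz
    have pa := ha.1
    have pz := hz.1
    have pq := hq.1
    have b0 := zeroB c
    have e0 := bo1 c (show z + 1 ≤ a by omega)
    have e1 := be1 c (show z + 1 ≤ a by omega)
    omega
  · clear hD fD hJ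
    have sa := st_OF c (by omega) ha
    have sz := st_OT c (by omega) hz
    have sq := st_EF c (by omega) hq
    have ja := (JOF c (k := k) (q := q) (by omega) ha).1 (by omega)
    have jz := (JOT c (k := k) (q := q) (by omega) hz).1 (by omega)
    rw [ja, jz]
    clear ja jz
    have pa := ha.1
    have pz := hz.1
    have pq := hq.1
    have b0 := zeroB c
    have e0 := be1 c (show z + 1 ≤ a by omega)
    have e1 := bo1 c (show z ≤ a - 1 by omega)
    omega
  · clear hD fD
    have sa := st_OF c (by omega) ha
    have sz := st_ET c (by omega) hz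
    have sq := st_EF c (by omega) hq
    have ja := (JOF c (k := k) (q := q) (by omega) ha).1 (by omega)
    have jz := (JET c (k := k) (q := q) (by omega) hz).1 (by omega)
    have jq := (JEF c (k := k) (q := q) (by omega) hq).2.2 rfl
    rw [jq, jz] at hJ
    rw [ja, jz]
    clear ja jz jq
    have pa := ha.1
    have pz := hz.1
    have pq := hq.1
    have b0 := zeroB c
    have e0 := be2 c (show 0 ≤ q by omega)
    have e1 := bo1 c (show q + 1 ≤ z by omega)
    have e2 := bo1 c (show z + 1 ≤ a by omega)
    have e3 := be2 c (show a + 1 ≤ k by omega)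
    omega
  · clear hD fD
    have sa := st_OF c (by omega) ha
    have sz := st_OF c (by omega) hz
    have sq := st_EF c (by omega) hq
    have ja := (JOF c (k := k) (q := q) (by omega) ha).1 (by omega)
    have jz := (JOF c (k := k) (q := q) (by omega) hz).1 (by omega)
    have jq := (JEF c (k := k) (q := q) (by omega) hq).2.2 rfl
    rw [jq, jz] at hJ
    rw [ja, jz]
    clear ja jz jq
    have pa := ha.1
    have pz := hz.1
    have pq := hq.1
    have b0 := zeroB c
    have e0 := be2 c (show 0 ≤ q by omega)
    have e1 := bo1 c (show q ≤ z - 1 by omega)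
    have e2 := bo1 c (show z ≤ a - 1 by omega)
    have e3 := be2 c (show a + 1 ≤ k by omega)
    omega
  · clear hD fD hJ
    have sa := st_OF c (by omega) ha
    have sz := st_EF c (by omega) hz
    have sq := st_EF c (by omega) hq
    have ja := (JOF c (k := k) (q := q) (by omega) ha).1 (by omega)
    have jz := (JEF c (k := k) (q := q) (by omega) hz).1 (by omega)
    rw [ja, jz]
    clear ja jz
    have pa := ha.1
    have pz := hz.1
    have pq := hq.1
    have b0 := zeroB c
    have e0 := be1 c (show z + 1 ≤ a by omega)
    have e1 := bo1 c (show z ≤ a - 1 by omega)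
    omega
  · clear fD hJ
    have sa := st_EF c (by omega) ha
    have sz := st_OT c (by omega) hz
    have sq := st_EF c (by omega) hq
    have ja := (JEF c (k := k) (q := q) (by omega) ha).1 (by omega)
    have jz := (JOT c (k := k) (q := q) (by omega) hz).1 (by omega)
    rw [ja, jz]
    clear ja jz
    have pa := ha.1
    have pz := hz.1
    have pq := hq.1
    have b0 := zeroB c
    have e0 := bo2 c (show 0 ≤ q by omega)
    have e1 := be2 c (show 0 ≤ q by omega)
    have e2 := bo2 c (show q + 1 ≤ z by omega)
    have e3 := be2 c (show q + 1 ≤ z by omega)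
    have e4 := bo1 c (show z + 1 ≤ a by omega)
    have e5 := be1 c (show z + 1 ≤ a by omega)
    have e6 := bo2 c (show a + 1 ≤ k by omega)
    have e7 := be2 c (show a + 1 ≤ k by omega)
    simp only [S] at hD
    omega
  · clear fD
    have sa := st_EF c (by omega) ha
    have sz := st_ET c (by omega) hz
    have sq := st_EF c (by omega) hq
    have ja := (JEF c (k := k) (q := q) (by omega) ha).1 (by omega)
    have jz := (JET c (k := k) (q := q) (by omega) hz).1 (by omega)
    have jq := (JEF c (k := k) (q := q) (by omega) hq).2.2 rfl
    rw [jq, jz] at hJ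
    rw [ja, jz]
    clear ja jz jq
    have pa := ha.1
    have pz := hz.1
    have pq := hq.1
    have b0 := zeroB c
    have e0 := bo2 c (show 0 ≤ q by omega)
    have e1 := be2 c (show 0 ≤ q by omega)
    have e2 := be2 c (show q ≤ z - 1 by omega)
    have e3 := bo1 c (show z + 1 ≤ a by omega)
    have e4 := be1 c (show z ≤ a - 1 by omega)
    have e5 := bo2 c (show a + 1 ≤ k by omega)
    have e6 := be2 c (show a + 1 ≤ k by omega)
    simp only [S] at hD
    omega
  · clear hD fD hJ
    have sa := st_EF c (by omega) ha
    have sz := st_OF c (by omega) hz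
    have sq := st_EF c (by omega) hq
    have ja := (JEF c (k := k) (q := q) (by omega) ha).1 (by omega)
    have jz := (JOF c (k := k) (q := q) (by omega) hz).1 (by omega)
    rw [ja, jz]
    clear ja jz
    have pa := ha.1
    have pz := hz.1
    have pq := hq.1
    have b0 := zeroB c
    have e0 := bo2 c (show q + 1 ≤ z by omega)
    have e1 := bo1 c (show q ≤ z - 1 by omega)
    have e2 := bo1 c (show z + 1 ≤ a by omega)
    have e3 := be1 c (show z ≤ a - 1 by omega)
    omega
  · clear hD fD hJ
    have sa := st_EF c (by omega) ha
    have sz := st_EF c (by omega) hz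
    have sq := st_EF c (by omega) hq
    have ja := (JEF c (k := k) (q := q) (by omega) ha).1 (by omega)
    have jz := (JEF c (k := k) (q := q) (by omega) hz).1 (by omega)
    rw [ja, jz]
    clear ja jz
    have pa := ha.1
    have pz := hz.1
    have pq := hq.1
    have b0 := zeroB c
    have e0 := bo1 c (show z + 1 ≤ a by omega)
    have e1 := be1 c (show z ≤ a - 1 by omega)
    omega

theorem Pp_EF_aqz (c : ℕ → Bool) {k q a z : ℕ} (hk : k % 2 = 1)
    (hf : 0 < a) (h0 : a < q) (h1 : q < z) (hl : z < k)
    (la : c a ≠ c (a + 1)) (lz : c z ≠ c (z + 1)) (hq : EF c q)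
    (hD : S c k < 0) (fD : S c q < S c k)
    (hJ : J c k q q + 1 ≤ J c k q z) (h3 : 7 ≤ k) (qk : q + 2 ≤ k) :
    J c k q a + 2 ≤ J c k q z + ((k / 2 : ℕ) : ℤ) := by
  rcases loaded_cases c la with ha | ha | ha | ha <;> rcases loaded_cases c lz with hz | hz | hz | hz
  · clear fD hJ
    have sa := st_OT c (by omega) ha
    have sz := st_OT c (by omega) hz
    have sq := st_EF c (by omega) hq
    have ja := (JOT c (k := k) (q := q) (by omega) ha).2.1 (by omega)
    have jz := (JOT c (k := k) (q := q) (by omega) hz).1 (by omega)
    rw [ja, jz]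
    clear ja jz
    have pa := ha.1
    have pz := hz.1
    have pq := hq.1
    have b0 := zeroB c
    have e0 := bo1 c (show 0 ≤ a by omega)
    have e1 := be1 c (show 0 ≤ a by omega)
    have e2 := bo2 c (show a + 1 ≤ q by omega)
    have e3 := be2 c (show a + 1 ≤ q by omega)
    have e4 := bo2 c (show q + 1 ≤ z by omega)
    have e5 := be2 c (show q + 1 ≤ z by omega)
    have e6 := bo1 c (show z + 1 ≤ k by omega)
    have e7 := be1 c (show z + 1 ≤ k by omega)
    simp only [S] at hD
    omega
  · clear fD
    have sa := st_OT c (by omega) ha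
    have sz := st_ET c (by omega) hz
    have sq := st_EF c (by omega) hq
    have ja := (JOT c (k := k) (q := q) (by omega) ha).2.1 (by omega)
    have jz := (JET c (k := k) (q := q) (by omega) hz).1 (by omega)
    have jq := (JEF c (k := k) (q := q) (by omega) hq).2.2 rfl
    rw [jq, jz] at hJ
    rw [ja, jz]
    clear ja jz jq
    have pa := ha.1
    have pz := hz.1
    have pq := hq.1
    have b0 := zeroB c
    have e0 := bo1 c (show 0 ≤ a by omega)
    have e1 := be1 c (show 0 ≤ a by omega)
    have e2 := bo2 c (show a + 1 ≤ q by omega)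
    have e3 := be2 c (show a + 1 ≤ q by omega)
    have e4 := be2 c (show q ≤ z - 1 by omega)
    have e5 := bo1 c (show z + 1 ≤ k by omega)
    have e6 := be1 c (show z + 1 ≤ k by omega)
    simp only [S] at hD
    omega
  · clear fD hJ
    have sa := st_OT c (by omega) ha
    have sz := st_OF c (by omega) hz
    have sq := st_EF c (by omega) hq
    have ja := (JOT c (k := k) (q := q) (by omega) ha).2.1 (by omega)
    have jz := (JOF c (k := k) (q := q) (by omega) hz).1 (by omega)
    rw [ja, jz]
    clear ja jz
    have pa := ha.1
    have pz := hz.1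
    have pq := hq.1
    have b0 := zeroB c
    have e0 := bo2 c (show a + 1 ≤ q by omega)
    have e1 := be2 c (show a + 1 ≤ q by omega)
    have e2 := bo2 c (show q + 1 ≤ z by omega)
    have e3 := be2 c (show q + 1 ≤ z by omega)
    simp only [S] at hD
    omega
  · clear fD hJ
    have sa := st_OT c (by omega) ha
    have sz := st_EF c (by omega) hz
    have sq := st_EF c (by omega) hq
    have ja := (JOT c (k := k) (q := q) (by omega) ha).2.1 (by omega)
    have jz := (JEF c (k := k) (q := q) (by omega) hz).1 (by omega)
    rw [ja, jz]
    clear ja jz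
    have pa := ha.1
    have pz := hz.1
    have pq := hq.1
    have b0 := zeroB c
    have e0 := bo1 c (show 0 ≤ a by omega)
    have e1 := be1 c (show 0 ≤ a by omega)
    have e2 := bo2 c (show a + 1 ≤ q by omega)
    have e3 := be2 c (show a + 1 ≤ q by omega)
    have e4 := bo2 c (show q + 1 ≤ z by omega)
    have e5 := be2 c (show q + 1 ≤ z by omega)
    have e6 := bo1 c (show z + 1 ≤ k by omega)
    have e7 := be1 c (show z + 1 ≤ k by omega)
    simp only [S] at hD
    omega
  · clear fD hJ
    have sa := st_ET c (by omega) ha
    have sz := st_OT c (by omega) hz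
    have sq := st_EF c (by omega) hq
    have ja := (JET c (k := k) (q := q) (by omega) ha).2.1 (by omega)
    have jz := (JOT c (k := k) (q := q) (by omega) hz).1 (by omega)
    rw [ja, jz]
    clear ja jz
    have pa := ha.1
    have pz := hz.1
    have pq := hq.1
    have b0 := zeroB c
    have e0 := bo1 c (show 0 ≤ a by omega)
    have e1 := be1 c (show 0 ≤ a by omega)
    have e2 := bo2 c (show a + 1 ≤ q by omega)
    have e3 := be2 c (show a + 1 ≤ q by omega)
    have e4 := bo2 c (show q + 1 ≤ z by omega)
    have e5 := be2 c (show q + 1 ≤ z by omega)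
    have e6 := bo1 c (show z + 1 ≤ k by omega)
    have e7 := be1 c (show z + 1 ≤ k by omega)
    simp only [S] at hD
    omega
  · clear hD fD
    have sa := st_ET c (by omega) ha
    have sz := st_ET c (by omega) hz
    have sq := st_EF c (by omega) hq
    have ja := (JET c (k := k) (q := q) (by omega) ha).2.1 (by omega)
    have jz := (JET c (k := k) (q := q) (by omega) hz).1 (by omega)
    have jq := (JEF c (k := k) (q := q) (by omega) hq).2.2 rfl
    rw [jq, jz] at hJ
    rw [ja, jz]
    clear ja jz jq
    have pa := ha.1
    have pz := hz.1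
    have pq := hq.1
    have b0 := zeroB c
    have e0 := bo1 c (show 0 ≤ a by omega)
    have e1 := be2 c (show a + 1 ≤ q by omega)
    have e2 := bo1 c (show q + 1 ≤ z by omega)
    have e3 := bo1 c (show z + 1 ≤ k by omega)
    omega
  · clear fD hJ
    have sa := st_ET c (by omega) ha
    have sz := st_OF c (by omega) hz
    have sq := st_EF c (by omega) hq
    have ja := (JET c (k := k) (q := q) (by omega) ha).2.1 (by omega)
    have jz := (JOF c (k := k) (q := q) (by omega) hz).1 (by omega)
    rw [ja, jz]
    clear ja jz
    have pa := ha.1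
    have pz := hz.1
    have pq := hq.1
    have b0 := zeroB c
    have e0 := bo2 c (show a + 1 ≤ q by omega)
    have e1 := be2 c (show a + 1 ≤ q by omega)
    have e2 := bo2 c (show q + 1 ≤ z by omega)
    have e3 := be2 c (show q + 1 ≤ z by omega)
    simp only [S] at hD
    omega
  · clear fD hJ
    have sa := st_ET c (by omega) ha
    have sz := st_EF c (by omega) hz
    have sq := st_EF c (by omega) hq
    have ja := (JET c (k := k) (q := q) (by omega) ha).2.1 (by omega)
    have jz := (JEF c (k := k) (q := q) (by omega) hz).1 (by omega)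
    rw [ja, jz]
    clear ja jz
    have pa := ha.1
    have pz := hz.1
    have pq := hq.1
    have b0 := zeroB c
    have e0 := bo1 c (show 0 ≤ a by omega)
    have e1 := be1 c (show 0 ≤ a by omega)
    have e2 := bo2 c (show a + 1 ≤ q by omega)
    have e3 := be2 c (show a + 1 ≤ q by omega)
    have e4 := bo2 c (show q + 1 ≤ z by omega)
    have e5 := be2 c (show q + 1 ≤ z by omega)
    have e6 := bo1 c (show z + 1 ≤ k by omega)
    have e7 := be1 c (show z + 1 ≤ k by omega)
    simp only [S] at hD
    omega
  · clear fD
    have sa := st_OF c (by omega) ha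
    have sz := st_OT c (by omega) hz
    have sq := st_EF c (by omega) hq
    have ja := (JOF c (k := k) (q := q) (by omega) ha).2.1 (by omega)
    have jz := (JOT c (k := k) (q := q) (by omega) hz).1 (by omega)
    have jq := (JEF c (k := k) (q := q) (by omega) hq).2.2 rfl
    rw [jq, jz] at hJ
    rw [ja, jz]
    clear ja jz jq
    have pa := ha.1
    have pz := hz.1
    have pq := hq.1
    have b0 := zeroB c
    have e0 := be1 c (show 0 ≤ a by omega)
    have e1 := bo1 c (show 0 ≤ a - 1 by omega)
    have e2 := bo2 c (show a + 1 ≤ q by omega)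
    have e3 := be2 c (show a + 1 ≤ q by omega)
    have e4 := be2 c (show q + 1 ≤ z by omega)
    have e5 := bo1 c (show z + 1 ≤ k by omega)
    have e6 := be1 c (show z + 1 ≤ k by omega)
    simp only [S] at hD
    omega
  · clear hD fD
    have sa := st_OF c (by omega) ha
    have sz := st_ET c (by omega) hz
    have sq := st_EF c (by omega) hq
    have ja := (JOF c (k := k) (q := q) (by omega) ha).2.1 (by omega)
    have jz := (JET c (k := k) (q := q) (by omega) hz).1 (by omega)
    have jq := (JEF c (k := k) (q := q) (by omega) hq).2.2 rfl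
    rw [jq, jz] at hJ
    rw [ja, jz]
    clear ja jz jq
    have pa := ha.1
    have pz := hz.1
    have pq := hq.1
    have b0 := zeroB c
    have e0 := bo1 c (show 0 ≤ a - 1 by omega)
    have e1 := be2 c (show a + 1 ≤ q by omega)
    have e2 := bo1 c (show q + 1 ≤ z by omega)
    have e3 := bo1 c (show z + 1 ≤ k by omega)
    omega
  · clear hD fD
    have sa := st_OF c (by omega) ha
    have sz := st_OF c (by omega) hz
    have sq := st_EF c (by omega) hq
    have ja := (JOF c (k := k) (q := q) (by omega) ha).2.1 (by omega)
    have jz := (JOF c (k := k) (q := q) (by omega) hz).1 (by omega)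
    have jq := (JEF c (k := k) (q := q) (by omega) hq).2.2 rfl
    rw [jq, jz] at hJ
    rw [ja, jz]
    clear ja jz jq
    have pa := ha.1
    have pz := hz.1
    have pq := hq.1
    have b0 := zeroB c
    have e0 := bo1 c (show 0 ≤ a - 1 by omega)
    have e1 := be2 c (show a + 1 ≤ q by omega)
    have e2 := bo1 c (show q ≤ z - 1 by omega)
    have e3 := bo1 c (show z + 1 ≤ k by omega)
    omega
  · clear fD hJ
    have sa := st_OF c (by omega) ha
    have sz := st_EF c (by omega) hz
    have sq := st_EF c (by omega) hq
    have ja := (JOF c (k := k) (q := q) (by omega) ha).2.1 (by omega)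
    have jz := (JEF c (k := k) (q := q) (by omega) hz).1 (by omega)
    rw [ja, jz]
    clear ja jz
    have pa := ha.1
    have pz := hz.1
    have pq := hq.1
    have b0 := zeroB c
    have e0 := be1 c (show 0 ≤ a by omega)
    have e1 := bo1 c (show 0 ≤ a - 1 by omega)
    have e2 := bo2 c (show a + 1 ≤ q by omega)
    have e3 := be2 c (show a + 1 ≤ q by omega)
    have e4 := bo2 c (show q + 1 ≤ z by omega)
    have e5 := be2 c (show q + 1 ≤ z by omega)
    have e6 := bo1 c (show z + 1 ≤ k by omega)
    have e7 := be1 c (show z + 1 ≤ k by omega)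
    simp only [S] at hD
    omega
  · clear fD hJ
    have sa := st_EF c (by omega) ha
    have sz := st_OT c (by omega) hz
    have sq := st_EF c (by omega) hq
    have ja := (JEF c (k := k) (q := q) (by omega) ha).2.1 (by omega)
    have jz := (JOT c (k := k) (q := q) (by omega) hz).1 (by omega)
    rw [ja, jz]
    clear ja jz
    have pa := ha.1
    have pz := hz.1
    have pq := hq.1
    have b0 := zeroB c
    have e0 := bo2 c (show a + 1 ≤ q by omega)
    have e1 := be2 c (show a + 1 ≤ q by omega)
    have e2 := bo2 c (show q + 1 ≤ z by omega)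
    have e3 := be2 c (show q + 1 ≤ z by omega)
    simp only [S] at hD
    omega
  · clear fD hJ
    have sa := st_EF c (by omega) ha
    have sz := st_ET c (by omega) hz
    have sq := st_EF c (by omega) hq
    have ja := (JEF c (k := k) (q := q) (by omega) ha).2.1 (by omega)
    have jz := (JET c (k := k) (q := q) (by omega) hz).1 (by omega)
    rw [ja, jz]
    clear ja jz
    have pa := ha.1
    have pz := hz.1
    have pq := hq.1
    have b0 := zeroB c
    have e0 := bo2 c (show a + 1 ≤ q by omega)
    have e1 := be2 c (show a + 1 ≤ q by omega)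
    have e2 := bo2 c (show q + 1 ≤ z by omega)
    have e3 := be2 c (show q ≤ z - 1 by omega)
    simp only [S] at hD
    omega
  · clear fD hJ
    have sa := st_EF c (by omega) ha
    have sz := st_OF c (by omega) hz
    have sq := st_EF c (by omega) hq
    have ja := (JEF c (k := k) (q := q) (by omega) ha).2.1 (by omega)
    have jz := (JOF c (k := k) (q := q) (by omega) hz).1 (by omega)
    rw [ja, jz]
    clear ja jz
    have pa := ha.1
    have pz := hz.1
    have pq := hq.1
    have b0 := zeroB c
    have e0 := bo2 c (show a + 1 ≤ q by omega)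
    have e1 := be2 c (show a + 1 ≤ q by omega)
    have e2 := bo2 c (show q + 1 ≤ z by omega)
    have e3 := be2 c (show q + 1 ≤ z by omega)
    simp only [S] at hD
    omega
  · clear fD hJ
    have sa := st_EF c (by omega) ha
    have sz := st_EF c (by omega) hz
    have sq := st_EF c (by omega) hq
    have ja := (JEF c (k := k) (q := q) (by omega) ha).2.1 (by omega)
    have jz := (JEF c (k := k) (q := q) (by omega) hz).1 (by omega)
    rw [ja, jz]
    clear ja jz
    have pa := ha.1
    have pz := hz.1
    have pq := hq.1
    have b0 := zeroB c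
    have e0 := bo2 c (show a + 1 ≤ q by omega)
    have e1 := be2 c (show a + 1 ≤ q by omega)
    have e2 := bo2 c (show q + 1 ≤ z by omega)
    have e3 := be2 c (show q + 1 ≤ z by omega)
    simp only [S] at hD
    omega

theorem Pp_EF_zqa (c : ℕ → Bool) {k q a z : ℕ} (hk : k % 2 = 1)
    (hf : 0 < z) (h0 : z < q) (h1 : q < a) (hl : a < k)
    (la : c a ≠ c (a + 1)) (lz : c z ≠ c (z + 1)) (hq : EF c q)
    (hD : S c k < 0) (fD : S c q < S c k)
    (hJ : J c k q q + 1 ≤ J c k q z) (h3 : 7 ≤ k) (qk : q + 2 ≤ k) :
    J c k q a + 2 ≤ J c k q z + ((k / 2 : ℕ) : ℤ) := by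
  rcases loaded_cases c la with ha | ha | ha | ha <;> rcases loaded_cases c lz with hz | hz | hz | hz
  · clear hD hJ
    have sa := st_OT c (by omega) ha
    have sz := st_OT c (by omega) hz
    have sq := st_EF c (by omega) hq
    have ja := (JOT c (k := k) (q := q) (by omega) ha).1 (by omega)
    have jz := (JOT c (k := k) (q := q) (by omega) hz).2.1 (by omega)
    rw [ja, jz]
    clear ja jz
    have pa := ha.1
    have pz := hz.1
    have pq := hq.1
    have b0 := zeroB c
    have e0 := be2 c (show 0 ≤ z by omega)
    have e1 := bo2 c (show 0 ≤ z - 1 by omega)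
    have e2 := bo1 c (show q + 1 ≤ a by omega)
    have e3 := be1 c (show q + 1 ≤ a by omega)
    simp only [S] at fD
    omega
  · clear hD fD
    have sa := st_OT c (by omega) ha
    have sz := st_ET c (by omega) hz
    have sq := st_EF c (by omega) hq
    have ja := (JOT c (k := k) (q := q) (by omega) ha).1 (by omega)
    have jz := (JET c (k := k) (q := q) (by omega) hz).2.1 (by omega)
    have jq := (JEF c (k := k) (q := q) (by omega) hq).2.2 rfl
    rw [jq, jz] at hJ
    rw [ja, jz]
    clear ja jz jq
    have pa := ha.1
    have pz := hz.1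
    have pq := hq.1
    have b0 := zeroB c
    have e0 := be2 c (show 0 ≤ z - 1 by omega)
    have e1 := be2 c (show z + 1 ≤ q by omega)
    have e2 := bo1 c (show q + 1 ≤ a by omega)
    have e3 := be2 c (show a + 1 ≤ k by omega)
    omega
  · clear hD fD
    have sa := st_OT c (by omega) ha
    have sz := st_OF c (by omega) hz
    have sq := st_EF c (by omega) hq
    have ja := (JOT c (k := k) (q := q) (by omega) ha).1 (by omega)
    have jz := (JOF c (k := k) (q := q) (by omega) hz).2.1 (by omega)
    have jq := (JEF c (k := k) (q := q) (by omega) hq).2.2 rfl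
    rw [jq, jz] at hJ
    rw [ja, jz]
    clear ja jz jq
    have pa := ha.1
    have pz := hz.1
    have pq := hq.1
    have b0 := zeroB c
    have e0 := be2 c (show 0 ≤ z by omega)
    have e1 := be2 c (show z + 1 ≤ q by omega)
    have e2 := bo1 c (show q + 1 ≤ a by omega)
    have e3 := be2 c (show a + 1 ≤ k by omega)
    omega
  · clear hD hJ
    have sa := st_OT c (by omega) ha
    have sz := st_EF c (by omega) hz
    have sq := st_EF c (by omega) hq
    have ja := (JOT c (k := k) (q := q) (by omega) ha).1 (by omega)
    have jz := (JEF c (k := k) (q := q) (by omega) hz).2.1 (by omega)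
    rw [ja, jz]
    clear ja jz
    have pa := ha.1
    have pz := hz.1
    have pq := hq.1
    have b0 := zeroB c
    have e0 := bo2 c (show 0 ≤ z by omega)
    have e1 := be2 c (show 0 ≤ z by omega)
    have e2 := bo1 c (show q + 1 ≤ a by omega)
    have e3 := be1 c (show q + 1 ≤ a by omega)
    simp only [S] at fD
    omega
  · clear hD fD
    have sa := st_ET c (by omega) ha
    have sz := st_OT c (by omega) hz
    have sq := st_EF c (by omega) hq
    have ja := (JET c (k := k) (q := q) (by omega) ha).1 (by omega)
    have jz := (JOT c (k := k) (q := q) (by omega) hz).2.1 (by omega)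
    have jq := (JEF c (k := k) (q := q) (by omega) hq).2.2 rfl
    rw [jq, jz] at hJ
    rw [ja, jz]
    clear ja jz jq
    have pa := ha.1
    have pz := hz.1
    have pq := hq.1
    have b0 := zeroB c
    have e0 := be2 c (show 0 ≤ z by omega)
    have e1 := be2 c (show z + 1 ≤ q by omega)
    have e2 := bo1 c (show q + 1 ≤ a by omega)
    have e3 := be2 c (show a + 1 ≤ k by omega)
    omega
  · clear hD fD
    have sa := st_ET c (by omega) ha
    have sz := st_ET c (by omega) hz
    have sq := st_EF c (by omega) hq
    have ja := (JET c (k := k) (q := q) (by omega) ha).1 (by omega)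
    have jz := (JET c (k := k) (q := q) (by omega) hz).2.1 (by omega)
    have jq := (JEF c (k := k) (q := q) (by omega) hq).2.2 rfl
    rw [jq, jz] at hJ
    rw [ja, jz]
    clear ja jz jq
    have pa := ha.1
    have pz := hz.1
    have pq := hq.1
    have b0 := zeroB c
    have e0 := be2 c (show 0 ≤ z - 1 by omega)
    have e1 := be2 c (show z + 1 ≤ q by omega)
    have e2 := bo1 c (show q + 1 ≤ a by omega)
    have e3 := be2 c (show a + 1 ≤ k by omega)
    omega
  · clear hD fD
    have sa := st_ET c (by omega) ha
    have sz := st_OF c (by omega) hz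
    have sq := st_EF c (by omega) hq
    have ja := (JET c (k := k) (q := q) (by omega) ha).1 (by omega)
    have jz := (JOF c (k := k) (q := q) (by omega) hz).2.1 (by omega)
    have jq := (JEF c (k := k) (q := q) (by omega) hq).2.2 rfl
    rw [jq, jz] at hJ
    rw [ja, jz]
    clear ja jz jq
    have pa := ha.1
    have pz := hz.1
    have pq := hq.1
    have b0 := zeroB c
    have e0 := be2 c (show 0 ≤ z by omega)
    have e1 := be2 c (show z + 1 ≤ q by omega)
    have e2 := bo1 c (show q + 1 ≤ a by omega)
    have e3 := be2 c (show a + 1 ≤ k by omega)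
    omega
  · clear hD fD hJ
    have sa := st_ET c (by omega) ha
    have sz := st_EF c (by omega) hz
    have sq := st_EF c (by omega) hq
    have ja := (JET c (k := k) (q := q) (by omega) ha).1 (by omega)
    have jz := (JEF c (k := k) (q := q) (by omega) hz).2.1 (by omega)
    rw [ja, jz]
    clear ja jz
    have pa := ha.1
    have pz := hz.1
    have pq := hq.1
    have b0 := zeroB c
    have e0 := bo2 c (show 0 ≤ z by omega)
    have e1 := be2 c (show 0 ≤ z by omega)
    have e2 := bo2 c (show a + 1 ≤ k by omega)
    have e3 := be2 c (show a + 1 ≤ k by omega)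
    omega
  · clear hD fD
    have sa := st_OF c (by omega) ha
    have sz := st_OT c (by omega) hz
    have sq := st_EF c (by omega) hq
    have ja := (JOF c (k := k) (q := q) (by omega) ha).1 (by omega)
    have jz := (JOT c (k := k) (q := q) (by omega) hz).2.1 (by omega)
    have jq := (JEF c (k := k) (q := q) (by omega) hq).2.2 rfl
    rw [jq, jz] at hJ
    rw [ja, jz]
    clear ja jz jq
    have pa := ha.1
    have pz := hz.1
    have pq := hq.1
    have b0 := zeroB c
    have e0 := be2 c (show 0 ≤ z by omega)
    have e1 := be2 c (show z + 1 ≤ q by omega)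
    have e2 := bo1 c (show q ≤ a - 1 by omega)
    have e3 := be2 c (show a + 1 ≤ k by omega)
    omega
  · clear hD fD
    have sa := st_OF c (by omega) ha
    have sz := st_ET c (by omega) hz
    have sq := st_EF c (by omega) hq
    have ja := (JOF c (k := k) (q := q) (by omega) ha).1 (by omega)
    have jz := (JET c (k := k) (q := q) (by omega) hz).2.1 (by omega)
    have jq := (JEF c (k := k) (q := q) (by omega) hq).2.2 rfl
    rw [jq, jz] at hJ
    rw [ja, jz]
    clear ja jz jq
    have pa := ha.1
    have pz := hz.1
    have pq := hq.1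
    have b0 := zeroB c
    have e0 := be2 c (show 0 ≤ z - 1 by omega)
    have e1 := be2 c (show z + 1 ≤ q by omega)
    have e2 := bo1 c (show q ≤ a - 1 by omega)
    have e3 := be2 c (show a + 1 ≤ k by omega)
    omega
  · clear hD fD
    have sa := st_OF c (by omega) ha
    have sz := st_OF c (by omega) hz
    have sq := st_EF c (by omega) hq
    have ja := (JOF c (k := k) (q := q) (by omega) ha).1 (by omega)
    have jz := (JOF c (k := k) (q := q) (by omega) hz).2.1 (by omega)
    have jq := (JEF c (k := k) (q := q) (by omega) hq).2.2 rfl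
    rw [jq, jz] at hJ
    rw [ja, jz]
    clear ja jz jq
    have pa := ha.1
    have pz := hz.1
    have pq := hq.1
    have b0 := zeroB c
    have e0 := be2 c (show 0 ≤ z by omega)
    have e1 := be2 c (show z + 1 ≤ q by omega)
    have e2 := bo1 c (show q ≤ a - 1 by omega)
    have e3 := be2 c (show a + 1 ≤ k by omega)
    omega
  · clear hD fD hJ
    have sa := st_OF c (by omega) ha
    have sz := st_EF c (by omega) hz
    have sq := st_EF c (by omega) hq
    have ja := (JOF c (k := k) (q := q) (by omega) ha).1 (by omega)
    have jz := (JEF c (k := k) (q := q) (by omega) hz).2.1 (by omega)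
    rw [ja, jz]
    clear ja jz
    have pa := ha.1
    have pz := hz.1
    have pq := hq.1
    have b0 := zeroB c
    have e0 := bo2 c (show 0 ≤ z by omega)
    have e1 := be2 c (show 0 ≤ z by omega)
    have e2 := bo2 c (show q + 1 ≤ a by omega)
    have e3 := bo1 c (show q ≤ a - 1 by omega)
    have e4 := bo2 c (show a + 1 ≤ k by omega)
    have e5 := be2 c (show a + 1 ≤ k by omega)
    omega
  · clear hD fD hJ
    have sa := st_EF c (by omega) ha
    have sz := st_OT c (by omega) hz
    have sq := st_EF c (by omega) hq
    have ja := (JEF c (k := k) (q := q) (by omega) ha).1 (by omega)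
    have jz := (JOT c (k := k) (q := q) (by omega) hz).2.1 (by omega)
    rw [ja, jz]
    clear ja jz
    have pa := ha.1
    have pz := hz.1
    have pq := hq.1
    have b0 := zeroB c
    have e0 := be2 c (show 0 ≤ z by omega)
    have e1 := bo2 c (show 0 ≤ z - 1 by omega)
    have e2 := bo2 c (show a + 1 ≤ k by omega)
    have e3 := be2 c (show a + 1 ≤ k by omega)
    omega
  · clear hD fD
    have sa := st_EF c (by omega) ha
    have sz := st_ET c (by omega) hz
    have sq := st_EF c (by omega) hq
    have ja := (JEF c (k := k) (q := q) (by omega) ha).1 (by omega)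
    have jz := (JET c (k := k) (q := q) (by omega) hz).2.1 (by omega)
    have jq := (JEF c (k := k) (q := q) (by omega) hq).2.2 rfl
    rw [jq, jz] at hJ
    rw [ja, jz]
    clear ja jz jq
    have pa := ha.1
    have pz := hz.1
    have pq := hq.1
    have b0 := zeroB c
    have e0 := be2 c (show 0 ≤ z - 1 by omega)
    have e1 := be2 c (show z + 1 ≤ q by omega)
    have e2 := bo1 c (show q + 1 ≤ a by omega)
    have e3 := be2 c (show a + 1 ≤ k by omega)
    omega
  · clear hD fD
    have sa := st_EF c (by omega) ha
    have sz := st_OF c (by omega) hz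
    have sq := st_EF c (by omega) hq
    have ja := (JEF c (k := k) (q := q) (by omega) ha).1 (by omega)
    have jz := (JOF c (k := k) (q := q) (by omega) hz).2.1 (by omega)
    have jq := (JEF c (k := k) (q := q) (by omega) hq).2.2 rfl
    rw [jq, jz] at hJ
    rw [ja, jz]
    clear ja jz jq
    have pa := ha.1
    have pz := hz.1
    have pq := hq.1
    have b0 := zeroB c
    have e0 := be2 c (show 0 ≤ z by omega)
    have e1 := be2 c (show z + 1 ≤ q by omega)
    have e2 := bo1 c (show q + 1 ≤ a by omega)
    have e3 := be2 c (show a + 1 ≤ k by omega)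
    omega
  · clear hD fD hJ
    have sa := st_EF c (by omega) ha
    have sz := st_EF c (by omega) hz
    have sq := st_EF c (by omega) hq
    have ja := (JEF c (k := k) (q := q) (by omega) ha).1 (by omega)
    have jz := (JEF c (k := k) (q := q) (by omega) hz).2.1 (by omega)
    rw [ja, jz]
    clear ja jz
    have pa := ha.1
    have pz := hz.1
    have pq := hq.1
    have b0 := zeroB c
    have e0 := bo2 c (show 0 ≤ z by omega)
    have e1 := be2 c (show 0 ≤ z by omega)
    have e2 := bo2 c (show a + 1 ≤ k by omega)
    have e3 := be2 c (show a + 1 ≤ k by omega)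
    omega

theorem Pp_EF_azq (c : ℕ → Bool) {k q a z : ℕ} (hk : k % 2 = 1)
    (hf : 0 < a) (h0 : a < z) (h1 : z < q) (hl : q < k)
    (la : c a ≠ c (a + 1)) (lz : c z ≠ c (z + 1)) (hq : EF c q)
    (hD : S c k < 0) (fD : S c q < S c k)
    (hJ : J c k q q + 1 ≤ J c k q z) (h3 : 7 ≤ k) (qk : q + 2 ≤ k) :
    J c k q a + 2 ≤ J c k q z + ((k / 2 : ℕ) : ℤ) := by
  rcases loaded_cases c la with ha | ha | ha | ha <;> rcases loaded_cases c lz with hz | hz | hz | hz
  · clear hD fD hJ
    have sa := st_OT c (by omega) ha
    have sz := st_OT c (by omega) hz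
    have sq := st_EF c (by omega) hq
    have ja := (JOT c (k := k) (q := q) (by omega) ha).2.1 (by omega)
    have jz := (JOT c (k := k) (q := q) (by omega) hz).2.1 (by omega)
    rw [ja, jz]
    clear ja jz
    have pa := ha.1
    have pz := hz.1
    have pq := hq.1
    have b0 := zeroB c
    have e0 := be2 c (show a + 1 ≤ z by omega)
    have e1 := bo2 c (show a ≤ z - 1 by omega)
    omega
  · clear hD fD hJ
    have sa := st_OT c (by omega) ha
    have sz := st_ET c (by omega) hz
    have sq := st_EF c (by omega) hq
    have ja := (JOT c (k := k) (q := q) (by omega) ha).2.1 (by omega)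
    have jz := (JET c (k := k) (q := q) (by omega) hz).2.1 (by omega)
    rw [ja, jz]
    clear ja jz
    have pa := ha.1
    have pz := hz.1
    have pq := hq.1
    have b0 := zeroB c
    have e0 := bo2 c (show a + 1 ≤ z by omega)
    have e1 := be2 c (show a ≤ z - 1 by omega)
    omega
  · clear hD fD hJ
    have sa := st_OT c (by omega) ha
    have sz := st_OF c (by omega) hz
    have sq := st_EF c (by omega) hq
    have ja := (JOT c (k := k) (q := q) (by omega) ha).2.1 (by omega)
    have jz := (JOF c (k := k) (q := q) (by omega) hz).2.1 (by omega)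
    rw [ja, jz]
    clear ja jz
    have pa := ha.1
    have pz := hz.1
    have pq := hq.1
    have b0 := zeroB c
    have e0 := bo2 c (show a + 1 ≤ z by omega)
    have e1 := be2 c (show a + 1 ≤ z by omega)
    have e2 := be2 c (show z + 1 ≤ q by omega)
    have e3 := be1 c (show z ≤ q - 1 by omega)
    omega
  · clear hD fD hJ
    have sa := st_OT c (by omega) ha
    have sz := st_EF c (by omega) hz
    have sq := st_EF c (by omega) hq
    have ja := (JOT c (k := k) (q := q) (by omega) ha).2.1 (by omega)
    have jz := (JEF c (k := k) (q := q) (by omega) hz).2.1 (by omega)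
    rw [ja, jz]
    clear ja jz
    have pa := ha.1
    have pz := hz.1
    have pq := hq.1
    have b0 := zeroB c
    have e0 := bo2 c (show a + 1 ≤ z by omega)
    have e1 := be2 c (show a + 1 ≤ z by omega)
    omega
  · clear hD fD hJ
    have sa := st_ET c (by omega) ha
    have sz := st_OT c (by omega) hz
    have sq := st_EF c (by omega) hq
    have ja := (JET c (k := k) (q := q) (by omega) ha).2.1 (by omega)
    have jz := (JOT c (k := k) (q := q) (by omega) hz).2.1 (by omega)
    rw [ja, jz]
    clear ja jz
    have pa := ha.1
    have pz := hz.1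
    have pq := hq.1
    have b0 := zeroB c
    have e0 := be2 c (show a + 1 ≤ z by omega)
    have e1 := bo2 c (show a ≤ z - 1 by omega)
    omega
  · clear hD fD hJ
    have sa := st_ET c (by omega) ha
    have sz := st_ET c (by omega) hz
    have sq := st_EF c (by omega) hq
    have ja := (JET c (k := k) (q := q) (by omega) ha).2.1 (by omega)
    have jz := (JET c (k := k) (q := q) (by omega) hz).2.1 (by omega)
    rw [ja, jz]
    clear ja jz
    have pa := ha.1
    have pz := hz.1
    have pq := hq.1
    have b0 := zeroB c
    have e0 := bo2 c (show a + 1 ≤ z by omega)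
    have e1 := be2 c (show a ≤ z - 1 by omega)
    omega
  · clear hD fD hJ
    have sa := st_ET c (by omega) ha
    have sz := st_OF c (by omega) hz
    have sq := st_EF c (by omega) hq
    have ja := (JET c (k := k) (q := q) (by omega) ha).2.1 (by omega)
    have jz := (JOF c (k := k) (q := q) (by omega) hz).2.1 (by omega)
    rw [ja, jz]
    clear ja jz
    have pa := ha.1
    have pz := hz.1
    have pq := hq.1
    have b0 := zeroB c
    have e0 := bo2 c (show a + 1 ≤ z by omega)
    have e1 := be2 c (show a + 1 ≤ z by omega)
    have e2 := be2 c (show z + 1 ≤ q by omega)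
    have e3 := be1 c (show z ≤ q - 1 by omega)
    omega
  · clear hD fD hJ
    have sa := st_ET c (by omega) ha
    have sz := st_EF c (by omega) hz
    have sq := st_EF c (by omega) hq
    have ja := (JET c (k := k) (q := q) (by omega) ha).2.1 (by omega)
    have jz := (JEF c (k := k) (q := q) (by omega) hz).2.1 (by omega)
    rw [ja, jz]
    clear ja jz
    have pa := ha.1
    have pz := hz.1
    have pq := hq.1
    have b0 := zeroB c
    have e0 := bo2 c (show a + 1 ≤ z by omega)
    have e1 := be2 c (show a + 1 ≤ z by omega)
    omega
  · clear hD fD hJ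
    have sa := st_OF c (by omega) ha
    have sz := st_OT c (by omega) hz
    have sq := st_EF c (by omega) hq
    have ja := (JOF c (k := k) (q := q) (by omega) ha).2.1 (by omega)
    have jz := (JOT c (k := k) (q := q) (by omega) hz).2.1 (by omega)
    rw [ja, jz]
    clear ja jz
    have pa := ha.1
    have pz := hz.1
    have pq := hq.1
    have b0 := zeroB c
    have e0 := be2 c (show a + 1 ≤ z by omega)
    have e1 := bo2 c (show a ≤ z - 1 by omega)
    omega
  · clear hD fD
    have sa := st_OF c (by omega) ha
    have sz := st_ET c (by omega) hz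
    have sq := st_EF c (by omega) hq
    have ja := (JOF c (k := k) (q := q) (by omega) ha).2.1 (by omega)
    have jz := (JET c (k := k) (q := q) (by omega) hz).2.1 (by omega)
    have jq := (JEF c (k := k) (q := q) (by omega) hq).2.2 rfl
    rw [jq, jz] at hJ
    rw [ja, jz]
    clear ja jz jq
    have pa := ha.1
    have pz := hz.1
    have pq := hq.1
    have b0 := zeroB c
    have e0 := bo1 c (show 0 ≤ a - 1 by omega)
    have e1 := be2 c (show a + 1 ≤ z by omega)
    have e2 := be2 c (show z + 1 ≤ q by omega)
    have e3 := bo1 c (show q + 1 ≤ k by omega)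
    omega
  · clear hD fD
    have sa := st_OF c (by omega) ha
    have sz := st_OF c (by omega) hz
    have sq := st_EF c (by omega) hq
    have ja := (JOF c (k := k) (q := q) (by omega) ha).2.1 (by omega)
    have jz := (JOF c (k := k) (q := q) (by omega) hz).2.1 (by omega)
    have jq := (JEF c (k := k) (q := q) (by omega) hq).2.2 rfl
    rw [jq, jz] at hJ
    rw [ja, jz]
    clear ja jz jq
    have pa := ha.1
    have pz := hz.1
    have pq := hq.1
    have b0 := zeroB c
    have e0 := bo1 c (show 0 ≤ a - 1 by omega)
    have e1 := be2 c (show a + 1 ≤ z by omega)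
    have e2 := be2 c (show z + 1 ≤ q by omega)
    have e3 := bo1 c (show q + 1 ≤ k by omega)
    omega
  · clear hD fD hJ
    have sa := st_OF c (by omega) ha
    have sz := st_EF c (by omega) hz
    have sq := st_EF c (by omega) hq
    have ja := (JOF c (k := k) (q := q) (by omega) ha).2.1 (by omega)
    have jz := (JEF c (k := k) (q := q) (by omega) hz).2.1 (by omega)
    rw [ja, jz]
    clear ja jz
    have pa := ha.1
    have pz := hz.1
    have pq := hq.1
    have b0 := zeroB c
    have e0 := bo2 c (show a + 1 ≤ z by omega)
    have e1 := be2 c (show a + 1 ≤ z by omega)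
    omega
  · clear hD fD hJ
    have sa := st_EF c (by omega) ha
    have sz := st_OT c (by omega) hz
    have sq := st_EF c (by omega) hq
    have ja := (JEF c (k := k) (q := q) (by omega) ha).2.1 (by omega)
    have jz := (JOT c (k := k) (q := q) (by omega) hz).2.1 (by omega)
    rw [ja, jz]
    clear ja jz
    have pa := ha.1
    have pz := hz.1
    have pq := hq.1
    have b0 := zeroB c
    have e0 := bo2 c (show a + 1 ≤ z by omega)
    have e1 := be2 c (show a + 1 ≤ z by omega)
    omega
  · clear hD fD hJ
    have sa := st_EF c (by omega) ha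
    have sz := st_ET c (by omega) hz
    have sq := st_EF c (by omega) hq
    have ja := (JEF c (k := k) (q := q) (by omega) ha).2.1 (by omega)
    have jz := (JET c (k := k) (q := q) (by omega) hz).2.1 (by omega)
    rw [ja, jz]
    clear ja jz
    have pa := ha.1
    have pz := hz.1
    have pq := hq.1
    have b0 := zeroB c
    have e0 := bo2 c (show a + 1 ≤ z by omega)
    have e1 := be2 c (show a ≤ z - 1 by omega)
    omega
  · clear hD fD hJ
    have sa := st_EF c (by omega) ha
    have sz := st_OF c (by omega) hz
    have sq := st_EF c (by omega) hq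
    have ja := (JEF c (k := k) (q := q) (by omega) ha).2.1 (by omega)
    have jz := (JOF c (k := k) (q := q) (by omega) hz).2.1 (by omega)
    rw [ja, jz]
    clear ja jz
    have pa := ha.1
    have pz := hz.1
    have pq := hq.1
    have b0 := zeroB c
    have e0 := bo2 c (show a + 1 ≤ z by omega)
    have e1 := be2 c (show a + 1 ≤ z by omega)
    have e2 := be2 c (show z + 1 ≤ q by omega)
    have e3 := be1 c (show z ≤ q - 1 by omega)
    omega
  · clear hD fD hJ
    have sa := st_EF c (by omega) ha
    have sz := st_EF c (by omega) hz
    have sq := st_EF c (by omega) hq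
    have ja := (JEF c (k := k) (q := q) (by omega) ha).2.1 (by omega)
    have jz := (JEF c (k := k) (q := q) (by omega) hz).2.1 (by omega)
    rw [ja, jz]
    clear ja jz
    have pa := ha.1
    have pz := hz.1
    have pq := hq.1
    have b0 := zeroB c
    have e0 := bo2 c (show a + 1 ≤ z by omega)
    have e1 := be2 c (show a + 1 ≤ z by omega)
    omega

theorem Pp_EF_zaq (c : ℕ → Bool) {k q a z : ℕ} (hk : k % 2 = 1)
    (hf : 0 < z) (h0 : z < a) (h1 : a < q) (hl : q < k)
    (la : c a ≠ c (a + 1)) (lz : c z ≠ c (z + 1)) (hq : EF c q)
    (hD : S c k < 0) (fD : S c q < S c k)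
    (hJ : J c k q q + 1 ≤ J c k q z) (h3 : 7 ≤ k) (qk : q + 2 ≤ k) :
    J c k q a + 2 ≤ J c k q z + ((k / 2 : ℕ) : ℤ) := by
  rcases loaded_cases c la with ha | ha | ha | ha <;> rcases loaded_cases c lz with hz | hz | hz | hz
  · clear hJ
    have sa := st_OT c (by omega) ha
    have sz := st_OT c (by omega) hz
    have sq := st_EF c (by omega) hq
    have ja := (JOT c (k := k) (q := q) (by omega) ha).2.1 (by omega)
    have jz := (JOT c (k := k) (q := q) (by omega) hz).2.1 (by omega)
    rw [ja, jz]
    clear ja jz
    have pa := ha.1
    have pz := hz.1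
    have pq := hq.1
    have b0 := zeroB c
    have e0 := be2 c (show 0 ≤ z by omega)
    have e1 := bo2 c (show 0 ≤ z - 1 by omega)
    have e2 := bo1 c (show z + 1 ≤ a by omega)
    have e3 := be1 c (show z + 1 ≤ a by omega)
    have e4 := bo2 c (show a + 1 ≤ q by omega)
    have e5 := be2 c (show a + 1 ≤ q by omega)
    simp only [S] at hD fD
    omega
  · clear fD
    have sa := st_OT c (by omega) ha
    have sz := st_ET c (by omega) hz
    have sq := st_EF c (by omega) hq
    have ja := (JOT c (k := k) (q := q) (by omega) ha).2.1 (by omega)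
    have jz := (JET c (k := k) (q := q) (by omega) hz).2.1 (by omega)
    have jq := (JEF c (k := k) (q := q) (by omega) hq).2.2 rfl
    rw [jq, jz] at hJ
    rw [ja, jz]
    clear ja jz jq
    have pa := ha.1
    have pz := hz.1
    have pq := hq.1
    have b0 := zeroB c
    have e0 := be2 c (show 0 ≤ z - 1 by omega)
    have e1 := bo1 c (show z + 1 ≤ a by omega)
    have e2 := bo2 c (show z ≤ a - 1 by omega)
    have e3 := bo2 c (show a + 1 ≤ q by omega)
    have e4 := be2 c (show a + 1 ≤ q by omega)
    have e5 := be2 c (show q + 1 ≤ k by omega)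
    simp only [S] at hD
    omega
  · clear fD
    have sa := st_OT c (by omega) ha
    have sz := st_OF c (by omega) hz
    have sq := st_EF c (by omega) hq
    have ja := (JOT c (k := k) (q := q) (by omega) ha).2.1 (by omega)
    have jz := (JOF c (k := k) (q := q) (by omega) hz).2.1 (by omega)
    have jq := (JEF c (k := k) (q := q) (by omega) hq).2.2 rfl
    rw [jq, jz] at hJ
    rw [ja, jz]
    clear ja jz jq
    have pa := ha.1
    have pz := hz.1
    have pq := hq.1
    have b0 := zeroB c
    have e0 := be2 c (show 0 ≤ z by omega)
    have e1 := bo1 c (show z + 1 ≤ a by omega)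
    have e2 := be1 c (show z + 1 ≤ a by omega)
    have e3 := bo2 c (show a + 1 ≤ q by omega)
    have e4 := be2 c (show a + 1 ≤ q by omega)
    have e5 := be2 c (show q + 1 ≤ k by omega)
    simp only [S] at hD
    omega
  · clear hD fD hJ
    have sa := st_OT c (by omega) ha
    have sz := st_EF c (by omega) hz
    have sq := st_EF c (by omega) hq
    have ja := (JOT c (k := k) (q := q) (by omega) ha).2.1 (by omega)
    have jz := (JEF c (k := k) (q := q) (by omega) hz).2.1 (by omega)
    rw [ja, jz]
    clear ja jz
    have pa := ha.1
    have pz := hz.1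
    have pq := hq.1
    have b0 := zeroB c
    have e0 := bo1 c (show z + 1 ≤ a by omega)
    have e1 := be1 c (show z + 1 ≤ a by omega)
    omega
  · clear hD fD hJ
    have sa := st_ET c (by omega) ha
    have sz := st_OT c (by omega) hz
    have sq := st_EF c (by omega) hq
    have ja := (JET c (k := k) (q := q) (by omega) ha).2.1 (by omega)
    have jz := (JOT c (k := k) (q := q) (by omega) hz).2.1 (by omega)
    rw [ja, jz]
    clear ja jz
    have pa := ha.1
    have pz := hz.1
    have pq := hq.1
    have b0 := zeroB c
    have e0 := bo1 c (show z + 1 ≤ a by omega)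
    have e1 := be1 c (show z + 1 ≤ a by omega)
    omega
  · clear fD
    have sa := st_ET c (by omega) ha
    have sz := st_ET c (by omega) hz
    have sq := st_EF c (by omega) hq
    have ja := (JET c (k := k) (q := q) (by omega) ha).2.1 (by omega)
    have jz := (JET c (k := k) (q := q) (by omega) hz).2.1 (by omega)
    have jq := (JEF c (k := k) (q := q) (by omega) hq).2.2 rfl
    rw [jq, jz] at hJ
    rw [ja, jz]
    clear ja jz jq
    have pa := ha.1
    have pz := hz.1
    have pq := hq.1
    have b0 := zeroB c
    have e0 := be2 c (show 0 ≤ z - 1 by omega)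
    have e1 := bo1 c (show z + 1 ≤ a by omega)
    have e2 := be1 c (show z + 1 ≤ a by omega)
    have e3 := bo2 c (show a + 1 ≤ q by omega)
    have e4 := be2 c (show a + 1 ≤ q by omega)
    have e5 := be2 c (show q + 1 ≤ k by omega)
    simp only [S] at hD
    omega
  · clear fD
    have sa := st_ET c (by omega) ha
    have sz := st_OF c (by omega) hz
    have sq := st_EF c (by omega) hq
    have ja := (JET c (k := k) (q := q) (by omega) ha).2.1 (by omega)
    have jz := (JOF c (k := k) (q := q) (by omega) hz).2.1 (by omega)
    have jq := (JEF c (k := k) (q := q) (by omega) hq).2.2 rfl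
    rw [jq, jz] at hJ
    rw [ja, jz]
    clear ja jz jq
    have pa := ha.1
    have pz := hz.1
    have pq := hq.1
    have b0 := zeroB c
    have e0 := be2 c (show 0 ≤ z by omega)
    have e1 := bo1 c (show z + 1 ≤ a by omega)
    have e2 := be1 c (show z + 1 ≤ a by omega)
    have e3 := bo2 c (show a + 1 ≤ q by omega)
    have e4 := be2 c (show a + 1 ≤ q by omega)
    have e5 := be2 c (show q + 1 ≤ k by omega)
    simp only [S] at hD
    omega
  · clear hD fD hJ
    have sa := st_ET c (by omega) ha
    have sz := st_EF c (by omega) hz
    have sq := st_EF c (by omega) hq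
    have ja := (JET c (k := k) (q := q) (by omega) ha).2.1 (by omega)
    have jz := (JEF c (k := k) (q := q) (by omega) hz).2.1 (by omega)
    rw [ja, jz]
    clear ja jz
    have pa := ha.1
    have pz := hz.1
    have pq := hq.1
    have b0 := zeroB c
    have e0 := bo1 c (show z + 1 ≤ a by omega)
    have e1 := be1 c (show z + 1 ≤ a by omega)
    omega
  · clear hJ
    have sa := st_OF c (by omega) ha
    have sz := st_OT c (by omega) hz
    have sq := st_EF c (by omega) hq
    have ja := (JOF c (k := k) (q := q) (by omega) ha).2.1 (by omega)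
    have jz := (JOT c (k := k) (q := q) (by omega) hz).2.1 (by omega)
    rw [ja, jz]
    clear ja jz
    have pa := ha.1
    have pz := hz.1
    have pq := hq.1
    have b0 := zeroB c
    have e0 := be2 c (show 0 ≤ z by omega)
    have e1 := bo2 c (show 0 ≤ z - 1 by omega)
    have e2 := be1 c (show z + 1 ≤ a by omega)
    have e3 := bo1 c (show z ≤ a - 1 by omega)
    have e4 := bo2 c (show a + 1 ≤ q by omega)
    have e5 := be2 c (show a + 1 ≤ q by omega)
    simp only [S] at hD fD
    omega
  · clear fD
    have sa := st_OF c (by omega) ha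
    have sz := st_ET c (by omega) hz
    have sq := st_EF c (by omega) hq
    have ja := (JOF c (k := k) (q := q) (by omega) ha).2.1 (by omega)
    have jz := (JET c (k := k) (q := q) (by omega) hz).2.1 (by omega)
    have jq := (JEF c (k := k) (q := q) (by omega) hq).2.2 rfl
    rw [jq, jz] at hJ
    rw [ja, jz]
    clear ja jz jq
    have pa := ha.1
    have pz := hz.1
    have pq := hq.1
    have b0 := zeroB c
    have e0 := be2 c (show 0 ≤ z - 1 by omega)
    have e1 := bo1 c (show z + 1 ≤ a by omega)
    have e2 := bo2 c (show a + 1 ≤ q by omega)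
    have e3 := be2 c (show a + 1 ≤ q by omega)
    have e4 := be2 c (show q + 1 ≤ k by omega)
    simp only [S] at hD
    omega
  · clear hD fD
    have sa := st_OF c (by omega) ha
    have sz := st_OF c (by omega) hz
    have sq := st_EF c (by omega) hq
    have ja := (JOF c (k := k) (q := q) (by omega) ha).2.1 (by omega)
    have jz := (JOF c (k := k) (q := q) (by omega) hz).2.1 (by omega)
    have jq := (JEF c (k := k) (q := q) (by omega) hq).2.2 rfl
    rw [jq, jz] at hJ
    rw [ja, jz]
    clear ja jz jq
    have pa := ha.1
    have pz := hz.1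
    have pq := hq.1
    have b0 := zeroB c
    have e0 := bo1 c (show 0 ≤ z - 1 by omega)
    have e1 := bo1 c (show z ≤ a - 1 by omega)
    have e2 := be2 c (show a + 1 ≤ q by omega)
    have e3 := bo1 c (show q + 1 ≤ k by omega)
    omega
  · clear hD fD hJ
    have sa := st_OF c (by omega) ha
    have sz := st_EF c (by omega) hz
    have sq := st_EF c (by omega) hq
    have ja := (JOF c (k := k) (q := q) (by omega) ha).2.1 (by omega)
    have jz := (JEF c (k := k) (q := q) (by omega) hz).2.1 (by omega)
    rw [ja, jz]
    clear ja jz
    have pa := ha.1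
    have pz := hz.1
    have pq := hq.1
    have b0 := zeroB c
    have e0 := be1 c (show z + 1 ≤ a by omega)
    have e1 := bo1 c (show z ≤ a - 1 by omega)
    have e2 := be2 c (show a + 1 ≤ q by omega)
    have e3 := be1 c (show a ≤ q - 1 by omega)
    omega
  · clear hJ
    have sa := st_EF c (by omega) ha
    have sz := st_OT c (by omega) hz
    have sq := st_EF c (by omega) hq
    have ja := (JEF c (k := k) (q := q) (by omega) ha).2.1 (by omega)
    have jz := (JOT c (k := k) (q := q) (by omega) hz).2.1 (by omega)
    rw [ja, jz]
    clear ja jz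
    have pa := ha.1
    have pz := hz.1
    have pq := hq.1
    have b0 := zeroB c
    have e0 := be2 c (show 0 ≤ z by omega)
    have e1 := bo2 c (show 0 ≤ z - 1 by omega)
    have e2 := bo1 c (show z + 1 ≤ a by omega)
    have e3 := be1 c (show z + 1 ≤ a by omega)
    have e4 := bo2 c (show a + 1 ≤ q by omega)
    have e5 := be2 c (show a + 1 ≤ q by omega)
    simp only [S] at hD fD
    omega
  · clear hD fD hJ
    have sa := st_EF c (by omega) ha
    have sz := st_ET c (by omega) hz
    have sq := st_EF c (by omega) hq
    have ja := (JEF c (k := k) (q := q) (by omega) ha).2.1 (by omega)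
    have jz := (JET c (k := k) (q := q) (by omega) hz).2.1 (by omega)
    rw [ja, jz]
    clear ja jz
    have pa := ha.1
    have pz := hz.1
    have pq := hq.1
    have b0 := zeroB c
    have e0 := bo1 c (show z + 1 ≤ a by omega)
    have e1 := be1 c (show z ≤ a - 1 by omega)
    omega
  · clear hJ
    have sa := st_EF c (by omega) ha
    have sz := st_OF c (by omega) hz
    have sq := st_EF c (by omega) hq
    have ja := (JEF c (k := k) (q := q) (by omega) ha).2.1 (by omega)
    have jz := (JOF c (k := k) (q := q) (by omega) hz).2.1 (by omega)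
    rw [ja, jz]
    clear ja jz
    have pa := ha.1
    have pz := hz.1
    have pq := hq.1
    have b0 := zeroB c
    have e0 := bo2 c (show 0 ≤ z by omega)
    have e1 := be2 c (show 0 ≤ z by omega)
    have e2 := be2 c (show z + 1 ≤ a by omega)
    have e3 := be1 c (show z ≤ a - 1 by omega)
    have e4 := bo2 c (show a + 1 ≤ q by omega)
    have e5 := be2 c (show a + 1 ≤ q by omega)
    simp only [S] at hD fD
    omega
  · clear hD fD hJ
    have sa := st_EF c (by omega) ha
    have sz := st_EF c (by omega) hz
    have sq := st_EF c (by omega) hq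
    have ja := (JEF c (k := k) (q := q) (by omega) ha).2.1 (by omega)
    have jz := (JEF c (k := k) (q := q) (by omega) hz).2.1 (by omega)
    rw [ja, jz]
    clear ja jz
    have pa := ha.1
    have pz := hz.1
    have pq := hq.1
    have b0 := zeroB c
    have e0 := bo1 c (show z + 1 ≤ a by omega)
    have e1 := be1 c (show z ≤ a - 1 by omega)
    omega

end Pool.Agent.Lob34
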