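import Pool.Agent.Lob34.Bridge89
import Pool.Agent.Lob34.PeL4
import Pool.Agent.Lob34.PePp
import Pool.Agent.Lob34.PeL6
import Pool.Agent.Lob89.Walk3

/-! The count statements (L4'), (P'') and (L6) in the form of `Lob89`. -/

namespace Pool.Agent.Lob34

open Pool.Agent.Lob89 (Win junc walk)

variable {k h q : ℕ} {ld : ℕ → Prop} {G : ℕ → Bool}

theorem minQ (hS : Win k h q ld G) (hq : ld q) (g1 : G q = false) : OF G q ∨ EF G q := by
  have hm := hS.ld_mem q hq
  have hne := (hS.ld_iff q hm.1 hm.2).1 hq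
  rw [g1] at hne
  rcases loaded_cases G ((hS.ld_iff q hm.1 hm.2).1 hq) with w | w | w | w
  · have := w.2.1
    rw [g1] at this
    cases this
  · have := w.2.1
    rw [g1] at this
    cases this
  · exact Or.inl w
  · exact Or.inr w

theorem maxQ (hS : Win k h q ld G) (hq : ld q) (g1 : G q = true) : OT G q ∨ ET G q := by
  have hm := hS.ld_mem q hq
  rcases loaded_cases G ((hS.ld_iff q hm.1 hm.2).1 hq) with w | w | w | w
  · exact Or.inl w
  · exact Or.inr w
  · have := w.2.1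
    rw [g1] at this
    cases this
  · have := w.2.1
    rw [g1] at this
    cases this

/-- (L4') -/
theorem L4p (hS : Win k h q ld G) (hq : ld q) (g1 : G q = false) (hD : walk G k < 0)
    (fD : walk G q < walk G k) (hJ : junc k q G q + 1 ≤ h) {a z : ℕ} (ha : ld a) (haq : a ≠ q)
    (hz : ld z) (hzq : z ≠ q) (haz : a ≠ z) :
    junc k q G a + 2 ≤ junc k q G z + h := by
  have hqk := hS.q_lt
  have hk := hS.k_eq
  have mq := hS.ld_mem q hq
  have ma := hS.ld_mem a ha
  have mz := hS.ld_mem z hz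
  have la := (hS.ld_iff a ma.1 ma.2).1 ha
  have lz := (hS.ld_iff z mz.1 mz.2).1 hz
  rw [walk_eq] at hD
  rw [walk_eq, walk_eq] at fD
  have e1 := junc_eq hqk G mq.1 mq.2
  have e2 := junc_eq hqk G ma.1 ma.2
  have e3 := junc_eq hqk G mz.1 mz.2
  have hJ' : J G k q q + 1 ≤ ((k / 2 : ℕ) : ℤ) := by
    rw [← e1]
    omega
  have key : J G k q a + 2 ≤ J G k q z + ((k / 2 : ℕ) : ℤ) := by
    rcases minQ hS hq g1 with w | w <;>
      rcases lt_or_gt_of_ne haq with h1 | h1 <;> rcases lt_or_gt_of_ne hzq with h2 | h2 <;>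
      rcases lt_or_gt_of_ne haz with h3 | h3
    · exact L4_OF_azq G (by omega) ma.1 h3 h2 hqk la lz w hD fD hJ'
    · exact L4_OF_zaq G (by omega) mz.1 h3 h1 hqk la lz w hD fD hJ'
    · exact L4_OF_aqz G (by omega) ma.1 h1 h2 mz.2 la lz w hD fD hJ'
    · omega
    · omega
    · exact L4_OF_zqa G (by omega) mz.1 h2 h1 ma.2 la lz w hD fD hJ'
    · exact L4_OF_qaz G (by omega) mq.1 h1 h3 mz.2 la lz w hD fD hJ'
    · exact L4_OF_qza G (by omega) mq.1 h2 h3 ma.2 la lz w hD fD hJ'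
    · exact L4_EF_azq G (by omega) ma.1 h3 h2 hqk la lz w hD fD hJ'
    · exact L4_EF_zaq G (by omega) mz.1 h3 h1 hqk la lz w hD fD hJ'
    · exact L4_EF_aqz G (by omega) ma.1 h1 h2 mz.2 la lz w hD fD hJ'
    · omega
    · omega
    · exact L4_EF_zqa G (by omega) mz.1 h2 h1 ma.2 la lz w hD fD hJ'
    · exact L4_EF_qaz G (by omega) mq.1 h1 h3 mz.2 la lz w hD fD hJ'
    · exact L4_EF_qza G (by omega) mq.1 h2 h3 ma.2 la lz w hD fD hJ'
  rw [← e2, ← e3] at key
  omega

/-- (P'') -/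
theorem Ppp (hS : Win k h q ld G) (hq : ld q) (g1 : G q = false) (hD : walk G k < 0)
    (fD : walk G q < walk G k) (hh : 3 ≤ h) (qk : q + 2 ≤ k) {a z : ℕ}
    (ha : ld a) (haq : a ≠ q) (hz : ld z) (hzq : z ≠ q) (haz : a ≠ z)
    (hJ : junc k q G q + 1 ≤ junc k q G z) :
    junc k q G a + 2 ≤ junc k q G z + h := by
  have hqk := hS.q_lt
  have hk := hS.k_eq
  have mq := hS.ld_mem q hq
  have ma := hS.ld_mem a ha
  have mz := hS.ld_mem z hz
  have la := (hS.ld_iff a ma.1 ma.2).1 ha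
  have lz := (hS.ld_iff z mz.1 mz.2).1 hz
  rw [walk_eq] at hD
  rw [walk_eq, walk_eq] at fD
  have e1 := junc_eq hqk G mq.1 mq.2
  have e2 := junc_eq hqk G ma.1 ma.2
  have e3 := junc_eq hqk G mz.1 mz.2
  have hJ' : J G k q q + 1 ≤ J G k q z := by
    rw [← e1, ← e3]
    omega
  have h7 : 7 ≤ k := by omega
  have key : J G k q a + 2 ≤ J G k q z + ((k / 2 : ℕ) : ℤ) := by
    rcases minQ hS hq g1 with w | w <;>
      rcases lt_or_gt_of_ne haq with h1 | h1 <;> rcases lt_or_gt_of_ne hzq with h2 | h2 <;>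
      rcases lt_or_gt_of_ne haz with h3 | h3
    · exact Pp_OF_azq G (by omega) ma.1 h3 h2 hqk la lz w hD fD hJ' h7 qk
    · exact Pp_OF_zaq G (by omega) mz.1 h3 h1 hqk la lz w hD fD hJ' h7 qk
    · exact Pp_OF_aqz G (by omega) ma.1 h1 h2 mz.2 la lz w hD fD hJ' h7 qk
    · omega
    · omega
    · exact Pp_OF_zqa G (by omega) mz.1 h2 h1 ma.2 la lz w hD fD hJ' h7 qk
    · exact Pp_OF_qaz G (by omega) mq.1 h1 h3 mz.2 la lz w hD fD hJ' h7 qk
    · exact Pp_OF_qza G (by omega) mq.1 h2 h3 ma.2 la lz w hD fD hJ' h7 qk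
    · exact Pp_EF_azq G (by omega) ma.1 h3 h2 hqk la lz w hD fD hJ' h7 qk
    · exact Pp_EF_zaq G (by omega) mz.1 h3 h1 hqk la lz w hD fD hJ' h7 qk
    · exact Pp_EF_aqz G (by omega) ma.1 h1 h2 mz.2 la lz w hD fD hJ' h7 qk
    · omega
    · omega
    · exact Pp_EF_zqa G (by omega) mz.1 h2 h1 ma.2 la lz w hD fD hJ' h7 qk
    · exact Pp_EF_qaz G (by omega) mq.1 h1 h3 mz.2 la lz w hD fD hJ' h7 qk
    · exact Pp_EF_qza G (by omega) mq.1 h2 h3 ma.2 la lz w hD fD hJ' h7 qk
  rw [← e2, ← e3] at key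
  omega

/-- (L6), `q` a minimum. -/
theorem L6min (hS : Win k h q ld G) (hq : ld q) (g1 : G q = false) {z : ℕ} (hz : ld z)
    (hzq : z ≠ q) : junc k q G q + 1 ≤ junc k q G z + h := by
  have hqk := hS.q_lt
  have hk := hS.k_eq
  have mq := hS.ld_mem q hq
  have mz := hS.ld_mem z hz
  have lz := (hS.ld_iff z mz.1 mz.2).1 hz
  have e1 := junc_eq hqk G mq.1 mq.2
  have e3 := junc_eq hqk G mz.1 mz.2
  have key : J G k q q + 1 ≤ J G k q z + ((k / 2 : ℕ) : ℤ) := by
    rcases minQ hS hq g1 with w | w <;> rcases lt_or_gt_of_ne hzq with h2 | h2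
    · exact L6a_OF_zq G (by omega) mz.1 h2 hqk lz w
    · exact L6a_OF_qz G (by omega) mq.1 h2 mz.2 lz w
    · exact L6a_EF_zq G (by omega) mz.1 h2 hqk lz w
    · exact L6a_EF_qz G (by omega) mq.1 h2 mz.2 lz w
  rw [← e1, ← e3] at key
  omega

/-- No loaded vertex strictly between: the colour is constant. -/
theorem const_between (hS : Win k h q ld G) {x y : ℕ} (hxy : x < y) (hy : y < k)
    (hn : ∀ i, x < i → i < y → ¬ ld i) : ∀ e, x < e → e ≤ y → G e = G (x + 1) := by
  intro e h1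
  induction e, h1 using Nat.le_induction with
  | base =>
    intro _
    rfl
  | succ n hn' ih =>
    intro h2
    have h3 := ih (by omega)
    by_contra hcon
    apply hn n (by omega) (by omega)
    rw [hS.ld_iff n (by omega) (by omega)]
    intro h4
    exact hcon (by rw [← h4, h3])

theorem B_good (G : ℕ → Bool) {x y : ℕ} (hxy : x ≤ y) (hg : ∀ e, x < e → e ≤ y → G e = true) :
    Bo G y = Bo G x ∧ Be G y = Be G x := by
  induction y, hxy using Nat.le_induction with
  | base => exact ⟨rfl, rfl⟩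
  | succ n hn ih =>
    have h1 := ih (fun e a b => hg e a (by omega))
    have h2 := stepT G (hg (n + 1) (by omega) (le_refl _))
    exact ⟨h2.1.trans h1.1, h2.2.trans h1.2⟩

theorem B_bad (G : ℕ → Bool) {x y : ℕ} (hxy : x ≤ y)
    (hg : ∀ e, x < e → e ≤ y → G e = false) :
    Bo G y - Bo G x = ((y + 1) / 2 : ℕ) - ((x + 1) / 2 : ℕ) ∧
    Be G y - Be G x = (y / 2 : ℕ) - (x / 2 : ℕ) := by
  induction y, hxy using Nat.le_induction with
  | base => exact ⟨by ring, by ring⟩
  | succ n hn ih =>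
    have h1 := ih (fun e a b => hg e a (by omega))
    have h3 := hg (n + 1) (by omega) (le_refl _)
    rcases Nat.mod_two_eq_zero_or_one (n + 1) with h4 | h4
    · have h2 := stepFe G h3 h4
      omega
    · have h2 := stepFo G h3 h4
      omega

/-- (L6), `q` a maximum, `z` its left neighbour. -/
theorem L6left (hS : Win k h q ld G) (hq : ld q) (g1 : G q = true) (hD : walk G k < 0)
    (fD : walk G q < walk G k) {z : ℕ} (hz : ld z) (hzq : z < q) (gz : G z = false)
    (hn : ∀ i, z < i → i < q → ¬ ld i) : junc k q G q + 1 ≤ junc k q G z + h := by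
  have hqk := hS.q_lt
  have hk := hS.k_eq
  have mq := hS.ld_mem q hq
  have mz := hS.ld_mem z hz
  have lz := (hS.ld_iff z mz.1 mz.2).1 hz
  rw [walk_eq] at hD
  rw [walk_eq, walk_eq] at fD
  have e1 := junc_eq hqk G mq.1 mq.2
  have e3 := junc_eq hqk G mz.1 mz.2
  have hc := const_between hS hzq hqk hn
  have hg : ∀ e, z < e → e ≤ q → G e = true := by
    intro e a b
    rw [hc e a b, ← hc q hzq (le_refl _), g1]
  obtain ⟨b1, b2⟩ := B_good G hzq.le hg
  have key : J G k q q + 1 ≤ J G k q z + ((k / 2 : ℕ) : ℤ) := by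
    rcases maxQ hS hq g1 with w | w
    · exact L6b_OT_zq G (by omega) mz.1 hzq hqk lz w hD fD gz b1 b2
    · exact L6b_ET_zq G (by omega) mz.1 hzq hqk lz w hD fD gz b1 b2
  rw [← e1, ← e3] at key
  omega

/-- (L6), `q` a maximum, `z` its right neighbour. -/
theorem L6right (hS : Win k h q ld G) (hq : ld q) (g1 : G q = true) (hD : walk G k < 0)
    (fD : walk G q < walk G k) {z : ℕ} (hz : ld z) (hzq : q < z) (gz : G z = false)
    (hn : ∀ i, q < i → i < z → ¬ ld i) : junc k q G q + 1 ≤ junc k q G z + h := by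
  have hqk := hS.q_lt
  have hk := hS.k_eq
  have mq := hS.ld_mem q hq
  have mz := hS.ld_mem z hz
  have lz := (hS.ld_iff z mz.1 mz.2).1 hz
  rw [walk_eq] at hD
  rw [walk_eq, walk_eq] at fD
  have e1 := junc_eq hqk G mq.1 mq.2
  have e3 := junc_eq hqk G mz.1 mz.2
  have hc := const_between hS hzq mz.2 hn
  have hg : ∀ e, q < e → e ≤ z → G e = false := by
    intro e a b
    rw [hc e a b, ← hc z hzq (le_refl _), gz]
  obtain ⟨b1, b2⟩ := B_bad G hzq.le hg
  have key : J G k q q + 1 ≤ J G k q z + ((k / 2 : ℕ) : ℤ) := by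
    rcases maxQ hS hq g1 with w | w
    · exact L6b_OT_qz G (by omega) mq.1 hzq mz.2 lz w hD fD gz b1 b2
    · exact L6b_ET_qz G (by omega) mq.1 hzq mz.2 lz w hD fD gz b1 b2
  rw [← e1, ← e3] at key
  omega

end Pool.Agent.Lob34
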