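import Pool.Agent.Lob34.Exists

/-! Facts about the seam for two bad odd edges. -/

namespace Pool.Agent.Lob34

/-- At most one good even edge, two bad odd edges: the counts up to `i`. -/
theorem cnt_up (c : ℕ → Bool) {k i : ℕ} (hi : i ≤ k) :
    0 ≤ Bo c i ∧ Bo c i ≤ Bo c k ∧ 0 ≤ Be c i ∧ Be c i ≤ (i / 2 : ℕ) ∧
      Be c k ≤ Be c i + (k / 2 : ℕ) - (i / 2 : ℕ) := by
  have h1 := bd c hi
  have h2 := bd c (Nat.zero_le i)
  have h3 := zeroB c
  omega

open Pool.Agent.Lob5 in
theorem SeamW.m2P {k : ℕ} {ld al : ℕ → Prop} {s : Pool.Agent.Lob5.Seam k ld al}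
    {c al' : ℕ → Bool} (w : SeamW s c al') (hm : 2 ≤ s.mode) : s.P ≠ 2 := by
  intro hP
  have hk := s.hk
  have hq := s.hq
  have hD := w.neg
  have hPP := w.P
  have hQQ := w.Q
  have pq := s.PQ
  have qh := s.Qh
  have u := cnt_up c (show s.q ≤ k by omega)
  have kd := w.kd
  generalize s.q = q at *
  generalize hmo : s.mode = m at *
  cases kd with
  | z _ _ => omega
  | n1 _ _ _ => omega
  | n2 _ _ _ => omega
  | k1 _ _ _ => omega
  | k2 ht ha hq1 hq2 M =>
    have h1 : 1 ≤ q := by
      by_contra hcon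
      have : q = 0 := by omega
      subst this
      have := M.top
      simp only [S_zero] at this
      omega
    have s1 := st_ET c h1 ht
    have t := M.top
    have u1 := cnt_up c (show q - 1 ≤ k by omega)
    have u2 := cnt_up c (show q + 1 ≤ k by omega)
    have e := ht.1
    unfold S at t hD
    omega
  | k2ii ht ha hl1 ha1 M =>
    have h1 : 1 ≤ q := by
      by_contra hcon
      have : q = 0 := by omega
      subst this
      have := M.top
      simp only [S_zero] at this
      omega
    have s1 := st_ET c h1 ht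
    have t := M.top
    have u1 := cnt_up c (show q - 1 ≤ k by omega)
    have u2 := cnt_up c (show q + 1 ≤ k by omega)
    have e := ht.1
    unfold S at t hD
    omega
  | k3 ht ha M h5 =>
    have e := ht.1
    have h1 : 1 ≤ q := by omega
    have s1 := st_OF c h1 ht
    have t := M.top
    have u1 := cnt_up c (show q - 1 ≤ k by omega)
    have u2 := cnt_up c (show q + 1 ≤ k by omega)
    rcases h5 with h5 | ⟨h6, h7, h8⟩
    · unfold S at t hD h5
      omega
    · have s2 := st_ET c (show 1 ≤ q - 1 by omega) h7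
      have u3 := cnt_up c (show q - 1 - 1 ≤ k by omega)
      unfold S at t hD
      omega
  | k4 ht ha M =>
    have e := ht.1
    have t := M.top
    unfold S at t hD
    omega

open Pool.Agent.Lob5 in
theorem SeamW.m1P {k : ℕ} {ld al : ℕ → Prop} {s : Pool.Agent.Lob5.Seam k ld al}
    {c al' : ℕ → Bool} (w : SeamW s c al') (hm : s.mode = 1) (hP : s.P = 2) (i : ℕ)
    (hi : ld i) (hb : s.bad (oe i)) : False := by
  have hk := s.hk
  have hq := s.hq
  have hD := w.neg
  have hPP := w.P
  have hQQ := w.Q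
  have pq := s.PQ
  have qh := s.Qh
  have u := cnt_up c (show s.q ≤ k by omega)
  have kd := w.kd
  have hb' := (w.bad _).1 hb
  have hli := (w.ld_iff i).1 hi
  have rng := bd c (show s.q ≤ k by omega)
  generalize s.q = q at *
  rw [hm] at kd
  cases kd with
  | k1 ht ha M =>
    have e := ht.1
    have h1 : 1 ≤ q := by omega
    have s1 := st_OT c h1 ht
    have t := M.top
    have u1 := cnt_up c (show q - 1 ≤ k by omega)
    have u2 := cnt_up c (show q + 1 ≤ k by omega)
    unfold S at t hD
    have b2 : Bo c q = 2 := by omega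
    -- the odd edge at `i`
    obtain ⟨l1, l2, l3⟩ := hli
    obtain ⟨o1, o2, o3, o4, o5, o6⟩ := oE_mem l1 l2
    rw [oE_eq] at *
    have hoq : oE i < q := by
      by_contra hcon
      rcases Nat.eq_or_lt_of_le (show q ≤ oE i by omega) with h | h
      · rw [← h, ht.2.1] at hb'
        cases hb'
      · obtain ⟨n, hn⟩ : ∃ n, oE i = n + 1 := ⟨oE i - 1, by omega⟩
        rw [hn] at hb' h o2 o3
        have s2 := stepFo c hb' (by omega)
        have s3 := bd c (show q ≤ n by omega)
        have s4 := cnt_up c (show n + 1 ≤ k by omega)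
        omega
    have heq : eE i ≤ q := by
      unfold eE
      unfold oE at hoq
      split_ifs at * <;> omega
    have hec : c (eE i) = false := by
      rcases Bool.eq_false_or_eq_true (c (eE i)) with h | h
      · obtain ⟨n, hn⟩ : ∃ n, eE i = n + 1 := ⟨eE i - 1, by omega⟩
        rw [hn] at h heq o4 o5 o6
        have s2 := stepT c h
        have s3 := bd c (show n + 1 ≤ q by omega)
        have s4 := cnt_up c (show n ≤ k by omega)
        omega
      · exact h
    apply l3
    unfold oE at hb'
    unfold eE at hec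
    split_ifs at * <;> rw [hb', hec]

open Pool.Agent.Lob5 in
theorem exists_seamWP {k : ℕ} (hk : k % 2 = 1) (h3 : 3 ≤ k) (ld al : ℕ → Prop)
    (hal : ∀ i, al i → ld i) (hld : ∀ i, ld i → 1 ≤ i ∧ i < k) :
    ∃ s : Pool.Agent.Lob5.Seam k ld al, (2 ≤ s.mode → s.P ≠ 2) ∧
      (s.mode = 1 → s.P = 2 → ∀ i, ld i → ¬ al i → ¬ s.bad (oe i)) := by
  obtain ⟨s, c, al', w⟩ := exists_seamW hk h3 ld al hal hld
  exact ⟨s, w.m2P, fun h1 h2 i h4 _ h5 => w.m1P h1 h2 i h4 h5⟩

end Pool.Agent.Lob34
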