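import Pool.Agent.Lob12.OwCount
import Pool.Agent.Lob12.RxLam

/-!
# Counts along a coloured word

`WW`: an even word with the alternating colours `c` (they change exactly at the loaded vertices). Counts `ob, eb, og, eg`
of odd/even bad/good edges and the walk `wk`.
-/

namespace Pool.Agent.Lob34

open Pool.Agent.Lob5 Pool.Agent.Lob89 Pool.Agent.Lob12

section

variable (c : ℕ → Prop)

theorem tot (n : ℕ) : ob c n + og c n = (n + 1) / 2 ∧ eb c n + eg c n = n / 2 := by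
  induction n with
  | zero => exact ⟨rfl, rfl⟩
  | succ n ih =>
    obtain ⟨h1, h2⟩ := ih
    unfold ob og eb eg at *
    by_cases hc : c (n + 1)
    · rcases Nat.mod_two_eq_zero_or_one (n + 1) with h | h
      · rw [cn_neg (p := fun y => y % 2 = 1 ∧ c y) (by omega),
          cn_neg (p := fun y => y % 2 = 1 ∧ ¬ c y) (by omega),
          cn_pos (p := fun y => y % 2 = 0 ∧ c y) ⟨h, hc⟩,
          cn_neg (p := fun y => y % 2 = 0 ∧ ¬ c y) (fun h => h.2 hc)]
        omega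
      · rw [cn_pos (p := fun y => y % 2 = 1 ∧ c y) ⟨h, hc⟩,
          cn_neg (p := fun y => y % 2 = 1 ∧ ¬ c y) (fun h => h.2 hc),
          cn_neg (p := fun y => y % 2 = 0 ∧ c y) (by omega),
          cn_neg (p := fun y => y % 2 = 0 ∧ ¬ c y) (by omega)]
        omega
    · rcases Nat.mod_two_eq_zero_or_one (n + 1) with h | h
      · rw [cn_neg (p := fun y => y % 2 = 1 ∧ c y) (by omega),
          cn_neg (p := fun y => y % 2 = 1 ∧ ¬ c y) (by omega),
          cn_neg (p := fun y => y % 2 = 0 ∧ c y) (fun h => hc h.2),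
          cn_pos (p := fun y => y % 2 = 0 ∧ ¬ c y) ⟨h, hc⟩]
        omega
      · rw [cn_neg (p := fun y => y % 2 = 1 ∧ c y) (fun h => hc h.2),
          cn_pos (p := fun y => y % 2 = 1 ∧ ¬ c y) ⟨h, hc⟩,
          cn_neg (p := fun y => y % 2 = 0 ∧ c y) (by omega),
          cn_neg (p := fun y => y % 2 = 0 ∧ ¬ c y) (by omega)]
        omega

theorem cn_oe (n : ℕ) : cn c n = ob c n + eb c n := by
  induction n with
  | zero => rfl
  | succ n ih =>
    unfold ob eb at *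
    by_cases hc : c (n + 1)
    · rcases Nat.mod_two_eq_zero_or_one (n + 1) with h | h
      · rw [cn_neg (p := fun y => y % 2 = 1 ∧ c y) (by omega),
          cn_pos (p := fun y => y % 2 = 0 ∧ c y) ⟨h, hc⟩, cn_pos hc]
        omega
      · rw [cn_pos (p := fun y => y % 2 = 1 ∧ c y) ⟨h, hc⟩,
          cn_neg (p := fun y => y % 2 = 0 ∧ c y) (by omega), cn_pos hc]
        omega
    · rw [cn_neg (p := fun y => y % 2 = 1 ∧ c y) (fun h => hc h.2),
        cn_neg (p := fun y => y % 2 = 0 ∧ c y) (fun h => hc h.2), cn_neg hc]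
      omega

/-- the walk in terms of the counts -/
theorem wk_oe (n : ℕ) : wk c n = n - 2 * (ob c n : ℤ) - 2 * eb c n := by
  unfold wk
  rw [cn_oe]
  push_cast
  ring

theorem mono4 {x y : ℕ} (h : x ≤ y) :
    ob c x ≤ ob c y ∧ eb c x ≤ eb c y ∧ og c x ≤ og c y ∧ eg c x ≤ eg c y :=
  ⟨cn_mono _ h, cn_mono _ h, cn_mono _ h, cn_mono _ h⟩

/-- bad letter -/
theorem stepB {v : ℕ} (h0 : 1 ≤ v) (hc : c v) :
    ob c v = ob c (v - 1) + v % 2 ∧ eb c v + v % 2 = eb c (v - 1) + 1 ∧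
      og c v = og c (v - 1) ∧ eg c v = eg c (v - 1) := by
  obtain ⟨n, rfl⟩ : ∃ n, v = n + 1 := ⟨v - 1, by omega⟩
  rw [Nat.add_sub_cancel]
  unfold ob og eb eg
  rcases Nat.mod_two_eq_zero_or_one (n + 1) with h | h
  · rw [cn_neg (p := fun y => y % 2 = 1 ∧ c y) (by omega),
      cn_neg (p := fun y => y % 2 = 1 ∧ ¬ c y) (by omega),
      cn_pos (p := fun y => y % 2 = 0 ∧ c y) ⟨h, hc⟩,
      cn_neg (p := fun y => y % 2 = 0 ∧ ¬ c y) (fun h => h.2 hc)]
    omega
  · rw [cn_pos (p := fun y => y % 2 = 1 ∧ c y) ⟨h, hc⟩,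
      cn_neg (p := fun y => y % 2 = 1 ∧ ¬ c y) (fun h => h.2 hc),
      cn_neg (p := fun y => y % 2 = 0 ∧ c y) (by omega),
      cn_neg (p := fun y => y % 2 = 0 ∧ ¬ c y) (by omega)]
    omega

/-- good letter -/
theorem stepG {v : ℕ} (h0 : 1 ≤ v) (hc : ¬ c v) :
    ob c v = ob c (v - 1) ∧ eb c v = eb c (v - 1) ∧
      og c v = og c (v - 1) + v % 2 ∧ eg c v + v % 2 = eg c (v - 1) + 1 := by
  obtain ⟨n, rfl⟩ : ∃ n, v = n + 1 := ⟨v - 1, by omega⟩
  rw [Nat.add_sub_cancel]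
  unfold ob og eb eg
  rcases Nat.mod_two_eq_zero_or_one (n + 1) with h | h
  · rw [cn_neg (p := fun y => y % 2 = 1 ∧ c y) (by omega),
      cn_neg (p := fun y => y % 2 = 1 ∧ ¬ c y) (by omega),
      cn_neg (p := fun y => y % 2 = 0 ∧ c y) (fun h => hc h.2),
      cn_pos (p := fun y => y % 2 = 0 ∧ ¬ c y) ⟨h, hc⟩]
    omega
  · rw [cn_neg (p := fun y => y % 2 = 1 ∧ c y) (fun h => hc h.2),
      cn_pos (p := fun y => y % 2 = 1 ∧ ¬ c y) ⟨h, hc⟩,
      cn_neg (p := fun y => y % 2 = 0 ∧ c y) (by omega),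
      cn_neg (p := fun y => y % 2 = 0 ∧ ¬ c y) (by omega)]
    omega

end

/-- the colours of the order `psR`: `c` up to `u`, opposite behind `u` -/
def rc (c : ℕ → Prop) (u e : ℕ) : Prop := (e ≤ u ∧ c e) ∨ (u < e ∧ ¬ c e)

theorem rc_le {c : ℕ → Prop} {u e : ℕ} (h : e ≤ u) : rc c u e ↔ c e := by
  unfold rc
  constructor
  · rintro (⟨_, h2⟩ | ⟨h1, _⟩)
    · exact h2
    · omega
  · exact fun h2 => Or.inl ⟨h, h2⟩

theorem rc_gt {c : ℕ → Prop} {u e : ℕ} (h : u < e) : rc c u e ↔ ¬ c e := by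
  unfold rc
  constructor
  · rintro (⟨h1, _⟩ | ⟨_, h2⟩)
    · omega
    · exact h2
  · exact fun h2 => Or.inr ⟨h, h2⟩

/-- the counts up to `u` -/
theorem rc_cnt1 (c : ℕ → Prop) {u x : ℕ} (h : x ≤ u) :
    ob (rc c u) x = ob c x ∧ eb (rc c u) x = eb c x ∧ og (rc c u) x = og c x ∧
      eg (rc c u) x = eg c x := by
  unfold ob eb og eg
  refine ⟨cn_congr fun y _ h2 => ?_, cn_congr fun y _ h2 => ?_, cn_congr fun y _ h2 => ?_,
    cn_congr fun y _ h2 => ?_⟩ <;> rw [rc_le (h2.trans h)]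

/-- the counts behind `u` -/
theorem rc_cnt2 (c : ℕ → Prop) {u x : ℕ} (h : u ≤ x) :
    ob (rc c u) x + og c u = ob c u + og c x ∧ eb (rc c u) x + eg c u = eb c u + eg c x ∧
      og (rc c u) x + ob c u = og c u + ob c x ∧ eg (rc c u) x + eb c u = eg c u + eb c x := by
  induction x with
  | zero =>
    rw [show u = 0 by omega]
    exact ⟨rfl, rfl, rfl, rfl⟩
  | succ x ih =>
    rcases Nat.lt_or_ge x u with h1 | h1
    · rw [show x + 1 = u by omega]
      obtain ⟨a1, a2, a3, a4⟩ := rc_cnt1 c (le_refl u)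
      rw [a1, a2, a3, a4]
      exact ⟨rfl, rfl, rfl, rfl⟩
    · obtain ⟨a1, a2, a3, a4⟩ := ih h1
      by_cases hc : c (x + 1)
      · have hr : ¬ rc c u (x + 1) := fun h => (rc_gt (by omega)).1 h hc
        have b1 := stepB c (v := x + 1) (by omega) hc
        have b2 := stepG (rc c u) (v := x + 1) (by omega) hr
        rw [Nat.add_sub_cancel] at b1 b2
        omega
      · have hr : rc c u (x + 1) := (rc_gt (by omega)).2 hc
        have b1 := stepG c (v := x + 1) (by omega) hc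
        have b2 := stepB (rc c u) (v := x + 1) (by omega) hr
        rw [Nat.add_sub_cancel] at b1 b2
        omega

/-- the walk up to `u` -/
theorem rc_wk1 (c : ℕ → Prop) {u x : ℕ} (h : x ≤ u) : wk (rc c u) x = wk c x := by
  rw [wk_oe, wk_oe, (rc_cnt1 c h).1, (rc_cnt1 c h).2.1]

/-- the walk behind `u` -/
theorem rc_wk2 (c : ℕ → Prop) {u x : ℕ} (h : u ≤ x) :
    wk (rc c u) x = 2 * wk c u - wk c x := by
  rw [wk_oe, wk_oe, wk_oe]
  have h1 := rc_cnt2 c h
  have h2 := tot c u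
  have h3 := tot c x
  omega

/-- An even word with alternating colours. -/
structure WW (K h : ℕ) (ld al c : ℕ → Prop) : Prop where
  hK : K = 2 * h + 2
  al_ld : ∀ i, al i → ld i
  rng : ∀ i, 1 ≤ i → i < K → ld i → 2 ≤ i ∧ i + 2 ≤ K
  same : ∀ i, 1 ≤ i → i < K → ¬ ld i → (c i ↔ c (i + 1))
  dif : ∀ i, 1 ≤ i → i < K → ld i → (c i ↔ ¬ c (i + 1))

section

variable {K h : ℕ} {ld al c : ℕ → Prop}

/-- the opposite colours -/
theorem WW.neg (W : WW K h ld al c) : WW K h ld al (fun e => ¬ c e) :=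
  ⟨W.hK, W.al_ld, W.rng, fun i h1 h2 h3 => not_congr (W.same i h1 h2 h3),
    fun i h1 h2 h3 => not_congr (W.dif i h1 h2 h3)⟩

theorem WW.not_ld (W : WW K h ld al c) {u : ℕ} (h1 : 1 ≤ u) (h2 : u < K) (h3 : c u)
    (h4 : c (u + 1)) : ¬ ld u := fun h => (W.dif u h1 h2 h).1 h3 h4

/-- the colours `rc` satisfy the hypotheses for the two orders -/
theorem WW.cw (W : WW K h ld al c) {u : ℕ} (hu : u % 2 = 1) (huK : u + 1 < K) (h3 : c u)
    (h4 : c (u + 1)) : CW K u h ld al (rc c u) := by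
  have hK := W.hK
  refine ⟨W.hK, hu, by omega, W.not_ld (by omega) (by omega) h3 h4, (rc_le le_rfl).2 h3, W.al_ld,
    ?_, ?_, ?_⟩
  · intro i h1 h2 h5 h6
    have := W.same i h1 h2 h6
    rcases Nat.lt_or_ge i u with h7 | h7
    · rw [rc_le h7.le, rc_le (by omega)]
      exact this
    · rw [rc_gt (by omega), rc_gt (by omega)]
      exact not_congr this
  · intro i h1 h2 h5 h6 h7
    have := W.dif i h1 h2 h5
    rcases Nat.lt_or_ge i u with h8 | h8
    · rw [rc_le h8.le] at h6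
      rw [rc_le (by omega)] at h7
      exact this.1 h6 h7
    · have h9 : i ≠ u := by
        rintro rfl
        exact W.not_ld h1 h2 h3 h4 h5
      rw [rc_gt (by omega)] at h6 h7
      exact h6 (this.2 h7)
  · intro i h1 h2 h5 h6
    have := W.dif i h1 h2 (W.al_ld i h5)
    rcases Nat.lt_or_ge i u with h8 | h8
    · rw [rc_le h8.le] at h6
      rw [rc_le (by omega)]
      by_contra h
      exact h6 (this.2 h)
    · have h9 : i ≠ u := by
        rintro rfl
        exact W.not_ld h1 h2 h3 h4 (W.al_ld _ h5)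
      rw [rc_gt (by omega)] at h6 ⊢
      exact fun h => h6 (fun h' => this.1 h' h)

end

end Pool.Agent.Lob34
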