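import Pool.Agent.Lob34.Facts
import Pool.Agent.Lob89.Walk

/-! The ranks of `Lob89` and of `Lob34` are the same. -/

namespace Pool.Agent.Lob34

theorem walk_eq (G : ℕ → Bool) (i : ℕ) : Lob89.walk G i = S G i := by
  induction i with
  | zero => simp [Lob89.walk]
  | succ n ih => rw [Lob89.walk_succ, S_succ, ih]

theorem Go_step (c : ℕ → Bool) (n : ℕ) :
    Go c (n + 1) = Go c n + if c (n + 1) = true ∧ (n + 1) % 2 = 1 then 1 else 0 := by
  have h : Bo c (n + 1) = Bo c n + if (n + 1) % 2 = 1 ∧ c (n + 1) = false then 1 else 0 := rfl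
  unfold Go
  rw [h]
  rcases Bool.eq_false_or_eq_true (c (n + 1)) with h2 | h2 <;> rw [h2] <;>
    simp only [true_and, and_true, Bool.true_eq_false, Bool.false_eq_true, and_false, false_and,
      if_false] <;>
    split_ifs <;> omega

theorem Ge_step (c : ℕ → Bool) (n : ℕ) :
    Ge c (n + 1) = Ge c n + if c (n + 1) = true ∧ (n + 1) % 2 = 0 then 1 else 0 := by
  have h : Be c (n + 1) = Be c n + if (n + 1) % 2 = 0 ∧ c (n + 1) = false then 1 else 0 := rfl
  unfold Ge
  rw [h]
  rcases Bool.eq_false_or_eq_true (c (n + 1)) with h2 | h2 <;> rw [h2] <;>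
    simp only [true_and, and_true, Bool.true_eq_false, Bool.false_eq_true, and_false, false_and,
      if_false] <;>
    split_ifs <;> omega

theorem Bo_step (c : ℕ → Bool) (n : ℕ) :
    Bo c (n + 1) = Bo c n + if c (n + 1) = false ∧ (n + 1) % 2 = 1 then 1 else 0 := by
  have h : Bo c (n + 1) = Bo c n + if (n + 1) % 2 = 1 ∧ c (n + 1) = false then 1 else 0 := rfl
  rw [h]
  simp only [and_comm]

theorem Be_step (c : ℕ → Bool) (n : ℕ) :
    Be c (n + 1) = Be c n + if c (n + 1) = false ∧ (n + 1) % 2 = 0 then 1 else 0 := by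
  have h : Be c (n + 1) = Be c n + if (n + 1) % 2 = 0 ∧ c (n + 1) = false then 1 else 0 := rfl
  rw [h]
  simp only [and_comm]

/-- The counting functions of `Lob89`. -/
theorem cnt_eq {k q : ℕ} (hq : q < k) (G : ℕ → Bool) (g : Bool) (r : ℕ) (X : ℕ → ℤ)
    (hX0 : X 0 = 0)
    (hX : ∀ n, X (n + 1) = X n + if G (n + 1) = g ∧ (n + 1) % 2 = r then 1 else 0)
    (t : ℕ) (ht : t ≤ k) :
    (Lob89.cnt k q G g r t : ℤ) =
      if q + t ≤ k then X (q + t) - X q else X k - X q + X (q + t - k) := by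
  induction t with
  | zero => simp [Lob89.cnt_zero, hq.le]
  | succ t ih =>
    have ih' := ih (by omega)
    rw [Lob89.cnt_succ]
    push_cast
    rw [ih']
    unfold Lob89.wedge
    by_cases h1 : q + (t + 1) ≤ k
    · rw [if_pos h1, if_pos (by omega : q + t ≤ k), if_pos (by omega : q + 1 + t ≤ k)]
      have e1 : q + 1 + t = q + t + 1 := by omega
      have e2 : q + (t + 1) = q + t + 1 := by omega
      rw [e1, e2, hX (q + t)]
      ring
    · by_cases h2 : q + t ≤ k
      · have h3 : q + t = k := by omega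
        rw [if_neg h1, if_pos h2, if_neg (by omega : ¬ q + 1 + t ≤ k), h3]
        have h4 : q + (t + 1) - k = 0 + 1 := by omega
        have h5 : q + 1 + t - k = 0 + 1 := by omega
        rw [h4, h5, hX 0, hX0]
        ring
      · rw [if_neg h1, if_neg h2, if_neg (by omega : ¬ q + 1 + t ≤ k)]
        have h4 : q + (t + 1) - k = (q + t - k) + 1 := by omega
        have h5 : q + 1 + t - k = (q + t - k) + 1 := by omega
        rw [h4, h5, hX (q + t - k)]
        ring

theorem cnt_W {k q : ℕ} (hq : q < k) (G : ℕ → Bool) (g : Bool) (r : ℕ) (X : ℕ → ℤ)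
    (hX0 : X 0 = 0)
    (hX : ∀ n, X (n + 1) = X n + if G (n + 1) = g ∧ (n + 1) % 2 = r then 1 else 0)
    {e : ℕ} (h1 : 1 ≤ e) (h2 : e ≤ k) :
    (Lob89.cnt k q G g r (Lob89.wtime k q e) : ℤ) = W X k q e := by
  rw [cnt_eq hq G g r X hX0 hX _ (by unfold Lob89.wtime; split_ifs <;> omega)]
  unfold Lob89.wtime W
  by_cases h : q < e
  · rw [if_pos h, if_pos h, if_pos (by omega)]
    have e1 : q + (e - q - 1) = e - 1 := by omega
    rw [e1]
  · rw [if_neg h, if_neg h]
    by_cases h3 : e = 1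
    · subst h3
      rw [if_pos (by omega)]
      have e1 : q + (1 + k - q - 1) = k := by omega
      rw [e1]
      simp [hX0]
    · rw [if_neg (by omega)]
      have e1 : q + (e + k - q - 1) - k = e - 1 := by omega
      rw [e1]

theorem cnt_tot {k q : ℕ} (hq : q < k) (G : ℕ → Bool) (g : Bool) (r : ℕ) (X : ℕ → ℤ)
    (hX0 : X 0 = 0)
    (hX : ∀ n, X (n + 1) = X n + if G (n + 1) = g ∧ (n + 1) % 2 = r then 1 else 0) :
    (Lob89.cnt k q G g r k : ℤ) = X k := by
  rw [cnt_eq hq G g r X hX0 hX _ (le_refl _)]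
  by_cases h : q = 0
  · subst h
    rw [if_pos (by omega)]
    simp [hX0]
  · rw [if_neg (by omega)]
    have e1 : q + k - k = q := by omega
    rw [e1]
    ring

theorem rank_eq {k q : ℕ} (hq : q < k) (G : ℕ → Bool) {e : ℕ} (h1 : 1 ≤ e) (h2 : e ≤ k) :
    (Lob89.rank k q G e : ℤ) = rank G k q e := by
  have hodd : Go G 0 = 0 := by simp [Go, Bo]
  have heven : Ge G 0 = 0 := by simp [Ge, Be]
  have cle := Lob89.cnt_mono k q G false (e % 2) (show Lob89.wtime k q e ≤ k by
    unfold Lob89.wtime; split_ifs <;> omega)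
  rcases Bool.eq_false_or_eq_true (G e) with hg | hg
  · rw [Lob89.rank_good hg]
    rcases Nat.mod_two_eq_zero_or_one e with hp | hp
    · rw [hp]
      push_cast
      rw [cnt_tot hq G false 0 (Be G) rfl (Be_step G),
        cnt_W hq G true 0 (Ge G) heven (Ge_step G) h1 h2]
      have h3 : ¬ e % 2 = 1 := by omega
      simp only [rank, h3, hg, if_false, if_true]
    · rw [hp]
      push_cast
      rw [cnt_tot hq G false 1 (Bo G) rfl (Bo_step G),
        cnt_W hq G true 1 (Go G) hodd (Go_step G) h1 h2]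
      simp only [rank, hp, hg, if_true]
  · rw [Lob89.rank_bad hg]
    rcases Nat.mod_two_eq_zero_or_one e with hp | hp
    · rw [hp] at cle ⊢
      rw [Nat.cast_sub cle]
      rw [cnt_tot hq G false 0 (Be G) rfl (Be_step G),
        cnt_W hq G false 0 (Be G) rfl (Be_step G) h1 h2]
      have h3 : ¬ e % 2 = 1 := by omega
      simp only [rank, h3, hg, if_false, Bool.false_eq_true]
    · rw [hp] at cle ⊢
      rw [Nat.cast_sub cle]
      rw [cnt_tot hq G false 1 (Bo G) rfl (Bo_step G),
        cnt_W hq G false 1 (Bo G) rfl (Bo_step G) h1 h2]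
      simp only [rank, hp, hg, if_true, if_false, Bool.false_eq_true]

theorem junc_eq {k q : ℕ} (hq : q < k) (G : ℕ → Bool) {i : ℕ} (h1 : 1 ≤ i) (h2 : i < k) :
    (Lob89.junc k q G i : ℤ) = J G k q i := by
  unfold Lob89.junc J
  push_cast
  rw [rank_eq hq G h1 (by omega), rank_eq hq G (by omega) (by omega)]

end Pool.Agent.Lob34
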