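import Pool.Agent.Lob34.Walk

/-! Ranks by counting in the window. -/

namespace Pool.Agent.Lob34

/-- The position of the edge `e_j` in the window `e_{q+1}, ..., e_k, e_1, ..., e_q`. -/
def pos (k q j : ℕ) : ℕ := if q < j then j - q else j + k - q

theorem pos_zero {k j : ℕ} (h : 1 ≤ j) : pos k 0 j = j := by
  unfold pos
  rw [if_pos (by omega)]
  omega

theorem pos_mem {k q j : ℕ} (hq : q ≤ k) (h1 : 1 ≤ j) (h2 : j ≤ k) :
    1 ≤ pos k q j ∧ pos k q j ≤ k := by
  unfold pos
  split_ifs <;> omega

theorem pos_inj {k q j j' : ℕ} (hq : q ≤ k) (h1 : 1 ≤ j) (h2 : j ≤ k) (h1' : 1 ≤ j')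
    (h2' : j' ≤ k) (h : pos k q j = pos k q j') : j = j' := by
  unfold pos at h
  split_ifs at h <;> omega

/-- Number of `i ∈ {1, ..., n}` with `T i`. -/
def cnt (T : ℕ → Prop) [DecidablePred T] (n : ℕ) : ℕ := ((Finset.Icc 1 n).filter T).card

theorem cnt_zero (T : ℕ → Prop) [DecidablePred T] : cnt T 0 = 0 := by simp [cnt]

theorem cnt_succ (T : ℕ → Prop) [DecidablePred T] (n : ℕ) :
    cnt T (n + 1) = cnt T n + if T (n + 1) then 1 else 0 := by
  unfold cnt
  have h : Finset.Icc 1 (n + 1) = insert (n + 1) (Finset.Icc 1 n) := by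
    ext i
    simp only [Finset.mem_Icc, Finset.mem_insert]
    omega
  rw [h, Finset.filter_insert]
  split_ifs with h1
  · rw [Finset.card_insert_of_notMem]
    simp
  · simp

theorem Bo_cnt (c : ℕ → Bool) (n : ℕ) :
    Bo c n = (cnt (fun i => i % 2 = 1 ∧ c i = false) n : ℕ) := by
  induction n with
  | zero => rw [cnt_zero]; rfl
  | succ n ih =>
    rw [cnt_succ]
    simp only [Bo, ih]
    split_ifs <;> push_cast <;> ring

theorem Be_cnt (c : ℕ → Bool) (n : ℕ) :
    Be c n = (cnt (fun i => i % 2 = 0 ∧ c i = false) n : ℕ) := by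
  induction n with
  | zero => rw [cnt_zero]; rfl
  | succ n ih =>
    rw [cnt_succ]
    simp only [Be, ih]
    split_ifs <;> push_cast <;> ring

theorem Go_succ (c : ℕ → Bool) (n : ℕ) :
    Go c (n + 1) = Go c n + if (n + 1) % 2 = 1 ∧ c (n + 1) = true then 1 else 0 := by
  have h : Bo c (n + 1) = Bo c n + if (n + 1) % 2 = 1 ∧ c (n + 1) = false then 1 else 0 := rfl
  unfold Go
  rw [h]
  rcases Bool.eq_false_or_eq_true (c (n + 1)) with h2 | h2 <;> rw [h2] <;>
    simp only [and_true, Bool.true_eq_false, Bool.false_eq_true, and_false, if_false] <;>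
    split_ifs <;> omega

theorem Ge_succ (c : ℕ → Bool) (n : ℕ) :
    Ge c (n + 1) = Ge c n + if (n + 1) % 2 = 0 ∧ c (n + 1) = true then 1 else 0 := by
  have h : Be c (n + 1) = Be c n + if (n + 1) % 2 = 0 ∧ c (n + 1) = false then 1 else 0 := rfl
  unfold Ge
  rw [h]
  rcases Bool.eq_false_or_eq_true (c (n + 1)) with h2 | h2 <;> rw [h2] <;>
    simp only [and_true, Bool.true_eq_false, Bool.false_eq_true, and_false, if_false] <;>
    split_ifs <;> omega

theorem Go_cnt (c : ℕ → Bool) (n : ℕ) :
    Go c n = (cnt (fun i => i % 2 = 1 ∧ c i = true) n : ℕ) := by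
  induction n with
  | zero => rw [cnt_zero]; rfl
  | succ n ih =>
    rw [cnt_succ, Go_succ, ih]
    split_ifs <;> push_cast <;> ring

theorem Ge_cnt (c : ℕ → Bool) (n : ℕ) :
    Ge c n = (cnt (fun i => i % 2 = 0 ∧ c i = true) n : ℕ) := by
  induction n with
  | zero => rw [cnt_zero]; rfl
  | succ n ih =>
    rw [cnt_succ, Ge_succ, ih]
    split_ifs <;> push_cast <;> ring

theorem cnt_split (T : ℕ → Prop) [DecidablePred T] {a b : ℕ} (h : a ≤ b) :
    cnt T b = cnt T a + ((Finset.Ioc a b).filter T).card := by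
  induction b, h using Nat.le_induction with
  | base => simp
  | succ n hn ih =>
    rw [cnt_succ, ih]
    have h : Finset.Ioc a (n + 1) = insert (n + 1) (Finset.Ioc a n) := by
      ext i
      simp only [Finset.mem_Ioc, Finset.mem_insert]
      omega
    rw [h, Finset.filter_insert]
    split_ifs with h1
    · rw [Finset.card_insert_of_notMem]
      · ring
      · simp
    · simp

/-- Number of edges of the class `T` before `e_j` in the window. -/
def before (T : ℕ → Prop) [DecidablePred T] (k q j : ℕ) : ℕ :=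
  ((Finset.Icc 1 k).filter (fun i => T i ∧ pos k q i < pos k q j)).card

theorem before_eq (T : ℕ → Prop) [DecidablePred T] {k q j : ℕ} (hq : q ≤ k) (h1 : 1 ≤ j)
    (h2 : j ≤ k) : (before T k q j : ℤ) = W (fun n => (cnt T n : ℤ)) k q j := by
  unfold before W
  by_cases h : q < j
  · rw [if_pos h]
    have e : (Finset.Icc 1 k).filter (fun i => T i ∧ pos k q i < pos k q j) =
        (Finset.Ioc q (j - 1)).filter T := by
      ext i
      simp only [Finset.mem_filter, Finset.mem_Icc, Finset.mem_Ioc]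
      constructor
      · rintro ⟨a, b, d⟩
        refine ⟨?_, b⟩
        unfold pos at d
        rw [if_pos h] at d
        split_ifs at d <;> omega
      · rintro ⟨a, b⟩
        refine ⟨by omega, b, ?_⟩
        unfold pos
        rw [if_pos h]
        split_ifs <;> omega
    rw [e]
    have := cnt_split T (show q ≤ j - 1 by omega)
    simp only
    omega
  · rw [if_neg h]
    have e : (Finset.Icc 1 k).filter (fun i => T i ∧ pos k q i < pos k q j) =
        (Finset.Ioc q k).filter T ∪ (Finset.Icc 1 (j - 1)).filter T := by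
      ext i
      simp only [Finset.mem_filter, Finset.mem_Icc, Finset.mem_Ioc, Finset.mem_union]
      constructor
      · rintro ⟨a, b, d⟩
        unfold pos at d
        rw [if_neg h] at d
        by_cases h3 : q < i
        · exact Or.inl ⟨by omega, b⟩
        · rw [if_neg h3] at d
          exact Or.inr ⟨by omega, b⟩
      · intro a
        unfold pos
        rw [if_neg h]
        rcases a with ⟨a, b⟩ | ⟨a, b⟩
        · refine ⟨by omega, b, ?_⟩
          rw [if_pos (by omega)]
          omega
        · refine ⟨by omega, b, ?_⟩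
          rw [if_neg (by omega)]
          omega
    rw [e, Finset.card_union_of_disjoint]
    · have := cnt_split T hq
      unfold cnt at *
      push_cast
      omega
    · rw [Finset.disjoint_left]
      intro i
      simp only [Finset.mem_filter, Finset.mem_Icc, Finset.mem_Ioc]
      omega

/-- The classes of edges. -/
def badO (c : ℕ → Bool) (i : ℕ) : Prop := i % 2 = 1 ∧ c i = false
/-- Bad even edges. -/
def badE (c : ℕ → Bool) (i : ℕ) : Prop := i % 2 = 0 ∧ c i = false
/-- Good odd edges. -/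
def goodO (c : ℕ → Bool) (i : ℕ) : Prop := i % 2 = 1 ∧ c i = true
/-- Good even edges. -/
def goodE (c : ℕ → Bool) (i : ℕ) : Prop := i % 2 = 0 ∧ c i = true

instance (c : ℕ → Bool) : DecidablePred (badO c) := fun i => by unfold badO; infer_instance
instance (c : ℕ → Bool) : DecidablePred (badE c) := fun i => by unfold badE; infer_instance
instance (c : ℕ → Bool) : DecidablePred (goodO c) := fun i => by unfold goodO; infer_instance
instance (c : ℕ → Bool) : DecidablePred (goodE c) := fun i => by unfold goodE; infer_instance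

/-- The number of bad odd edges is `Bo c k`, and so on. -/
theorem Bo_card (c : ℕ → Bool) (k : ℕ) :
    Bo c k = (((Finset.Icc 1 k).filter (badO c)).card : ℕ) := Bo_cnt c k
theorem Be_card (c : ℕ → Bool) (k : ℕ) :
    Be c k = (((Finset.Icc 1 k).filter (badE c)).card : ℕ) := Be_cnt c k
theorem Go_card (c : ℕ → Bool) (k : ℕ) :
    Go c k = (((Finset.Icc 1 k).filter (goodO c)).card : ℕ) := Go_cnt c k
theorem Ge_card (c : ℕ → Bool) (k : ℕ) :
    Ge c k = (((Finset.Icc 1 k).filter (goodE c)).card : ℕ) := Ge_cnt c k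

/-- The rank of a bad odd edge. -/
theorem rank_badO (c : ℕ → Bool) {k q j : ℕ} (hq : q ≤ k) (h1 : 1 ≤ j) (h2 : j ≤ k)
    (h : badO c j) : rank c k q j = Bo c k - (before (badO c) k q j : ℤ) := by
  rw [before_eq _ hq h1 h2]
  have e : (fun n => (cnt (badO c) n : ℤ)) = Bo c := by
    funext n
    exact (Bo_cnt c n).symm
  rw [e]
  simp only [rank, h.1, h.2, if_true, if_false, Bool.false_eq_true]

/-- The rank of a good odd edge. -/
theorem rank_goodO (c : ℕ → Bool) {k q j : ℕ} (hq : q ≤ k) (h1 : 1 ≤ j) (h2 : j ≤ k)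
    (h : goodO c j) : rank c k q j = Bo c k + 1 + (before (goodO c) k q j : ℤ) := by
  rw [before_eq _ hq h1 h2]
  have e : (fun n => (cnt (goodO c) n : ℤ)) = Go c := by
    funext n
    exact (Go_cnt c n).symm
  rw [e]
  simp only [rank, h.1, h.2, if_true]

/-- The rank of a bad even edge. -/
theorem rank_badE (c : ℕ → Bool) {k q j : ℕ} (hq : q ≤ k) (h1 : 1 ≤ j) (h2 : j ≤ k)
    (h : badE c j) : rank c k q j = Be c k - (before (badE c) k q j : ℤ) := by
  rw [before_eq _ hq h1 h2]
  have e : (fun n => (cnt (badE c) n : ℤ)) = Be c := by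
    funext n
    exact (Be_cnt c n).symm
  rw [e]
  have h3 : ¬ j % 2 = 1 := by rw [h.1]; omega
  simp only [rank, h3, h.2, if_false, Bool.false_eq_true]

/-- The rank of a good even edge. -/
theorem rank_goodE (c : ℕ → Bool) {k q j : ℕ} (hq : q ≤ k) (h1 : 1 ≤ j) (h2 : j ≤ k)
    (h : goodE c j) : rank c k q j = Be c k + 1 + (before (goodE c) k q j : ℤ) := by
  rw [before_eq _ hq h1 h2]
  have e : (fun n => (cnt (goodE c) n : ℤ)) = Ge c := by
    funext n
    exact (Ge_cnt c n).symm
  rw [e]
  have h3 : ¬ j % 2 = 1 := by rw [h.1]; omega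
  simp only [rank, h3, h.2, if_false, if_true]

theorem before_lt (T : ℕ → Prop) [DecidablePred T] {k q j : ℕ} (h1 : 1 ≤ j) (h2 : j ≤ k)
    (h : T j) : before T k q j < ((Finset.Icc 1 k).filter T).card := by
  unfold before
  apply Finset.card_lt_card
  rw [Finset.ssubset_iff_subset_ne]
  constructor
  · intro i
    simp only [Finset.mem_filter]
    tauto
  · intro hcon
    have : j ∈ (Finset.Icc 1 k).filter T := by
      rw [Finset.mem_filter, Finset.mem_Icc]
      exact ⟨⟨h1, h2⟩, h⟩
    rw [← hcon, Finset.mem_filter] at this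
    omega

theorem before_mono (T : ℕ → Prop) [DecidablePred T] {k q j j' : ℕ} (h1 : 1 ≤ j)
    (h2 : j ≤ k) (h : T j) (hlt : pos k q j < pos k q j') :
    before T k q j < before T k q j' := by
  unfold before
  apply Finset.card_lt_card
  rw [Finset.ssubset_iff_subset_ne]
  constructor
  · intro i
    simp only [Finset.mem_filter]
    rintro ⟨a, b, d⟩
    exact ⟨a, b, by omega⟩
  · intro hcon
    have : j ∈ (Finset.Icc 1 k).filter (fun i => T i ∧ pos k q i < pos k q j') := by
      rw [Finset.mem_filter, Finset.mem_Icc]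
      exact ⟨⟨h1, h2⟩, h, hlt⟩
    rw [← hcon, Finset.mem_filter] at this
    omega

/-- Ranges of the ranks. -/
theorem rank_range (c : ℕ → Bool) {k q j : ℕ} (hq : q ≤ k) (h1 : 1 ≤ j) (h2 : j ≤ k) :
    (badO c j → 1 ≤ rank c k q j ∧ rank c k q j ≤ Bo c k) ∧
    (goodO c j → Bo c k + 1 ≤ rank c k q j ∧ rank c k q j ≤ ((k + 1) / 2 : ℕ)) ∧
    (badE c j → 1 ≤ rank c k q j ∧ rank c k q j ≤ Be c k) ∧
    (goodE c j → Be c k + 1 ≤ rank c k q j ∧ rank c k q j ≤ (k / 2 : ℕ)) := by
  refine ⟨fun h => ?_, fun h => ?_, fun h => ?_, fun h => ?_⟩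
  · have e1 := before_lt (badO c) (k := k) (q := q) h1 h2 h
    rw [rank_badO c hq h1 h2 h]
    have e2 := Bo_card c k
    omega
  · have e1 := before_lt (goodO c) (k := k) (q := q) h1 h2 h
    rw [rank_goodO c hq h1 h2 h]
    have e2 := Go_card c k
    unfold Go at e2
    omega
  · have e1 := before_lt (badE c) (k := k) (q := q) h1 h2 h
    rw [rank_badE c hq h1 h2 h]
    have e2 := Be_card c k
    omega
  · have e1 := before_lt (goodE c) (k := k) (q := q) h1 h2 h
    rw [rank_goodE c hq h1 h2 h]
    have e2 := Ge_card c k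
    unfold Ge at e2
    omega

/-- The ranks of edges of the same parity are distinct. -/
theorem rank_inj (c : ℕ → Bool) {k q i j : ℕ} (hq : q ≤ k) (hi1 : 1 ≤ i) (hi2 : i ≤ k)
    (h1 : 1 ≤ j) (h2 : j ≤ k) (hp : i % 2 = j % 2) (h : rank c k q i = rank c k q j) :
    i = j := by
  by_contra hne
  have hpos : pos k q i ≠ pos k q j := fun hh => hne (pos_inj hq hi1 hi2 h1 h2 hh)
  obtain ⟨r1, r2, r3, r4⟩ := rank_range c hq hi1 hi2
  obtain ⟨s1, s2, s3, s4⟩ := rank_range c hq h1 h2
  rcases Nat.mod_two_eq_zero_or_one i with pi | pi <;>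
    rcases Bool.eq_false_or_eq_true (c i) with ci | ci <;>
    rcases Bool.eq_false_or_eq_true (c j) with cj | cj
  · have a : goodE c i := ⟨pi, ci⟩
    have b : goodE c j := ⟨by omega, cj⟩
    rw [rank_goodE c hq hi1 hi2 a, rank_goodE c hq h1 h2 b] at h
    rcases lt_or_gt_of_ne hpos with h3 | h3
    · have := before_mono (goodE c) (q := q) hi1 hi2 a h3
      omega
    · have := before_mono (goodE c) (q := q) h1 h2 b h3
      omega
  · have := r4 ⟨pi, ci⟩
    have := s3 ⟨by omega, cj⟩
    omega
  · have := r3 ⟨pi, ci⟩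
    have := s4 ⟨by omega, cj⟩
    omega
  · have a : badE c i := ⟨pi, ci⟩
    have b : badE c j := ⟨by omega, cj⟩
    rw [rank_badE c hq hi1 hi2 a, rank_badE c hq h1 h2 b] at h
    rcases lt_or_gt_of_ne hpos with h3 | h3
    · have := before_mono (badE c) (q := q) hi1 hi2 a h3
      omega
    · have := before_mono (badE c) (q := q) h1 h2 b h3
      omega
  · have a : goodO c i := ⟨pi, ci⟩
    have b : goodO c j := ⟨by omega, cj⟩
    rw [rank_goodO c hq hi1 hi2 a, rank_goodO c hq h1 h2 b] at h
    rcases lt_or_gt_of_ne hpos with h3 | h3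
    · have := before_mono (goodO c) (q := q) hi1 hi2 a h3
      omega
    · have := before_mono (goodO c) (q := q) h1 h2 b h3
      omega
  · have := r2 ⟨pi, ci⟩
    have := s1 ⟨by omega, cj⟩
    omega
  · have := r1 ⟨pi, ci⟩
    have := s2 ⟨by omega, cj⟩
    omega
  · have a : badO c i := ⟨pi, ci⟩
    have b : badO c j := ⟨by omega, cj⟩
    rw [rank_badO c hq hi1 hi2 a, rank_badO c hq h1 h2 b] at h
    rcases lt_or_gt_of_ne hpos with h3 | h3
    · have := before_mono (badO c) (q := q) hi1 hi2 a h3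
      omega
    · have := before_mono (badO c) (q := q) h1 h2 b h3
      omega

end Pool.Agent.Lob34
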