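import Pool.Agent.Lob34.CvBad
import Pool.Agent.Lob12.BadH2
import Pool.Agent.Lob12.P1Fin
import Pool.Agent.Lob89.GgSel

/-!
# Lobsters are antimagic
-/

namespace Pool.Agent.Lob34

open Pool.Agent.Lob5 Pool.Agent.Lob89 Pool.Agent.Lob12

universe v

theorem cover_words (K : ℕ) (ld al : ℕ → Prop) (W : Wd K ld al) (n2 : ℕ) : Gd K ld al n2 :=
  cover_all (fun E _ _ => eh_hxw E) Gg.hgg K ld al W n2

/-- **Every lobster with at least three vertices is antimagic.** -/
theorem lobsters_antimagic (V : Type v) [Fintype V] [DecidableEq V] (G : SimpleGraph V)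
    [DecidableRel G.Adj] (hL : IsLobster G) (h3 : 3 ≤ Fintype.card V) : IsAntimagic G :=
  lobster_main cover_words V G hL h3

end Pool.Agent.Lob34
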