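import Pool.Agent.Lob34.CvA

/-!
# The sums of ranks of the order `psR` with the colours `rc`

In terms of the counts of the alternating colours `c`. A loaded vertex `v` is a maximum of the walk of `c` if `¬ c v`
and a minimum if `c v`.
-/

namespace Pool.Agent.Lob34

open Pool.Agent.Lob5 Pool.Agent.Lob89 Pool.Agent.Lob12

variable {K u h : ℕ} {ld al c : ℕ → Prop}

theorem PR_c (C : CW K u h ld al (rc c u)) :
    C.owR.lr.P + eg c u = eg c K + ob c (u - 1) := by
  have h1 := C.PR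
  have huK := C.uK
  have h2 := (rc_cnt1 c (le_refl u)).2.1
  have h3 := (rc_cnt2 c (show u ≤ K by omega)).2.1
  have h4 := (rc_cnt1 c (show u - 1 ≤ u by omega)).1
  omega

theorem QR_c (C : CW K u h ld al (rc c u)) :
    C.owR.lr.Q + og c u = og c K + eb c (u - 1) := by
  have h1 := C.QR
  have huK := C.uK
  have h2 := (rc_cnt1 c (le_refl u)).1
  have h3 := (rc_cnt2 c (show u ≤ K by omega)).1
  have h4 := (rc_cnt1 c (show u - 1 ≤ u by omega)).2.1
  omega

/-- twice the sum of the ranks, first block -/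
theorem JR1 (C : CW K u h ld al (rc c u)) {v : ℕ} (h1 : u < v) (h2 : v < K) :
    (c v → ¬ c (v + 1) → 2 * (C.owR.lr.J v : ℤ) = 2 * (C.owR.lr.P + C.owR.lr.Q : ℕ) +
      (wk c u - wk c v) + ((v + 1) % 2 : ℕ)) ∧
    (¬ c v → c (v + 1) → 2 * (C.owR.lr.J v : ℤ) = 2 * (C.owR.lr.P + C.owR.lr.Q : ℕ) +
      (wk c u - wk c v) + 4 - ((v + 1) % 2 : ℕ)) := by
  have hu := C.u1
  have hK := C.hK
  have hpx : v - u = px (psR K u) v := by
    unfold px psR
    rw [if_pos h1, if_pos (by omega)]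
    omega
  have hJ := C.owR.J_lam (i := v) (by omega) h2 (by omega) (by omega) hpx
  obtain ⟨-, -, j3, j4⟩ := hJ
  have b1 : bx K u (rc c u) (psR K u) (v - u) ↔ ¬ c v := by
    rw [bxR1 C.uK (by omega) (by omega), show v - u + u = v by omega, rc_gt h1]
  have b2 : bx K u (rc c u) (psR K u) (v - u + 1) ↔ ¬ c (v + 1) := by
    rw [bxR1 C.uK (by omega) (by omega), show v - u + 1 + u = v + 1 by omega, rc_gt (by omega)]
  have hw := wkR1 (bad := rc c u) C.uK (x := v - u) (by omega)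
  rw [show v - u + u = v by omega, rc_wk1 c le_rfl, rc_wk2 c h1.le] at hw
  refine ⟨fun c1 c2 => ?_, fun c1 c2 => ?_⟩
  · have := (j3 (fun h => b1.1 h c1) (b2.2 c2)).1 (by omega)
    omega
  · have := (j4 (b1.2 c1) (fun h => b2.1 h c2)).1 (by omega)
    omega

/-- twice the sum of the ranks, second block -/
theorem JR2 (C : CW K u h ld al (rc c u)) {v : ℕ} (h0 : 1 ≤ v) (h1 : v + 1 < u) :
    (¬ c v → c (v + 1) → 2 * (C.owR.lr.J v : ℤ) = 2 * (C.owR.lr.P + C.owR.lr.Q : ℕ) +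
      (wk c u - wk c K + wk c v) + 2 - 3 * ((v + 1) % 2 : ℕ)) ∧
    (c v → ¬ c (v + 1) → 2 * (C.owR.lr.J v : ℤ) = 2 * (C.owR.lr.P + C.owR.lr.Q : ℕ) +
      (wk c u - wk c K + wk c v) + 2 + 3 * ((v + 1) % 2 : ℕ)) := by
  have hu := C.u1
  have hK := C.hK
  have huK := C.uK
  have hpx : K - u + v = px (psR K u) v := by
    unfold px psR
    rw [if_neg (by omega), if_neg (by omega)]
    omega
  have hJ := C.owR.J_lam (i := v) h0 (by omega) (by omega) (by omega) hpx
  obtain ⟨-, -, j3, j4⟩ := hJ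
  have b1 : bx K u (rc c u) (psR K u) (K - u + v) ↔ c v := by
    rw [bxR2 C.uK h0 (by omega), rc_le (by omega)]
  have b2 : bx K u (rc c u) (psR K u) (K - u + v + 1) ↔ c (v + 1) := by
    rw [show K - u + v + 1 = K - u + (v + 1) by omega, bxR2 C.uK (by omega) h1,
      rc_le (by omega)]
  have hw := wkR2 (bad := rc c u) C.uK (y := v) (by omega)
  rw [rc_wk1 c le_rfl, rc_wk1 c (by omega : v ≤ u), rc_wk2 c huK.le] at hw
  refine ⟨fun c1 c2 => ?_, fun c1 c2 => ?_⟩
  · have := (j3 (fun h => c1 (b1.1 h)) (b2.2 c2)).2 (by omega)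
    omega
  · have := (j4 (b1.2 c1) (fun h => c2 (b2.1 h))).2 (by omega)
    omega

/-- the sum of the ranks as counts, first block, even maximum or odd minimum -/
theorem JR1k (C : CW K u h ld al (rc c u)) {v : ℕ} (h1 : u < v) (h2 : v < K) :
    (¬ c v → c (v + 1) → v % 2 = 0 → (C.owR.lr.J v : ℤ) = (C.owR.lr.P : ℤ) + C.owR.lr.Q +
      ob c v - ob c u - eg c v + eg c u + 2) ∧
    (c v → ¬ c (v + 1) → v % 2 = 1 → (C.owR.lr.J v : ℤ) = (C.owR.lr.P : ℤ) + C.owR.lr.Q +
      ob c v - ob c u - eg c v + eg c u) ∧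
    (¬ c v → c (v + 1) → v % 2 = 1 → (C.owR.lr.J v : ℤ) = (C.owR.lr.P : ℤ) + C.owR.lr.Q +
      eb c v - eb c u - og c v + og c u + 2) ∧
    (c v → ¬ c (v + 1) → v % 2 = 0 → (C.owR.lr.J v : ℤ) = (C.owR.lr.P : ℤ) + C.owR.lr.Q +
      eb c v - eb c u - og c v + og c u) := by
  have hu := C.u1
  obtain ⟨j1, j2⟩ := JR1 C h1 h2
  have t1 := tot c u
  have t2 := tot c v
  have w1 := wk_oe c u
  have w2 := wk_oe c v
  refine ⟨fun c1 c2 c3 => ?_, fun c1 c2 c3 => ?_, fun c1 c2 c3 => ?_, fun c1 c2 c3 => ?_⟩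
  · have := j2 c1 c2
    omega
  · have := j1 c1 c2
    omega
  · have := j2 c1 c2
    omega
  · have := j1 c1 c2
    omega

/-- the sum of the ranks as counts, second block -/
theorem JR2k (C : CW K u h ld al (rc c u)) {v : ℕ} (h0 : 1 ≤ v) (h1 : v + 1 < u) :
    (¬ c v → c (v + 1) → v % 2 = 0 → (C.owR.lr.J v : ℤ) = (C.owR.lr.P : ℤ) + C.owR.lr.Q +
      ob c K - ob c u + eg c v - eg c K + eg c u - ob c v) ∧
    (c v → ¬ c (v + 1) → v % 2 = 1 → (C.owR.lr.J v : ℤ) = (C.owR.lr.P : ℤ) + C.owR.lr.Q +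
      ob c K - ob c u + eg c v - eg c K + eg c u - ob c v + 2) ∧
    (¬ c v → c (v + 1) → v % 2 = 1 → (C.owR.lr.J v : ℤ) = (C.owR.lr.P : ℤ) + C.owR.lr.Q +
      eb c K - eb c u + og c v - og c K + og c u - eb c v) ∧
    (c v → ¬ c (v + 1) → v % 2 = 0 → (C.owR.lr.J v : ℤ) = (C.owR.lr.P : ℤ) + C.owR.lr.Q +
      eb c K - eb c u + og c v - og c K + og c u - eb c v + 2) := by
  have hu := C.u1
  have hK := C.hK
  obtain ⟨j1, j2⟩ := JR2 C h0 h1
  have t1 := tot c u
  have t2 := tot c v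
  have t3 := tot c K
  have w1 := wk_oe c u
  have w2 := wk_oe c v
  have w3 := wk_oe c K
  refine ⟨fun c1 c2 c3 => ?_, fun c1 c2 c3 => ?_, fun c1 c2 c3 => ?_, fun c1 c2 c3 => ?_⟩
  · have := j1 c1 c2
    omega
  · have := j2 c1 c2
    omega
  · have := j1 c1 c2
    omega
  · have := j2 c1 c2
    omega

/-- the kind of a loaded vertex -/
theorem kb_iff (C : CW K u h ld al (rc c u)) {v : ℕ} (h0 : 1 ≤ v) (h3 : v ≠ u)
    (hd : c v ↔ ¬ c (v + 1)) :
    rc c u (lo u v) ↔ (v % 2 = 0 ∧ ¬ c v) ∨ (v % 2 = 1 ∧ c v) := by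
  have hu := C.u1
  unfold lo oe ee
  rcases Nat.lt_or_ge v u with h | h
  · rw [if_pos h]
    split_ifs with h4
    · rw [rc_le h.le]
      constructor
      · exact fun h5 => Or.inr ⟨h4, h5⟩
      · rintro (h5 | h5)
        · omega
        · exact h5.2
    · rw [rc_le (by omega)]
      constructor
      · exact fun h5 => Or.inl ⟨by omega, fun h6 => hd.1 h6 h5⟩
      · rintro (h5 | h5)
        · by_contra h6
          exact h5.2 (hd.2 h6)
        · omega
  · rw [if_neg (by omega)]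
    split_ifs with h4
    · rw [rc_gt (by omega)]
      constructor
      · exact fun h5 => Or.inr ⟨h4, hd.2 h5⟩
      · rintro (h5 | h5)
        · omega
        · exact hd.1 h5.2
    · rw [rc_gt (by omega)]
      constructor
      · exact fun h5 => Or.inl ⟨by omega, h5⟩
      · rintro (h5 | h5)
        · exact h5.2
        · omega

end Pool.Agent.Lob34
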