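import Pool.Agent.Lob34.CvJ
import Pool.Agent.Lob12.HwWord

/-!
# The hypotheses for the two constructions with a special vertex

`ER`: the hypotheses for the order `psR` and the reserved edge `u` (colours `c` up to `u`, opposite behind `u`).
`EH`: the same for two high edges at the even vertex `u`.
-/

namespace Pool.Agent.Lob34

open Pool.Agent.Lob5 Pool.Agent.Lob89 Pool.Agent.Lob12

/-- the hypotheses for one reserved edge -/
structure ER (K h u n2 : ℕ) (ld al c : ℕ → Prop) : Prop where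
  W : WW K h ld al c
  hu : u % 2 = 1
  huK : u + 1 < K
  cu : c u
  cu1 : c (u + 1)
  lft : ∀ v, 1 ≤ v → v < u → ld v → wk c u ≤ wk c v
  rgt : ∀ v, u < v → v < K → ld v →
    (c v → wk c v + wk c u ≤ wk c K + 2 * n2 + 2 + ((v + 1) % 2 : ℕ)) ∧
    (¬ c v → wk c v + wk c u ≤ wk c K + 2 * n2 + 6 - ((v + 1) % 2 : ℕ))
  cnt : eb c u + n2 + 2 ≤ eb c (K - 1)
  pr : 2 ≤ u → ld (u - 1) → al (u - 1)
  w3 : og c u < og c K
  cv : 2 * wk c u ≤ wk c K
  cK : 2 * wk c u = wk c K → c K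
  hy : c K ∨ (0 ≤ wk c K ∧ ∃ y, 1 ≤ y ∧ y < K ∧ wk c K + 3 ≤ wk c y)
  p2 : eg c u + 2 ≤ eg c K + ob c (u - 1)

/-- the hypotheses for two high edges -/
structure EH (K h u n2 : ℕ) (ld al c : ℕ → Prop) : Prop where
  W : WW K h ld al c
  hu : u % 2 = 0
  u1 : 3 ≤ u
  huK : u + 2 < K
  lu : ld u
  nu : ¬ al u
  cu : ¬ c u
  cu0 : c (u - 1)
  cu1 : c (u + 1)
  cu2 : c (u + 2)
  lft : ∀ v, 1 ≤ v → v < u → ld v → wk c u ≤ wk c v + 1
  rgt : ∀ v, u < v → v < K → ld v →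
    (c v → wk c v + wk c u ≤ wk c K + 2 * n2 + 2 + (v % 2 : ℕ)) ∧
    (¬ c v → wk c v + wk c u ≤ wk c K + 2 * n2 + 6 - (v % 2 : ℕ))
  cv : 2 * wk c u ≤ wk c K + 2
  cK : 2 * wk c u = wk c K + 2 → c K
  hy : c K ∨ (0 ≤ wk c K ∧ ∃ y, 1 ≤ y ∧ y < K ∧ wk c K + 3 ≤ wk c y)

variable {K h u n2 : ℕ} {ld al c : ℕ → Prop}

theorem ER.C (E : ER K h u n2 ld al c) : CW K u h ld al (rc c u) :=
  E.W.cw E.hu E.huK E.cu E.cu1

theorem EH.H (E : EH K h u n2 ld al c) : HW K u (h + 1) ld al (rc c u) := by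
  have W := E.W
  have hK := W.hK
  have hu := E.hu
  have u1 := E.u1
  have huK := E.huK
  refine ⟨by omega, hu, by omega, by omega, E.lu, E.nu, W.al_ld, ?_, ?_, ?_⟩
  · intro i h1 h2 h6
    have := W.same i h1 h2 h6
    have h5 : i ≠ u := by
      rintro rfl
      exact h6 E.lu
    rcases Nat.lt_or_ge i u with h7 | h7
    · rw [rc_le h7.le, rc_le (by omega)]
      exact this
    · rw [rc_gt (by omega), rc_gt (by omega)]
      exact not_congr this
  · intro i h1 h2 h3 h5 h6 h7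
    have := W.dif i h1 h2 h5
    rcases Nat.lt_or_ge i u with h8 | h8
    · rw [rc_le h8.le] at h6
      rw [rc_le (by omega)] at h7
      exact this.1 h6 h7
    · rw [rc_gt (by omega)] at h6 h7
      exact h6 (this.2 h7)
  · intro i h1 h2 h5 h6
    have := W.dif i h1 h2 (W.al_ld i h5)
    rcases Nat.lt_or_ge i u with h8 | h8
    · rw [rc_le h8.le] at h6
      rw [rc_le (by omega)]
      by_contra h
      exact h6 (this.2 h)
    · have h9 : i ≠ u := by
        rintro rfl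
        exact E.nu h5
      rw [rc_gt (by omega)] at h6 ⊢
      exact fun h => h6 (fun h' => this.1 h' h)

end Pool.Agent.Lob34
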