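import Pool.Agent.Lob34.CvSel
import Pool.Agent.Lob89.BadR
import Pool.Agent.Lob6.RBad
import Pool.Agent.Lob6.ZBad
import Pool.Agent.Lob6.Bb0D
import Pool.Agent.Lob12.P1Split

/-!
# Some end bad: the covering
-/

namespace Pool.Agent.Lob34

open Pool.Agent.Lob5 Pool.Agent.Lob6 Pool.Agent.Lob89 Pool.Agent.Lob12

/-- the statement about two high edges -/
def HHok : Prop := ∀ {K h u n2 : ℕ} {ld al c : ℕ → Prop} (E : EH K h u n2 ld al c)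
    (_ : ∀ v, v ≤ u + 1 → wk c u ≤ wk c v + 1)
    (_ : ∃ t, u < t ∧ t ≤ K ∧ wk c t + 2 ≤ wk c K), HXW E.H.hx (2 * h + 1) n2 0

variable {K h n2 : ℕ} {ld al c : ℕ → Prop}

theorem RES.good (heh : HHok) (R : RES K h n2 ld al) : Good K ld al n2 0 := by
  rcases R with ⟨u, c, E, fp, top⟩ | ⟨u, c, E, fp, top⟩
  · exact Or.inr (Or.inl ⟨u, h, _, 2 * h + 1, E.C, Or.inl (Gg.er_lrw E fp top)⟩)
  · exact Or.inr (Or.inr ⟨u, h + 1, _, 2 * h + 1, E.H, heh E fp top⟩)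

/-- **Some end bad.** -/
theorem cover_bad (heh : HHok) (V : Wd K ld al) (W : WW K h ld al c) (hc : c K)
    (h0 : wk c K ≤ 0) (h1 : wk c K = 0 → ¬ c 1) (n2 : ℕ) : Good K ld al n2 0 := by
  have h6 := V.six
  have hK := W.hK
  obtain ⟨i, hi⟩ := V.ex
  have ri := V.rng hi
  by_cases hR : ∀ v, 1 ≤ v → v < K → ld v → wk c K - 2 * n2 - 2 ≤ wk c v
  · exact Or.inl ⟨h, c, 2 * h + 1, wd W h6 hc,
      rxbad W h6 hc h0 h1 ⟨i, by omega, by omega, hi⟩ hR⟩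
  push Not at hR
  obtain ⟨v, v1, v2, v3, v4⟩ := hR
  by_cases hZ : wk c K = 0 ∧ ∀ v, 1 ≤ v → v < K → ld v → -(2 * n2 + 3 : ℤ) ≤ wk c v
  · obtain ⟨z1, z2⟩ := hZ
    have z3 := z2 v v1 v2 v3
    exact Or.inr (Or.inl ⟨1, h, _, 2 * h + 1, cw1 W.neg h6 (h1 z1),
      Or.inl (zbad W h6 hc (h1 z1) z1 z2 ⟨v, v1, v2, v3, by omega⟩)⟩)
  refine RES.good heh (cover_D W hc h0 ⟨v, v1, v2, v3, by omega⟩ fun z1 => ?_)
  by_contra hcon
  refine hZ ⟨z1, fun v v1 v2 v3 => ?_⟩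
  by_contra h
  exact hcon ⟨v, v1, v2, v3, by omega⟩

/-- **All words.** -/
theorem cover_all (heh : HHok)
    (hgg : ∀ (K h : ℕ) (ld al c : ℕ → Prop), Wd K ld al → WW K h ld al c → ¬ c K → ¬ c 1 →
      wk c K < 0 → ∀ n2, Gd K ld al n2) :
    ∀ (K : ℕ) (ld al : ℕ → Prop), Wd K ld al → ∀ n2, Gd K ld al n2 := by
  refine cover_split ?_ ?_ hgg
  · intro K h ld al c V W hc h0 h1 n2
    exact ⟨0, Nat.zero_le _, Or.inl (cover_bad heh V W hc h0 h1 n2)⟩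
  · intro K h ld al c V W hc hc1 h0 n2
    refine cover_bb (n2 := n2) ?_ V W hc hc1 h0
    intro K h ld al c W h6 hc hc1 h0 hm
    obtain ⟨v, v1, v2, v3, v4⟩ := hm
    exact RES.good heh (cover_D W hc h0.le ⟨v, v1, v2, v3, by omega⟩
      fun _ => ⟨v, v1, v2, v3, v4⟩)

end Pool.Agent.Lob34
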