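import Pool.Agent.Lob34.CvE

/-!
# First passages and the hypotheses `ER`, `EH`

`SD`: extreme values of the walk at the loaded vertices. `CR`: the first passage of a level. `sR`, `sH`: the hypotheses
`ER`, `EH` at a first passage.
-/

namespace Pool.Agent.Lob34

open Pool.Agent.Lob5 Pool.Agent.Lob89 Pool.Agent.Lob12

theorem wk_ng (c : ℕ → Prop) (n : ℕ) : wk (fun e => ¬ c e) n = - wk c n := by
  have h := cn_compl c n
  unfold wk
  omega

/-- steps of the walk -/
theorem wkB {c : ℕ → Prop} {v : ℕ} (h0 : 1 ≤ v) (hc : c v) : wk c v = wk c (v - 1) - 1 := by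
  obtain ⟨n, rfl⟩ : ∃ n, v = n + 1 := ⟨v - 1, by omega⟩
  rw [Nat.add_sub_cancel]
  exact wk_bad hc

theorem wkG {c : ℕ → Prop} {v : ℕ} (h0 : 1 ≤ v) (hc : ¬ c v) : wk c v = wk c (v - 1) + 1 := by
  obtain ⟨n, rfl⟩ : ∃ n, v = n + 1 := ⟨v - 1, by omega⟩
  rw [Nat.add_sub_cancel]
  exact wk_good hc

/-- the parity of the walk -/
theorem wk_par (c : ℕ → Prop) (n : ℕ) : ∃ k : ℤ, wk c n = n + 2 * k :=
  ⟨-(cn c n : ℤ), by unfold wk; ring⟩

/-- the first passage of the level `-2x` is at the time `T` -/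
structure CR (K : ℕ) (c : ℕ → Prop) (x : ℤ) (T : ℕ) : Prop where
  ev : T % 2 = 0
  T2 : 2 ≤ T
  TK : T + 2 ≤ K
  val : wk c T = -2 * x
  c1 : c (T - 1)
  c2 : c T
  fst : ∀ t, t < T → t % 2 = 0 → 2 - 2 * x ≤ wk c t

theorem exists_CR {K : ℕ} (c : ℕ → Prop) {x : ℤ} (hx : 1 ≤ x) {t : ℕ} (h1 : t % 2 = 0)
    (h2 : t + 2 ≤ K) (h3 : wk c t ≤ -2 * x) : ∃ T ≤ t, CR K c x T := by
  classical
  have hex : ∃ n, n % 2 = 0 ∧ wk c n ≤ -2 * x := ⟨t, h1, h3⟩
  obtain ⟨s1, s2⟩ := Nat.find_spec hex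
  have hmin := fun (n : ℕ) (hn : n < Nat.find hex) => Nat.find_min hex hn
  have hle : Nat.find hex ≤ t := Nat.find_min' hex ⟨h1, h3⟩
  generalize Nat.find hex = T at *
  have hT0 : T ≠ 0 := by
    rintro rfl
    rw [wk_zero] at s2
    omega
  have fst : ∀ n, n < T → n % 2 = 0 → 2 - 2 * x ≤ wk c n := by
    intro n hn hn2
    have h4 : ¬ wk c n ≤ -2 * x := fun h => hmin n hn ⟨hn2, h⟩
    obtain ⟨k, hk⟩ := wk_par c n
    omega
  have f2 := fst (T - 2) (by omega) (by omega)
  have d1 : c T := by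
    by_contra h
    have e1 := wkG (v := T) (by omega) h
    by_cases h' : c (T - 1)
    · have e2 := wkB (v := T - 1) (by omega) h'
      rw [show T - 1 - 1 = T - 2 by omega] at e2
      omega
    · have e2 := wkG (v := T - 1) (by omega) h'
      rw [show T - 1 - 1 = T - 2 by omega] at e2
      omega
  have e1 := wkB (v := T) (by omega) d1
  have d2 : c (T - 1) := by
    by_contra h'
    have e2 := wkG (v := T - 1) (by omega) h'
    rw [show T - 1 - 1 = T - 2 by omega] at e2
    omega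
  have e2 := wkB (v := T - 1) (by omega) d2
  rw [show T - 1 - 1 = T - 2 by omega] at e2
  refine ⟨T, hle, s1, by omega, by omega, by omega, d2, d1, fst⟩

section

variable {K h n2 : ℕ} {ld al c : ℕ → Prop} {m M : ℤ}

/-- the next loaded vertex after a local minimum -/
theorem nxt (W : WW K h ld al c) {v : ℕ} (h1 : 1 ≤ v) (h2 : v < K) (hl : ld v) (hc : c v) :
    (∃ w, v < w ∧ w < K ∧ ld w ∧ wk c w = wk c v + (w - v : ℕ)) ∨
      wk c K = wk c v + (K - v : ℕ) := by
  have key : ∀ n, v + 1 + n ≤ K →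
      (∃ w, v < w ∧ w < K ∧ ld w ∧ wk c w = wk c v + (w - v : ℕ)) ∨
      (¬ c (v + 1 + n) ∧ wk c (v + 1 + n) = wk c v + (1 + n : ℕ)) := by
    intro n
    induction n with
    | zero =>
      intro _
      have h3 : ¬ c (v + 1) := (W.dif v h1 h2 hl).1 hc
      have h4 := wkG (v := v + 1) (by omega) h3
      rw [Nat.add_sub_cancel] at h4
      refine Or.inr ⟨h3, ?_⟩
      rw [Nat.add_zero]
      omega
    | succ n ih =>
      intro hn
      rcases ih (by omega) with h5 | ⟨h5, h6⟩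
      · exact Or.inl h5
      · by_cases h7 : ld (v + 1 + n)
        · refine Or.inl ⟨v + 1 + n, by omega, by omega, h7, ?_⟩
          omega
        · have h8 := W.same (v + 1 + n) (by omega) (by omega) h7
          have h9 : ¬ c (v + 1 + n + 1) := fun h => h5 (h8.2 h)
          have h10 := wkG (v := v + 1 + n + 1) (by omega) h9
          rw [Nat.add_sub_cancel] at h10
          refine Or.inr ⟨h9, ?_⟩
          rw [show v + 1 + (n + 1) = v + 1 + n + 1 by omega]
          omega
  have h3 := W.rng v h1 h2 hl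
  rcases key (K - (v + 1)) (by omega) with h5 | ⟨h5, h6⟩
  · exact Or.inl h5
  · right
    rw [show v + 1 + (K - (v + 1)) = K by omega] at h6
    omega

/-- the extreme values of the walk at the loaded vertices -/
structure SD (K h : ℕ) (ld al c : ℕ → Prop) (m M : ℤ) : Prop where
  W : WW K h ld al c
  lb : ∀ v, 1 ≤ v → v < K → ld v → m ≤ wk c v
  ub : ∀ v, 1 ≤ v → v < K → ld v → wk c v ≤ M
  exm : ∃ q, 1 ≤ q ∧ q < K ∧ ld q ∧ wk c q = m
  exM : ∃ p, 1 ≤ p ∧ p < K ∧ ld p ∧ wk c p = M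
  tot : M + m ≤ wk c K
  hy : c K ∨ (0 ≤ wk c K ∧ wk c K + 3 ≤ M)

/-- a local minimum is below the maximum -/
theorem SD.mn (S : SD K h ld al c m M) {v : ℕ} (h1 : 1 ≤ v) (h2 : v < K) (hl : ld v)
    (hc : c v) : wk c v ≤ M - 1 ∨ wk c v ≤ wk c K - 2 := by
  have h3 := S.W.rng v h1 h2 hl
  rcases nxt S.W h1 h2 hl hc with ⟨w, w1, w2, w3, w4⟩ | h4
  · have := S.ub w (by omega) w2 w3
    left
    omega
  · right
    omega

/-- the minimum at an even time -/
theorem SD.ex (S : SD K h ld al c m M) (hm : m < wk c K) : ∃ q, q % 2 = 0 ∧ 2 ≤ q ∧ q + 2 ≤ K ∧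
    wk c q = m + m % 2 := by
  obtain ⟨q, q1, q2, q3, q4⟩ := S.exm
  have hr := S.W.rng q q1 q2 q3
  have hK := S.W.hK
  obtain ⟨k, hk⟩ := wk_par c q
  rcases Nat.mod_two_eq_zero_or_one q with o | o
  · exact ⟨q, o, by omega, by omega, by omega⟩
  · have hq : c q := by
      by_contra hc
      have h5 := nxt S.W.neg q1 q2 q3 hc
      rw [wk_ng, wk_ng] at h5
      rcases h5 with ⟨w, w1, w2, w3, w4⟩ | h5
      · rw [wk_ng] at w4
        have := S.lb w (by omega) w2 w3
        omega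
      · omega
    have h5 := (S.W.dif q q1 q2 q3).1 hq
    have h6 := wkG (v := q + 1) (by omega) h5
    rw [Nat.add_sub_cancel] at h6
    exact ⟨q + 1, by omega, by omega, by omega, by omega⟩

/-- the values to the left of a first passage -/
theorem CR.lft {x : ℤ} {T : ℕ} (C : CR K c x T) {v : ℕ} (h2 : v < T) :
    1 - 2 * x ≤ wk c v := by
  rcases Nat.mod_two_eq_zero_or_one v with o | o
  · have := C.fst v h2 o
    omega
  · have h3 := C.fst (v - 1) (by omega) (by omega)
    by_cases hc : c v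
    · have := wkB (v := v) (by omega) hc
      omega
    · have := wkG (v := v) (by omega) hc
      omega

theorem CR.lt {x : ℤ} {T : ℕ} (C : CR K c x T) {t : ℕ} (h1 : t % 2 = 0)
    (h2 : wk c t ≤ -2 * x) : T ≤ t := by
  by_contra h
  have := C.fst t (by omega) h1
  omega

/-- the values before a first passage -/
theorem CR.vals {x : ℤ} {T : ℕ} (C : CR K c x T) :
    wk c (T - 1) = 1 - 2 * x ∧ wk c (T - 2) = 2 - 2 * x := by
  have h1 := C.T2
  have h2 := C.val
  have e1 := wkB (v := T) (by omega) C.c2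
  have e2 := wkB (v := T - 1) (by omega) C.c1
  rw [show T - 1 - 1 = T - 2 by omega] at e2
  constructor <;> omega

/-- the last two edges -/
theorem SD.last (S : SD K h ld al c m M) (hK : 4 ≤ K) :
    (c K → c (K - 1) ∧ wk c K = wk c (K - 2) - 2 ∧ og c K = og c (K - 2) ∧
      eb c K = eb c (K - 1) + 1 ∧ eb c (K - 1) = eb c (K - 2) ∧ eg c K = eg c (K - 2)) ∧
    (¬ c K → ¬ c (K - 1) ∧ wk c K = wk c (K - 2) + 2 ∧ og c K = og c (K - 2) + 1) := by
  have hh := S.W.hK
  have h1 : ¬ ld (K - 1) := fun h => by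
    have := S.W.rng (K - 1) (by omega) (by omega) h
    omega
  have h2 := S.W.same (K - 1) (by omega) (by omega) h1
  rw [show K - 1 + 1 = K by omega] at h2
  constructor
  · intro h3
    have h4 := h2.2 h3
    have e1 := wkB (v := K) (by omega) h3
    have e2 := wkB (v := K - 1) (by omega) h4
    have s1 := stepB c (v := K) (by omega) h3
    have s2 := stepB c (v := K - 1) (by omega) h4
    rw [show K - 1 - 1 = K - 2 by omega] at e2 s2
    refine ⟨h4, ?_, ?_, ?_, ?_, ?_⟩ <;> omega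
  · intro h3
    have h4 : ¬ c (K - 1) := fun h => h3 (h2.1 h)
    have e1 := wkG (v := K) (by omega) h3
    have e2 := wkG (v := K - 1) (by omega) h4
    have s1 := stepG c (v := K) (by omega) h3
    have s2 := stepG c (v := K - 1) (by omega) h4
    rw [show K - 1 - 1 = K - 2 by omega] at e2 s2
    refine ⟨h4, ?_, ?_⟩ <;> omega

/-- rises and falls between even times in terms of the counts -/
theorem rise (c : ℕ → Prop) {a b : ℕ} (h : a ≤ b) (ha : a % 2 = 0) (hb : b % 2 = 0) :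
    wk c b - wk c a ≤ 2 * (eg c b - eg c a : ℤ) ∧ wk c b - wk c a ≤ 2 * (og c b - og c a : ℤ) ∧
    wk c a - wk c b ≤ 2 * (eb c b - eb c a : ℤ) ∧ wk c a - wk c b ≤ 2 * (ob c b - ob c a : ℤ) := by
  have h1 := tot c a
  have h2 := tot c b
  have h3 := wk_oe c a
  have h4 := wk_oe c b
  have h5 := mono4 c h
  refine ⟨?_, ?_, ?_, ?_⟩ <;> omega

/-- the hypotheses for one reserved edge at a first passage -/
theorem sR (S : SD K h ld al c m M) {x : ℤ} {T : ℕ} (C : CR K c x T) (hx : 1 ≤ x)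
    (hxK : - wk c K ≤ 2 * x) (hb : -(m + m % 2) - 2 * n2 - 2 ≤ 2 * x)
    (hcnt : eb c (T - 1) + n2 + 2 ≤ eb c (K - 1)) (hpr : 3 ≤ T → ld (T - 2) → al (T - 2))
    (hp : ∃ q, q % 2 = 0 ∧ T ≤ q ∧ q + 2 ≤ K ∧ wk c q ≤ -2 * x ∧ (wk c q + 4 ≤ wk c K ∨
      (c K ∧ wk c q + 2 ≤ wk c K))) : ER K h (T - 1) n2 ld al c := by
  have hK := S.W.hK
  have t1 := C.ev
  have t2 := C.T2
  have t3 := C.TK
  obtain ⟨v1, v2⟩ := C.vals
  obtain ⟨l1, l2⟩ := S.last (by omega)
  have hval := C.val
  have st := S.tot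
  have su := stepB c (v := T - 1) (by omega) C.c1
  have sT := stepB c (v := T) (by omega) C.c2
  rw [show T - 1 - 1 = T - 2 by omega] at su
  refine ⟨S.W, by omega, by omega, C.c1, ?_, ?_, ?_, hcnt, ?_, ?_, ?_, ?_, ?_, ?_⟩
  · rw [show T - 1 + 1 = T by omega]
    exact C.c2
  · intro v _ h2 _
    rw [v1]
    exact C.lft (by omega)
  · intro v h1 h2 hl
    rw [v1]
    obtain ⟨k, hk⟩ := wk_par c v
    obtain ⟨k', hk'⟩ := wk_par c K
    have u1 := S.ub v (by omega) h2 hl
    constructor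
    · intro hc
      have u2 := S.mn (by omega) h2 hl hc
      rcases u2 with u2 | u2 <;> omega
    · intro hc
      omega
  · intro h1 h2
    have e : T - 1 - 1 = T - 2 := by omega
    rw [e] at h2 ⊢
    exact hpr (by omega) h2
  · by_cases hc : c K
    · obtain ⟨-, e1, e2, -⟩ := l1 hc
      have r := rise c (a := T) (b := K - 2) (by omega) t1 (by omega)
      omega
    · obtain ⟨-, e1, e2⟩ := l2 hc
      have r := mono4 c (show T ≤ K - 2 by omega)
      omega
  · rw [v1]
    omega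
  · rw [v1]
    intro h1
    rcases S.hy with h2 | h2
    · exact h2
    · omega
  · rcases S.hy with h2 | h2
    · exact Or.inl h2
    · obtain ⟨p, p1, p2, p3, p4⟩ := S.exM
      exact Or.inr ⟨h2.1, p, p1, p2, by omega⟩
  · obtain ⟨q, q1, q2, q3, q4, q5⟩ := hp
    have r1 := mono4 c q2
    rcases q5 with q5 | ⟨q5, q6⟩
    · have r := rise c (a := q) (b := K) (by omega) q1 (by omega)
      omega
    · obtain ⟨-, e1, -, -, -, e2⟩ := l1 q5
      have r := rise c (a := q) (b := K - 2) (by omega) q1 (by omega)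
      omega

/-- the hypotheses for two high edges at a first passage -/
theorem sH (S : SD K h ld al c m M) {x : ℤ} {T : ℕ} (C : CR K c x T) (hx : 1 ≤ x)
    (hxK : - wk c K ≤ 2 * x) (hT : 3 ≤ T) (hl : ld (T - 2)) (ha : ¬ al (T - 2))
    (hb : -(m + m % 2) - 2 * n2 ≤ 2 * x ∨ (-(m + m % 2) - 2 * n2 - 2 ≤ 2 * x ∧
      (M + m < wk c K ∨ m % 2 = 0 ∨
        ∀ v, T ≤ v → v < K → ld v → v % 2 = 0 → c v → wk c v < M - 1))) :
    EH K h (T - 2) n2 ld al c := by
  have hK := S.W.hK
  have t1 := C.ev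
  have t2 := C.T2
  have t3 := C.TK
  obtain ⟨v1, v2⟩ := C.vals
  have hval := C.val
  have st := S.tot
  have c1 : c (T - 2 + 1) := by
    rw [show T - 2 + 1 = T - 1 by omega]
    exact C.c1
  have nc : ¬ c (T - 2) := fun h => (S.W.dif (T - 2) (by omega) (by omega) hl).1 h c1
  have r := S.W.rng (T - 2) (by omega) (by omega) hl
  have e3 := wkG (v := T - 2) (by omega) nc
  rw [show T - 2 - 1 = T - 3 by omega] at e3
  have f4 := C.fst (T - 4) (by omega) (by omega)
  have c0 : c (T - 3) := by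
    by_contra h'
    have e4 := wkG (v := T - 3) (by omega) h'
    rw [show T - 3 - 1 = T - 4 by omega] at e4
    omega
  have hT4 : T - 2 ≠ 2 := by
    intro h
    have h1 : T - 3 = 1 := by omega
    rw [h] at nc
    rw [h1] at c0
    by_cases l1 : ld 1
    · have := S.W.rng 1 le_rfl (by omega) l1
      omega
    · exact nc ((S.W.same 1 le_rfl (by omega) l1).1 c0)
  refine ⟨S.W, by omega, by omega, by omega, hl, ha, nc, ?_, c1, ?_, ?_, ?_, ?_, ?_, ?_⟩
  · rw [show T - 2 - 1 = T - 3 by omega]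
    exact c0
  · rw [show T - 2 + 2 = T by omega]
    exact C.c2
  · intro v _ h2 _
    rw [v2]
    have := C.lft (v := v) (by omega)
    omega
  · intro v h1 h2 hl
    rw [v2]
    obtain ⟨k, hk⟩ := wk_par c v
    obtain ⟨k', hk'⟩ := wk_par c K
    have u1 := S.ub v (by omega) h2 hl
    constructor
    · intro hc
      have u2 := S.mn (by omega) h2 hl hc
      rcases hb with hb | ⟨hb, hb' | hb' | hb'⟩
      · rcases u2 with u2 | u2 <;> omega
      · rcases u2 with u2 | u2 <;> omega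
      · rcases u2 with u2 | u2 <;> omega
      · rcases Nat.mod_two_eq_zero_or_one v with o | o
        · have := hb' v (by omega) h2 hl o hc
          rcases u2 with u2 | u2 <;> omega
        · rcases u2 with u2 | u2 <;> omega
    · intro hc
      rcases hb with hb | ⟨hb, -⟩ <;> omega
  · rw [v2]
    omega
  · rw [v2]
    intro h1
    rcases S.hy with h2 | h2
    · exact h2
    · omega
  · rcases S.hy with h2 | h2
    · exact Or.inl h2
    · obtain ⟨p, p1, p2, p3, p4⟩ := S.exM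
      exact Or.inr ⟨h2.1, p, p1, p2, by omega⟩

end

end Pool.Agent.Lob34
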