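import Pool.Agent.Lob34.CvS

/-!
# The choice of the special vertex

`cover_D`: if the walk is small at some loaded vertex, then `ER` or `EH` holds at some first passage, for the colours
or the opposite colours.
-/

namespace Pool.Agent.Lob34

open Pool.Agent.Lob5 Pool.Agent.Lob89 Pool.Agent.Lob12

/-- one of the two constructions applies -/
def RES (K h n2 : ℕ) (ld al : ℕ → Prop) : Prop :=
  (∃ (u : ℕ) (c : ℕ → Prop), ER K h u n2 ld al c ∧ (∀ v, v ≤ u → wk c u ≤ wk c v) ∧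
    ∃ t, u < t ∧ t ≤ K ∧ wk c t + 2 ≤ wk c K) ∨
  (∃ (u : ℕ) (c : ℕ → Prop), EH K h u n2 ld al c ∧ (∀ v, v ≤ u + 1 → wk c u ≤ wk c v + 1) ∧
    ∃ t, u < t ∧ t ≤ K ∧ wk c t + 2 ≤ wk c K)

variable {K h n2 : ℕ} {ld al c : ℕ → Prop} {m M : ℤ}

theorem resR (S : SD K h ld al c m M) {x : ℤ} {T : ℕ} (C : CR K c x T) (hx : 1 ≤ x)
    (hxK : - wk c K ≤ 2 * x) (hb : -(m + m % 2) - 2 * n2 - 2 ≤ 2 * x)
    (hcnt : eb c (T - 1) + n2 + 2 ≤ eb c (K - 1)) (hpr : ¬ (3 ≤ T ∧ ld (T - 2) ∧ ¬ al (T - 2)))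
    (hp : ∃ q, q % 2 = 0 ∧ T ≤ q ∧ q + 2 ≤ K ∧ wk c q ≤ -2 * x ∧ (wk c q + 4 ≤ wk c K ∨
      (c K ∧ wk c q + 2 ≤ wk c K))) : RES K h n2 ld al := by
  have t1 := C.ev
  have t2 := C.T2
  refine Or.inl ⟨T - 1, c, sR S C hx hxK hb hcnt ?_ hp, ?_, ?_⟩
  · intro h1 h2
    by_contra h3
    exact hpr ⟨h1, h2, h3⟩
  · intro v hv
    rw [C.vals.1]
    exact C.lft (by omega)
  · obtain ⟨q, q1, q2, q3, q4, q5⟩ := hp
    exact ⟨q, by omega, by omega, by omega⟩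

theorem resH (S : SD K h ld al c m M) {x : ℤ} {T : ℕ} (C : CR K c x T) (hx : 1 ≤ x)
    (hxK : - wk c K ≤ 2 * x) (hN : 3 ≤ T ∧ ld (T - 2) ∧ ¬ al (T - 2))
    (hb : -(m + m % 2) - 2 * n2 ≤ 2 * x ∨ (-(m + m % 2) - 2 * n2 - 2 ≤ 2 * x ∧
      (M + m < wk c K ∨ m % 2 = 0 ∨
        ∀ v, T ≤ v → v < K → ld v → v % 2 = 0 → c v → wk c v < M - 1)))
    (hp : ∃ q, T ≤ q ∧ q + 2 ≤ K ∧ wk c q + 2 ≤ wk c K) : RES K h n2 ld al := by
  have t1 := C.ev
  have t2 := C.T2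
  refine Or.inr ⟨T - 2, c, sH S C hx hxK hN.1 hN.2.1 hN.2.2 hb, ?_, ?_⟩
  · intro v hv
    rw [C.vals.2]
    have := C.lft (v := v) (by omega)
    omega
  · obtain ⟨q, q1, q2, q3⟩ := hp
    exact ⟨q, by omega, by omega, q3⟩

/-- the opposite colours -/
theorem SD.neg (W : WW K h ld al c) (lb : ∀ v, 1 ≤ v → v < K → ld v → m ≤ wk c v)
    (ub : ∀ v, 1 ≤ v → v < K → ld v → wk c v ≤ M)
    (exm : ∃ q, 1 ≤ q ∧ q < K ∧ ld q ∧ wk c q = m) (exM : ∃ p, 1 ≤ p ∧ p < K ∧ ld p ∧ wk c p = M)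
    (tot : wk c K ≤ M + m) (h0 : wk c K ≤ 0) (h3 : m + 3 ≤ wk c K) :
    SD K h ld al (fun e => ¬ c e) (-M) (-m) := by
  refine ⟨W.neg, ?_, ?_, ?_, ?_, ?_, ?_⟩
  · intro v h1 h2 h3
    rw [wk_ng]
    have := ub v h1 h2 h3
    omega
  · intro v h1 h2 h3
    rw [wk_ng]
    have := lb v h1 h2 h3
    omega
  · obtain ⟨p, p1, p2, p3, p4⟩ := exM
    exact ⟨p, p1, p2, p3, by rw [wk_ng, p4]⟩
  · obtain ⟨p, p1, p2, p3, p4⟩ := exm
    exact ⟨p, p1, p2, p3, by rw [wk_ng, p4]⟩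
  · rw [wk_ng]
    omega
  · rw [wk_ng]
    right
    constructor <;> omega

theorem sel (S : SD K h ld al c m M) {xq : ℤ} (hq : 2 * xq = -(m + m % 2))
    (h1 : (n2 : ℤ) + 2 ≤ xq) (h2 : - wk c K ≤ 2 * (xq - n2 - 1))
    (he : M + m < wk c K ∨ (c K ∧ wk c K ≤ 0)) : RES K h n2 ld al := by
  have hK := S.W.hK
  have st := S.tot
  obtain ⟨q, q0, q2, qK, qv⟩ := S.ex (by omega)
  obtain ⟨l1, l2⟩ := S.last (by omega)
  obtain ⟨T1, hT1, C1⟩ := exists_CR c (x := xq - n2) (by omega) q0 qK (by omega)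
  obtain ⟨T0, hT0, C0⟩ := exists_CR c (x := xq - n2 - 1) (by omega) q0 qK (by omega)
  have hp : ∀ T ≤ q, ∃ q, T ≤ q ∧ q + 2 ≤ K ∧ wk c q + 2 ≤ wk c K :=
    fun T hT => ⟨q, hT, qK, by omega⟩
  have hp' : wk c q + 4 ≤ wk c K ∨ (c K ∧ wk c q + 2 ≤ wk c K) := by
    rcases S.hy with h | h
    · exact Or.inr ⟨h, by omega⟩
    · left
      omega
  by_cases hN1 : 3 ≤ T1 ∧ ld (T1 - 2) ∧ ¬ al (T1 - 2)
  · exact resH S C1 (by omega) (by omega) hN1 (Or.inl (by omega)) (hp T1 hT1)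
  by_cases hc1 : eb c (T1 - 1) + n2 + 2 ≤ eb c (K - 1)
  · exact resR S C1 (by omega) (by omega) (by omega) hc1 hN1
      ⟨q, q0, hT1, qK, by omega, hp'⟩
  by_cases hN0 : 3 ≤ T0 ∧ ld (T0 - 2) ∧ ¬ al (T0 - 2)
  swap
  · refine resR S C0 (by omega) (by omega) (by omega) ?_ hN0
      ⟨q, q0, hT0, qK, by omega, hp'⟩
    have t1 := C0.ev
    have t2 := C0.T2
    have r := rise c (a := T0 - 2) (b := q) (by omega) (by omega) q0
    have v := C0.vals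
    have s1 := stepB c (v := T0 - 1) (by omega) C0.c1
    rw [show T0 - 1 - 1 = T0 - 2 by omega] at s1
    have s2 := mono4 c (show q ≤ K - 1 by omega)
    omega
  by_cases hlt : M + m < wk c K
  · exact resH S C0 (by omega) (by omega) hN0 (Or.inr ⟨by omega, Or.inl hlt⟩) (hp T0 hT0)
  by_cases hm2 : m % 2 = 0
  · exact resH S C0 (by omega) (by omega) hN0 (Or.inr ⟨by omega, Or.inr (Or.inl hm2)⟩) (hp T0 hT0)
  by_cases hex : ∀ v, T0 ≤ v → v < K → ld v → v % 2 = 0 → c v → wk c v < M - 1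
  · exact resH S C0 (by omega) (by omega) hN0 (Or.inr ⟨by omega, Or.inr (Or.inr hex)⟩) (hp T0 hT0)
  -- the exceptional case: the opposite colours
  obtain ⟨cK, h0⟩ : c K ∧ wk c K ≤ 0 := he.resolve_left hlt
  push Not at hex
  obtain ⟨v, v1, v2, v3, v4, v5, v6⟩ := hex
  have t02 := C0.T2
  have hv := S.mn (v := v) (by omega) v2 v3 v5
  obtain ⟨-, e1, -, -, e2, -⟩ := l1 cK
  have rv := S.W.rng v (by omega) v2 v3
  have t12 := C1.T2
  have hvT : v < T1 := by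
    by_contra hcon
    apply hc1
    rcases nxt S.W (by omega) v2 v3 v5 with ⟨w, w1, w2, w3, w4⟩ | h5
    · have w5 := S.ub w (by omega) w2 w3
      obtain rfl : w = v + 1 := by omega
      have g1 : ¬ c (v + 1) := (S.W.dif v (by omega) v2 v3).1 v5
      have g2 : c (v + 2) := by
        by_contra h
        exact g1 ((S.W.dif (v + 1) (by omega) w2 w3).2 h)
      have rw' := S.W.rng (v + 1) (by omega) w2 w3
      have s1 := stepG c (v := v + 1) (by omega) g1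
      have s2 := stepB c (v := v + 2) (by omega) g2
      rw [Nat.add_sub_cancel] at s1
      rw [show v + 2 - 1 = v + 1 by omega] at s2
      have f2 := wkB (v := v + 2) (by omega) g2
      rw [show v + 2 - 1 = v + 1 by omega] at f2
      have r := rise c (a := v + 2) (b := K - 2) (by omega) (by omega) (by omega)
      have mo := mono4 c (show T1 - 1 ≤ v by omega)
      omega
    · omega
  have S' := SD.neg S.W S.lb S.ub S.exm S.exM (by omega) h0 (by omega)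
  obtain ⟨x, hx⟩ : ∃ x : ℤ, 2 * x = M - 1 - 2 * n2 := by
    obtain ⟨k, hk⟩ := wk_par c K
    exact ⟨(M - 1 - 2 * n2) / 2, by omega⟩
  have hvv : wk (fun e => ¬ c e) v = -(M - 1) := by
    rw [wk_ng]
    omega
  obtain ⟨T, hT, C⟩ := exists_CR (fun e => ¬ c e) (x := x) (by omega) v4 (by omega : v + 2 ≤ K)
    (by omega)
  have hwK := wk_ng c K
  by_cases hN : 3 ≤ T ∧ ld (T - 2) ∧ ¬ al (T - 2)
  · exact resH S' C (by omega) (by omega) hN (Or.inl (by omega)) ⟨v, hT, by omega, by omega⟩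
  · refine resR S' C (by omega) (by omega) (by omega) ?_ hN
      ⟨v, v4, hT, by omega, by omega, Or.inl (by omega)⟩
    have r := rise c (a := q) (b := K - 2) (by omega) q0 (by omega)
    have mo := mono4 c (show T - 1 ≤ q by omega)
    have mo' := mono4 c (show K - 2 ≤ K - 1 by omega)
    show eg c (T - 1) + n2 + 2 ≤ eg c (K - 1)
    omega

/-- **The choice of the special vertex.** -/
theorem cover_D (W : WW K h ld al c) (hc : c K) (h0 : wk c K ≤ 0)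
    (hm : ∃ v, 1 ≤ v ∧ v < K ∧ ld v ∧ wk c v ≤ wk c K - (2 * n2 + 3 : ℤ))
    (hm0 : wk c K = 0 → ∃ v, 1 ≤ v ∧ v < K ∧ ld v ∧ wk c v ≤ -(2 * n2 + 4 : ℤ)) :
    RES K h n2 ld al := by
  classical
  obtain ⟨v, v1, v2, v3, v4⟩ := hm
  have hne : ((Finset.range K).filter fun i => 1 ≤ i ∧ ld i).Nonempty :=
    ⟨v, by rw [Finset.mem_filter, Finset.mem_range]; exact ⟨v2, v1, v3⟩⟩
  obtain ⟨q, hq, hq'⟩ := Finset.exists_min_image _ (fun i => wk c i) hne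
  obtain ⟨p, hp, hp'⟩ := Finset.exists_max_image _ (fun i => wk c i) hne
  rw [Finset.mem_filter, Finset.mem_range] at hq hp
  have lb : ∀ v, 1 ≤ v → v < K → ld v → wk c q ≤ wk c v := fun v h1 h2 h3 =>
    hq' v (by rw [Finset.mem_filter, Finset.mem_range]; exact ⟨h2, h1, h3⟩)
  have ub : ∀ v, 1 ≤ v → v < K → ld v → wk c v ≤ wk c p := fun v h1 h2 h3 =>
    hp' v (by rw [Finset.mem_filter, Finset.mem_range]; exact ⟨h2, h1, h3⟩)
  have exm : ∃ q', 1 ≤ q' ∧ q' < K ∧ ld q' ∧ wk c q' = wk c q :=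
    ⟨q, hq.2.1, hq.1, hq.2.2, rfl⟩
  have exM : ∃ q', 1 ≤ q' ∧ q' < K ∧ ld q' ∧ wk c q' = wk c p :=
    ⟨p, hp.2.1, hp.1, hp.2.2, rfl⟩
  generalize wk c q = m at *
  generalize wk c p = M at *
  have b1 := lb v v1 v2 v3
  have b2 : wk c K = 0 → m ≤ -(2 * n2 + 4 : ℤ) := by
    intro h
    obtain ⟨v, v1, v2, v3, v4⟩ := hm0 h
    have := lb v v1 v2 v3
    omega
  obtain ⟨k, hk⟩ := wk_par c K
  have hK := W.hK
  rcases le_or_gt (M + m) (wk c K) with hMm | hMm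
  · have S : SD K h ld al c m M := ⟨W, lb, ub, exm, exM, hMm, Or.inl hc⟩
    obtain ⟨x, hx⟩ : ∃ x : ℤ, 2 * x = -(m + m % 2) := ⟨-(m + m % 2) / 2, by omega⟩
    exact sel S hx (by omega) (by omega) (Or.inr ⟨hc, h0⟩)
  · have S' := SD.neg W lb ub exm exM (by omega) h0 (by omega)
    have hwK := wk_ng c K
    obtain ⟨x, hx⟩ : ∃ x : ℤ, 2 * x = -(-M + -M % 2) := ⟨-(-M + -M % 2) / 2, by omega⟩
    exact sel S' hx (by omega) (by omega) (Or.inl (by omega))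

end Pool.Agent.Lob34
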