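import Pool.Agent.Lob34.Walk

/-! Facts used by all parts of the seam lemma. -/

namespace Pool.Agent.Lob34

theorem bdi (c : ℕ → Bool) (i j : ℕ) (h : i ≤ j) :
    0 ≤ Bo c j - Bo c i ∧ Bo c j - Bo c i ≤ ((j + 1) / 2 : ℕ) - ((i + 1) / 2 : ℕ) ∧
    0 ≤ Be c j - Be c i ∧ Be c j - Be c i ≤ (j / 2 : ℕ) - (i / 2 : ℕ) := bd c h

theorem zeroB (c : ℕ → Bool) : Bo c 0 = 0 ∧ Be c 0 = 0 := ⟨rfl, rfl⟩

/-- A loaded vertex which is an odd local maximum of the walk. -/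
def OT (c : ℕ → Bool) (i : ℕ) : Prop := i % 2 = 1 ∧ c i = true ∧ c (i + 1) = false
/-- A loaded vertex which is an even local maximum of the walk. -/
def ET (c : ℕ → Bool) (i : ℕ) : Prop := i % 2 = 0 ∧ c i = true ∧ c (i + 1) = false
/-- A loaded vertex which is an odd local minimum of the walk. -/
def OF (c : ℕ → Bool) (i : ℕ) : Prop := i % 2 = 1 ∧ c i = false ∧ c (i + 1) = true
/-- A loaded vertex which is an even local minimum of the walk. -/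
def EF (c : ℕ → Bool) (i : ℕ) : Prop := i % 2 = 0 ∧ c i = false ∧ c (i + 1) = true

/-- The odd edge at `i` is bad. -/
def KB (c : ℕ → Bool) (i : ℕ) : Prop := ET c i ∨ OF c i
/-- The odd edge at `i` is good. -/
def KG (c : ℕ → Bool) (i : ℕ) : Prop := OT c i ∨ EF c i

theorem st_OT (c : ℕ → Bool) {i : ℕ} (h1 : 1 ≤ i) (h : OT c i) :
    Bo c i = Bo c (i - 1) ∧ Be c i = Be c (i - 1) ∧
    Bo c (i + 1) = Bo c i ∧ Be c (i + 1) = Be c i + 1 := by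
  obtain ⟨n, rfl⟩ : ∃ n, i = n + 1 := ⟨i - 1, by omega⟩
  obtain ⟨h2, h3, h4⟩ := h
  have := stepT c h3
  have := stepFe c h4 (by omega)
  simp only [Nat.add_sub_cancel]
  tauto

theorem st_ET (c : ℕ → Bool) {i : ℕ} (h1 : 1 ≤ i) (h : ET c i) :
    Bo c i = Bo c (i - 1) ∧ Be c i = Be c (i - 1) ∧
    Bo c (i + 1) = Bo c i + 1 ∧ Be c (i + 1) = Be c i := by
  obtain ⟨n, rfl⟩ : ∃ n, i = n + 1 := ⟨i - 1, by omega⟩
  obtain ⟨h2, h3, h4⟩ := h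
  have := stepT c h3
  have := stepFo c h4 (by omega)
  simp only [Nat.add_sub_cancel]
  tauto

theorem st_OF (c : ℕ → Bool) {i : ℕ} (h1 : 1 ≤ i) (h : OF c i) :
    Bo c i = Bo c (i - 1) + 1 ∧ Be c i = Be c (i - 1) ∧
    Bo c (i + 1) = Bo c i ∧ Be c (i + 1) = Be c i := by
  obtain ⟨n, rfl⟩ : ∃ n, i = n + 1 := ⟨i - 1, by omega⟩
  obtain ⟨h2, h3, h4⟩ := h
  have := stepFo c h3 (by omega)
  have := stepT c h4
  simp only [Nat.add_sub_cancel]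
  tauto

theorem st_EF (c : ℕ → Bool) {i : ℕ} (h1 : 1 ≤ i) (h : EF c i) :
    Bo c i = Bo c (i - 1) ∧ Be c i = Be c (i - 1) + 1 ∧
    Bo c (i + 1) = Bo c i ∧ Be c (i + 1) = Be c i := by
  obtain ⟨n, rfl⟩ : ∃ n, i = n + 1 := ⟨i - 1, by omega⟩
  obtain ⟨h2, h3, h4⟩ := h
  have := stepFe c h3 (by omega)
  have := stepT c h4
  simp only [Nat.add_sub_cancel]
  tauto

theorem JOT (c : ℕ → Bool) {k q i : ℕ} (hi : 1 ≤ i) (h : OT c i) :
    (q < i → J c k q i = Bo c k + Be c k + 1 + (i / 2 : ℕ) - Bo c i - ((q + 1) / 2 : ℕ)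
      + Bo c q - Be c i + Be c q) ∧
    (i < q → J c k q i = 1 + ((k + 1) / 2 : ℕ) + (i / 2 : ℕ) - Bo c i - ((q + 1) / 2 : ℕ)
      + Bo c q - Be c i + Be c q) ∧
    (i = q → J c k q i = 1 + (i / 2 : ℕ) - ((q + 1) / 2 : ℕ) + ((k + 1) / 2 : ℕ) + Be c k) :=
  J_oT c hi h.1 h.2.1 h.2.2

theorem JET (c : ℕ → Bool) {k q i : ℕ} (hi : 1 ≤ i) (h : ET c i) :
    (q < i → J c k q i = Bo c k + Be c k + (i / 2 : ℕ) - Bo c i - (q / 2 : ℕ)
      + Bo c q - Be c i + Be c q) ∧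
    (i < q → J c k q i = (k / 2 : ℕ) + (i / 2 : ℕ) - Bo c i - (q / 2 : ℕ)
      + Bo c q - Be c i + Be c q) ∧
    (i = q → J c k q i = (k / 2 : ℕ) + Bo c k) :=
  J_eT c hi h.1 h.2.1 h.2.2

theorem JOF (c : ℕ → Bool) {k q i : ℕ} (hi : 1 ≤ i) (h : OF c i) :
    (q < i → J c k q i = Bo c k + Be c k + 2 + (i / 2 : ℕ) - Bo c i - (q / 2 : ℕ)
      + Bo c q - Be c i + Be c q) ∧
    (i < q → J c k q i = 2 + (k / 2 : ℕ) + (i / 2 : ℕ) - Bo c i - (q / 2 : ℕ)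
      + Bo c q - Be c i + Be c q) ∧
    (i = q → J c k q i = Be c k + 2) :=
  J_oF c hi h.1 h.2.1 h.2.2

theorem JEF (c : ℕ → Bool) {k q i : ℕ} (hi : 1 ≤ i) (h : EF c i) :
    (q < i → J c k q i = Bo c k + Be c k + 2 + (i / 2 : ℕ) - Bo c i - ((q + 1) / 2 : ℕ)
      + Bo c q - Be c i + Be c q) ∧
    (i < q → J c k q i = 2 + ((k + 1) / 2 : ℕ) + (i / 2 : ℕ) - Bo c i - ((q + 1) / 2 : ℕ)
      + Bo c q - Be c i + Be c q) ∧
    (i = q → J c k q i = Bo c k + 2) :=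
  J_eF c hi h.1 h.2.1 h.2.2

theorem bo1 (c : ℕ → Bool) {i j : ℕ} (h : i ≤ j) : 0 ≤ Bo c j - Bo c i := (bd c h).1

theorem bo2 (c : ℕ → Bool) {i j : ℕ} (h : i ≤ j) :
    Bo c j - Bo c i ≤ ((j + 1) / 2 : ℕ) - ((i + 1) / 2 : ℕ) := (bd c h).2.1

theorem be1 (c : ℕ → Bool) {i j : ℕ} (h : i ≤ j) : 0 ≤ Be c j - Be c i := (bd c h).2.2.1

theorem be2 (c : ℕ → Bool) {i j : ℕ} (h : i ≤ j) :
    Be c j - Be c i ≤ (j / 2 : ℕ) - (i / 2 : ℕ) := (bd c h).2.2.2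

theorem go0 (c : ℕ → Bool) {i j : ℕ} (h : i ≤ j) : 0 ≤ Go c j - Go c i := by
  have := bo2 c h
  unfold Go
  omega

/-- The value which is minimised by the seam. -/
def Fv (c : ℕ → Bool) (i : ℕ) : ℤ := S c i + if c i then 0 else if i % 2 = 1 then 2 else 4

/-- The value used for the seam `0`. -/
def Fz (c : ℕ → Bool) (i : ℕ) : ℤ := S c i + if c i then 0 else 3

theorem Fv_OT {c : ℕ → Bool} {i : ℕ} (h : OT c i) : Fv c i = S c i := by simp [Fv, h.2.1]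
theorem Fv_ET {c : ℕ → Bool} {i : ℕ} (h : ET c i) : Fv c i = S c i := by simp [Fv, h.2.1]
theorem Fv_OF {c : ℕ → Bool} {i : ℕ} (h : OF c i) : Fv c i = S c i + 2 := by
  simp [Fv, h.2.1, h.1]
theorem Fv_EF {c : ℕ → Bool} {i : ℕ} (h : EF c i) : Fv c i = S c i + 4 := by
  simp [Fv, h.2.1, h.1]
theorem Fz_OT {c : ℕ → Bool} {i : ℕ} (h : OT c i) : Fz c i = S c i := by simp [Fz, h.2.1]
theorem Fz_ET {c : ℕ → Bool} {i : ℕ} (h : ET c i) : Fz c i = S c i := by simp [Fz, h.2.1]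
theorem Fz_OF {c : ℕ → Bool} {i : ℕ} (h : OF c i) : Fz c i = S c i + 3 := by simp [Fz, h.2.1]
theorem Fz_EF {c : ℕ → Bool} {i : ℕ} (h : EF c i) : Fz c i = S c i + 3 := by simp [Fz, h.2.1]

theorem neT (c : ℕ → Bool) {i j : ℕ} (h : c i = true) (h' : c j = false) : i ≠ j := by
  rintro rfl
  rw [h] at h'
  cases h'

theorem neF (c : ℕ → Bool) {i q : ℕ} (h : c (i + 1) = true) (h' : c (q + 2) = false) :
    i ≠ q + 1 := by
  rintro rfl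
  rw [h] at h'
  cases h'

theorem stepE (c : ℕ → Bool) {q : ℕ} (h : c (q + 2) = false) (h2 : q % 2 = 0) :
    Bo c (q + 2) = Bo c (q + 1) ∧ Be c (q + 2) = Be c (q + 1) + 1 :=
  stepFe c h (by omega)

/-- A seam position: `0` or a loaded vertex. -/
def Place (c : ℕ → Bool) (k q : ℕ) : Prop :=
  q = 0 ∨ (1 ≤ q ∧ q < k ∧ (KB c q ∨ KG c q))

theorem loaded_cases (c : ℕ → Bool) {i : ℕ} (h : c i ≠ c (i + 1)) :
    OT c i ∨ ET c i ∨ OF c i ∨ EF c i := by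
  unfold OT ET OF EF
  rcases Bool.eq_false_or_eq_true (c i) with h1 | h1 <;>
    rcases Bool.eq_false_or_eq_true (c (i + 1)) with h2 | h2 <;>
    rcases Nat.mod_two_eq_zero_or_one i with h3 | h3 <;> simp_all

end Pool.Agent.Lob34
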