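import Pool.Agent.Lob34.Few
import Pool.Agent.Lob5.P2Facts

/-! Facts about the seam, in terms of the walk (for `SeamR`). -/

namespace Pool.Agent.Lob34

/-- The seam vertex is below the end of the walk. -/
theorem Kd.lt {c al : ℕ → Bool} {k q m : ℕ} (kd : Kd c al k q m) (hq : 1 ≤ q) :
    S c q < S c k := by
  cases kd with
  | z h _ => omega
  | n1 _ _ M => exact M.top
  | n2 _ _ M => exact M.top
  | k1 _ _ M => exact M.top
  | k2 _ _ _ _ M => exact M.top
  | k2ii _ _ _ _ M => exact M.top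
  | k3 _ _ M _ => have := M.top; omega
  | k4 _ _ M => have := M.top; omega

/-- In the modes `≥ 1` the seam is not `0`. -/
theorem Kd.pos {c al : ℕ → Bool} {k q m : ℕ} (kd : Kd c al k q m) (hm : 1 ≤ m)
    (hD : S c k < 0) : 1 ≤ q := by
  by_contra hcon
  have h0 : q = 0 := by omega
  subst h0
  cases kd with
  | z _ _ => omega
  | n1 _ _ _ => omega
  | n2 _ _ _ => omega
  | k1 ht _ _ => have := ht.1; omega
  | k2 _ _ _ _ M => have := M.top; rw [S_zero] at this; omega
  | k2ii _ _ _ _ M => have := M.top; rw [S_zero] at this; omega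
  | k3 ht _ _ _ => have := ht.1; omega
  | k4 _ _ M => have := M.top; rw [S_zero] at this; omega

/-- The seam vertex is a loaded vertex. -/
theorem Kd.ne {c al : ℕ → Bool} {k q m : ℕ} (kd : Kd c al k q m) (hq : 1 ≤ q) :
    c q ≠ c (q + 1) := by
  cases kd with
  | z h _ => omega
  | n1 ht _ _ => rw [ht.2.1, ht.2.2]; decide
  | n2 ht _ _ => rw [ht.2.1, ht.2.2]; decide
  | k1 ht _ _ => rw [ht.2.1, ht.2.2]; decide
  | k2 ht _ _ _ _ => rw [ht.2.1, ht.2.2]; decide
  | k2ii ht _ _ _ _ => rw [ht.2.1, ht.2.2]; decide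
  | k3 ht _ _ _ => rw [ht.2.1, ht.2.2]; decide
  | k4 ht _ _ => rw [ht.2.1, ht.2.2]; decide

/-- At least one good odd edge and one good even edge. -/
theorem Kd.PQh {c al : ℕ → Bool} {k q m : ℕ} (kd : Kd c al k q m) (hm : 1 ≤ m)
    (hk : k % 2 = 1) (hq : q < k) (hD : S c k < 0) :
    Bo c k ≤ (k / 2 : ℕ) ∧ Be c k + 1 ≤ (k / 2 : ℕ) ∧ 1 ≤ Be c k := by
  have h1 := kd.pos hm hD
  have u := bd c (show q ≤ k by omega)
  have u1 := bd c (show q - 1 ≤ k by omega)
  have u2 := bd c (show q + 1 ≤ k by omega)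
  have u3 := bd c (show 0 ≤ q - 1 by omega)
  have z := zeroB c
  cases kd with
  | z _ _ => omega
  | n1 _ _ _ => omega
  | n2 _ _ _ => omega
  | k1 ht ha M =>
    have e := ht.1
    have s1 := st_OT c h1 ht
    have t := M.top
    unfold S at t hD
    omega
  | k2 ht ha _ _ M =>
    have e := ht.1
    have s1 := st_ET c h1 ht
    have t := M.top
    unfold S at t hD
    omega
  | k2ii ht ha _ _ M =>
    have e := ht.1
    have s1 := st_ET c h1 ht
    have t := M.top
    unfold S at t hD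
    omega
  | k3 ht ha M h5 =>
    have e := ht.1
    have s1 := st_OF c h1 ht
    have t := M.top
    unfold S at t hD
    omega
  | k4 ht ha M =>
    have e := ht.1
    have s1 := st_EF c h1 ht
    have t := M.top
    unfold S at t hD
    omega

/-- In the modes `≥ 2` there are at least three bad odd edges. -/
theorem Kd.P3 {c al : ℕ → Bool} {k q m : ℕ} (kd : Kd c al k q m) (hm : 2 ≤ m)
    (hk : k % 2 = 1) (hq : q < k) (hD : S c k < 0) : 3 ≤ Bo c k := by
  have h1 := kd.pos (by omega) hD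
  have u := bd c (show q ≤ k by omega)
  have u1 := bd c (show q - 1 ≤ k by omega)
  have u2 := bd c (show q + 1 ≤ k by omega)
  have u3 := bd c (show 0 ≤ q - 1 by omega)
  have z := zeroB c
  cases kd with
  | z _ _ => omega
  | n1 _ _ _ => omega
  | n2 _ _ _ => omega
  | k1 ht ha M => omega
  | k2 ht ha _ _ M =>
    have e := ht.1
    have s1 := st_ET c h1 ht
    have t := M.top
    unfold S at t hD
    omega
  | k2ii ht ha _ _ M =>
    have e := ht.1
    have s1 := st_ET c h1 ht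
    have t := M.top
    unfold S at t hD
    omega
  | k3 ht ha M h5 =>
    have e := ht.1
    have s1 := st_OF c h1 ht
    have t := M.top
    rcases h5 with h5 | ⟨h6, h7, h8⟩
    · unfold S at t hD h5
      omega
    · have s2 := st_ET c (show 1 ≤ q - 1 by omega) h7
      have u3 := bd c (show 0 ≤ q - 1 - 1 by omega)
      unfold S at t hD
      omega
  | k4 ht ha M =>
    have e := ht.1
    have s1 := st_EF c h1 ht
    have t := M.top
    unfold S at t hD
    omega

/-! Ranks before and after the seam. -/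

theorem rk_oG (c : ℕ → Bool) {k q j : ℕ} (h : goodO c j) :
    (j ≤ q → rank c k q j = Bo c k + 1 + (Go c k - Go c q + Go c (j - 1))) ∧
    (q < j → rank c k q j = Bo c k + 1 + (Go c (j - 1) - Go c q)) := by
  refine ⟨fun hq => ?_, fun hq => ?_⟩
  · have h2 : ¬ q < j := by omega
    simp only [rank, W, h.1, h.2, h2, if_true, if_false]
  · simp only [rank, W, h.1, h.2, hq, if_true]

theorem rk_eG (c : ℕ → Bool) {k q j : ℕ} (h : goodE c j) :
    (j ≤ q → rank c k q j = Be c k + 1 + (Ge c k - Ge c q + Ge c (j - 1))) ∧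
    (q < j → rank c k q j = Be c k + 1 + (Ge c (j - 1) - Ge c q)) := by
  have h1 : ¬ j % 2 = 1 := by rw [h.1]; omega
  refine ⟨fun hq => ?_, fun hq => ?_⟩
  · have h2 : ¬ q < j := by omega
    simp only [rank, W, h1, h.2, h2, if_true, if_false]
  · simp only [rank, W, h1, h.2, hq, if_true, if_false]

theorem rk_oB (c : ℕ → Bool) {k q j : ℕ} (h : badO c j) :
    (j ≤ q → rank c k q j = Bo c q - Bo c (j - 1)) ∧
    (q < j → rank c k q j = Bo c k - (Bo c (j - 1) - Bo c q)) := by
  refine ⟨fun hq => ?_, fun hq => ?_⟩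
  · have h2 : ¬ q < j := by omega
    simp only [rank, W, h.1, h.2, h2, if_true, if_false, Bool.false_eq_true]
    omega
  · simp only [rank, W, h.1, h.2, hq, if_true, Bool.false_eq_true, if_false]

theorem rk_eB (c : ℕ → Bool) {k q j : ℕ} (h : badE c j) :
    (j ≤ q → rank c k q j = Be c q - Be c (j - 1)) ∧
    (q < j → rank c k q j = Be c k - (Be c (j - 1) - Be c q)) := by
  have h1 : ¬ j % 2 = 1 := by rw [h.1]; omega
  refine ⟨fun hq => ?_, fun hq => ?_⟩
  · have h2 : ¬ q < j := by omega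
    simp only [rank, W, h1, h.2, h2, if_false, Bool.false_eq_true]
    omega
  · simp only [rank, W, h1, h.2, hq, if_true, Bool.false_eq_true, if_false]

theorem Go_le (c : ℕ → Bool) {i j : ℕ} (h : i ≤ j) : Go c i ≤ Go c j := by
  have := bd c h
  unfold Go
  omega

theorem Ge_le (c : ℕ → Bool) {i j : ℕ} (h : i ≤ j) : Ge c i ≤ Ge c j := by
  have := bd c h
  unfold Ge
  omega

/-- One step of `Go`. -/
theorem Go_pred (c : ℕ → Bool) {j : ℕ} (h : goodO c j) (h1 : 1 ≤ j) :
    Go c j = Go c (j - 1) + 1 := by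
  obtain ⟨n, rfl⟩ : ∃ n, j = n + 1 := ⟨j - 1, by omega⟩
  rw [Go_succ, if_pos ⟨h.1, h.2⟩]
  simp

theorem Ge_pred (c : ℕ → Bool) {j : ℕ} (h : goodE c j) (h1 : 1 ≤ j) :
    Ge c j = Ge c (j - 1) + 1 := by
  obtain ⟨n, rfl⟩ : ∃ n, j = n + 1 := ⟨j - 1, by omega⟩
  rw [Ge_succ, if_pos ⟨h.1, h.2⟩]
  simp

theorem Bo_pred (c : ℕ → Bool) {j : ℕ} (h : badO c j) (h1 : 1 ≤ j) :
    Bo c j = Bo c (j - 1) + 1 := by
  obtain ⟨n, rfl⟩ : ∃ n, j = n + 1 := ⟨j - 1, by omega⟩
  simpa using (stepFo c h.2 h.1).1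

theorem Be_pred (c : ℕ → Bool) {j : ℕ} (h : badE c j) (h1 : 1 ≤ j) :
    Be c j = Be c (j - 1) + 1 := by
  obtain ⟨n, rfl⟩ : ∃ n, j = n + 1 := ⟨j - 1, by omega⟩
  simpa using (stepFe c h.2 h.1).2

theorem zeroG (c : ℕ → Bool) : Go c 0 = 0 ∧ Ge c 0 = 0 := by
  unfold Go Ge
  rw [(zeroB c).1, (zeroB c).2]
  simp

/-- Both edges of an unloaded vertex are on the same side of the seam. -/
theorem side {c : ℕ → Bool} {k q m : ℕ} {al : ℕ → Bool} (kd : Kd c al k q m) {i : ℕ}
    (h1 : 1 ≤ i) (hi : c i = c (i + 1)) :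
    i ≠ q ∧ (oE i ≤ q ↔ i ≤ q) ∧ (eE i ≤ q ↔ i ≤ q) := by
  have hne : i ≠ q := by
    rintro rfl
    exact kd.ne h1 hi
  refine ⟨hne, ?_, ?_⟩
  · unfold oE
    split_ifs <;> omega
  · unfold eE
    split_ifs <;> omega

/-- Edge `1` good: separation of the odd ranks. -/
theorem sepG {c : ℕ → Bool} {k q m : ℕ} {al : ℕ → Bool} (kd : Kd c al k q m) (hq : 1 ≤ q)
    (h1 : c 1 = true) {i : ℕ}
    (hi1 : 1 ≤ i) (hik : i < k) (hi : c i = c (i + 1)) (ht : c i = true) :
    (rank c k q (eE i) ≤ Be c k + (Ge c k - Ge c q) → rank c k q (oE i) < rank c k q 1) ∧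
    (Be c k + (Ge c k - Ge c q) < rank c k q (eE i) → rank c k q 1 ≤ rank c k q (oE i)) := by
  obtain ⟨m1, m2, m3, m4, m5, m6⟩ := oE_mem hi1 hik
  obtain ⟨g1, g2⟩ := oE_good c hi ht
  obtain ⟨s1, s2, s3⟩ := side kd hi1 hi
  have g0 : goodO c 1 := ⟨by norm_num, h1⟩
  have r0 := (rk_oG c (k := k) (q := q) g0).1 hq
  have z := zeroG c
  rw [show 1 - 1 = 0 from rfl, z.1] at r0
  have e1 := Go_pred c g1 m1
  have e2 := Ge_pred c g2 m4
  have u1 := Go_le c (show 0 ≤ oE i - 1 by omega)
  have u2 := Ge_le c (show 0 ≤ eE i - 1 by omega)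
  have u3 := Go_le c m2
  have u4 := Ge_le c m5
  by_cases hiq : i ≤ q
  · have a := (rk_oG c (k := k) (q := q) g1).1 (s2.2 hiq)
    have b := (rk_eG c (k := k) (q := q) g2).1 (s3.2 hiq)
    omega
  · have n1 : ¬ oE i ≤ q := fun h => hiq (s2.1 h)
    have n2 : ¬ eE i ≤ q := fun h => hiq (s3.1 h)
    have a := (rk_oG c (k := k) (q := q) g1).2 (by omega)
    have b := (rk_eG c (k := k) (q := q) g2).2 (by omega)
    omega

/-- Edge `1` bad: separation of the odd ranks. -/
theorem sepB {c : ℕ → Bool} {k q m : ℕ} {al : ℕ → Bool} (kd : Kd c al k q m) (hq : 1 ≤ q)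
    (h1 : c 1 = false) {i : ℕ}
    (hi1 : 1 ≤ i) (hik : i < k) (hi : c i = c (i + 1)) (ht : c i = false) :
    (rank c k q (oE i) ≤ rank c k q 1 → rank c k q (eE i) ≤ Be c q) ∧
    (rank c k q 1 < rank c k q (oE i) → Be c q < rank c k q (eE i)) := by
  obtain ⟨m1, m2, m3, m4, m5, m6⟩ := oE_mem hi1 hik
  obtain ⟨g1, g2⟩ := oE_bad c hi ht
  obtain ⟨s1, s2, s3⟩ := side kd hi1 hi
  have g0 : badO c 1 := ⟨by norm_num, h1⟩
  have r0 := (rk_oB c (k := k) (q := q) g0).1 hq
  have z := zeroB c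
  rw [show 1 - 1 = 0 from rfl, z.1] at r0
  have e1 := Bo_pred c g1 m1
  have e2 := Be_pred c g2 m4
  have u1 := bd c (show 0 ≤ oE i - 1 by omega)
  have u2 := bd c (show 0 ≤ eE i - 1 by omega)
  have u3 := bd c m2
  have u4 := bd c m5
  by_cases hiq : i ≤ q
  · have a := (rk_oB c (k := k) (q := q) g1).1 (s2.2 hiq)
    have b := (rk_eB c (k := k) (q := q) g2).1 (s3.2 hiq)
    omega
  · have n1 : ¬ oE i ≤ q := fun h => hiq (s2.1 h)
    have n2 : ¬ eE i ≤ q := fun h => hiq (s3.1 h)
    have a := (rk_oB c (k := k) (q := q) g1).2 (by omega)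
    have b := (rk_eB c (k := k) (q := q) g2).2 (by omega)
    omega

/-- `cutGd` before the good even edge number `r`. -/
theorem cutGd_low {c : ℕ → Bool} {k q r : ℕ} (hqk : q ≤ k)
    (hr : (r : ℤ) ≤ Be c k + (Ge c k - Ge c q)) :
    (cutGd c k q r : ℤ) ≤ Go c k - Go c q := by
  have h1 := cnt_split (goodO c) hqk
  have h2 : cutGd c k q r ≤ ((Finset.Ioc q k).filter (goodO c)).card := by
    unfold cutGd
    apply Finset.card_le_card
    intro x
    simp only [Finset.mem_filter, Finset.mem_Icc, Finset.mem_Ioc]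
    rintro ⟨⟨a, b⟩, d, e⟩
    refine ⟨⟨?_, b⟩, d⟩
    by_contra hcon
    have h3 := before_eq (goodE c) hqk a b
    have h4 : (fun n => (cnt (goodE c) n : ℤ)) = Ge c := by
      funext n
      exact (Ge_cnt c n).symm
    rw [h4] at h3
    unfold W at h3
    rw [if_neg hcon] at h3
    have u2 := Ge_le c (show 0 ≤ x - 1 by omega)
    have z := zeroG c
    omega
  have h3 : Go c k = (cnt (goodO c) k : ℕ) := Go_cnt c k
  have h4 : Go c q = (cnt (goodO c) q : ℕ) := Go_cnt c q
  omega

/-- `cutGd` after the good even edge number `r`, edge `1` good. -/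
theorem cutGd_high {c : ℕ → Bool} {k q r : ℕ} (hqk : q ≤ k) (hq : 1 ≤ q) (h1 : c 1 = true)
    (hr : Be c k + (Ge c k - Ge c q) + 1 ≤ (r : ℤ)) :
    Go c k - Go c q + 1 ≤ (cutGd c k q r : ℤ) := by
  have e1 := cnt_split (goodO c) hqk
  have h4 : (fun n => (cnt (goodE c) n : ℤ)) = Ge c := by
    funext n
    exact (Ge_cnt c n).symm
  have h2 : (insert 1 ((Finset.Ioc q k).filter (goodO c))).card ≤ cutGd c k q r := by
    unfold cutGd
    apply Finset.card_le_card
    intro x
    simp only [Finset.mem_filter, Finset.mem_Icc, Finset.mem_Ioc, Finset.mem_insert]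
    rintro (rfl | ⟨⟨a, b⟩, d⟩)
    · refine ⟨⟨le_refl _, by omega⟩, ⟨by norm_num, h1⟩, ?_⟩
      have h3 := before_eq (goodE c) hqk (le_refl 1) (by omega)
      rw [h4] at h3
      unfold W at h3
      rw [if_neg (by omega)] at h3
      have z := zeroG c
      rw [show 1 - 1 = 0 from rfl] at h3
      omega
    · refine ⟨⟨by omega, b⟩, d, ?_⟩
      have h3 := before_eq (goodE c) (j := x) hqk (by omega) b
      rw [h4] at h3
      unfold W at h3
      rw [if_pos a] at h3
      have u2 := Ge_le c (show x - 1 ≤ k by omega)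
      omega
  rw [Finset.card_insert_of_notMem] at h2
  · have h3 : Go c k = (cnt (goodO c) k : ℕ) := Go_cnt c k
    have h5 : Go c q = (cnt (goodO c) q : ℕ) := Go_cnt c q
    omega
  · simp only [Finset.mem_filter, Finset.mem_Ioc]
    omega

/-- `cutGd` is positive if the first edge of the window is good and odd. -/
theorem cutGd_zero {c : ℕ → Bool} {k r : ℕ} (hk : 1 ≤ k) (h1 : c 1 = true)
    (hr : Be c k + 1 ≤ (r : ℤ)) : 1 ≤ cutGd c k 0 r := by
  unfold cutGd
  rw [Nat.one_le_iff_ne_zero, Finset.card_ne_zero]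
  refine ⟨1, ?_⟩
  rw [Finset.mem_filter, Finset.mem_Icc]
  refine ⟨⟨le_refl _, hk⟩, ⟨by norm_num, h1⟩, ?_⟩
  have h4 : (fun n => (cnt (goodE c) n : ℤ)) = Ge c := by
    funext n
    exact (Ge_cnt c n).symm
  have h3 := before_eq (goodE c) (Nat.zero_le k) (le_refl 1) hk
  rw [h4] at h3
  unfold W at h3
  rw [if_pos (by omega)] at h3
  simp only [Nat.sub_self, sub_self] at h3
  omega

/-! The top block. -/

/-- The last bad edge before the seam. -/
theorem exists_p {c : ℕ → Bool} {q : ℕ} (h1 : c 1 = true) (hb : 1 ≤ Bo c q + Be c q) :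
    c q = true →
    ∃ p, 2 ≤ p ∧ p < q ∧ c p = false ∧ ∀ x, p < x → x ≤ q → c x = true := by
  induction q with
  | zero =>
    intro _
    have := zeroB c
    omega
  | succ n ih =>
    intro hc
    have s := stepT c hc
    rcases Bool.eq_false_or_eq_true (c n) with h | h
    · obtain ⟨p, a, b, d, e⟩ := ih (by omega) h
      refine ⟨p, a, by omega, d, fun x hx hx2 => ?_⟩
      rcases Nat.eq_or_lt_of_le hx2 with h5 | h5
      · rw [h5]
        exact hc
      · exact e x hx (by omega)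
    · refine ⟨n, ?_, by omega, h, fun x hx hx2 => ?_⟩
      · by_contra hcon
        rcases Nat.eq_zero_or_pos n with h0 | h0
        · subst h0
          have := zeroB c
          omega
        · have : n = 1 := by omega
          subst this
          rw [h1] at h
          cases h
      · have : x = n + 1 := by omega
        rw [this]
        exact hc

theorem run_const {c : ℕ → Bool} {p q : ℕ} (h : ∀ x, p < x → x ≤ q → c x = true) :
    ∀ y, p ≤ y → y ≤ q → Bo c y = Bo c p ∧ Be c y = Be c p := by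
  intro y hy
  induction y, hy using Nat.le_induction with
  | base => intro _; exact ⟨rfl, rfl⟩
  | succ n hn ih =>
    intro h2
    have s := stepT c (h (n + 1) (by omega) h2)
    have := ih (by omega)
    omega

/-- The vertices outside of the top run. -/
theorem topJ {c : ℕ → Bool} {k q m : ℕ} {al : ℕ → Bool} (kd : Kd c al k q m)
    (hk : k % 2 = 1) (h1 : c 1 = true) {p : ℕ} (hp : 2 ≤ p)
    (hpq : p < q) (hpf : c p = false) (hrun : ∀ x, p < x → x ≤ q → c x = true) {i : ℕ}
    (hi1 : 1 ≤ i) (hik : i < k) (hi : c i = c (i + 1)) (ht : c i = true) :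
    (p < i ∧ i < q) ∨
      rank c k q (oE i) + rank c k q (eE i) + (q - 1 - p : ℕ) ≤ 2 * (k / 2 : ℕ) := by
  obtain ⟨m1, m2, m3, m4, m5, m6⟩ := oE_mem hi1 hik
  obtain ⟨g1, g2⟩ := oE_good c hi ht
  obtain ⟨s1, s2, s3⟩ := side kd hi1 hi
  have g0 : goodO c 1 := ⟨by norm_num, h1⟩
  have z := zeroG c
  have e0 := Go_pred c g0 (le_refl 1)
  rw [show 1 - 1 = 0 from rfl, z.1] at e0
  have e1 := Go_pred c g1 m1
  have e2 := Ge_pred c g2 m4
  have rc := run_const hrun q (by omega) (le_refl q)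
  have b1 := Go_le c (show 1 ≤ p by omega)
  have b2 := Ge_le c (show 0 ≤ p by omega)
  by_cases hiq : i ≤ q
  · by_cases hpi : p < i
    · left
      omega
    · right
      have n1 : i ≠ p := by
        rintro rfl
        rw [ht] at hpf
        cases hpf
      have n2 : i + 1 ≠ p := by
        rintro rfl
        rw [← hi, ht] at hpf
        cases hpf
      have n3 : oE i ≤ p := by
        unfold oE
        split_ifs <;> omega
      have n4 : eE i ≤ p := by
        unfold eE
        split_ifs <;> omega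
      have a := (rk_oG c (k := k) (q := q) g1).1 (s2.2 hiq)
      have b := (rk_eG c (k := k) (q := q) g2).1 (s3.2 hiq)
      have u1 := Go_le c n3
      have u2 := Ge_le c n4
      unfold Go Ge at *
      omega
  · right
    have n1 : ¬ oE i ≤ q := fun h => hiq (s2.1 h)
    have n2 : ¬ eE i ≤ q := fun h => hiq (s3.1 h)
    have a := (rk_oG c (k := k) (q := q) g1).2 (by omega)
    have b := (rk_eG c (k := k) (q := q) g2).2 (by omega)
    have u1 := Go_le c m2
    have u2 := Ge_le c m5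
    unfold Go Ge at *
    omega

/-- The ranks in the top run. -/
theorem topRun {c : ℕ → Bool} {k q p : ℕ}
    (hk : k % 2 = 1) (hrun : ∀ x, p < x → x ≤ q → c x = true) {i : ℕ}
    (hpi : p < i) (hiq : i < q) (hik : i < k) :
    (q % 2 = 1 → rank c k q (eE i) ≤ rank c k q (oE i) ∧
      rank c k q (oE i) ≤ rank c k q (eE i) + 1) ∧
    (q % 2 = 0 → rank c k q (eE i) + 1 ≤ rank c k q (oE i) ∧
      rank c k q (oE i) ≤ rank c k q (eE i) + 2) ∧
    2 * (k / 2 : ℕ) + 2 ≤ rank c k q (oE i) + rank c k q (eE i) + (q - 1 - p : ℕ) := by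
  have hi : c i = c (i + 1) := by
    rw [hrun i hpi (by omega), hrun (i + 1) (by omega) (by omega)]
  have ht := hrun i hpi (by omega)
  obtain ⟨m1, m2, m3, m4, m5, m6⟩ := oE_mem (show 1 ≤ i by omega) hik
  obtain ⟨g1, g2⟩ := oE_good c hi ht
  have l1 : i ≤ oE i ∧ oE i ≤ i + 1 := by
    unfold oE
    split_ifs <;> omega
  have l2 : i ≤ eE i ∧ eE i ≤ i + 1 := by
    unfold eE
    split_ifs <;> omega
  have l3 : oE i + eE i = 2 * i + 1 := by
    unfold oE eE
    split_ifs <;> omega
  have a := (rk_oG c (k := k) (q := q) g1).1 (by omega)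
  have b := (rk_eG c (k := k) (q := q) g2).1 (by omega)
  have rc := run_const hrun q (by omega) (le_refl q)
  have rc1 := run_const hrun (oE i - 1) (by omega) (by omega)
  have rc2 := run_const hrun (eE i - 1) (by omega) (by omega)
  unfold Go at a
  unfold Ge at b
  refine ⟨fun hq => ?_, fun hq => ?_, ?_⟩ <;> omega

end Pool.Agent.Lob34
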