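import Pool.Agent.Lob34.Facts

/-! Counting the low vertices in a region between two places. -/

namespace Pool.Agent.Lob34

/-- Number of `i < n` with `P i`. -/
def NL (P : ℕ → Prop) [DecidablePred P] (n : ℕ) : ℤ := (((Finset.range n).filter P).card : ℕ)

theorem NL_succ (P : ℕ → Prop) [DecidablePred P] (n : ℕ) :
    NL P (n + 1) = NL P n + if P n then 1 else 0 := by
  unfold NL
  rw [Finset.range_add_one, Finset.filter_insert]
  split_ifs with h
  · rw [Finset.card_insert_of_notMem (by simp)]
    push_cast
    ring
  · simp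

theorem NL_not (P : ℕ → Prop) [DecidablePred P] {n : ℕ} (h : ¬ P n) :
    NL P (n + 1) = NL P n := by
  rw [NL_succ, if_neg h, add_zero]

theorem NL_yes (P : ℕ → Prop) [DecidablePred P] {n : ℕ} (h : P n) :
    NL P (n + 1) = NL P n + 1 := by
  rw [NL_succ, if_pos h]

theorem NL_mono (P : ℕ → Prop) [DecidablePred P] {m n : ℕ} (h : m ≤ n) :
    NL P m ≤ NL P n := by
  induction n, h using Nat.le_induction with
  | base => exact le_refl _
  | succ n hn ih =>
    rw [NL_succ]
    split_ifs <;> omega

theorem ff (c : ℕ → Bool) {i : ℕ} (h1 : c (i + 1) = false) (h2 : c (i + 1) = true) : False := by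
  rw [h1] at h2
  cases h2

/-- Four bad edges. -/
theorem fourF (c : ℕ → Bool) (n : ℕ) (h1 : c (n + 1) = false) (h2 : c (n + 2) = false)
    (h3 : c (n + 3) = false) (h4 : c (n + 4) = false) :
    Be c (n + 4) = Be c n + 2 := by
  rcases Nat.mod_two_eq_zero_or_one n with h | h
  · have a1 := stepFo c h1 (by omega)
    have a2 := stepFe c h2 (by omega)
    have a3 := stepFo c h3 (by omega)
    have a4 := stepFe c h4 (by omega)
    have e2 : n + 1 + 1 = n + 2 := rfl
    have e3 : n + 2 + 1 = n + 3 := rfl
    have e4 : n + 3 + 1 = n + 4 := rfl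
    rw [e2] at a2
    rw [e3] at a3
    rw [e4] at a4
    omega
  · have a1 := stepFe c h1 (by omega)
    have a2 := stepFo c h2 (by omega)
    have a3 := stepFe c h3 (by omega)
    have a4 := stepFo c h4 (by omega)
    have e2 : n + 1 + 1 = n + 2 := rfl
    have e3 : n + 2 + 1 = n + 3 := rfl
    have e4 : n + 3 + 1 = n + 4 := rfl
    rw [e2] at a2
    rw [e3] at a3
    rw [e4] at a4
    omega

/-- Good edges do not change `Bo`. -/
theorem goodBo (c : ℕ → Bool) {n : ℕ} (h1 : c (n + 1) = true) : Bo c (n + 1) = Bo c n :=
  (stepT c h1).1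

/-- The bad edges before the low vertices of a region. -/
theorem low_bad (c : ℕ → Bool) (P : ℕ → Prop) [DecidablePred P] {p p' : ℕ} {d : ℤ}
    (hd : 0 ≤ d)
    (hP : ∀ i, P i → c (i + 1) = true)
    (hb : ∀ i, p < i → i < p' → P i →
      (p + 4 ≤ i ∧ c i = false ∧ c (i - 1) = false ∧ c (i - 2) = false ∧ c (i - 3) = false) ∨
      (1 ≤ d ∧ p = 0 ∧ i = 3 ∧ c 1 = false ∧ c 2 = false ∧ c 3 = false)) :
    ∀ j, p ≤ j → j < p' → 2 * (NL P (j + 1) - NL P (p + 1)) ≤ Be c j - Be c p + d ∧
      NL P (j + 1) - NL P (p + 1) ≤ Be c j - Be c p := by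
  intro j
  induction j using Nat.strong_induction_on with
  | _ j ih =>
    intro hj hj'
    rcases Nat.eq_or_lt_of_le hj with h | h
    · subst h
      omega
    · obtain ⟨n, rfl⟩ : ∃ n, j = n + 1 := ⟨j - 1, by omega⟩
      by_cases hp : P (n + 1)
      · rcases hb _ h hj' hp with ⟨g1, g2, g3, g4, g5⟩ | ⟨g1, g2, g3, g4, g5, g6⟩
        · obtain ⟨m, rfl⟩ : ∃ m, n = m + 3 := ⟨n - 3, by omega⟩
          have e1 : m + 3 + 1 - 1 = m + 3 := by omega
          have e2 : m + 3 + 1 - 2 = m + 2 := by omega
          have e3 : m + 3 + 1 - 3 = m + 1 := by omega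
          rw [e1] at g3
          rw [e2] at g4
          rw [e3] at g5
          have h4 := fourF c m g5 g4 g3 g2
          have n0 : ¬ P m := fun hh => ff c g5 (hP _ hh)
          have n1 : ¬ P (m + 1) := fun hh => ff c g4 (hP _ hh)
          have n2 : ¬ P (m + 2) := fun hh => ff c g3 (hP _ hh)
          have n3 : ¬ P (m + 3) := fun hh => ff c g2 (hP _ hh)
          have k1 := NL_not P n1
          have k2 := NL_not P n2
          have k3 := NL_not P n3
          have k4 := NL_yes P hp
          have := ih m (by omega) (by omega) (by omega)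
          have e5 : m + 1 + 1 = m + 2 := rfl
          have e6 : m + 2 + 1 = m + 3 := rfl
          have e7 : m + 3 + 1 = m + 4 := rfl
          rw [e5] at k1
          rw [e6] at k2
          rw [e7] at k3
          rw [e7] at k4
          rw [e7]
          omega
        · subst g2
          obtain rfl : n = 2 := by omega
          have s1 := stepFo c (i := 0) g4 (by omega)
          have s2 := stepFe c (i := 1) g5 (by omega)
          have s3 := stepFo c (i := 2) g6 (by omega)
          have n1 : ¬ P 1 := fun hh => ff c g5 (hP _ hh)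
          have n2 : ¬ P 2 := fun hh => ff c g6 (hP _ hh)
          have k1 := NL_not P n1
          have k2 := NL_not P n2
          have k3 := NL_yes P hp
          simp only [Nat.reduceAdd, zero_add] at *
          omega
      · have k1 := NL_not P hp
        have := ih n (by omega) (by omega) (by omega)
        have := be1 c (show n ≤ n + 1 by omega)
        omega

/-- The good edges after the low vertices of a region. -/
theorem low_good (c : ℕ → Bool) (P : ℕ → Prop) [DecidablePred P] {p p' : ℕ} {d : ℤ}
    (hd : 0 ≤ d)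
    (hP : ∀ i, P i → c i = false)
    (hg : ∀ i, p < i → i < p' → P i →
      (i + 4 ≤ p' ∧ c (i + 1) = true ∧ c (i + 2) = true ∧ c (i + 3) = true ∧
        c (i + 4) = true) ∨
      (1 ≤ d ∧ i + 3 = p' ∧ c (i + 1) = true ∧ c (i + 2) = true ∧ c (i + 3) = true)) :
    ∀ t j, j + t = p' → p < j → 2 * (NL P p' - NL P j) ≤ Go c p' - Go c j + d := by
  intro t
  induction t using Nat.strong_induction_on with
  | _ t ih =>
    intro j hj hpj
    rcases Nat.eq_zero_or_pos t with h | h
    · subst h
      obtain rfl : j = p' := by omega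
      omega
    · by_cases hp : P j
      · rcases hg j hpj (by omega) hp with ⟨g1, g2, g3, g4, g5⟩ | ⟨g1, g2, g3, g4, g5⟩
        · have b1 := goodBo c g2
          have b2 := goodBo c g3
          have b3 := goodBo c g4
          have b4 := goodBo c g5
          have n1 : ¬ P (j + 1) := fun hh => ff c (hP _ hh) g2
          have n2 : ¬ P (j + 2) := fun hh => ff c (hP _ hh) g3
          have n3 : ¬ P (j + 3) := fun hh => ff c (hP _ hh) g4
          have k0 := NL_yes P hp
          have k1 := NL_not P n1
          have k2 := NL_not P n2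
          have k3 := NL_not P n3
          have := ih (t - 4) (by omega) (j + 4) (by omega) (by omega)
          have e5 : j + 1 + 1 = j + 2 := rfl
          have e6 : j + 2 + 1 = j + 3 := rfl
          have e7 : j + 3 + 1 = j + 4 := rfl
          rw [e5] at k1 b2
          rw [e6] at k2 b3
          rw [e7] at k3 b4
          simp only [Go] at *
          omega
        · have b1 := goodBo c g3
          have b2 := goodBo c g4
          have b3 := goodBo c g5
          have n1 : ¬ P (j + 1) := fun hh => ff c (hP _ hh) g3
          have n2 : ¬ P (j + 2) := fun hh => ff c (hP _ hh) g4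
          have k0 := NL_yes P hp
          have k1 := NL_not P n1
          have k2 := NL_not P n2
          have e5 : j + 1 + 1 = j + 2 := rfl
          have e6 : j + 2 + 1 = j + 3 := rfl
          subst g2
          rw [e5] at k1 b2
          rw [e6] at k2 b3
          simp only [Go]
          omega
      · have k1 := NL_not P hp
        have := ih (t - 1) (by omega) (j + 1) (by omega) (by omega)
        have := go0 c (show j ≤ j + 1 by omega)
        omega

/-- Bad edges before a low vertex. -/
theorem back (c : ℕ → Bool) {i : ℕ} (hi : c i = false) (h0 : S c i + 4 ≤ 0)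
    (X : ∀ m, 1 ≤ m → m < i → i ≤ m + 3 → c m = true → c (m + 1) = false →
      S c i + 4 ≤ S c m) :
    4 ≤ i ∧ c (i - 1) = false ∧ c (i - 2) = false ∧ c (i - 3) = false := by
  have h4 : 4 ≤ i := by
    have := bd c (Nat.zero_le i)
    have := zeroB c
    unfold S at h0
    omega
  obtain ⟨n, rfl⟩ : ∃ n, i = n + 4 := ⟨i - 4, by omega⟩
  have e1 : n + 4 - 1 = n + 3 := by omega
  have e2 : n + 4 - 2 = n + 2 := by omega
  have e3 : n + 4 - 3 = n + 1 := by omega
  rw [e1, e2, e3]
  have s4 := S_succ c (n + 3)
  have s3 := S_succ c (n + 2)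
  have s2 := S_succ c (n + 1)
  have f4 : n + 3 + 1 = n + 4 := rfl
  have f3 : n + 2 + 1 = n + 3 := rfl
  have f2 : n + 1 + 1 = n + 2 := rfl
  rw [f4, hi] at s4
  rw [f3] at s3
  rw [f2] at s2
  simp only [Bool.false_eq_true, if_false] at s4
  have c3 : c (n + 3) = false := by
    rcases Bool.eq_false_or_eq_true (c (n + 3)) with h | h
    · have := X (n + 3) (by omega) (by omega) (by omega) h hi
      omega
    · exact h
  rw [c3] at s3
  simp only [Bool.false_eq_true, if_false] at s3
  have c2 : c (n + 2) = false := by
    rcases Bool.eq_false_or_eq_true (c (n + 2)) with h | h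
    · have := X (n + 2) (by omega) (by omega) (by omega) h c3
      omega
    · exact h
  rw [c2] at s2
  simp only [Bool.false_eq_true, if_false] at s2
  have c1 : c (n + 1) = false := by
    rcases Bool.eq_false_or_eq_true (c (n + 1)) with h | h
    · have := X (n + 1) (by omega) (by omega) (by omega) h c2
      omega
    · exact h
  exact ⟨h4, c3, c2, c1⟩

/-- Good edges after a low vertex. -/
theorem fwd (c : ℕ → Bool) {i k q : ℕ} (hik : i < k) (hi : c (i + 1) = true)
    (hk : S c i + 4 ≤ S c k)
    (X : ∀ m, i < m → m ≤ i + 3 → m < k → (∀ j, i < j → j ≤ m → c j = true) →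
      c (m + 1) = false → (S c i + 4 ≤ S c m ∨ (m = q ∧ S c i + 3 ≤ S c q))) :
    i + 4 ≤ k ∧ c (i + 2) = true ∧ c (i + 3) = true ∧ (c (i + 4) = true ∨ q = i + 3) := by
  have s1 := S_succ c i
  have s2 := S_succ c (i + 1)
  have s3 := S_succ c (i + 2)
  have f3 : i + 2 + 1 = i + 3 := rfl
  have f2 : i + 1 + 1 = i + 2 := rfl
  rw [f3] at s3
  rw [f2] at s2
  rw [hi] at s1
  simp only [if_true] at s1
  have k1 : i + 1 ≠ k := by
    rintro rfl
    omega
  have c2 : c (i + 2) = true := by
    rcases Bool.eq_false_or_eq_true (c (i + 2)) with h | h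
    · exact h
    · rcases X (i + 1) (by omega) (by omega) (by omega) (by
        intro j j1 j2
        obtain rfl : j = i + 1 := by omega
        exact hi) h with h' | ⟨h1, h2⟩
      · omega
      · subst h1
        omega
  rw [c2] at s2
  simp only [if_true] at s2
  have k2 : i + 2 ≠ k := by
    rintro rfl
    omega
  have c3 : c (i + 3) = true := by
    rcases Bool.eq_false_or_eq_true (c (i + 3)) with h | h
    · exact h
    · rcases X (i + 2) (by omega) (by omega) (by omega) (by
        intro j j1 j2
        obtain rfl | rfl : j = i + 1 ∨ j = i + 2 := by omega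
        · exact hi
        · exact c2) h with h' | ⟨h1, h2⟩
      · omega
      · subst h1
        omega
  rw [c3] at s3
  simp only [if_true] at s3
  have k3 : i + 3 ≠ k := by
    rintro rfl
    omega
  refine ⟨by omega, c2, c3, ?_⟩
  rcases Bool.eq_false_or_eq_true (c (i + 4)) with h | h
  · exact Or.inl h
  · rcases X (i + 3) (by omega) (by omega) (by omega) (by
      intro j j1 j2
      obtain rfl | rfl | rfl : j = i + 1 ∨ j = i + 2 ∨ j = i + 3 := by omega
      · exact hi
      · exact c2
      · exact c3) h with h' | ⟨h1, h2⟩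
    · omega
    · exact Or.inr h1.symm

/-- The facts about the low vertices, for a seam `q`. -/
structure LowF (c : ℕ → Bool) (k q : ℕ) (P : ℕ → Prop) : Prop where
  rng : ∀ i, P i → 1 ≤ i ∧ i < k ∧ i ≠ q ∧ c i = false ∧ c (i + 1) = true
  mx : ∀ i, P i → ∀ m, 1 ≤ m → m < k → m ≠ q → (q < i ∨ m < q) → c m = true →
    c (m + 1) = false → S c i + 4 ≤ S c m
  q3 : ∀ i, P i → i < q → S c i + 3 ≤ S c q
  q4 : ∀ i, P i → q < i → S c i + 4 ≤ S c q
  z4 : ∀ i, P i → S c i + 4 ≤ 0
  k4 : ∀ i, P i → S c i + 4 ≤ S c k

/-- The region lemma. -/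
theorem region (c : ℕ → Bool) {k q : ℕ} (P : ℕ → Prop) [DecidablePred P]
    (F : LowF c k q P) {p p' : ℕ} (hpp : p < p') (hpk : p' ≤ k)
    (hp : p = 0 ∨ c p ≠ c (p + 1)) (hp' : p' = k ∨ c p' ≠ c (p' + 1))
    (hq : q ≤ p ∨ p' ≤ q) (hql : q = 0 ∨ c q ≠ c (q + 1)) :
    0 ≤ NL P p' - NL P (p + 1) ∧
    2 * (NL P p' - NL P (p + 1)) ≤ Be c (p' - 1) - Be c p ∧
    2 * (NL P p' - NL P (p + 1)) - (if p' = q then 1 else 0) ≤ Go c p' - Go c (p + 1) := by
  refine ⟨?_, ?_, ?_⟩
  · have := NL_mono P (show p + 1 ≤ p' by omega)
    omega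
  · have h := (low_bad c P (p := p) (p' := p') (d := 0) (le_refl _)
      (fun i hi => (F.rng i hi).2.2.2.2) ?_ (p' - 1) (by omega) (by omega)).1
    · have e : p' - 1 + 1 = p' := by omega
      rw [e] at h
      omega
    · intro i h1 h2 hi
      left
      obtain ⟨r1, r2, r3, r4, r5⟩ := F.rng i hi
      have hb := back c r4 (F.z4 i hi) (by
        intro m m1 m2 m3 m4 m5
        by_cases hmq : m = q
        · subst hmq
          exact F.q4 i hi m2
        · exact F.mx i hi m m1 (by omega) hmq (by omega) m4 m5)
      obtain ⟨b1, b2, b3, b4⟩ := hb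
      refine ⟨?_, r4, b2, b3, b4⟩
      rcases hp with hp | hp
      · omega
      · by_contra hcon
        have hc : p = i - 1 ∨ p = i - 2 ∨ p = i - 3 := by omega
        rcases hc with rfl | rfl | rfl
        · have e : i - 1 + 1 = i := by omega
          rw [e, b2, r4] at hp
          exact hp rfl
        · have e : i - 2 + 1 = i - 1 := by omega
          rw [e, b3, b2] at hp
          exact hp rfl
        · have e : i - 3 + 1 = i - 2 := by omega
          rw [e, b4, b3] at hp
          exact hp rfl
  · have hnn : (0 : ℤ) ≤ if p' = q then 1 else 0 := by split_ifs <;> omega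
    have h := low_good c P (p := p) (p' := p') (d := if p' = q then 1 else 0) hnn
      (fun i hi => (F.rng i hi).2.2.2.1) ?_ (p' - (p + 1)) (p + 1) (by omega) (by omega)
    · omega
    · intro i h1 h2 hi
      obtain ⟨r1, r2, r3, r4, r5⟩ := F.rng i hi
      have hf := fwd c (q := q) r2 r5 (F.k4 i hi) (by
        intro m m1 m2 m3 m4 m5
        by_cases hmq : m = q
        · subst hmq
          exact Or.inr ⟨rfl, F.q3 i hi m1⟩
        · left
          refine F.mx i hi m (by omega) m3 hmq ?_ (m4 m m1 (le_refl _)) m5
          rcases hq with hq | hq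
          · omega
          · right
            by_contra hcon
            have g1 := m4 q (by omega) (by omega)
            have g2 := m4 (q + 1) (by omega) (by omega)
            rcases hql with hql | hql
            · omega
            · rw [g1, g2] at hql
              exact hql rfl)
      obtain ⟨f1, f2, f3, f4⟩ := hf
      have nl : ∀ x, i < x → x ≤ i + 2 → c x = c (x + 1) := by
        intro x x1 x2
        obtain rfl | rfl : x = i + 1 ∨ x = i + 2 := by omega
        · have e : i + 1 + 1 = i + 2 := rfl
          rw [e, r5, f2]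
        · have e : i + 2 + 1 = i + 3 := rfl
          rw [e, f2, f3]
      have h5 : i + 3 ≤ p' := by
        rcases hp' with hp' | hp'
        · omega
        · by_contra hcon
          exact hp' (nl p' h2 (by omega))
      rcases f4 with f4 | f4
      · left
        refine ⟨?_, r5, f2, f3, f4⟩
        rcases hp' with hp' | hp'
        · omega
        · by_contra hcon
          obtain rfl : p' = i + 3 := by omega
          have e : i + 3 + 1 = i + 4 := rfl
          rw [e, f3, f4] at hp'
          exact hp' rfl
      · right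
        have h6 : p' = i + 3 := by omega
        have h7 : p' = q := by omega
        exact ⟨by rw [if_pos h7], by omega, r5, f2, f3⟩

end Pool.Agent.Lob34
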