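import Pool.Agent.Lob34.Out
import Pool.Agent.Lob34.TabM

/-! Assembly for the mode M. -/

namespace Pool.Agent.Lob34

theorem mode_M (c al : ℕ → Bool) {k q : ℕ} (hk : k % 2 = 1) (hq1 : 0 < q) (hqk : q < k)
    (hq : OF c q) (hal : al q = true)
    (hD : S c k < 0) (fD : S c q + 1 < S c k)
    (hle : ∀ i, Ld c k i → (c i = true ∨ al i = true) → S c q + 1 ≤ Fv c i)
    (hlt : ∀ i, Ld c k i → i < q → c i = true → al i = false → S c q + 1 < Fv c i) :
    SeamOut c al k q 0 1 2 2 := by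
  have high : ∀ z, Ld c k z → z ≠ q → (c z = true ∨ al z = true) →
      ((k / 2 + 1 : ℕ) : ℤ) ≤ J c k q z := by
    intro z lz hzq hz
    rcases kinds c lz.2.2 with kz | kz <;> rcases lt_or_gt_of_ne hzq with h | h
    · exact AM_zq_b c hk lz.1 h hqk kz hq hD fD (hle z lz hz)
    · exact AM_qz_b c hk hq1 h lz.2.1 kz hq hD fD (hle z lz hz)
    · exact AM_zq_g c hk lz.1 h hqk kz hq hD fD (hle z lz hz)
    · exact AM_qz_g c hk hq1 h lz.2.1 kz hq hD fD (hle z lz hz)
  have F : ∀ z, LowF c k q (LowP c al k q z) := fun z =>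
    lowF_of c al (F := S c q + 1) hk (by omega) fD hD high (fun i li hi => by
      have := hle i li (Or.inl hi)
      simpa [Fv, hi] using this) (fun h2 i li h hi => by
      have := hq.1
      omega)
  refine ⟨high, ?_, ?_, ?_, ?_, ?_, ?_, ?_⟩
  · intro a z la ha haq lz hz ka kz
    have la1 := la.1
    have lz1 := lz.1
    have haz : a ≠ z := by rintro rfl; rw [ha] at hz; cases hz
    have hzq : z ≠ q := by rintro rfl; rw [hal] at hz; cases hz
    rcases lt_or_gt_of_ne haq with h1 | h1 <;> rcases lt_or_gt_of_ne hzq with h2 | h2 <;>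
      rcases lt_or_gt_of_ne haz with h3 | h3
    · exact TM_azq_bb c hk la.1 (by omega) (by omega) hqk ka kz hq hD fD (hle a la (Or.inr ha)) (fun h => hlt z lz (by omega) h hz)
    · exact TM_zaq_bb c hk lz.1 (by omega) (by omega) hqk ka kz hq hD fD (hle a la (Or.inr ha)) (fun h => hlt z lz (by omega) h hz)
    · exact TM_aqz_bb c hk la.1 (by omega) (by omega) lz.2.1 ka kz hq hD fD (hle a la (Or.inr ha)) (fun h => hle z lz (Or.inl h))
    · omega
    · omega
    · exact TM_zqa_bb c hk lz.1 (by omega) (by omega) la.2.1 ka kz hq hD fD (hle a la (Or.inr ha)) (fun h => hlt z lz (by omega) h hz)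
    · exact TM_qaz_bb c hk hq1 (by omega) (by omega) lz.2.1 ka kz hq hD fD (hle a la (Or.inr ha)) (fun h => hle z lz (Or.inl h))
    · exact TM_qza_bb c hk hq1 (by omega) (by omega) la.2.1 ka kz hq hD fD (hle a la (Or.inr ha)) (fun h => hle z lz (Or.inl h))
  · intro a z la ha haq lz hz ka kz
    have la1 := la.1
    have lz1 := lz.1
    have haz : a ≠ z := by rintro rfl; rw [ha] at hz; cases hz
    have hzq : z ≠ q := by rintro rfl; rw [hal] at hz; cases hz
    rcases lt_or_gt_of_ne haq with h1 | h1 <;> rcases lt_or_gt_of_ne hzq with h2 | h2 <;>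
      rcases lt_or_gt_of_ne haz with h3 | h3
    · exact TM_azq_bg c hk la.1 (by omega) (by omega) hqk ka kz hq hD fD (hle a la (Or.inr ha)) (fun h => hlt z lz (by omega) h hz)
    · exact TM_zaq_bg c hk lz.1 (by omega) (by omega) hqk ka kz hq hD fD (hle a la (Or.inr ha)) (fun h => hlt z lz (by omega) h hz)
    · exact TM_aqz_bg c hk la.1 (by omega) (by omega) lz.2.1 ka kz hq hD fD (hle a la (Or.inr ha)) (fun h => hle z lz (Or.inl h))
    · omega
    · omega
    · exact TM_zqa_bg c hk lz.1 (by omega) (by omega) la.2.1 ka kz hq hD fD (hle a la (Or.inr ha)) (fun h => hlt z lz (by omega) h hz)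
    · exact TM_qaz_bg c hk hq1 (by omega) (by omega) lz.2.1 ka kz hq hD fD (hle a la (Or.inr ha)) (fun h => hle z lz (Or.inl h))
    · exact TM_qza_bg c hk hq1 (by omega) (by omega) la.2.1 ka kz hq hD fD (hle a la (Or.inr ha)) (fun h => hle z lz (Or.inl h))
  · intro a z la ha haq lz hz ka kz
    have la1 := la.1
    have lz1 := lz.1
    have haz : a ≠ z := by rintro rfl; rw [ha] at hz; cases hz
    have hzq : z ≠ q := by rintro rfl; rw [hal] at hz; cases hz
    rcases lt_or_gt_of_ne haq with h1 | h1 <;> rcases lt_or_gt_of_ne hzq with h2 | h2 <;>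
      rcases lt_or_gt_of_ne haz with h3 | h3
    · obtain ⟨n0, n1, n2, n3, hs, ⟨n0z, n0a, n0b, n0c⟩, ⟨n1z, n1a, n1b, n1c⟩, ⟨n2z, n2a, n2b, n2c⟩, ⟨n3z, n3a, n3b⟩⟩ := regs4 c (q := q) (LowP c al k q z) (F z)
        la.1 (by omega) (by omega) hqk la.2.2 lz.2.2 (show c q ≠ c (q + 1) by rw [hq.2.1, hq.2.2]; decide)
        (fun h => by have := h.1.1; omega) (fun h => by have := h.2.1; rw [ha] at this; cases this) (fun h => h.2.2.2.1 rfl) (fun h => h.2.2.1 rfl) (by omega)
      have := TM_azq_gb c hk la.1 (by omega) (by omega) hqk ka kz hq hD fD (hle a la (Or.inr ha)) (fun h => hlt z lz (by omega) h hz) n0z n0a (n0c (by omega)) n1z n1a (n1c (by omega)) n2z n2a n2b n3z n3a n3b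
      rw [lowc_eq]
      omega
    · obtain ⟨n0, n1, n2, n3, hs, ⟨n0z, n0a, n0b, n0c⟩, ⟨n1z, n1a, n1b, n1c⟩, ⟨n2z, n2a, n2b, n2c⟩, ⟨n3z, n3a, n3b⟩⟩ := regs4 c (q := q) (LowP c al k q z) (F z)
        lz.1 (by omega) (by omega) hqk lz.2.2 la.2.2 (show c q ≠ c (q + 1) by rw [hq.2.1, hq.2.2]; decide)
        (fun h => by have := h.1.1; omega) (fun h => h.2.2.2.1 rfl) (fun h => by have := h.2.1; rw [ha] at this; cases this) (fun h => h.2.2.1 rfl) (by omega)
      have := TM_zaq_gb c hk lz.1 (by omega) (by omega) hqk ka kz hq hD fD (hle a la (Or.inr ha)) (fun h => hlt z lz (by omega) h hz) n0z n0a (n0c (by omega)) n1z n1a (n1c (by omega)) n2z n2a n2b n3z n3a n3b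
      rw [lowc_eq]
      omega
    · obtain ⟨n0, n1, n2, n3, hs, ⟨n0z, n0a, n0b, n0c⟩, ⟨n1z, n1a, n1b, n1c⟩, ⟨n2z, n2a, n2b, n2c⟩, ⟨n3z, n3a, n3b⟩⟩ := regs4 c (q := q) (LowP c al k q z) (F z)
        la.1 (by omega) (by omega) lz.2.1 la.2.2 (show c q ≠ c (q + 1) by rw [hq.2.1, hq.2.2]; decide) lz.2.2
        (fun h => by have := h.1.1; omega) (fun h => by have := h.2.1; rw [ha] at this; cases this) (fun h => h.2.2.1 rfl) (fun h => h.2.2.2.1 rfl) (by omega)
      have := TM_aqz_gb c hk la.1 (by omega) (by omega) lz.2.1 ka kz hq hD fD (hle a la (Or.inr ha)) (fun h => hle z lz (Or.inl h)) n0z n0a (n0c (by omega)) n1z n1a n1b n2z n2a (n2c (by omega)) n3z n3a n3b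
      rw [lowc_eq]
      omega
    · omega
    · omega
    · obtain ⟨n0, n1, n2, n3, hs, ⟨n0z, n0a, n0b, n0c⟩, ⟨n1z, n1a, n1b, n1c⟩, ⟨n2z, n2a, n2b, n2c⟩, ⟨n3z, n3a, n3b⟩⟩ := regs4 c (q := q) (LowP c al k q z) (F z)
        lz.1 (by omega) (by omega) la.2.1 lz.2.2 (show c q ≠ c (q + 1) by rw [hq.2.1, hq.2.2]; decide) la.2.2
        (fun h => by have := h.1.1; omega) (fun h => h.2.2.2.1 rfl) (fun h => h.2.2.1 rfl) (fun h => by have := h.2.1; rw [ha] at this; cases this) (by omega)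
      have := TM_zqa_gb c hk lz.1 (by omega) (by omega) la.2.1 ka kz hq hD fD (hle a la (Or.inr ha)) (fun h => hlt z lz (by omega) h hz) n0z n0a (n0c (by omega)) n1z n1a n1b n2z n2a (n2c (by omega)) n3z n3a n3b
      rw [lowc_eq]
      omega
    · obtain ⟨n0, n1, n2, n3, hs, ⟨n0z, n0a, n0b, n0c⟩, ⟨n1z, n1a, n1b, n1c⟩, ⟨n2z, n2a, n2b, n2c⟩, ⟨n3z, n3a, n3b⟩⟩ := regs4 c (q := q) (LowP c al k q z) (F z)
        hq1 (by omega) (by omega) lz.2.1 (show c q ≠ c (q + 1) by rw [hq.2.1, hq.2.2]; decide) la.2.2 lz.2.2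
        (fun h => by have := h.1.1; omega) (fun h => h.2.2.1 rfl) (fun h => by have := h.2.1; rw [ha] at this; cases this) (fun h => h.2.2.2.1 rfl) (by omega)
      have := TM_qaz_gb c hk hq1 (by omega) (by omega) lz.2.1 ka kz hq hD fD (hle a la (Or.inr ha)) (fun h => hle z lz (Or.inl h)) n0z n0a n0b n1z n1a (n1c (by omega)) n2z n2a (n2c (by omega)) n3z n3a n3b
      rw [lowc_eq]
      omega
    · obtain ⟨n0, n1, n2, n3, hs, ⟨n0z, n0a, n0b, n0c⟩, ⟨n1z, n1a, n1b, n1c⟩, ⟨n2z, n2a, n2b, n2c⟩, ⟨n3z, n3a, n3b⟩⟩ := regs4 c (q := q) (LowP c al k q z) (F z)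
        hq1 (by omega) (by omega) la.2.1 (show c q ≠ c (q + 1) by rw [hq.2.1, hq.2.2]; decide) lz.2.2 la.2.2
        (fun h => by have := h.1.1; omega) (fun h => h.2.2.1 rfl) (fun h => h.2.2.2.1 rfl) (fun h => by have := h.2.1; rw [ha] at this; cases this) (by omega)
      have := TM_qza_gb c hk hq1 (by omega) (by omega) la.2.1 ka kz hq hD fD (hle a la (Or.inr ha)) (fun h => hle z lz (Or.inl h)) n0z n0a n0b n1z n1a (n1c (by omega)) n2z n2a (n2c (by omega)) n3z n3a n3b
      rw [lowc_eq]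
      omega
  · intro a z la ha haq lz hz ka kz
    have la1 := la.1
    have lz1 := lz.1
    have haz : a ≠ z := by rintro rfl; rw [ha] at hz; cases hz
    have hzq : z ≠ q := by rintro rfl; rw [hal] at hz; cases hz
    rcases lt_or_gt_of_ne haq with h1 | h1 <;> rcases lt_or_gt_of_ne hzq with h2 | h2 <;>
      rcases lt_or_gt_of_ne haz with h3 | h3
    · exact TM_azq_gg c hk la.1 (by omega) (by omega) hqk ka kz hq hD fD (hle a la (Or.inr ha)) (fun h => hlt z lz (by omega) h hz)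
    · exact TM_zaq_gg c hk lz.1 (by omega) (by omega) hqk ka kz hq hD fD (hle a la (Or.inr ha)) (fun h => hlt z lz (by omega) h hz)
    · exact TM_aqz_gg c hk la.1 (by omega) (by omega) lz.2.1 ka kz hq hD fD (hle a la (Or.inr ha)) (fun h => hle z lz (Or.inl h))
    · omega
    · omega
    · exact TM_zqa_gg c hk lz.1 (by omega) (by omega) la.2.1 ka kz hq hD fD (hle a la (Or.inr ha)) (fun h => hlt z lz (by omega) h hz)
    · exact TM_qaz_gg c hk hq1 (by omega) (by omega) lz.2.1 ka kz hq hD fD (hle a la (Or.inr ha)) (fun h => hle z lz (Or.inl h))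
    · exact TM_qza_gg c hk hq1 (by omega) (by omega) la.2.1 ka kz hq hD fD (hle a la (Or.inr ha)) (fun h => hle z lz (Or.inl h))
  · intro a z la ha haq lz hz ka
    have la1 := la.1
    have lz1 := lz.1
    have haz : a ≠ z := by rintro rfl; rw [ha] at hz; cases hz
    have hzq : z ≠ q := by rintro rfl; rw [hal] at hz; cases hz
    rcases kinds c lz.2.2 with kz | kz
    · skip
      rcases lt_or_gt_of_ne haq with h1 | h1 <;> rcases lt_or_gt_of_ne hzq with h2 | h2 <;>
        rcases lt_or_gt_of_ne haz with h3 | h3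
      · exact HM_azq_bb c hk la.1 (by omega) (by omega) hqk ka kz hq hD fD (hle a la (Or.inr ha)) (fun h => hlt z lz (by omega) h hz)
      · exact HM_zaq_bb c hk lz.1 (by omega) (by omega) hqk ka kz hq hD fD (hle a la (Or.inr ha)) (fun h => hlt z lz (by omega) h hz)
      · exact HM_aqz_bb c hk la.1 (by omega) (by omega) lz.2.1 ka kz hq hD fD (hle a la (Or.inr ha)) (fun h => hle z lz (Or.inl h))
      · omega
      · omega
      · exact HM_zqa_bb c hk lz.1 (by omega) (by omega) la.2.1 ka kz hq hD fD (hle a la (Or.inr ha)) (fun h => hlt z lz (by omega) h hz)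
      · exact HM_qaz_bb c hk hq1 (by omega) (by omega) lz.2.1 ka kz hq hD fD (hle a la (Or.inr ha)) (fun h => hle z lz (Or.inl h))
      · exact HM_qza_bb c hk hq1 (by omega) (by omega) la.2.1 ka kz hq hD fD (hle a la (Or.inr ha)) (fun h => hle z lz (Or.inl h))
    · skip
      rcases lt_or_gt_of_ne haq with h1 | h1 <;> rcases lt_or_gt_of_ne hzq with h2 | h2 <;>
        rcases lt_or_gt_of_ne haz with h3 | h3
      · exact HM_azq_bg c hk la.1 (by omega) (by omega) hqk ka kz hq hD fD (hle a la (Or.inr ha)) (fun h => hlt z lz (by omega) h hz)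
      · exact HM_zaq_bg c hk lz.1 (by omega) (by omega) hqk ka kz hq hD fD (hle a la (Or.inr ha)) (fun h => hlt z lz (by omega) h hz)
      · exact HM_aqz_bg c hk la.1 (by omega) (by omega) lz.2.1 ka kz hq hD fD (hle a la (Or.inr ha)) (fun h => hle z lz (Or.inl h))
      · omega
      · omega
      · exact HM_zqa_bg c hk lz.1 (by omega) (by omega) la.2.1 ka kz hq hD fD (hle a la (Or.inr ha)) (fun h => hlt z lz (by omega) h hz)
      · exact HM_qaz_bg c hk hq1 (by omega) (by omega) lz.2.1 ka kz hq hD fD (hle a la (Or.inr ha)) (fun h => hle z lz (Or.inl h))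
      · exact HM_qza_bg c hk hq1 (by omega) (by omega) la.2.1 ka kz hq hD fD (hle a la (Or.inr ha)) (fun h => hle z lz (Or.inl h))
  · intro z lz hzq kz
    rcases lt_or_gt_of_ne hzq with h | h
    · exact PM_zq_b c hk lz.1 h hqk kz hq hD fD (fun h5 => hle z lz (Or.inl h5))
    · exact PM_qz_b c hk hq1 h lz.2.1 kz hq hD fD (fun h5 => hle z lz (Or.inl h5))
  · intro z lz hzq kz
    rcases lt_or_gt_of_ne hzq with h | h
    · exact PM_zq_g c hk lz.1 h hqk kz hq hD fD (fun h5 => hle z lz (Or.inl h5))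
    · exact PM_qz_g c hk hq1 h lz.2.1 kz hq hD fD (fun h5 => hle z lz (Or.inl h5))

end Pool.Agent.Lob34
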