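import Pool.Agent.Lob34.Facts

/-! Inequalities for the seam, mode N (all cases are linear). -/

namespace Pool.Agent.Lob34

theorem TN_qaz_bb (c : ℕ → Bool) {k q a z : ℕ} (hk : k % 2 = 1)
    (hf : 0 < q) (h0 : q < a) (h1 : a < z) (hl : z < k)
    (ka : KB c a) (kz : KB c z) (hq : ET c q)
    (hD : S c k < 0) (fD : S c q < S c k) (fa : S c q ≤ Fv c a)
    (fz : c z = true → S c q ≤ Fv c z) :
    J c k q a - J c k q z + 0 ≤ Be c k + 1 := by
  rcases ka with ha | ha <;> rcases kz with hz | hz
  · clear fa fz
    have sa := st_ET c (by omega) ha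
    have sz := st_ET c (by omega) hz
    have sq := st_ET c (by omega) hq
    have ja := (JET c (k := k) (q := q) (by omega) ha).1 (by omega)
    have jz := (JET c (k := k) (q := q) (by omega) hz).1 (by omega)
    rw [ja, jz]
    clear ja jz
    have pa := ha.1
    have pz := hz.1
    have pq := hq.1
    have b0 := zeroB c
    have e0 := bo2 c (show 0 ≤ q by omega)
    have e1 := be1 c (show q + 1 ≤ a by omega)
    have e2 := bo2 c (show a + 1 ≤ z by omega)
    have e3 := be1 c (show z + 1 ≤ k by omega)
    simp only [S] at hD fD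
    omega
  · clear hD fD fa fz
    have sa := st_ET c (by omega) ha
    have sz := st_OF c (by omega) hz
    have sq := st_ET c (by omega) hq
    have ja := (JET c (k := k) (q := q) (by omega) ha).1 (by omega)
    have jz := (JOF c (k := k) (q := q) (by omega) hz).1 (by omega)
    rw [ja, jz]
    clear ja jz
    have pa := ha.1
    have pz := hz.1
    have pq := hq.1
    have b0 := zeroB c
    have e0 := be1 c (show 0 ≤ q by omega)
    have e1 := be1 c (show q + 1 ≤ a by omega)
    have e2 := bo2 c (show a + 1 ≤ z by omega)
    have e3 := be1 c (show z + 1 ≤ k by omega)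
    omega
  · clear fa fz
    have sa := st_OF c (by omega) ha
    have sz := st_ET c (by omega) hz
    have sq := st_ET c (by omega) hq
    have ja := (JOF c (k := k) (q := q) (by omega) ha).1 (by omega)
    have jz := (JET c (k := k) (q := q) (by omega) hz).1 (by omega)
    rw [ja, jz]
    clear ja jz
    have pa := ha.1
    have pz := hz.1
    have pq := hq.1
    have b0 := zeroB c
    have e0 := bo2 c (show 0 ≤ q by omega)
    have e1 := be1 c (show q + 1 ≤ a by omega)
    have e2 := bo2 c (show a + 1 ≤ z by omega)
    have e3 := be1 c (show z + 1 ≤ k by omega)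
    simp only [S] at hD fD
    omega
  · clear fa fz
    have sa := st_OF c (by omega) ha
    have sz := st_OF c (by omega) hz
    have sq := st_ET c (by omega) hq
    have ja := (JOF c (k := k) (q := q) (by omega) ha).1 (by omega)
    have jz := (JOF c (k := k) (q := q) (by omega) hz).1 (by omega)
    rw [ja, jz]
    clear ja jz
    have pa := ha.1
    have pz := hz.1
    have pq := hq.1
    have b0 := zeroB c
    have e0 := bo2 c (show 0 ≤ q by omega)
    have e1 := be1 c (show q + 1 ≤ a by omega)
    have e2 := bo2 c (show a + 1 ≤ z by omega)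
    have e3 := be1 c (show z + 1 ≤ k by omega)
    simp only [S] at hD fD
    omega

theorem TN_qaz_bg (c : ℕ → Bool) {k q a z : ℕ} (hk : k % 2 = 1)
    (hf : 0 < q) (h0 : q < a) (h1 : a < z) (hl : z < k)
    (ka : KB c a) (kz : KG c z) (hq : ET c q)
    (hD : S c k < 0) (fD : S c q < S c k) (fa : S c q ≤ Fv c a)
    (fz : c z = true → S c q ≤ Fv c z) :
    J c k q a - J c k q z + 2 ≤ Be c k + 1 := by
  rcases ka with ha | ha <;> rcases kz with hz | hz
  · clear fa fz
    have sa := st_ET c (by omega) ha
    have sz := st_OT c (by omega) hz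
    have sq := st_ET c (by omega) hq
    have ja := (JET c (k := k) (q := q) (by omega) ha).1 (by omega)
    have jz := (JOT c (k := k) (q := q) (by omega) hz).1 (by omega)
    rw [ja, jz]
    clear ja jz
    have pa := ha.1
    have pz := hz.1
    have pq := hq.1
    have b0 := zeroB c
    have e0 := bo2 c (show 0 ≤ q by omega)
    have e1 := be1 c (show q + 1 ≤ a by omega)
    have e2 := bo2 c (show a ≤ z - 1 by omega)
    have e3 := be1 c (show z + 1 ≤ k by omega)
    simp only [S] at hD fD
    omega
  · clear fa fz
    have sa := st_ET c (by omega) ha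
    have sz := st_EF c (by omega) hz
    have sq := st_ET c (by omega) hq
    have ja := (JET c (k := k) (q := q) (by omega) ha).1 (by omega)
    have jz := (JEF c (k := k) (q := q) (by omega) hz).1 (by omega)
    rw [ja, jz]
    clear ja jz
    have pa := ha.1
    have pz := hz.1
    have pq := hq.1
    have b0 := zeroB c
    have e0 := bo2 c (show 0 ≤ q by omega)
    have e1 := be1 c (show q + 1 ≤ a by omega)
    have e2 := bo2 c (show a + 1 ≤ z by omega)
    have e3 := be1 c (show z + 1 ≤ k by omega)
    simp only [S] at hD fD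
    omega
  · clear fa fz
    have sa := st_OF c (by omega) ha
    have sz := st_OT c (by omega) hz
    have sq := st_ET c (by omega) hq
    have ja := (JOF c (k := k) (q := q) (by omega) ha).1 (by omega)
    have jz := (JOT c (k := k) (q := q) (by omega) hz).1 (by omega)
    rw [ja, jz]
    clear ja jz
    have pa := ha.1
    have pz := hz.1
    have pq := hq.1
    have b0 := zeroB c
    have e0 := bo2 c (show 0 ≤ q by omega)
    have e1 := be1 c (show q + 1 ≤ a by omega)
    have e2 := bo2 c (show a ≤ z - 1 by omega)
    have e3 := be1 c (show z + 1 ≤ k by omega)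
    simp only [S] at hD fD
    omega
  · clear fa fz
    have sa := st_OF c (by omega) ha
    have sz := st_EF c (by omega) hz
    have sq := st_ET c (by omega) hq
    have ja := (JOF c (k := k) (q := q) (by omega) ha).1 (by omega)
    have jz := (JEF c (k := k) (q := q) (by omega) hz).1 (by omega)
    rw [ja, jz]
    clear ja jz
    have pa := ha.1
    have pz := hz.1
    have pq := hq.1
    have b0 := zeroB c
    have e0 := bo2 c (show 0 ≤ q by omega)
    have e1 := be1 c (show q + 1 ≤ a by omega)
    have e2 := bo2 c (show a + 1 ≤ z by omega)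
    have e3 := be1 c (show z + 1 ≤ k by omega)
    simp only [S] at hD fD
    omega

theorem TN_qaz_gb (c : ℕ → Bool) {k q a z : ℕ} {n0 n1 n2 n3 : ℤ} (hk : k % 2 = 1)
    (hf : 0 < q) (h0 : q < a) (h1 : a < z) (hl : z < k)
    (ka : KG c a) (kz : KB c z) (hq : ET c q)
    (hD : S c k < 0) (fD : S c q < S c k) (fa : S c q ≤ Fv c a)
    (fz : c z = true → S c q ≤ Fv c z)
    (n0z : 0 ≤ n0) (n0a : 2 * n0 ≤ Be c (q - 1) - Be c 0) (n0b : 2 * n0 - 1 ≤ Go c q - Go c 0)
    (n1z : 0 ≤ n1) (n1a : 2 * n1 ≤ Be c (a - 1) - Be c q) (n1b : 2 * n1 ≤ Go c a - Go c (q + 1))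
    (n2z : 0 ≤ n2) (n2a : 2 * n2 ≤ Be c (z - 1) - Be c a) (n2b : 2 * n2 ≤ Go c z - Go c (a + 1))
    (n3z : 0 ≤ n3) (n3a : 2 * n3 ≤ Be c k - Be c z) (n3b : 2 * n3 ≤ Go c k - Go c (z + 1)) :
    J c k q a - J c k q z + (n0 + n1 + n2 + n3) + 1 ≤ Be c k + 1 := by
  rcases ka with ha | ha <;> rcases kz with hz | hz
  · clear fa fz n0a n1z n1b n2z n2a n3z n3b
    have sa := st_OT c (by omega) ha
    have sz := st_ET c (by omega) hz
    have sq := st_ET c (by omega) hq
    have ja := (JOT c (k := k) (q := q) (by omega) ha).1 (by omega)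
    have jz := (JET c (k := k) (q := q) (by omega) hz).1 (by omega)
    rw [ja, jz]
    clear ja jz
    have n0c : n0 ≤ Go c q - Go c 0 := by
      have := go0 c (show 0 ≤ q by omega)
      omega
    clear n0z n0b
    have pa := ha.1
    have pz := hz.1
    have pq := hq.1
    have b0 := zeroB c
    have e0 := be1 c (show q + 1 ≤ a by omega)
    have e1 := bo2 c (show a + 1 ≤ z by omega)
    have e2 := be1 c (show z + 1 ≤ k by omega)
    simp only [S, Go] at hD fD n0c n2b
    omega
  · clear fa fz n0a n1z n1b n2z n2a n3z n3b
    have sa := st_OT c (by omega) ha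
    have sz := st_OF c (by omega) hz
    have sq := st_ET c (by omega) hq
    have ja := (JOT c (k := k) (q := q) (by omega) ha).1 (by omega)
    have jz := (JOF c (k := k) (q := q) (by omega) hz).1 (by omega)
    rw [ja, jz]
    clear ja jz
    have n0c : n0 ≤ Go c q - Go c 0 := by
      have := go0 c (show 0 ≤ q by omega)
      omega
    clear n0z n0b
    have pa := ha.1
    have pz := hz.1
    have pq := hq.1
    have b0 := zeroB c
    have e0 := be1 c (show q + 1 ≤ a by omega)
    have e1 := bo2 c (show a + 1 ≤ z by omega)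
    have e2 := be1 c (show z + 1 ≤ k by omega)
    simp only [S, Go] at hD fD n0c n2b
    omega
  · clear fa fz n0a n1z n1b n2z n2a n3z n3b
    have sa := st_EF c (by omega) ha
    have sz := st_ET c (by omega) hz
    have sq := st_ET c (by omega) hq
    have ja := (JEF c (k := k) (q := q) (by omega) ha).1 (by omega)
    have jz := (JET c (k := k) (q := q) (by omega) hz).1 (by omega)
    rw [ja, jz]
    clear ja jz
    have n0c : n0 ≤ Go c q - Go c 0 := by
      have := go0 c (show 0 ≤ q by omega)
      omega
    clear n0z n0b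
    have pa := ha.1
    have pz := hz.1
    have pq := hq.1
    have b0 := zeroB c
    have e0 := be1 c (show q ≤ a - 1 by omega)
    have e1 := bo2 c (show a + 1 ≤ z by omega)
    have e2 := be1 c (show z + 1 ≤ k by omega)
    simp only [S, Go] at hD fD n0c n2b
    omega
  · clear fa fz n0a n1z n1b n2z n2a n3z n3b
    have sa := st_EF c (by omega) ha
    have sz := st_OF c (by omega) hz
    have sq := st_ET c (by omega) hq
    have ja := (JEF c (k := k) (q := q) (by omega) ha).1 (by omega)
    have jz := (JOF c (k := k) (q := q) (by omega) hz).1 (by omega)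
    rw [ja, jz]
    clear ja jz
    have n0c : n0 ≤ Go c q - Go c 0 := by
      have := go0 c (show 0 ≤ q by omega)
      omega
    clear n0z n0b
    have pa := ha.1
    have pz := hz.1
    have pq := hq.1
    have b0 := zeroB c
    have e0 := be1 c (show q ≤ a - 1 by omega)
    have e1 := bo2 c (show a + 1 ≤ z by omega)
    have e2 := be1 c (show z + 1 ≤ k by omega)
    simp only [S, Go] at hD fD n0c n2b
    omega

theorem TN_qaz_gg (c : ℕ → Bool) {k q a z : ℕ} (hk : k % 2 = 1)
    (hf : 0 < q) (h0 : q < a) (h1 : a < z) (hl : z < k)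
    (ka : KG c a) (kz : KG c z) (hq : ET c q)
    (hD : S c k < 0) (fD : S c q < S c k) (fa : S c q ≤ Fv c a)
    (fz : c z = true → S c q ≤ Fv c z) :
    J c k q a - J c k q z + 2 ≤ Be c k + 1 := by
  rcases ka with ha | ha <;> rcases kz with hz | hz
  · clear fa fz
    have sa := st_OT c (by omega) ha
    have sz := st_OT c (by omega) hz
    have sq := st_ET c (by omega) hq
    have ja := (JOT c (k := k) (q := q) (by omega) ha).1 (by omega)
    have jz := (JOT c (k := k) (q := q) (by omega) hz).1 (by omega)
    rw [ja, jz]
    clear ja jz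
    have pa := ha.1
    have pz := hz.1
    have pq := hq.1
    have b0 := zeroB c
    have e0 := bo2 c (show 0 ≤ q by omega)
    have e1 := be1 c (show q + 1 ≤ a by omega)
    have e2 := bo2 c (show a ≤ z - 1 by omega)
    have e3 := be1 c (show z + 1 ≤ k by omega)
    simp only [S] at hD fD
    omega
  · clear fa fz
    have sa := st_OT c (by omega) ha
    have sz := st_EF c (by omega) hz
    have sq := st_ET c (by omega) hq
    have ja := (JOT c (k := k) (q := q) (by omega) ha).1 (by omega)
    have jz := (JEF c (k := k) (q := q) (by omega) hz).1 (by omega)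
    rw [ja, jz]
    clear ja jz
    have pa := ha.1
    have pz := hz.1
    have pq := hq.1
    have b0 := zeroB c
    have e0 := bo2 c (show 0 ≤ q by omega)
    have e1 := be1 c (show q + 1 ≤ a by omega)
    have e2 := bo2 c (show a + 1 ≤ z by omega)
    have e3 := be1 c (show z + 1 ≤ k by omega)
    simp only [S] at hD fD
    omega
  · clear fa fz
    have sa := st_EF c (by omega) ha
    have sz := st_OT c (by omega) hz
    have sq := st_ET c (by omega) hq
    have ja := (JEF c (k := k) (q := q) (by omega) ha).1 (by omega)
    have jz := (JOT c (k := k) (q := q) (by omega) hz).1 (by omega)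
    rw [ja, jz]
    clear ja jz
    have pa := ha.1
    have pz := hz.1
    have pq := hq.1
    have b0 := zeroB c
    have e0 := bo2 c (show 0 ≤ q by omega)
    have e1 := be1 c (show q ≤ a - 1 by omega)
    have e2 := bo2 c (show a + 1 ≤ z by omega)
    have e3 := be1 c (show z + 1 ≤ k by omega)
    simp only [S] at hD fD
    omega
  · clear fa fz
    have sa := st_EF c (by omega) ha
    have sz := st_EF c (by omega) hz
    have sq := st_ET c (by omega) hq
    have ja := (JEF c (k := k) (q := q) (by omega) ha).1 (by omega)
    have jz := (JEF c (k := k) (q := q) (by omega) hz).1 (by omega)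
    rw [ja, jz]
    clear ja jz
    have pa := ha.1
    have pz := hz.1
    have pq := hq.1
    have b0 := zeroB c
    have e0 := bo2 c (show 0 ≤ q by omega)
    have e1 := be1 c (show q ≤ a - 1 by omega)
    have e2 := bo2 c (show a + 1 ≤ z by omega)
    have e3 := be1 c (show z + 1 ≤ k by omega)
    simp only [S] at hD fD
    omega

theorem HN_qaz_bb (c : ℕ → Bool) {k q a z : ℕ} (hk : k % 2 = 1)
    (hf : 0 < q) (h0 : q < a) (h1 : a < z) (hl : z < k)
    (ka : KB c a) (kz : KB c z) (hq : ET c q)
    (hD : S c k < 0) (fD : S c q < S c k) (fa : S c q ≤ Fv c a)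
    (fz : c z = true → S c q ≤ Fv c z) :
    J c k q a - J c k q z + 1 ≤ Bo c k := by
  rcases ka with ha | ha <;> rcases kz with hz | hz
  · clear fa fz
    have sa := st_ET c (by omega) ha
    have sz := st_ET c (by omega) hz
    have sq := st_ET c (by omega) hq
    have ja := (JET c (k := k) (q := q) (by omega) ha).1 (by omega)
    have jz := (JET c (k := k) (q := q) (by omega) hz).1 (by omega)
    rw [ja, jz]
    clear ja jz
    have pa := ha.1
    have pz := hz.1
    have pq := hq.1
    have b0 := zeroB c
    have e0 := be2 c (show 0 ≤ q - 1 by omega)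
    have e1 := bo1 c (show q + 1 ≤ a by omega)
    have e2 := be2 c (show a ≤ z - 1 by omega)
    have e3 := bo1 c (show z + 1 ≤ k by omega)
    simp only [S] at hD fD
    omega
  · clear fa fz
    have sa := st_ET c (by omega) ha
    have sz := st_OF c (by omega) hz
    have sq := st_ET c (by omega) hq
    have ja := (JET c (k := k) (q := q) (by omega) ha).1 (by omega)
    have jz := (JOF c (k := k) (q := q) (by omega) hz).1 (by omega)
    rw [ja, jz]
    clear ja jz
    have pa := ha.1
    have pz := hz.1
    have pq := hq.1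
    have b0 := zeroB c
    have e0 := be2 c (show 0 ≤ q - 1 by omega)
    have e1 := bo1 c (show q + 1 ≤ a by omega)
    have e2 := be2 c (show a + 1 ≤ z by omega)
    have e3 := bo1 c (show z + 1 ≤ k by omega)
    simp only [S] at hD fD
    omega
  · clear fa fz
    have sa := st_OF c (by omega) ha
    have sz := st_ET c (by omega) hz
    have sq := st_ET c (by omega) hq
    have ja := (JOF c (k := k) (q := q) (by omega) ha).1 (by omega)
    have jz := (JET c (k := k) (q := q) (by omega) hz).1 (by omega)
    rw [ja, jz]
    clear ja jz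
    have pa := ha.1
    have pz := hz.1
    have pq := hq.1
    have b0 := zeroB c
    have e0 := be2 c (show 0 ≤ q - 1 by omega)
    have e1 := bo1 c (show q + 1 ≤ a by omega)
    have e2 := be2 c (show a + 1 ≤ z by omega)
    have e3 := bo1 c (show z + 1 ≤ k by omega)
    simp only [S] at hD fD
    omega
  · clear fa fz
    have sa := st_OF c (by omega) ha
    have sz := st_OF c (by omega) hz
    have sq := st_ET c (by omega) hq
    have ja := (JOF c (k := k) (q := q) (by omega) ha).1 (by omega)
    have jz := (JOF c (k := k) (q := q) (by omega) hz).1 (by omega)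
    rw [ja, jz]
    clear ja jz
    have pa := ha.1
    have pz := hz.1
    have pq := hq.1
    have b0 := zeroB c
    have e0 := be2 c (show 0 ≤ q - 1 by omega)
    have e1 := bo1 c (show q + 1 ≤ a by omega)
    have e2 := be2 c (show a + 1 ≤ z by omega)
    have e3 := bo1 c (show z + 1 ≤ k by omega)
    simp only [S] at hD fD
    omega

theorem HN_qaz_bg (c : ℕ → Bool) {k q a z : ℕ} (hk : k % 2 = 1)
    (hf : 0 < q) (h0 : q < a) (h1 : a < z) (hl : z < k)
    (ka : KB c a) (kz : KG c z) (hq : ET c q)
    (hD : S c k < 0) (fD : S c q < S c k) (fa : S c q ≤ Fv c a)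
    (fz : c z = true → S c q ≤ Fv c z) :
    J c k q a - J c k q z + 1 ≤ Bo c k := by
  rcases ka with ha | ha <;> rcases kz with hz | hz
  · clear fa fz
    have sa := st_ET c (by omega) ha
    have sz := st_OT c (by omega) hz
    have sq := st_ET c (by omega) hq
    have ja := (JET c (k := k) (q := q) (by omega) ha).1 (by omega)
    have jz := (JOT c (k := k) (q := q) (by omega) hz).1 (by omega)
    rw [ja, jz]
    clear ja jz
    have pa := ha.1
    have pz := hz.1
    have pq := hq.1
    have b0 := zeroB c
    have e0 := be2 c (show 0 ≤ q - 1 by omega)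
    have e1 := bo1 c (show q + 1 ≤ a by omega)
    have e2 := be2 c (show a + 1 ≤ z by omega)
    have e3 := bo1 c (show z + 1 ≤ k by omega)
    simp only [S] at hD fD
    omega
  · clear fa fz
    have sa := st_ET c (by omega) ha
    have sz := st_EF c (by omega) hz
    have sq := st_ET c (by omega) hq
    have ja := (JET c (k := k) (q := q) (by omega) ha).1 (by omega)
    have jz := (JEF c (k := k) (q := q) (by omega) hz).1 (by omega)
    rw [ja, jz]
    clear ja jz
    have pa := ha.1
    have pz := hz.1
    have pq := hq.1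
    have b0 := zeroB c
    have e0 := be2 c (show 0 ≤ q - 1 by omega)
    have e1 := bo1 c (show q + 1 ≤ a by omega)
    have e2 := be2 c (show a + 1 ≤ z by omega)
    have e3 := bo1 c (show z + 1 ≤ k by omega)
    simp only [S] at hD fD
    omega
  · clear fa fz
    have sa := st_OF c (by omega) ha
    have sz := st_OT c (by omega) hz
    have sq := st_ET c (by omega) hq
    have ja := (JOF c (k := k) (q := q) (by omega) ha).1 (by omega)
    have jz := (JOT c (k := k) (q := q) (by omega) hz).1 (by omega)
    rw [ja, jz]
    clear ja jz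
    have pa := ha.1
    have pz := hz.1
    have pq := hq.1
    have b0 := zeroB c
    have e0 := be2 c (show 0 ≤ q - 1 by omega)
    have e1 := bo1 c (show q + 1 ≤ a by omega)
    have e2 := be2 c (show a + 1 ≤ z by omega)
    have e3 := bo1 c (show z + 1 ≤ k by omega)
    simp only [S] at hD fD
    omega
  · clear fa fz
    have sa := st_OF c (by omega) ha
    have sz := st_EF c (by omega) hz
    have sq := st_ET c (by omega) hq
    have ja := (JOF c (k := k) (q := q) (by omega) ha).1 (by omega)
    have jz := (JEF c (k := k) (q := q) (by omega) hz).1 (by omega)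
    rw [ja, jz]
    clear ja jz
    have pa := ha.1
    have pz := hz.1
    have pq := hq.1
    have b0 := zeroB c
    have e0 := be2 c (show 0 ≤ q - 1 by omega)
    have e1 := bo1 c (show q + 1 ≤ a by omega)
    have e2 := be2 c (show a + 1 ≤ z by omega)
    have e3 := bo1 c (show z + 1 ≤ k by omega)
    simp only [S] at hD fD
    omega

theorem TN_qza_bb (c : ℕ → Bool) {k q a z : ℕ} (hk : k % 2 = 1)
    (hf : 0 < q) (h0 : q < z) (h1 : z < a) (hl : a < k)
    (ka : KB c a) (kz : KB c z) (hq : ET c q)
    (hD : S c k < 0) (fD : S c q < S c k) (fa : S c q ≤ Fv c a)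
    (fz : c z = true → S c q ≤ Fv c z) :
    J c k q a - J c k q z + 0 ≤ Be c k + 1 := by
  rcases ka with ha | ha <;> rcases kz with hz | hz
  · clear fD fa fz
    have sa := st_ET c (by omega) ha
    have sz := st_ET c (by omega) hz
    have sq := st_ET c (by omega) hq
    have ja := (JET c (k := k) (q := q) (by omega) ha).1 (by omega)
    have jz := (JET c (k := k) (q := q) (by omega) hz).1 (by omega)
    rw [ja, jz]
    clear ja jz
    have pa := ha.1
    have pz := hz.1
    have pq := hq.1
    have b0 := zeroB c
    have e0 := bo2 c (show 0 ≤ q by omega)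
    have e1 := bo2 c (show q + 1 ≤ z by omega)
    have e2 := be1 c (show z + 1 ≤ a by omega)
    have e3 := bo2 c (show a + 1 ≤ k by omega)
    simp only [S] at hD
    omega
  · clear fD fa fz
    have sa := st_ET c (by omega) ha
    have sz := st_OF c (by omega) hz
    have sq := st_ET c (by omega) hq
    have ja := (JET c (k := k) (q := q) (by omega) ha).1 (by omega)
    have jz := (JOF c (k := k) (q := q) (by omega) hz).1 (by omega)
    rw [ja, jz]
    clear ja jz
    have pa := ha.1
    have pz := hz.1
    have pq := hq.1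
    have b0 := zeroB c
    have e0 := bo2 c (show 0 ≤ q by omega)
    have e1 := bo2 c (show q + 1 ≤ z by omega)
    have e2 := be1 c (show z + 1 ≤ a by omega)
    have e3 := bo2 c (show a + 1 ≤ k by omega)
    simp only [S] at hD
    omega
  · clear fD fa fz
    have sa := st_OF c (by omega) ha
    have sz := st_ET c (by omega) hz
    have sq := st_ET c (by omega) hq
    have ja := (JOF c (k := k) (q := q) (by omega) ha).1 (by omega)
    have jz := (JET c (k := k) (q := q) (by omega) hz).1 (by omega)
    rw [ja, jz]
    clear ja jz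
    have pa := ha.1
    have pz := hz.1
    have pq := hq.1
    have b0 := zeroB c
    have e0 := bo2 c (show 0 ≤ q by omega)
    have e1 := bo2 c (show q + 1 ≤ z by omega)
    have e2 := be1 c (show z + 1 ≤ a by omega)
    have e3 := bo2 c (show a + 1 ≤ k by omega)
    simp only [S] at hD
    omega
  · clear fD fa fz
    have sa := st_OF c (by omega) ha
    have sz := st_OF c (by omega) hz
    have sq := st_ET c (by omega) hq
    have ja := (JOF c (k := k) (q := q) (by omega) ha).1 (by omega)
    have jz := (JOF c (k := k) (q := q) (by omega) hz).1 (by omega)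
    rw [ja, jz]
    clear ja jz
    have pa := ha.1
    have pz := hz.1
    have pq := hq.1
    have b0 := zeroB c
    have e0 := bo2 c (show 0 ≤ q by omega)
    have e1 := bo2 c (show q + 1 ≤ z by omega)
    have e2 := be1 c (show z + 1 ≤ a by omega)
    have e3 := bo2 c (show a + 1 ≤ k by omega)
    simp only [S] at hD
    omega

theorem TN_qza_bg (c : ℕ → Bool) {k q a z : ℕ} (hk : k % 2 = 1)
    (hf : 0 < q) (h0 : q < z) (h1 : z < a) (hl : a < k)
    (ka : KB c a) (kz : KG c z) (hq : ET c q)
    (hD : S c k < 0) (fD : S c q < S c k) (fa : S c q ≤ Fv c a)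
    (fz : c z = true → S c q ≤ Fv c z) :
    J c k q a - J c k q z + 2 ≤ Be c k + 1 := by
  rcases ka with ha | ha <;> rcases kz with hz | hz
  · clear fD fa fz
    have sa := st_ET c (by omega) ha
    have sz := st_OT c (by omega) hz
    have sq := st_ET c (by omega) hq
    have ja := (JET c (k := k) (q := q) (by omega) ha).1 (by omega)
    have jz := (JOT c (k := k) (q := q) (by omega) hz).1 (by omega)
    rw [ja, jz]
    clear ja jz
    have pa := ha.1
    have pz := hz.1
    have pq := hq.1
    have b0 := zeroB c
    have e0 := bo2 c (show 0 ≤ q by omega)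
    have e1 := bo2 c (show q ≤ z - 1 by omega)
    have e2 := be1 c (show z + 1 ≤ a by omega)
    have e3 := bo2 c (show a + 1 ≤ k by omega)
    simp only [S] at hD
    omega
  · clear fD fa fz
    have sa := st_ET c (by omega) ha
    have sz := st_EF c (by omega) hz
    have sq := st_ET c (by omega) hq
    have ja := (JET c (k := k) (q := q) (by omega) ha).1 (by omega)
    have jz := (JEF c (k := k) (q := q) (by omega) hz).1 (by omega)
    rw [ja, jz]
    clear ja jz
    have pa := ha.1
    have pz := hz.1
    have pq := hq.1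
    have b0 := zeroB c
    have e0 := bo2 c (show 0 ≤ q by omega)
    have e1 := bo2 c (show q + 1 ≤ z by omega)
    have e2 := be1 c (show z + 1 ≤ a by omega)
    have e3 := bo2 c (show a + 1 ≤ k by omega)
    simp only [S] at hD
    omega
  · clear fD fa fz
    have sa := st_OF c (by omega) ha
    have sz := st_OT c (by omega) hz
    have sq := st_ET c (by omega) hq
    have ja := (JOF c (k := k) (q := q) (by omega) ha).1 (by omega)
    have jz := (JOT c (k := k) (q := q) (by omega) hz).1 (by omega)
    rw [ja, jz]
    clear ja jz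
    have pa := ha.1
    have pz := hz.1
    have pq := hq.1
    have b0 := zeroB c
    have e0 := bo2 c (show 0 ≤ q by omega)
    have e1 := bo2 c (show q ≤ z - 1 by omega)
    have e2 := be1 c (show z + 1 ≤ a by omega)
    have e3 := bo2 c (show a + 1 ≤ k by omega)
    simp only [S] at hD
    omega
  · clear fD fa fz
    have sa := st_OF c (by omega) ha
    have sz := st_EF c (by omega) hz
    have sq := st_ET c (by omega) hq
    have ja := (JOF c (k := k) (q := q) (by omega) ha).1 (by omega)
    have jz := (JEF c (k := k) (q := q) (by omega) hz).1 (by omega)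
    rw [ja, jz]
    clear ja jz
    have pa := ha.1
    have pz := hz.1
    have pq := hq.1
    have b0 := zeroB c
    have e0 := bo2 c (show 0 ≤ q by omega)
    have e1 := bo2 c (show q + 1 ≤ z by omega)
    have e2 := be1 c (show z + 1 ≤ a by omega)
    have e3 := bo2 c (show a + 1 ≤ k by omega)
    simp only [S] at hD
    omega

theorem TN_qza_gb (c : ℕ → Bool) {k q a z : ℕ} {n0 n1 n2 n3 : ℤ} (hk : k % 2 = 1)
    (hf : 0 < q) (h0 : q < z) (h1 : z < a) (hl : a < k)
    (ka : KG c a) (kz : KB c z) (hq : ET c q)
    (hD : S c k < 0) (fD : S c q < S c k) (fa : S c q ≤ Fv c a)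
    (fz : c z = true → S c q ≤ Fv c z)
    (n0z : 0 ≤ n0) (n0a : 2 * n0 ≤ Be c (q - 1) - Be c 0) (n0b : 2 * n0 - 1 ≤ Go c q - Go c 0)
    (n1z : 0 ≤ n1) (n1a : 2 * n1 ≤ Be c (z - 1) - Be c q) (n1b : 2 * n1 ≤ Go c z - Go c (q + 1))
    (n2z : 0 ≤ n2) (n2a : 2 * n2 ≤ Be c (a - 1) - Be c z) (n2b : 2 * n2 ≤ Go c a - Go c (z + 1))
    (n3z : 0 ≤ n3) (n3a : 2 * n3 ≤ Be c k - Be c a) (n3b : 2 * n3 ≤ Go c k - Go c (a + 1)) :
    J c k q a - J c k q z + (n0 + n1 + n2 + n3) + 1 ≤ Be c k + 1 := by
  rcases ka with ha | ha <;> rcases kz with hz | hz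
  · clear fD fa fz n0a n1z n1a n2z n2b n3z n3a
    have sa := st_OT c (by omega) ha
    have sz := st_ET c (by omega) hz
    have sq := st_ET c (by omega) hq
    have ja := (JOT c (k := k) (q := q) (by omega) ha).1 (by omega)
    have jz := (JET c (k := k) (q := q) (by omega) hz).1 (by omega)
    rw [ja, jz]
    clear ja jz
    have n0c : n0 ≤ Go c q - Go c 0 := by
      have := go0 c (show 0 ≤ q by omega)
      omega
    clear n0z n0b
    have pa := ha.1
    have pz := hz.1
    have pq := hq.1
    have b0 := zeroB c
    have e0 := bo2 c (show q + 1 ≤ z by omega)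
    have e1 := be1 c (show z + 1 ≤ a by omega)
    have e2 := bo2 c (show a + 1 ≤ k by omega)
    simp only [S, Go] at hD n0c n1b n3b
    omega
  · clear fD fa fz n0a n1z n1a n2z n2b n3z n3a
    have sa := st_OT c (by omega) ha
    have sz := st_OF c (by omega) hz
    have sq := st_ET c (by omega) hq
    have ja := (JOT c (k := k) (q := q) (by omega) ha).1 (by omega)
    have jz := (JOF c (k := k) (q := q) (by omega) hz).1 (by omega)
    rw [ja, jz]
    clear ja jz
    have n0c : n0 ≤ Go c q - Go c 0 := by
      have := go0 c (show 0 ≤ q by omega)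
      omega
    clear n0z n0b
    have pa := ha.1
    have pz := hz.1
    have pq := hq.1
    have b0 := zeroB c
    have e0 := bo2 c (show q + 1 ≤ z by omega)
    have e1 := be1 c (show z + 1 ≤ a by omega)
    have e2 := bo2 c (show a + 1 ≤ k by omega)
    simp only [S, Go] at hD n0c n1b n3b
    omega
  · clear fD fa fz n0a n1z n1a n2z n2b n3z n3a
    have sa := st_EF c (by omega) ha
    have sz := st_ET c (by omega) hz
    have sq := st_ET c (by omega) hq
    have ja := (JEF c (k := k) (q := q) (by omega) ha).1 (by omega)
    have jz := (JET c (k := k) (q := q) (by omega) hz).1 (by omega)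
    rw [ja, jz]
    clear ja jz
    have n0c : n0 ≤ Go c q - Go c 0 := by
      have := go0 c (show 0 ≤ q by omega)
      omega
    clear n0z n0b
    have pa := ha.1
    have pz := hz.1
    have pq := hq.1
    have b0 := zeroB c
    have e0 := bo2 c (show q + 1 ≤ z by omega)
    have e1 := be1 c (show z ≤ a - 1 by omega)
    have e2 := bo2 c (show a + 1 ≤ k by omega)
    simp only [S, Go] at hD n0c n1b n3b
    omega
  · clear fD fa fz n0a n1z n1a n2z n2b n3z n3a
    have sa := st_EF c (by omega) ha
    have sz := st_OF c (by omega) hz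
    have sq := st_ET c (by omega) hq
    have ja := (JEF c (k := k) (q := q) (by omega) ha).1 (by omega)
    have jz := (JOF c (k := k) (q := q) (by omega) hz).1 (by omega)
    rw [ja, jz]
    clear ja jz
    have n0c : n0 ≤ Go c q - Go c 0 := by
      have := go0 c (show 0 ≤ q by omega)
      omega
    clear n0z n0b
    have pa := ha.1
    have pz := hz.1
    have pq := hq.1
    have b0 := zeroB c
    have e0 := bo2 c (show q + 1 ≤ z by omega)
    have e1 := be1 c (show z ≤ a - 1 by omega)
    have e2 := bo2 c (show a + 1 ≤ k by omega)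
    simp only [S, Go] at hD n0c n1b n3b
    omega

theorem TN_qza_gg (c : ℕ → Bool) {k q a z : ℕ} (hk : k % 2 = 1)
    (hf : 0 < q) (h0 : q < z) (h1 : z < a) (hl : a < k)
    (ka : KG c a) (kz : KG c z) (hq : ET c q)
    (hD : S c k < 0) (fD : S c q < S c k) (fa : S c q ≤ Fv c a)
    (fz : c z = true → S c q ≤ Fv c z) :
    J c k q a - J c k q z + 2 ≤ Be c k + 1 := by
  rcases ka with ha | ha <;> rcases kz with hz | hz
  · clear fD fa fz
    have sa := st_OT c (by omega) ha
    have sz := st_OT c (by omega) hz
    have sq := st_ET c (by omega) hq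
    have ja := (JOT c (k := k) (q := q) (by omega) ha).1 (by omega)
    have jz := (JOT c (k := k) (q := q) (by omega) hz).1 (by omega)
    rw [ja, jz]
    clear ja jz
    have pa := ha.1
    have pz := hz.1
    have pq := hq.1
    have b0 := zeroB c
    have e0 := bo2 c (show 0 ≤ q by omega)
    have e1 := bo2 c (show q ≤ z - 1 by omega)
    have e2 := be1 c (show z + 1 ≤ a by omega)
    have e3 := bo2 c (show a + 1 ≤ k by omega)
    simp only [S] at hD
    omega
  · clear fD fa fz
    have sa := st_OT c (by omega) ha
    have sz := st_EF c (by omega) hz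
    have sq := st_ET c (by omega) hq
    have ja := (JOT c (k := k) (q := q) (by omega) ha).1 (by omega)
    have jz := (JEF c (k := k) (q := q) (by omega) hz).1 (by omega)
    rw [ja, jz]
    clear ja jz
    have pa := ha.1
    have pz := hz.1
    have pq := hq.1
    have b0 := zeroB c
    have e0 := bo2 c (show 0 ≤ q by omega)
    have e1 := bo2 c (show q + 1 ≤ z by omega)
    have e2 := be1 c (show z + 1 ≤ a by omega)
    have e3 := bo2 c (show a + 1 ≤ k by omega)
    simp only [S] at hD
    omega
  · clear fD fa fz
    have sa := st_EF c (by omega) ha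
    have sz := st_OT c (by omega) hz
    have sq := st_ET c (by omega) hq
    have ja := (JEF c (k := k) (q := q) (by omega) ha).1 (by omega)
    have jz := (JOT c (k := k) (q := q) (by omega) hz).1 (by omega)
    rw [ja, jz]
    clear ja jz
    have pa := ha.1
    have pz := hz.1
    have pq := hq.1
    have b0 := zeroB c
    have e0 := bo2 c (show 0 ≤ q by omega)
    have e1 := bo2 c (show q ≤ z - 1 by omega)
    have e2 := be1 c (show z + 1 ≤ a by omega)
    have e3 := bo2 c (show a + 1 ≤ k by omega)
    simp only [S] at hD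
    omega
  · clear fD fa fz
    have sa := st_EF c (by omega) ha
    have sz := st_EF c (by omega) hz
    have sq := st_ET c (by omega) hq
    have ja := (JEF c (k := k) (q := q) (by omega) ha).1 (by omega)
    have jz := (JEF c (k := k) (q := q) (by omega) hz).1 (by omega)
    rw [ja, jz]
    clear ja jz
    have pa := ha.1
    have pz := hz.1
    have pq := hq.1
    have b0 := zeroB c
    have e0 := bo2 c (show 0 ≤ q by omega)
    have e1 := bo2 c (show q + 1 ≤ z by omega)
    have e2 := be1 c (show z ≤ a - 1 by omega)
    have e3 := bo2 c (show a + 1 ≤ k by omega)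
    simp only [S] at hD
    omega

theorem HN_qza_bb (c : ℕ → Bool) {k q a z : ℕ} (hk : k % 2 = 1)
    (hf : 0 < q) (h0 : q < z) (h1 : z < a) (hl : a < k)
    (ka : KB c a) (kz : KB c z) (hq : ET c q)
    (hD : S c k < 0) (fD : S c q < S c k) (fa : S c q ≤ Fv c a)
    (fz : c z = true → S c q ≤ Fv c z) :
    J c k q a - J c k q z + 1 ≤ Bo c k := by
  rcases ka with ha | ha <;> rcases kz with hz | hz
  · clear fD fa fz
    have sa := st_ET c (by omega) ha
    have sz := st_ET c (by omega) hz
    have sq := st_ET c (by omega) hq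
    have ja := (JET c (k := k) (q := q) (by omega) ha).1 (by omega)
    have jz := (JET c (k := k) (q := q) (by omega) hz).1 (by omega)
    rw [ja, jz]
    clear ja jz
    have pa := ha.1
    have pz := hz.1
    have pq := hq.1
    have b0 := zeroB c
    have e0 := be2 c (show 0 ≤ q - 1 by omega)
    have e1 := be2 c (show q ≤ z - 1 by omega)
    have e2 := bo1 c (show z + 1 ≤ a by omega)
    have e3 := be2 c (show a + 1 ≤ k by omega)
    simp only [S] at hD
    omega
  · clear fD fa fz
    have sa := st_ET c (by omega) ha
    have sz := st_OF c (by omega) hz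
    have sq := st_ET c (by omega) hq
    have ja := (JET c (k := k) (q := q) (by omega) ha).1 (by omega)
    have jz := (JOF c (k := k) (q := q) (by omega) hz).1 (by omega)
    rw [ja, jz]
    clear ja jz
    have pa := ha.1
    have pz := hz.1
    have pq := hq.1
    have b0 := zeroB c
    have e0 := be2 c (show 0 ≤ q - 1 by omega)
    have e1 := be2 c (show q + 1 ≤ z by omega)
    have e2 := bo1 c (show z + 1 ≤ a by omega)
    have e3 := be2 c (show a + 1 ≤ k by omega)
    simp only [S] at hD
    omega
  · clear fD fa fz
    have sa := st_OF c (by omega) ha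
    have sz := st_ET c (by omega) hz
    have sq := st_ET c (by omega) hq
    have ja := (JOF c (k := k) (q := q) (by omega) ha).1 (by omega)
    have jz := (JET c (k := k) (q := q) (by omega) hz).1 (by omega)
    rw [ja, jz]
    clear ja jz
    have pa := ha.1
    have pz := hz.1
    have pq := hq.1
    have b0 := zeroB c
    have e0 := be2 c (show 0 ≤ q - 1 by omega)
    have e1 := be2 c (show q ≤ z - 1 by omega)
    have e2 := bo1 c (show z + 1 ≤ a by omega)
    have e3 := be2 c (show a + 1 ≤ k by omega)
    simp only [S] at hD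
    omega
  · clear fD fa fz
    have sa := st_OF c (by omega) ha
    have sz := st_OF c (by omega) hz
    have sq := st_ET c (by omega) hq
    have ja := (JOF c (k := k) (q := q) (by omega) ha).1 (by omega)
    have jz := (JOF c (k := k) (q := q) (by omega) hz).1 (by omega)
    rw [ja, jz]
    clear ja jz
    have pa := ha.1
    have pz := hz.1
    have pq := hq.1
    have b0 := zeroB c
    have e0 := be2 c (show 0 ≤ q - 1 by omega)
    have e1 := be2 c (show q + 1 ≤ z by omega)
    have e2 := bo1 c (show z ≤ a - 1 by omega)
    have e3 := be2 c (show a + 1 ≤ k by omega)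
    simp only [S] at hD
    omega

theorem HN_qza_bg (c : ℕ → Bool) {k q a z : ℕ} (hk : k % 2 = 1)
    (hf : 0 < q) (h0 : q < z) (h1 : z < a) (hl : a < k)
    (ka : KB c a) (kz : KG c z) (hq : ET c q)
    (hD : S c k < 0) (fD : S c q < S c k) (fa : S c q ≤ Fv c a)
    (fz : c z = true → S c q ≤ Fv c z) :
    J c k q a - J c k q z + 1 ≤ Bo c k := by
  rcases ka with ha | ha <;> rcases kz with hz | hz
  · clear fD fa
    replace fz := fz hz.2.1
    rw [Fv_OT hz] at fz
    have sa := st_ET c (by omega) ha
    have sz := st_OT c (by omega) hz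
    have sq := st_ET c (by omega) hq
    have ja := (JET c (k := k) (q := q) (by omega) ha).1 (by omega)
    have jz := (JOT c (k := k) (q := q) (by omega) hz).1 (by omega)
    rw [ja, jz]
    clear ja jz
    have pa := ha.1
    have pz := hz.1
    have pq := hq.1
    have b0 := zeroB c
    have e0 := be2 c (show 0 ≤ q - 1 by omega)
    have e1 := bo1 c (show q + 1 ≤ z by omega)
    have e2 := bo1 c (show z + 1 ≤ a by omega)
    have e3 := be2 c (show a + 1 ≤ k by omega)
    simp only [S] at hD fz
    omega
  · clear fD fa fz
    have sa := st_ET c (by omega) ha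
    have sz := st_EF c (by omega) hz
    have sq := st_ET c (by omega) hq
    have ja := (JET c (k := k) (q := q) (by omega) ha).1 (by omega)
    have jz := (JEF c (k := k) (q := q) (by omega) hz).1 (by omega)
    rw [ja, jz]
    clear ja jz
    have pa := ha.1
    have pz := hz.1
    have pq := hq.1
    have b0 := zeroB c
    have e0 := be2 c (show 0 ≤ q - 1 by omega)
    have e1 := be2 c (show q + 1 ≤ z by omega)
    have e2 := bo1 c (show z + 1 ≤ a by omega)
    have e3 := be2 c (show a + 1 ≤ k by omega)
    simp only [S] at hD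
    omega
  · clear fD fa
    replace fz := fz hz.2.1
    rw [Fv_OT hz] at fz
    have sa := st_OF c (by omega) ha
    have sz := st_OT c (by omega) hz
    have sq := st_ET c (by omega) hq
    have ja := (JOF c (k := k) (q := q) (by omega) ha).1 (by omega)
    have jz := (JOT c (k := k) (q := q) (by omega) hz).1 (by omega)
    rw [ja, jz]
    clear ja jz
    have pa := ha.1
    have pz := hz.1
    have pq := hq.1
    have b0 := zeroB c
    have e0 := be2 c (show 0 ≤ q - 1 by omega)
    have e1 := bo1 c (show q + 1 ≤ z by omega)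
    have e2 := bo1 c (show z ≤ a - 1 by omega)
    have e3 := be2 c (show a + 1 ≤ k by omega)
    simp only [S] at hD fz
    omega
  · clear fD fa fz
    have sa := st_OF c (by omega) ha
    have sz := st_EF c (by omega) hz
    have sq := st_ET c (by omega) hq
    have ja := (JOF c (k := k) (q := q) (by omega) ha).1 (by omega)
    have jz := (JEF c (k := k) (q := q) (by omega) hz).1 (by omega)
    rw [ja, jz]
    clear ja jz
    have pa := ha.1
    have pz := hz.1
    have pq := hq.1
    have b0 := zeroB c
    have e0 := be2 c (show 0 ≤ q - 1 by omega)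
    have e1 := be2 c (show q + 1 ≤ z by omega)
    have e2 := bo1 c (show z ≤ a - 1 by omega)
    have e3 := be2 c (show a + 1 ≤ k by omega)
    simp only [S] at hD
    omega

theorem TN_aqz_bb (c : ℕ → Bool) {k q a z : ℕ} (hk : k % 2 = 1)
    (hf : 0 < a) (h0 : a < q) (h1 : q < z) (hl : z < k)
    (ka : KB c a) (kz : KB c z) (hq : ET c q)
    (hD : S c k < 0) (fD : S c q < S c k) (fa : S c q < Fv c a)
    (fz : c z = true → S c q ≤ Fv c z) :
    J c k q a - J c k q z + 0 ≤ Be c k + 1 := by
  rcases ka with ha | ha <;> rcases kz with hz | hz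
  · clear fD fa fz
    have sa := st_ET c (by omega) ha
    have sz := st_ET c (by omega) hz
    have sq := st_ET c (by omega) hq
    have ja := (JET c (k := k) (q := q) (by omega) ha).2.1 (by omega)
    have jz := (JET c (k := k) (q := q) (by omega) hz).1 (by omega)
    rw [ja, jz]
    clear ja jz
    have pa := ha.1
    have pz := hz.1
    have pq := hq.1
    have b0 := zeroB c
    have e0 := be1 c (show 0 ≤ a by omega)
    have e1 := bo2 c (show a + 1 ≤ q by omega)
    have e2 := bo2 c (show q + 1 ≤ z by omega)
    have e3 := be1 c (show z + 1 ≤ k by omega)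
    simp only [S] at hD
    omega
  · clear fD fa fz
    have sa := st_ET c (by omega) ha
    have sz := st_OF c (by omega) hz
    have sq := st_ET c (by omega) hq
    have ja := (JET c (k := k) (q := q) (by omega) ha).2.1 (by omega)
    have jz := (JOF c (k := k) (q := q) (by omega) hz).1 (by omega)
    rw [ja, jz]
    clear ja jz
    have pa := ha.1
    have pz := hz.1
    have pq := hq.1
    have b0 := zeroB c
    have e0 := be1 c (show 0 ≤ a by omega)
    have e1 := bo2 c (show a + 1 ≤ q by omega)
    have e2 := bo2 c (show q + 1 ≤ z by omega)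
    have e3 := be1 c (show z + 1 ≤ k by omega)
    simp only [S] at hD
    omega
  · clear fD fa fz
    have sa := st_OF c (by omega) ha
    have sz := st_ET c (by omega) hz
    have sq := st_ET c (by omega) hq
    have ja := (JOF c (k := k) (q := q) (by omega) ha).2.1 (by omega)
    have jz := (JET c (k := k) (q := q) (by omega) hz).1 (by omega)
    rw [ja, jz]
    clear ja jz
    have pa := ha.1
    have pz := hz.1
    have pq := hq.1
    have b0 := zeroB c
    have e0 := be1 c (show 0 ≤ a by omega)
    have e1 := bo2 c (show a + 1 ≤ q by omega)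
    have e2 := bo2 c (show q + 1 ≤ z by omega)
    have e3 := be1 c (show z + 1 ≤ k by omega)
    simp only [S] at hD
    omega
  · clear fD fa fz
    have sa := st_OF c (by omega) ha
    have sz := st_OF c (by omega) hz
    have sq := st_ET c (by omega) hq
    have ja := (JOF c (k := k) (q := q) (by omega) ha).2.1 (by omega)
    have jz := (JOF c (k := k) (q := q) (by omega) hz).1 (by omega)
    rw [ja, jz]
    clear ja jz
    have pa := ha.1
    have pz := hz.1
    have pq := hq.1
    have b0 := zeroB c
    have e0 := be1 c (show 0 ≤ a by omega)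
    have e1 := bo2 c (show a + 1 ≤ q by omega)
    have e2 := bo2 c (show q + 1 ≤ z by omega)
    have e3 := be1 c (show z + 1 ≤ k by omega)
    simp only [S] at hD
    omega

theorem TN_aqz_bg (c : ℕ → Bool) {k q a z : ℕ} (hk : k % 2 = 1)
    (hf : 0 < a) (h0 : a < q) (h1 : q < z) (hl : z < k)
    (ka : KB c a) (kz : KG c z) (hq : ET c q)
    (hD : S c k < 0) (fD : S c q < S c k) (fa : S c q < Fv c a)
    (fz : c z = true → S c q ≤ Fv c z) :
    J c k q a - J c k q z + 2 ≤ Be c k + 1 := by
  rcases ka with ha | ha <;> rcases kz with hz | hz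
  · clear fD fa fz
    have sa := st_ET c (by omega) ha
    have sz := st_OT c (by omega) hz
    have sq := st_ET c (by omega) hq
    have ja := (JET c (k := k) (q := q) (by omega) ha).2.1 (by omega)
    have jz := (JOT c (k := k) (q := q) (by omega) hz).1 (by omega)
    rw [ja, jz]
    clear ja jz
    have pa := ha.1
    have pz := hz.1
    have pq := hq.1
    have b0 := zeroB c
    have e0 := be1 c (show 0 ≤ a by omega)
    have e1 := bo2 c (show a + 1 ≤ q by omega)
    have e2 := bo2 c (show q ≤ z - 1 by omega)
    have e3 := be1 c (show z + 1 ≤ k by omega)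
    simp only [S] at hD
    omega
  · clear fD fa fz
    have sa := st_ET c (by omega) ha
    have sz := st_EF c (by omega) hz
    have sq := st_ET c (by omega) hq
    have ja := (JET c (k := k) (q := q) (by omega) ha).2.1 (by omega)
    have jz := (JEF c (k := k) (q := q) (by omega) hz).1 (by omega)
    rw [ja, jz]
    clear ja jz
    have pa := ha.1
    have pz := hz.1
    have pq := hq.1
    have b0 := zeroB c
    have e0 := be1 c (show 0 ≤ a by omega)
    have e1 := bo2 c (show a + 1 ≤ q by omega)
    have e2 := bo2 c (show q + 1 ≤ z by omega)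
    have e3 := be1 c (show z + 1 ≤ k by omega)
    simp only [S] at hD
    omega
  · clear fD fa fz
    have sa := st_OF c (by omega) ha
    have sz := st_OT c (by omega) hz
    have sq := st_ET c (by omega) hq
    have ja := (JOF c (k := k) (q := q) (by omega) ha).2.1 (by omega)
    have jz := (JOT c (k := k) (q := q) (by omega) hz).1 (by omega)
    rw [ja, jz]
    clear ja jz
    have pa := ha.1
    have pz := hz.1
    have pq := hq.1
    have b0 := zeroB c
    have e0 := be1 c (show 0 ≤ a by omega)
    have e1 := bo2 c (show a + 1 ≤ q by omega)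
    have e2 := bo2 c (show q ≤ z - 1 by omega)
    have e3 := be1 c (show z + 1 ≤ k by omega)
    simp only [S] at hD
    omega
  · clear fD fa fz
    have sa := st_OF c (by omega) ha
    have sz := st_EF c (by omega) hz
    have sq := st_ET c (by omega) hq
    have ja := (JOF c (k := k) (q := q) (by omega) ha).2.1 (by omega)
    have jz := (JEF c (k := k) (q := q) (by omega) hz).1 (by omega)
    rw [ja, jz]
    clear ja jz
    have pa := ha.1
    have pz := hz.1
    have pq := hq.1
    have b0 := zeroB c
    have e0 := be1 c (show 0 ≤ a by omega)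
    have e1 := bo2 c (show a + 1 ≤ q by omega)
    have e2 := bo2 c (show q + 1 ≤ z by omega)
    have e3 := be1 c (show z + 1 ≤ k by omega)
    simp only [S] at hD
    omega

theorem TN_aqz_gb (c : ℕ → Bool) {k q a z : ℕ} {n0 n1 n2 n3 : ℤ} (hk : k % 2 = 1)
    (hf : 0 < a) (h0 : a < q) (h1 : q < z) (hl : z < k)
    (ka : KG c a) (kz : KB c z) (hq : ET c q)
    (hD : S c k < 0) (fD : S c q < S c k) (fa : S c q < Fv c a)
    (fz : c z = true → S c q ≤ Fv c z)
    (n0z : 0 ≤ n0) (n0a : 2 * n0 ≤ Be c (a - 1) - Be c 0) (n0b : 2 * n0 ≤ Go c a - Go c 0)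
    (n1z : 0 ≤ n1) (n1a : 2 * n1 ≤ Be c (q - 1) - Be c a) (n1b : 2 * n1 - 1 ≤ Go c q - Go c (a + 1))
    (n2z : 0 ≤ n2) (n2a : 2 * n2 ≤ Be c (z - 1) - Be c q) (n2b : 2 * n2 ≤ Go c z - Go c (q + 1))
    (n3z : 0 ≤ n3) (n3a : 2 * n3 ≤ Be c k - Be c z) (n3b : 2 * n3 ≤ Go c k - Go c (z + 1)) :
    J c k q a - J c k q z + (n0 + n1 + n2 + n3) + 1 ≤ Be c k + 1 := by
  rcases ka with ha | ha <;> rcases kz with hz | hz
  · clear fD fa fz n0z n0b n1a n2z n2a n3z n3b
    have sa := st_OT c (by omega) ha
    have sz := st_ET c (by omega) hz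
    have sq := st_ET c (by omega) hq
    have ja := (JOT c (k := k) (q := q) (by omega) ha).2.1 (by omega)
    have jz := (JET c (k := k) (q := q) (by omega) hz).1 (by omega)
    rw [ja, jz]
    clear ja jz
    have n1c : n1 ≤ Go c q - Go c (a + 1) := by
      have := go0 c (show a + 1 ≤ q by omega)
      omega
    clear n1z n1b
    have pa := ha.1
    have pz := hz.1
    have pq := hq.1
    have b0 := zeroB c
    have e0 := be1 c (show 0 ≤ a by omega)
    have e1 := bo2 c (show q + 1 ≤ z by omega)
    have e2 := be1 c (show z + 1 ≤ k by omega)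
    simp only [S, Go] at hD n1c n2b
    omega
  · clear fD fa fz n0z n0b n1a n2z n2a n3z n3b
    have sa := st_OT c (by omega) ha
    have sz := st_OF c (by omega) hz
    have sq := st_ET c (by omega) hq
    have ja := (JOT c (k := k) (q := q) (by omega) ha).2.1 (by omega)
    have jz := (JOF c (k := k) (q := q) (by omega) hz).1 (by omega)
    rw [ja, jz]
    clear ja jz
    have n1c : n1 ≤ Go c q - Go c (a + 1) := by
      have := go0 c (show a + 1 ≤ q by omega)
      omega
    clear n1z n1b
    have pa := ha.1
    have pz := hz.1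
    have pq := hq.1
    have b0 := zeroB c
    have e0 := be1 c (show 0 ≤ a by omega)
    have e1 := bo2 c (show q + 1 ≤ z by omega)
    have e2 := be1 c (show z + 1 ≤ k by omega)
    simp only [S, Go] at hD n1c n2b
    omega
  · clear fD fa fz n0z n0b n1a n2z n2a n3z n3b
    have sa := st_EF c (by omega) ha
    have sz := st_ET c (by omega) hz
    have sq := st_ET c (by omega) hq
    have ja := (JEF c (k := k) (q := q) (by omega) ha).2.1 (by omega)
    have jz := (JET c (k := k) (q := q) (by omega) hz).1 (by omega)
    rw [ja, jz]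
    clear ja jz
    have n1c : n1 ≤ Go c q - Go c (a + 1) := by
      have := go0 c (show a + 1 ≤ q by omega)
      omega
    clear n1z n1b
    have pa := ha.1
    have pz := hz.1
    have pq := hq.1
    have b0 := zeroB c
    have e0 := be1 c (show 0 ≤ a - 1 by omega)
    have e1 := bo2 c (show q + 1 ≤ z by omega)
    have e2 := be1 c (show z + 1 ≤ k by omega)
    simp only [S, Go] at hD n1c n2b
    omega
  · clear fD fa fz n0z n0b n1a n2z n2a n3z n3b
    have sa := st_EF c (by omega) ha
    have sz := st_OF c (by omega) hz
    have sq := st_ET c (by omega) hq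
    have ja := (JEF c (k := k) (q := q) (by omega) ha).2.1 (by omega)
    have jz := (JOF c (k := k) (q := q) (by omega) hz).1 (by omega)
    rw [ja, jz]
    clear ja jz
    have n1c : n1 ≤ Go c q - Go c (a + 1) := by
      have := go0 c (show a + 1 ≤ q by omega)
      omega
    clear n1z n1b
    have pa := ha.1
    have pz := hz.1
    have pq := hq.1
    have b0 := zeroB c
    have e0 := be1 c (show 0 ≤ a - 1 by omega)
    have e1 := bo2 c (show q + 1 ≤ z by omega)
    have e2 := be1 c (show z + 1 ≤ k by omega)
    simp only [S, Go] at hD n1c n2b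
    omega

theorem TN_aqz_gg (c : ℕ → Bool) {k q a z : ℕ} (hk : k % 2 = 1)
    (hf : 0 < a) (h0 : a < q) (h1 : q < z) (hl : z < k)
    (ka : KG c a) (kz : KG c z) (hq : ET c q)
    (hD : S c k < 0) (fD : S c q < S c k) (fa : S c q < Fv c a)
    (fz : c z = true → S c q ≤ Fv c z) :
    J c k q a - J c k q z + 2 ≤ Be c k + 1 := by
  rcases ka with ha | ha <;> rcases kz with hz | hz
  · clear fD fa fz
    have sa := st_OT c (by omega) ha
    have sz := st_OT c (by omega) hz
    have sq := st_ET c (by omega) hq
    have ja := (JOT c (k := k) (q := q) (by omega) ha).2.1 (by omega)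
    have jz := (JOT c (k := k) (q := q) (by omega) hz).1 (by omega)
    rw [ja, jz]
    clear ja jz
    have pa := ha.1
    have pz := hz.1
    have pq := hq.1
    have b0 := zeroB c
    have e0 := be1 c (show 0 ≤ a by omega)
    have e1 := bo2 c (show a + 1 ≤ q by omega)
    have e2 := bo2 c (show q ≤ z - 1 by omega)
    have e3 := be1 c (show z + 1 ≤ k by omega)
    simp only [S] at hD
    omega
  · clear fD fa fz
    have sa := st_OT c (by omega) ha
    have sz := st_EF c (by omega) hz
    have sq := st_ET c (by omega) hq
    have ja := (JOT c (k := k) (q := q) (by omega) ha).2.1 (by omega)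
    have jz := (JEF c (k := k) (q := q) (by omega) hz).1 (by omega)
    rw [ja, jz]
    clear ja jz
    have pa := ha.1
    have pz := hz.1
    have pq := hq.1
    have b0 := zeroB c
    have e0 := be1 c (show 0 ≤ a by omega)
    have e1 := bo2 c (show a + 1 ≤ q by omega)
    have e2 := bo2 c (show q + 1 ≤ z by omega)
    have e3 := be1 c (show z + 1 ≤ k by omega)
    simp only [S] at hD
    omega
  · clear fD fa fz
    have sa := st_EF c (by omega) ha
    have sz := st_OT c (by omega) hz
    have sq := st_ET c (by omega) hq
    have ja := (JEF c (k := k) (q := q) (by omega) ha).2.1 (by omega)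
    have jz := (JOT c (k := k) (q := q) (by omega) hz).1 (by omega)
    rw [ja, jz]
    clear ja jz
    have pa := ha.1
    have pz := hz.1
    have pq := hq.1
    have b0 := zeroB c
    have e0 := be1 c (show 0 ≤ a - 1 by omega)
    have e1 := bo2 c (show a + 1 ≤ q by omega)
    have e2 := bo2 c (show q ≤ z - 1 by omega)
    have e3 := be1 c (show z + 1 ≤ k by omega)
    simp only [S] at hD
    omega
  · clear fD fa fz
    have sa := st_EF c (by omega) ha
    have sz := st_EF c (by omega) hz
    have sq := st_ET c (by omega) hq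
    have ja := (JEF c (k := k) (q := q) (by omega) ha).2.1 (by omega)
    have jz := (JEF c (k := k) (q := q) (by omega) hz).1 (by omega)
    rw [ja, jz]
    clear ja jz
    have pa := ha.1
    have pz := hz.1
    have pq := hq.1
    have b0 := zeroB c
    have e0 := be1 c (show 0 ≤ a - 1 by omega)
    have e1 := bo2 c (show a + 1 ≤ q by omega)
    have e2 := bo2 c (show q + 1 ≤ z by omega)
    have e3 := be1 c (show z + 1 ≤ k by omega)
    simp only [S] at hD
    omega

theorem HN_aqz_bb (c : ℕ → Bool) {k q a z : ℕ} (hk : k % 2 = 1)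
    (hf : 0 < a) (h0 : a < q) (h1 : q < z) (hl : z < k)
    (ka : KB c a) (kz : KB c z) (hq : ET c q)
    (hD : S c k < 0) (fD : S c q < S c k) (fa : S c q < Fv c a)
    (fz : c z = true → S c q ≤ Fv c z) :
    J c k q a - J c k q z + 1 ≤ Bo c k := by
  rcases ka with ha | ha <;> rcases kz with hz | hz
  · clear fD fa fz
    have sa := st_ET c (by omega) ha
    have sz := st_ET c (by omega) hz
    have sq := st_ET c (by omega) hq
    have ja := (JET c (k := k) (q := q) (by omega) ha).2.1 (by omega)
    have jz := (JET c (k := k) (q := q) (by omega) hz).1 (by omega)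
    rw [ja, jz]
    clear ja jz
    have pa := ha.1
    have pz := hz.1
    have pq := hq.1
    have b0 := zeroB c
    have e0 := bo1 c (show 0 ≤ a by omega)
    have e1 := be2 c (show a ≤ q - 1 by omega)
    have e2 := be2 c (show q ≤ z - 1 by omega)
    have e3 := bo1 c (show z + 1 ≤ k by omega)
    simp only [S] at hD
    omega
  · clear fD fa fz
    have sa := st_ET c (by omega) ha
    have sz := st_OF c (by omega) hz
    have sq := st_ET c (by omega) hq
    have ja := (JET c (k := k) (q := q) (by omega) ha).2.1 (by omega)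
    have jz := (JOF c (k := k) (q := q) (by omega) hz).1 (by omega)
    rw [ja, jz]
    clear ja jz
    have pa := ha.1
    have pz := hz.1
    have pq := hq.1
    have b0 := zeroB c
    have e0 := bo1 c (show 0 ≤ a by omega)
    have e1 := be2 c (show a ≤ q - 1 by omega)
    have e2 := be2 c (show q + 1 ≤ z by omega)
    have e3 := bo1 c (show z + 1 ≤ k by omega)
    simp only [S] at hD
    omega
  · clear fD fa fz
    have sa := st_OF c (by omega) ha
    have sz := st_ET c (by omega) hz
    have sq := st_ET c (by omega) hq
    have ja := (JOF c (k := k) (q := q) (by omega) ha).2.1 (by omega)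
    have jz := (JET c (k := k) (q := q) (by omega) hz).1 (by omega)
    rw [ja, jz]
    clear ja jz
    have pa := ha.1
    have pz := hz.1
    have pq := hq.1
    have b0 := zeroB c
    have e0 := bo1 c (show 0 ≤ a - 1 by omega)
    have e1 := be2 c (show a + 1 ≤ q by omega)
    have e2 := be2 c (show q ≤ z - 1 by omega)
    have e3 := bo1 c (show z + 1 ≤ k by omega)
    simp only [S] at hD
    omega
  · clear fD fa fz
    have sa := st_OF c (by omega) ha
    have sz := st_OF c (by omega) hz
    have sq := st_ET c (by omega) hq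
    have ja := (JOF c (k := k) (q := q) (by omega) ha).2.1 (by omega)
    have jz := (JOF c (k := k) (q := q) (by omega) hz).1 (by omega)
    rw [ja, jz]
    clear ja jz
    have pa := ha.1
    have pz := hz.1
    have pq := hq.1
    have b0 := zeroB c
    have e0 := bo1 c (show 0 ≤ a - 1 by omega)
    have e1 := be2 c (show a + 1 ≤ q by omega)
    have e2 := be2 c (show q + 1 ≤ z by omega)
    have e3 := bo1 c (show z + 1 ≤ k by omega)
    simp only [S] at hD
    omega

theorem HN_aqz_bg (c : ℕ → Bool) {k q a z : ℕ} (hk : k % 2 = 1)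
    (hf : 0 < a) (h0 : a < q) (h1 : q < z) (hl : z < k)
    (ka : KB c a) (kz : KG c z) (hq : ET c q)
    (hD : S c k < 0) (fD : S c q < S c k) (fa : S c q < Fv c a)
    (fz : c z = true → S c q ≤ Fv c z) :
    J c k q a - J c k q z + 1 ≤ Bo c k := by
  rcases ka with ha | ha <;> rcases kz with hz | hz
  · clear fD fa
    replace fz := fz hz.2.1
    rw [Fv_OT hz] at fz
    have sa := st_ET c (by omega) ha
    have sz := st_OT c (by omega) hz
    have sq := st_ET c (by omega) hq
    have ja := (JET c (k := k) (q := q) (by omega) ha).2.1 (by omega)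
    have jz := (JOT c (k := k) (q := q) (by omega) hz).1 (by omega)
    rw [ja, jz]
    clear ja jz
    have pa := ha.1
    have pz := hz.1
    have pq := hq.1
    have b0 := zeroB c
    have e0 := bo1 c (show 0 ≤ a by omega)
    have e1 := be2 c (show a ≤ q - 1 by omega)
    have e2 := bo1 c (show q + 1 ≤ z by omega)
    have e3 := bo1 c (show z + 1 ≤ k by omega)
    simp only [S] at hD fz
    omega
  · clear fD fa fz
    have sa := st_ET c (by omega) ha
    have sz := st_EF c (by omega) hz
    have sq := st_ET c (by omega) hq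
    have ja := (JET c (k := k) (q := q) (by omega) ha).2.1 (by omega)
    have jz := (JEF c (k := k) (q := q) (by omega) hz).1 (by omega)
    rw [ja, jz]
    clear ja jz
    have pa := ha.1
    have pz := hz.1
    have pq := hq.1
    have b0 := zeroB c
    have e0 := bo1 c (show 0 ≤ a by omega)
    have e1 := be2 c (show a ≤ q - 1 by omega)
    have e2 := be2 c (show q + 1 ≤ z by omega)
    have e3 := bo1 c (show z + 1 ≤ k by omega)
    simp only [S] at hD
    omega
  · clear fD fa
    replace fz := fz hz.2.1
    rw [Fv_OT hz] at fz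
    have sa := st_OF c (by omega) ha
    have sz := st_OT c (by omega) hz
    have sq := st_ET c (by omega) hq
    have ja := (JOF c (k := k) (q := q) (by omega) ha).2.1 (by omega)
    have jz := (JOT c (k := k) (q := q) (by omega) hz).1 (by omega)
    rw [ja, jz]
    clear ja jz
    have pa := ha.1
    have pz := hz.1
    have pq := hq.1
    have b0 := zeroB c
    have e0 := bo1 c (show 0 ≤ a - 1 by omega)
    have e1 := be2 c (show a + 1 ≤ q by omega)
    have e2 := bo1 c (show q + 1 ≤ z by omega)
    have e3 := bo1 c (show z + 1 ≤ k by omega)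
    simp only [S] at hD fz
    omega
  · clear fD fa fz
    have sa := st_OF c (by omega) ha
    have sz := st_EF c (by omega) hz
    have sq := st_ET c (by omega) hq
    have ja := (JOF c (k := k) (q := q) (by omega) ha).2.1 (by omega)
    have jz := (JEF c (k := k) (q := q) (by omega) hz).1 (by omega)
    rw [ja, jz]
    clear ja jz
    have pa := ha.1
    have pz := hz.1
    have pq := hq.1
    have b0 := zeroB c
    have e0 := bo1 c (show 0 ≤ a - 1 by omega)
    have e1 := be2 c (show a + 1 ≤ q by omega)
    have e2 := be2 c (show q + 1 ≤ z by omega)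
    have e3 := bo1 c (show z + 1 ≤ k by omega)
    simp only [S] at hD
    omega

theorem TN_zqa_bb (c : ℕ → Bool) {k q a z : ℕ} (hk : k % 2 = 1)
    (hf : 0 < z) (h0 : z < q) (h1 : q < a) (hl : a < k)
    (ka : KB c a) (kz : KB c z) (hq : ET c q)
    (hD : S c k < 0) (fD : S c q < S c k) (fa : S c q ≤ Fv c a)
    (fz : c z = true → S c q < Fv c z) :
    J c k q a - J c k q z + 0 ≤ Be c k + 1 := by
  rcases ka with ha | ha <;> rcases kz with hz | hz
  · clear hD fD fa
    replace fz := fz hz.2.1
    rw [Fv_ET hz] at fz
    have sa := st_ET c (by omega) ha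
    have sz := st_ET c (by omega) hz
    have sq := st_ET c (by omega) hq
    have ja := (JET c (k := k) (q := q) (by omega) ha).1 (by omega)
    have jz := (JET c (k := k) (q := q) (by omega) hz).2.1 (by omega)
    rw [ja, jz]
    clear ja jz
    have pa := ha.1
    have pz := hz.1
    have pq := hq.1
    have b0 := zeroB c
    have e0 := bo2 c (show 0 ≤ z by omega)
    have e1 := bo2 c (show z + 1 ≤ q by omega)
    have e2 := be1 c (show q + 1 ≤ a by omega)
    have e3 := bo2 c (show a + 1 ≤ k by omega)
    simp only [S] at fz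
    omega
  · clear hD fD fa fz
    have sa := st_ET c (by omega) ha
    have sz := st_OF c (by omega) hz
    have sq := st_ET c (by omega) hq
    have ja := (JET c (k := k) (q := q) (by omega) ha).1 (by omega)
    have jz := (JOF c (k := k) (q := q) (by omega) hz).2.1 (by omega)
    rw [ja, jz]
    clear ja jz
    have pa := ha.1
    have pz := hz.1
    have pq := hq.1
    have b0 := zeroB c
    have e0 := bo2 c (show 0 ≤ z by omega)
    have e1 := be1 c (show z + 1 ≤ q by omega)
    have e2 := be1 c (show q + 1 ≤ a by omega)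
    have e3 := bo2 c (show a + 1 ≤ k by omega)
    omega
  · clear hD fD fa
    replace fz := fz hz.2.1
    rw [Fv_ET hz] at fz
    have sa := st_OF c (by omega) ha
    have sz := st_ET c (by omega) hz
    have sq := st_ET c (by omega) hq
    have ja := (JOF c (k := k) (q := q) (by omega) ha).1 (by omega)
    have jz := (JET c (k := k) (q := q) (by omega) hz).2.1 (by omega)
    rw [ja, jz]
    clear ja jz
    have pa := ha.1
    have pz := hz.1
    have pq := hq.1
    have b0 := zeroB c
    have e0 := bo2 c (show 0 ≤ z by omega)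
    have e1 := bo2 c (show z + 1 ≤ q by omega)
    have e2 := be1 c (show q + 1 ≤ a by omega)
    have e3 := bo2 c (show a + 1 ≤ k by omega)
    simp only [S] at fz
    omega
  · clear hD fD fa fz
    have sa := st_OF c (by omega) ha
    have sz := st_OF c (by omega) hz
    have sq := st_ET c (by omega) hq
    have ja := (JOF c (k := k) (q := q) (by omega) ha).1 (by omega)
    have jz := (JOF c (k := k) (q := q) (by omega) hz).2.1 (by omega)
    rw [ja, jz]
    clear ja jz
    have pa := ha.1
    have pz := hz.1
    have pq := hq.1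
    have b0 := zeroB c
    have e0 := bo2 c (show 0 ≤ z by omega)
    have e1 := be1 c (show z + 1 ≤ q by omega)
    have e2 := be1 c (show q + 1 ≤ a by omega)
    have e3 := bo2 c (show a + 1 ≤ k by omega)
    omega

theorem TN_zqa_bg (c : ℕ → Bool) {k q a z : ℕ} (hk : k % 2 = 1)
    (hf : 0 < z) (h0 : z < q) (h1 : q < a) (hl : a < k)
    (ka : KB c a) (kz : KG c z) (hq : ET c q)
    (hD : S c k < 0) (fD : S c q < S c k) (fa : S c q ≤ Fv c a)
    (fz : c z = true → S c q < Fv c z) :
    J c k q a - J c k q z + 2 ≤ Be c k + 1 := by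
  rcases ka with ha | ha <;> rcases kz with hz | hz
  · clear hD fD fa fz
    have sa := st_ET c (by omega) ha
    have sz := st_OT c (by omega) hz
    have sq := st_ET c (by omega) hq
    have ja := (JET c (k := k) (q := q) (by omega) ha).1 (by omega)
    have jz := (JOT c (k := k) (q := q) (by omega) hz).2.1 (by omega)
    rw [ja, jz]
    clear ja jz
    have pa := ha.1
    have pz := hz.1
    have pq := hq.1
    have b0 := zeroB c
    have e0 := bo2 c (show 0 ≤ z - 1 by omega)
    have e1 := be1 c (show z + 1 ≤ q by omega)
    have e2 := be1 c (show q + 1 ≤ a by omega)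
    have e3 := bo2 c (show a + 1 ≤ k by omega)
    omega
  · clear hD fD fa fz
    have sa := st_ET c (by omega) ha
    have sz := st_EF c (by omega) hz
    have sq := st_ET c (by omega) hq
    have ja := (JET c (k := k) (q := q) (by omega) ha).1 (by omega)
    have jz := (JEF c (k := k) (q := q) (by omega) hz).2.1 (by omega)
    rw [ja, jz]
    clear ja jz
    have pa := ha.1
    have pz := hz.1
    have pq := hq.1
    have b0 := zeroB c
    have e0 := bo2 c (show 0 ≤ z by omega)
    have e1 := be1 c (show z + 1 ≤ q by omega)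
    have e2 := be1 c (show q + 1 ≤ a by omega)
    have e3 := bo2 c (show a + 1 ≤ k by omega)
    omega
  · clear hD fD fa fz
    have sa := st_OF c (by omega) ha
    have sz := st_OT c (by omega) hz
    have sq := st_ET c (by omega) hq
    have ja := (JOF c (k := k) (q := q) (by omega) ha).1 (by omega)
    have jz := (JOT c (k := k) (q := q) (by omega) hz).2.1 (by omega)
    rw [ja, jz]
    clear ja jz
    have pa := ha.1
    have pz := hz.1
    have pq := hq.1
    have b0 := zeroB c
    have e0 := bo2 c (show 0 ≤ z - 1 by omega)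
    have e1 := be1 c (show z + 1 ≤ q by omega)
    have e2 := be1 c (show q + 1 ≤ a by omega)
    have e3 := bo2 c (show a + 1 ≤ k by omega)
    omega
  · clear hD fD fa fz
    have sa := st_OF c (by omega) ha
    have sz := st_EF c (by omega) hz
    have sq := st_ET c (by omega) hq
    have ja := (JOF c (k := k) (q := q) (by omega) ha).1 (by omega)
    have jz := (JEF c (k := k) (q := q) (by omega) hz).2.1 (by omega)
    rw [ja, jz]
    clear ja jz
    have pa := ha.1
    have pz := hz.1
    have pq := hq.1
    have b0 := zeroB c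
    have e0 := bo2 c (show 0 ≤ z by omega)
    have e1 := be1 c (show z + 1 ≤ q by omega)
    have e2 := be1 c (show q + 1 ≤ a by omega)
    have e3 := bo2 c (show a + 1 ≤ k by omega)
    omega

theorem TN_zqa_gb (c : ℕ → Bool) {k q a z : ℕ} {n0 n1 n2 n3 : ℤ} (hk : k % 2 = 1)
    (hf : 0 < z) (h0 : z < q) (h1 : q < a) (hl : a < k)
    (ka : KG c a) (kz : KB c z) (hq : ET c q)
    (hD : S c k < 0) (fD : S c q < S c k) (fa : S c q ≤ Fv c a)
    (fz : c z = true → S c q < Fv c z)
    (n0z : 0 ≤ n0) (n0a : 2 * n0 ≤ Be c (z - 1) - Be c 0) (n0b : 2 * n0 ≤ Go c z - Go c 0)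
    (n1z : 0 ≤ n1) (n1a : 2 * n1 ≤ Be c (q - 1) - Be c z) (n1b : 2 * n1 - 1 ≤ Go c q - Go c (z + 1))
    (n2z : 0 ≤ n2) (n2a : 2 * n2 ≤ Be c (a - 1) - Be c q) (n2b : 2 * n2 ≤ Go c a - Go c (q + 1))
    (n3z : 0 ≤ n3) (n3a : 2 * n3 ≤ Be c k - Be c a) (n3b : 2 * n3 ≤ Go c k - Go c (a + 1)) :
    J c k q a - J c k q z + (n0 + n1 + n2 + n3) + 1 ≤ Be c k + 1 := by
  rcases ka with ha | ha <;> rcases kz with hz | hz
  · clear hD fD fa n0z n0a n1a n2z n2b n3z n3a
    replace fz := fz hz.2.1
    rw [Fv_ET hz] at fz
    have sa := st_OT c (by omega) ha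
    have sz := st_ET c (by omega) hz
    have sq := st_ET c (by omega) hq
    have ja := (JOT c (k := k) (q := q) (by omega) ha).1 (by omega)
    have jz := (JET c (k := k) (q := q) (by omega) hz).2.1 (by omega)
    rw [ja, jz]
    clear ja jz
    have n1c : n1 ≤ Go c q - Go c (z + 1) := by
      have := go0 c (show z + 1 ≤ q by omega)
      omega
    clear n1z n1b
    have pa := ha.1
    have pz := hz.1
    have pq := hq.1
    have b0 := zeroB c
    have e0 := bo2 c (show 0 ≤ z by omega)
    have e1 := be1 c (show q + 1 ≤ a by omega)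
    have e2 := bo2 c (show a + 1 ≤ k by omega)
    simp only [S, Go] at fz n0b n1c n3b
    omega
  · clear hD fD fa fz n0z n0a n1z n1b n2z n2b n3z n3a
    have sa := st_OT c (by omega) ha
    have sz := st_OF c (by omega) hz
    have sq := st_ET c (by omega) hq
    have ja := (JOT c (k := k) (q := q) (by omega) ha).1 (by omega)
    have jz := (JOF c (k := k) (q := q) (by omega) hz).2.1 (by omega)
    rw [ja, jz]
    clear ja jz
    have pa := ha.1
    have pz := hz.1
    have pq := hq.1
    have b0 := zeroB c
    have e0 := bo2 c (show 0 ≤ z by omega)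
    have e1 := be1 c (show z + 1 ≤ q by omega)
    have e2 := be1 c (show q + 1 ≤ a by omega)
    have e3 := bo2 c (show a + 1 ≤ k by omega)
    simp only [Go] at n0b n3b
    omega
  · clear hD fD fa n0z n0a n1a n2z n2b n3z n3a
    replace fz := fz hz.2.1
    rw [Fv_ET hz] at fz
    have sa := st_EF c (by omega) ha
    have sz := st_ET c (by omega) hz
    have sq := st_ET c (by omega) hq
    have ja := (JEF c (k := k) (q := q) (by omega) ha).1 (by omega)
    have jz := (JET c (k := k) (q := q) (by omega) hz).2.1 (by omega)
    rw [ja, jz]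
    clear ja jz
    have n1c : n1 ≤ Go c q - Go c (z + 1) := by
      have := go0 c (show z + 1 ≤ q by omega)
      omega
    clear n1z n1b
    have pa := ha.1
    have pz := hz.1
    have pq := hq.1
    have b0 := zeroB c
    have e0 := bo2 c (show 0 ≤ z by omega)
    have e1 := be1 c (show q ≤ a - 1 by omega)
    have e2 := bo2 c (show a + 1 ≤ k by omega)
    simp only [S, Go] at fz n0b n1c n3b
    omega
  · clear hD fD fa fz n0z n0a n1z n1b n2z n2b n3z n3a
    have sa := st_EF c (by omega) ha
    have sz := st_OF c (by omega) hz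
    have sq := st_ET c (by omega) hq
    have ja := (JEF c (k := k) (q := q) (by omega) ha).1 (by omega)
    have jz := (JOF c (k := k) (q := q) (by omega) hz).2.1 (by omega)
    rw [ja, jz]
    clear ja jz
    have pa := ha.1
    have pz := hz.1
    have pq := hq.1
    have b0 := zeroB c
    have e0 := bo2 c (show 0 ≤ z by omega)
    have e1 := be1 c (show z + 1 ≤ q by omega)
    have e2 := be1 c (show q ≤ a - 1 by omega)
    have e3 := bo2 c (show a + 1 ≤ k by omega)
    simp only [Go] at n0b n3b
    omega

theorem TN_zqa_gg (c : ℕ → Bool) {k q a z : ℕ} (hk : k % 2 = 1)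
    (hf : 0 < z) (h0 : z < q) (h1 : q < a) (hl : a < k)
    (ka : KG c a) (kz : KG c z) (hq : ET c q)
    (hD : S c k < 0) (fD : S c q < S c k) (fa : S c q ≤ Fv c a)
    (fz : c z = true → S c q < Fv c z) :
    J c k q a - J c k q z + 2 ≤ Be c k + 1 := by
  rcases ka with ha | ha <;> rcases kz with hz | hz
  · clear hD fD fa fz
    have sa := st_OT c (by omega) ha
    have sz := st_OT c (by omega) hz
    have sq := st_ET c (by omega) hq
    have ja := (JOT c (k := k) (q := q) (by omega) ha).1 (by omega)
    have jz := (JOT c (k := k) (q := q) (by omega) hz).2.1 (by omega)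
    rw [ja, jz]
    clear ja jz
    have pa := ha.1
    have pz := hz.1
    have pq := hq.1
    have b0 := zeroB c
    have e0 := bo2 c (show 0 ≤ z - 1 by omega)
    have e1 := be1 c (show z + 1 ≤ q by omega)
    have e2 := be1 c (show q + 1 ≤ a by omega)
    have e3 := bo2 c (show a + 1 ≤ k by omega)
    omega
  · clear hD fD fa fz
    have sa := st_OT c (by omega) ha
    have sz := st_EF c (by omega) hz
    have sq := st_ET c (by omega) hq
    have ja := (JOT c (k := k) (q := q) (by omega) ha).1 (by omega)
    have jz := (JEF c (k := k) (q := q) (by omega) hz).2.1 (by omega)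
    rw [ja, jz]
    clear ja jz
    have pa := ha.1
    have pz := hz.1
    have pq := hq.1
    have b0 := zeroB c
    have e0 := bo2 c (show 0 ≤ z by omega)
    have e1 := be1 c (show z + 1 ≤ q by omega)
    have e2 := be1 c (show q + 1 ≤ a by omega)
    have e3 := bo2 c (show a + 1 ≤ k by omega)
    omega
  · clear hD fD fa fz
    have sa := st_EF c (by omega) ha
    have sz := st_OT c (by omega) hz
    have sq := st_ET c (by omega) hq
    have ja := (JEF c (k := k) (q := q) (by omega) ha).1 (by omega)
    have jz := (JOT c (k := k) (q := q) (by omega) hz).2.1 (by omega)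
    rw [ja, jz]
    clear ja jz
    have pa := ha.1
    have pz := hz.1
    have pq := hq.1
    have b0 := zeroB c
    have e0 := bo2 c (show 0 ≤ z - 1 by omega)
    have e1 := be1 c (show z + 1 ≤ q by omega)
    have e2 := be1 c (show q ≤ a - 1 by omega)
    have e3 := bo2 c (show a + 1 ≤ k by omega)
    omega
  · clear hD fD fa fz
    have sa := st_EF c (by omega) ha
    have sz := st_EF c (by omega) hz
    have sq := st_ET c (by omega) hq
    have ja := (JEF c (k := k) (q := q) (by omega) ha).1 (by omega)
    have jz := (JEF c (k := k) (q := q) (by omega) hz).2.1 (by omega)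
    rw [ja, jz]
    clear ja jz
    have pa := ha.1
    have pz := hz.1
    have pq := hq.1
    have b0 := zeroB c
    have e0 := bo2 c (show 0 ≤ z by omega)
    have e1 := be1 c (show z + 1 ≤ q by omega)
    have e2 := be1 c (show q ≤ a - 1 by omega)
    have e3 := bo2 c (show a + 1 ≤ k by omega)
    omega

theorem HN_zqa_bb (c : ℕ → Bool) {k q a z : ℕ} (hk : k % 2 = 1)
    (hf : 0 < z) (h0 : z < q) (h1 : q < a) (hl : a < k)
    (ka : KB c a) (kz : KB c z) (hq : ET c q)
    (hD : S c k < 0) (fD : S c q < S c k) (fa : S c q ≤ Fv c a)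
    (fz : c z = true → S c q < Fv c z) :
    J c k q a - J c k q z + 1 ≤ Bo c k := by
  rcases ka with ha | ha <;> rcases kz with hz | hz
  · clear hD fD fa
    replace fz := fz hz.2.1
    rw [Fv_ET hz] at fz
    have sa := st_ET c (by omega) ha
    have sz := st_ET c (by omega) hz
    have sq := st_ET c (by omega) hq
    have ja := (JET c (k := k) (q := q) (by omega) ha).1 (by omega)
    have jz := (JET c (k := k) (q := q) (by omega) hz).2.1 (by omega)
    rw [ja, jz]
    clear ja jz
    have pa := ha.1
    have pz := hz.1
    have pq := hq.1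
    have b0 := zeroB c
    have e0 := be2 c (show 0 ≤ z - 1 by omega)
    have e1 := be2 c (show z ≤ q - 1 by omega)
    have e2 := bo1 c (show q + 1 ≤ a by omega)
    have e3 := be2 c (show a + 1 ≤ k by omega)
    simp only [S] at fz
    omega
  · clear hD fD fa fz
    have sa := st_ET c (by omega) ha
    have sz := st_OF c (by omega) hz
    have sq := st_ET c (by omega) hq
    have ja := (JET c (k := k) (q := q) (by omega) ha).1 (by omega)
    have jz := (JOF c (k := k) (q := q) (by omega) hz).2.1 (by omega)
    rw [ja, jz]
    clear ja jz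
    have pa := ha.1
    have pz := hz.1
    have pq := hq.1
    have b0 := zeroB c
    have e0 := be2 c (show 0 ≤ z by omega)
    have e1 := bo1 c (show z + 1 ≤ q by omega)
    have e2 := bo1 c (show q + 1 ≤ a by omega)
    have e3 := be2 c (show a + 1 ≤ k by omega)
    omega
  · clear hD fD fa
    replace fz := fz hz.2.1
    rw [Fv_ET hz] at fz
    have sa := st_OF c (by omega) ha
    have sz := st_ET c (by omega) hz
    have sq := st_ET c (by omega) hq
    have ja := (JOF c (k := k) (q := q) (by omega) ha).1 (by omega)
    have jz := (JET c (k := k) (q := q) (by omega) hz).2.1 (by omega)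
    rw [ja, jz]
    clear ja jz
    have pa := ha.1
    have pz := hz.1
    have pq := hq.1
    have b0 := zeroB c
    have e0 := be2 c (show 0 ≤ z - 1 by omega)
    have e1 := be2 c (show z ≤ q - 1 by omega)
    have e2 := bo1 c (show q + 1 ≤ a by omega)
    have e3 := be2 c (show a + 1 ≤ k by omega)
    simp only [S] at fz
    omega
  · clear hD fD fa fz
    have sa := st_OF c (by omega) ha
    have sz := st_OF c (by omega) hz
    have sq := st_ET c (by omega) hq
    have ja := (JOF c (k := k) (q := q) (by omega) ha).1 (by omega)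
    have jz := (JOF c (k := k) (q := q) (by omega) hz).2.1 (by omega)
    rw [ja, jz]
    clear ja jz
    have pa := ha.1
    have pz := hz.1
    have pq := hq.1
    have b0 := zeroB c
    have e0 := be2 c (show 0 ≤ z by omega)
    have e1 := bo1 c (show z + 1 ≤ q by omega)
    have e2 := bo1 c (show q + 1 ≤ a by omega)
    have e3 := be2 c (show a + 1 ≤ k by omega)
    omega

theorem HN_zqa_bg (c : ℕ → Bool) {k q a z : ℕ} (hk : k % 2 = 1)
    (hf : 0 < z) (h0 : z < q) (h1 : q < a) (hl : a < k)
    (ka : KB c a) (kz : KG c z) (hq : ET c q)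
    (hD : S c k < 0) (fD : S c q < S c k) (fa : S c q ≤ Fv c a)
    (fz : c z = true → S c q < Fv c z) :
    J c k q a - J c k q z + 1 ≤ Bo c k := by
  rcases ka with ha | ha <;> rcases kz with hz | hz
  · clear hD fD fa
    replace fz := fz hz.2.1
    rw [Fv_OT hz] at fz
    have sa := st_ET c (by omega) ha
    have sz := st_OT c (by omega) hz
    have sq := st_ET c (by omega) hq
    have ja := (JET c (k := k) (q := q) (by omega) ha).1 (by omega)
    have jz := (JOT c (k := k) (q := q) (by omega) hz).2.1 (by omega)
    rw [ja, jz]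
    clear ja jz
    have pa := ha.1
    have pz := hz.1
    have pq := hq.1
    have b0 := zeroB c
    have e0 := be2 c (show 0 ≤ z by omega)
    have e1 := be2 c (show z ≤ q - 1 by omega)
    have e2 := bo1 c (show q + 1 ≤ a by omega)
    have e3 := be2 c (show a + 1 ≤ k by omega)
    simp only [S] at fz
    omega
  · clear hD fD fa fz
    have sa := st_ET c (by omega) ha
    have sz := st_EF c (by omega) hz
    have sq := st_ET c (by omega) hq
    have ja := (JET c (k := k) (q := q) (by omega) ha).1 (by omega)
    have jz := (JEF c (k := k) (q := q) (by omega) hz).2.1 (by omega)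
    rw [ja, jz]
    clear ja jz
    have pa := ha.1
    have pz := hz.1
    have pq := hq.1
    have b0 := zeroB c
    have e0 := be2 c (show 0 ≤ z by omega)
    have e1 := bo1 c (show z + 1 ≤ q by omega)
    have e2 := bo1 c (show q + 1 ≤ a by omega)
    have e3 := be2 c (show a + 1 ≤ k by omega)
    omega
  · clear hD fD fa
    replace fz := fz hz.2.1
    rw [Fv_OT hz] at fz
    have sa := st_OF c (by omega) ha
    have sz := st_OT c (by omega) hz
    have sq := st_ET c (by omega) hq
    have ja := (JOF c (k := k) (q := q) (by omega) ha).1 (by omega)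
    have jz := (JOT c (k := k) (q := q) (by omega) hz).2.1 (by omega)
    rw [ja, jz]
    clear ja jz
    have pa := ha.1
    have pz := hz.1
    have pq := hq.1
    have b0 := zeroB c
    have e0 := be2 c (show 0 ≤ z by omega)
    have e1 := be2 c (show z ≤ q - 1 by omega)
    have e2 := bo1 c (show q + 1 ≤ a by omega)
    have e3 := be2 c (show a + 1 ≤ k by omega)
    simp only [S] at fz
    omega
  · clear hD fD fa fz
    have sa := st_OF c (by omega) ha
    have sz := st_EF c (by omega) hz
    have sq := st_ET c (by omega) hq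
    have ja := (JOF c (k := k) (q := q) (by omega) ha).1 (by omega)
    have jz := (JEF c (k := k) (q := q) (by omega) hz).2.1 (by omega)
    rw [ja, jz]
    clear ja jz
    have pa := ha.1
    have pz := hz.1
    have pq := hq.1
    have b0 := zeroB c
    have e0 := be2 c (show 0 ≤ z by omega)
    have e1 := bo1 c (show z + 1 ≤ q by omega)
    have e2 := bo1 c (show q + 1 ≤ a by omega)
    have e3 := be2 c (show a + 1 ≤ k by omega)
    omega

theorem TN_azq_bb (c : ℕ → Bool) {k q a z : ℕ} (hk : k % 2 = 1)
    (hf : 0 < a) (h0 : a < z) (h1 : z < q) (hl : q < k)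
    (ka : KB c a) (kz : KB c z) (hq : ET c q)
    (hD : S c k < 0) (fD : S c q < S c k) (fa : S c q < Fv c a)
    (fz : c z = true → S c q < Fv c z) :
    J c k q a - J c k q z + 0 ≤ Be c k + 1 := by
  rcases ka with ha | ha <;> rcases kz with hz | hz
  · clear hD fD fa
    replace fz := fz hz.2.1
    rw [Fv_ET hz] at fz
    have sa := st_ET c (by omega) ha
    have sz := st_ET c (by omega) hz
    have sq := st_ET c (by omega) hq
    have ja := (JET c (k := k) (q := q) (by omega) ha).2.1 (by omega)
    have jz := (JET c (k := k) (q := q) (by omega) hz).2.1 (by omega)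
    rw [ja, jz]
    clear ja jz
    have pa := ha.1
    have pz := hz.1
    have pq := hq.1
    have b0 := zeroB c
    have e0 := be1 c (show 0 ≤ a by omega)
    have e1 := bo2 c (show a + 1 ≤ z by omega)
    have e2 := bo2 c (show z + 1 ≤ q by omega)
    have e3 := be1 c (show q + 1 ≤ k by omega)
    simp only [S] at fz
    omega
  · clear hD fD fa fz
    have sa := st_ET c (by omega) ha
    have sz := st_OF c (by omega) hz
    have sq := st_ET c (by omega) hq
    have ja := (JET c (k := k) (q := q) (by omega) ha).2.1 (by omega)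
    have jz := (JOF c (k := k) (q := q) (by omega) hz).2.1 (by omega)
    rw [ja, jz]
    clear ja jz
    have pa := ha.1
    have pz := hz.1
    have pq := hq.1
    have b0 := zeroB c
    have e0 := be1 c (show 0 ≤ a by omega)
    have e1 := bo2 c (show a + 1 ≤ z by omega)
    have e2 := be1 c (show z + 1 ≤ q by omega)
    have e3 := be1 c (show q + 1 ≤ k by omega)
    omega
  · clear hD fD fa
    replace fz := fz hz.2.1
    rw [Fv_ET hz] at fz
    have sa := st_OF c (by omega) ha
    have sz := st_ET c (by omega) hz
    have sq := st_ET c (by omega) hq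
    have ja := (JOF c (k := k) (q := q) (by omega) ha).2.1 (by omega)
    have jz := (JET c (k := k) (q := q) (by omega) hz).2.1 (by omega)
    rw [ja, jz]
    clear ja jz
    have pa := ha.1
    have pz := hz.1
    have pq := hq.1
    have b0 := zeroB c
    have e0 := be1 c (show 0 ≤ a by omega)
    have e1 := bo2 c (show a + 1 ≤ z by omega)
    have e2 := bo2 c (show z + 1 ≤ q by omega)
    have e3 := be1 c (show q + 1 ≤ k by omega)
    simp only [S] at fz
    omega
  · clear hD fD fa fz
    have sa := st_OF c (by omega) ha
    have sz := st_OF c (by omega) hz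
    have sq := st_ET c (by omega) hq
    have ja := (JOF c (k := k) (q := q) (by omega) ha).2.1 (by omega)
    have jz := (JOF c (k := k) (q := q) (by omega) hz).2.1 (by omega)
    rw [ja, jz]
    clear ja jz
    have pa := ha.1
    have pz := hz.1
    have pq := hq.1
    have b0 := zeroB c
    have e0 := be1 c (show 0 ≤ a by omega)
    have e1 := bo2 c (show a + 1 ≤ z by omega)
    have e2 := be1 c (show z + 1 ≤ q by omega)
    have e3 := be1 c (show q + 1 ≤ k by omega)
    omega

theorem TN_azq_bg (c : ℕ → Bool) {k q a z : ℕ} (hk : k % 2 = 1)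
    (hf : 0 < a) (h0 : a < z) (h1 : z < q) (hl : q < k)
    (ka : KB c a) (kz : KG c z) (hq : ET c q)
    (hD : S c k < 0) (fD : S c q < S c k) (fa : S c q < Fv c a)
    (fz : c z = true → S c q < Fv c z) :
    J c k q a - J c k q z + 2 ≤ Be c k + 1 := by
  rcases ka with ha | ha <;> rcases kz with hz | hz
  · clear hD fD fa fz
    have sa := st_ET c (by omega) ha
    have sz := st_OT c (by omega) hz
    have sq := st_ET c (by omega) hq
    have ja := (JET c (k := k) (q := q) (by omega) ha).2.1 (by omega)
    have jz := (JOT c (k := k) (q := q) (by omega) hz).2.1 (by omega)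
    rw [ja, jz]
    clear ja jz
    have pa := ha.1
    have pz := hz.1
    have pq := hq.1
    have b0 := zeroB c
    have e0 := be1 c (show 0 ≤ a by omega)
    have e1 := bo2 c (show a ≤ z - 1 by omega)
    have e2 := be1 c (show z + 1 ≤ q by omega)
    have e3 := be1 c (show q + 1 ≤ k by omega)
    omega
  · clear hD fD fa fz
    have sa := st_ET c (by omega) ha
    have sz := st_EF c (by omega) hz
    have sq := st_ET c (by omega) hq
    have ja := (JET c (k := k) (q := q) (by omega) ha).2.1 (by omega)
    have jz := (JEF c (k := k) (q := q) (by omega) hz).2.1 (by omega)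
    rw [ja, jz]
    clear ja jz
    have pa := ha.1
    have pz := hz.1
    have pq := hq.1
    have b0 := zeroB c
    have e0 := be1 c (show 0 ≤ a by omega)
    have e1 := bo2 c (show a + 1 ≤ z by omega)
    have e2 := be1 c (show z + 1 ≤ q by omega)
    have e3 := be1 c (show q + 1 ≤ k by omega)
    omega
  · clear hD fD fa fz
    have sa := st_OF c (by omega) ha
    have sz := st_OT c (by omega) hz
    have sq := st_ET c (by omega) hq
    have ja := (JOF c (k := k) (q := q) (by omega) ha).2.1 (by omega)
    have jz := (JOT c (k := k) (q := q) (by omega) hz).2.1 (by omega)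
    rw [ja, jz]
    clear ja jz
    have pa := ha.1
    have pz := hz.1
    have pq := hq.1
    have b0 := zeroB c
    have e0 := be1 c (show 0 ≤ a by omega)
    have e1 := bo2 c (show a ≤ z - 1 by omega)
    have e2 := be1 c (show z + 1 ≤ q by omega)
    have e3 := be1 c (show q + 1 ≤ k by omega)
    omega
  · clear hD fD fa fz
    have sa := st_OF c (by omega) ha
    have sz := st_EF c (by omega) hz
    have sq := st_ET c (by omega) hq
    have ja := (JOF c (k := k) (q := q) (by omega) ha).2.1 (by omega)
    have jz := (JEF c (k := k) (q := q) (by omega) hz).2.1 (by omega)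
    rw [ja, jz]
    clear ja jz
    have pa := ha.1
    have pz := hz.1
    have pq := hq.1
    have b0 := zeroB c
    have e0 := be1 c (show 0 ≤ a by omega)
    have e1 := bo2 c (show a + 1 ≤ z by omega)
    have e2 := be1 c (show z + 1 ≤ q by omega)
    have e3 := be1 c (show q + 1 ≤ k by omega)
    omega

theorem TN_azq_gb (c : ℕ → Bool) {k q a z : ℕ} {n0 n1 n2 n3 : ℤ} (hk : k % 2 = 1)
    (hf : 0 < a) (h0 : a < z) (h1 : z < q) (hl : q < k)
    (ka : KG c a) (kz : KB c z) (hq : ET c q)
    (hD : S c k < 0) (fD : S c q < S c k) (fa : S c q < Fv c a)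
    (fz : c z = true → S c q < Fv c z)
    (n0z : 0 ≤ n0) (n0a : 2 * n0 ≤ Be c (a - 1) - Be c 0) (n0b : 2 * n0 ≤ Go c a - Go c 0)
    (n1z : 0 ≤ n1) (n1a : 2 * n1 ≤ Be c (z - 1) - Be c a) (n1b : 2 * n1 ≤ Go c z - Go c (a + 1))
    (n2z : 0 ≤ n2) (n2a : 2 * n2 ≤ Be c (q - 1) - Be c z) (n2b : 2 * n2 - 1 ≤ Go c q - Go c (z + 1))
    (n3z : 0 ≤ n3) (n3a : 2 * n3 ≤ Be c k - Be c q) (n3b : 2 * n3 ≤ Go c k - Go c (q + 1)) :
    J c k q a - J c k q z + (n0 + n1 + n2 + n3) + 1 ≤ Be c k + 1 := by
  rcases ka with ha | ha <;> rcases kz with hz | hz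
  · clear hD fD fa n0z n0b n1z n1a n2a n3z n3b
    replace fz := fz hz.2.1
    rw [Fv_ET hz] at fz
    have sa := st_OT c (by omega) ha
    have sz := st_ET c (by omega) hz
    have sq := st_ET c (by omega) hq
    have ja := (JOT c (k := k) (q := q) (by omega) ha).2.1 (by omega)
    have jz := (JET c (k := k) (q := q) (by omega) hz).2.1 (by omega)
    rw [ja, jz]
    clear ja jz
    have n2c : n2 ≤ Go c q - Go c (z + 1) := by
      have := go0 c (show z + 1 ≤ q by omega)
      omega
    clear n2z n2b
    have pa := ha.1
    have pz := hz.1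
    have pq := hq.1
    have b0 := zeroB c
    have e0 := be1 c (show 0 ≤ a by omega)
    have e1 := bo2 c (show a + 1 ≤ z by omega)
    have e2 := be1 c (show q + 1 ≤ k by omega)
    simp only [S, Go] at fz n1b n2c
    omega
  · clear hD fD fa fz n0z n0b n1z n1a n2z n2b n3z n3b
    have sa := st_OT c (by omega) ha
    have sz := st_OF c (by omega) hz
    have sq := st_ET c (by omega) hq
    have ja := (JOT c (k := k) (q := q) (by omega) ha).2.1 (by omega)
    have jz := (JOF c (k := k) (q := q) (by omega) hz).2.1 (by omega)
    rw [ja, jz]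
    clear ja jz
    have pa := ha.1
    have pz := hz.1
    have pq := hq.1
    have b0 := zeroB c
    have e0 := be1 c (show 0 ≤ a by omega)
    have e1 := bo2 c (show a + 1 ≤ z by omega)
    have e2 := be1 c (show z + 1 ≤ q by omega)
    have e3 := be1 c (show q + 1 ≤ k by omega)
    simp only [Go] at n1b
    omega
  · clear hD fD fa n0z n0b n1z n1a n2a n3z n3b
    replace fz := fz hz.2.1
    rw [Fv_ET hz] at fz
    have sa := st_EF c (by omega) ha
    have sz := st_ET c (by omega) hz
    have sq := st_ET c (by omega) hq
    have ja := (JEF c (k := k) (q := q) (by omega) ha).2.1 (by omega)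
    have jz := (JET c (k := k) (q := q) (by omega) hz).2.1 (by omega)
    rw [ja, jz]
    clear ja jz
    have n2c : n2 ≤ Go c q - Go c (z + 1) := by
      have := go0 c (show z + 1 ≤ q by omega)
      omega
    clear n2z n2b
    have pa := ha.1
    have pz := hz.1
    have pq := hq.1
    have b0 := zeroB c
    have e0 := be1 c (show 0 ≤ a - 1 by omega)
    have e1 := bo2 c (show a + 1 ≤ z by omega)
    have e2 := be1 c (show q + 1 ≤ k by omega)
    simp only [S, Go] at fz n1b n2c
    omega
  · clear hD fD fa fz n0z n0b n1z n1a n2z n2b n3z n3b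
    have sa := st_EF c (by omega) ha
    have sz := st_OF c (by omega) hz
    have sq := st_ET c (by omega) hq
    have ja := (JEF c (k := k) (q := q) (by omega) ha).2.1 (by omega)
    have jz := (JOF c (k := k) (q := q) (by omega) hz).2.1 (by omega)
    rw [ja, jz]
    clear ja jz
    have pa := ha.1
    have pz := hz.1
    have pq := hq.1
    have b0 := zeroB c
    have e0 := be1 c (show 0 ≤ a - 1 by omega)
    have e1 := bo2 c (show a + 1 ≤ z by omega)
    have e2 := be1 c (show z + 1 ≤ q by omega)
    have e3 := be1 c (show q + 1 ≤ k by omega)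
    simp only [Go] at n1b
    omega

theorem TN_azq_gg (c : ℕ → Bool) {k q a z : ℕ} (hk : k % 2 = 1)
    (hf : 0 < a) (h0 : a < z) (h1 : z < q) (hl : q < k)
    (ka : KG c a) (kz : KG c z) (hq : ET c q)
    (hD : S c k < 0) (fD : S c q < S c k) (fa : S c q < Fv c a)
    (fz : c z = true → S c q < Fv c z) :
    J c k q a - J c k q z + 2 ≤ Be c k + 1 := by
  rcases ka with ha | ha <;> rcases kz with hz | hz
  · clear hD fD fa fz
    have sa := st_OT c (by omega) ha
    have sz := st_OT c (by omega) hz
    have sq := st_ET c (by omega) hq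
    have ja := (JOT c (k := k) (q := q) (by omega) ha).2.1 (by omega)
    have jz := (JOT c (k := k) (q := q) (by omega) hz).2.1 (by omega)
    rw [ja, jz]
    clear ja jz
    have pa := ha.1
    have pz := hz.1
    have pq := hq.1
    have b0 := zeroB c
    have e0 := be1 c (show 0 ≤ a by omega)
    have e1 := bo2 c (show a ≤ z - 1 by omega)
    have e2 := be1 c (show z + 1 ≤ q by omega)
    have e3 := be1 c (show q + 1 ≤ k by omega)
    omega
  · clear hD fD fa fz
    have sa := st_OT c (by omega) ha
    have sz := st_EF c (by omega) hz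
    have sq := st_ET c (by omega) hq
    have ja := (JOT c (k := k) (q := q) (by omega) ha).2.1 (by omega)
    have jz := (JEF c (k := k) (q := q) (by omega) hz).2.1 (by omega)
    rw [ja, jz]
    clear ja jz
    have pa := ha.1
    have pz := hz.1
    have pq := hq.1
    have b0 := zeroB c
    have e0 := be1 c (show 0 ≤ a by omega)
    have e1 := bo2 c (show a + 1 ≤ z by omega)
    have e2 := be1 c (show z + 1 ≤ q by omega)
    have e3 := be1 c (show q + 1 ≤ k by omega)
    omega
  · clear hD fD fa fz
    have sa := st_EF c (by omega) ha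
    have sz := st_OT c (by omega) hz
    have sq := st_ET c (by omega) hq
    have ja := (JEF c (k := k) (q := q) (by omega) ha).2.1 (by omega)
    have jz := (JOT c (k := k) (q := q) (by omega) hz).2.1 (by omega)
    rw [ja, jz]
    clear ja jz
    have pa := ha.1
    have pz := hz.1
    have pq := hq.1
    have b0 := zeroB c
    have e0 := be1 c (show 0 ≤ a - 1 by omega)
    have e1 := bo2 c (show a + 1 ≤ z by omega)
    have e2 := be1 c (show z + 1 ≤ q by omega)
    have e3 := be1 c (show q + 1 ≤ k by omega)
    omega
  · clear hD fD fa fz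
    have sa := st_EF c (by omega) ha
    have sz := st_EF c (by omega) hz
    have sq := st_ET c (by omega) hq
    have ja := (JEF c (k := k) (q := q) (by omega) ha).2.1 (by omega)
    have jz := (JEF c (k := k) (q := q) (by omega) hz).2.1 (by omega)
    rw [ja, jz]
    clear ja jz
    have pa := ha.1
    have pz := hz.1
    have pq := hq.1
    have b0 := zeroB c
    have e0 := be1 c (show 0 ≤ a - 1 by omega)
    have e1 := bo2 c (show a + 1 ≤ z by omega)
    have e2 := be1 c (show z + 1 ≤ q by omega)
    have e3 := be1 c (show q + 1 ≤ k by omega)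
    omega

theorem HN_azq_bb (c : ℕ → Bool) {k q a z : ℕ} (hk : k % 2 = 1)
    (hf : 0 < a) (h0 : a < z) (h1 : z < q) (hl : q < k)
    (ka : KB c a) (kz : KB c z) (hq : ET c q)
    (hD : S c k < 0) (fD : S c q < S c k) (fa : S c q < Fv c a)
    (fz : c z = true → S c q < Fv c z) :
    J c k q a - J c k q z + 1 ≤ Bo c k := by
  rcases ka with ha | ha <;> rcases kz with hz | hz
  · clear hD fD fa
    replace fz := fz hz.2.1
    rw [Fv_ET hz] at fz
    have sa := st_ET c (by omega) ha
    have sz := st_ET c (by omega) hz
    have sq := st_ET c (by omega) hq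
    have ja := (JET c (k := k) (q := q) (by omega) ha).2.1 (by omega)
    have jz := (JET c (k := k) (q := q) (by omega) hz).2.1 (by omega)
    rw [ja, jz]
    clear ja jz
    have pa := ha.1
    have pz := hz.1
    have pq := hq.1
    have b0 := zeroB c
    have e0 := bo1 c (show 0 ≤ a by omega)
    have e1 := be2 c (show a ≤ z - 1 by omega)
    have e2 := be2 c (show z ≤ q - 1 by omega)
    have e3 := bo1 c (show q + 1 ≤ k by omega)
    simp only [S] at fz
    omega
  · clear hD fD fa fz
    have sa := st_ET c (by omega) ha
    have sz := st_OF c (by omega) hz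
    have sq := st_ET c (by omega) hq
    have ja := (JET c (k := k) (q := q) (by omega) ha).2.1 (by omega)
    have jz := (JOF c (k := k) (q := q) (by omega) hz).2.1 (by omega)
    rw [ja, jz]
    clear ja jz
    have pa := ha.1
    have pz := hz.1
    have pq := hq.1
    have b0 := zeroB c
    have e0 := bo1 c (show 0 ≤ a by omega)
    have e1 := be2 c (show a + 1 ≤ z by omega)
    have e2 := bo1 c (show z + 1 ≤ q by omega)
    have e3 := bo1 c (show q + 1 ≤ k by omega)
    omega
  · clear hD fD fa
    replace fz := fz hz.2.1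
    rw [Fv_ET hz] at fz
    have sa := st_OF c (by omega) ha
    have sz := st_ET c (by omega) hz
    have sq := st_ET c (by omega) hq
    have ja := (JOF c (k := k) (q := q) (by omega) ha).2.1 (by omega)
    have jz := (JET c (k := k) (q := q) (by omega) hz).2.1 (by omega)
    rw [ja, jz]
    clear ja jz
    have pa := ha.1
    have pz := hz.1
    have pq := hq.1
    have b0 := zeroB c
    have e0 := bo1 c (show 0 ≤ a - 1 by omega)
    have e1 := be2 c (show a + 1 ≤ z by omega)
    have e2 := be2 c (show z ≤ q - 1 by omega)
    have e3 := bo1 c (show q + 1 ≤ k by omega)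
    simp only [S] at fz
    omega
  · clear hD fD fa fz
    have sa := st_OF c (by omega) ha
    have sz := st_OF c (by omega) hz
    have sq := st_ET c (by omega) hq
    have ja := (JOF c (k := k) (q := q) (by omega) ha).2.1 (by omega)
    have jz := (JOF c (k := k) (q := q) (by omega) hz).2.1 (by omega)
    rw [ja, jz]
    clear ja jz
    have pa := ha.1
    have pz := hz.1
    have pq := hq.1
    have b0 := zeroB c
    have e0 := bo1 c (show 0 ≤ a - 1 by omega)
    have e1 := be2 c (show a + 1 ≤ z by omega)
    have e2 := bo1 c (show z + 1 ≤ q by omega)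
    have e3 := bo1 c (show q + 1 ≤ k by omega)
    omega

theorem HN_azq_bg (c : ℕ → Bool) {k q a z : ℕ} (hk : k % 2 = 1)
    (hf : 0 < a) (h0 : a < z) (h1 : z < q) (hl : q < k)
    (ka : KB c a) (kz : KG c z) (hq : ET c q)
    (hD : S c k < 0) (fD : S c q < S c k) (fa : S c q < Fv c a)
    (fz : c z = true → S c q < Fv c z) :
    J c k q a - J c k q z + 1 ≤ Bo c k := by
  rcases ka with ha | ha <;> rcases kz with hz | hz
  · clear hD fD fa
    replace fz := fz hz.2.1
    rw [Fv_OT hz] at fz
    have sa := st_ET c (by omega) ha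
    have sz := st_OT c (by omega) hz
    have sq := st_ET c (by omega) hq
    have ja := (JET c (k := k) (q := q) (by omega) ha).2.1 (by omega)
    have jz := (JOT c (k := k) (q := q) (by omega) hz).2.1 (by omega)
    rw [ja, jz]
    clear ja jz
    have pa := ha.1
    have pz := hz.1
    have pq := hq.1
    have b0 := zeroB c
    have e0 := bo1 c (show 0 ≤ a by omega)
    have e1 := be2 c (show a + 1 ≤ z by omega)
    have e2 := be2 c (show z ≤ q - 1 by omega)
    have e3 := bo1 c (show q + 1 ≤ k by omega)
    simp only [S] at fz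
    omega
  · clear hD fD fa fz
    have sa := st_ET c (by omega) ha
    have sz := st_EF c (by omega) hz
    have sq := st_ET c (by omega) hq
    have ja := (JET c (k := k) (q := q) (by omega) ha).2.1 (by omega)
    have jz := (JEF c (k := k) (q := q) (by omega) hz).2.1 (by omega)
    rw [ja, jz]
    clear ja jz
    have pa := ha.1
    have pz := hz.1
    have pq := hq.1
    have b0 := zeroB c
    have e0 := bo1 c (show 0 ≤ a by omega)
    have e1 := be2 c (show a + 1 ≤ z by omega)
    have e2 := bo1 c (show z + 1 ≤ q by omega)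
    have e3 := bo1 c (show q + 1 ≤ k by omega)
    omega
  · clear hD fD fa
    replace fz := fz hz.2.1
    rw [Fv_OT hz] at fz
    have sa := st_OF c (by omega) ha
    have sz := st_OT c (by omega) hz
    have sq := st_ET c (by omega) hq
    have ja := (JOF c (k := k) (q := q) (by omega) ha).2.1 (by omega)
    have jz := (JOT c (k := k) (q := q) (by omega) hz).2.1 (by omega)
    rw [ja, jz]
    clear ja jz
    have pa := ha.1
    have pz := hz.1
    have pq := hq.1
    have b0 := zeroB c
    have e0 := bo1 c (show 0 ≤ a - 1 by omega)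
    have e1 := be2 c (show a + 1 ≤ z by omega)
    have e2 := be2 c (show z ≤ q - 1 by omega)
    have e3 := bo1 c (show q + 1 ≤ k by omega)
    simp only [S] at fz
    omega
  · clear hD fD fa fz
    have sa := st_OF c (by omega) ha
    have sz := st_EF c (by omega) hz
    have sq := st_ET c (by omega) hq
    have ja := (JOF c (k := k) (q := q) (by omega) ha).2.1 (by omega)
    have jz := (JEF c (k := k) (q := q) (by omega) hz).2.1 (by omega)
    rw [ja, jz]
    clear ja jz
    have pa := ha.1
    have pz := hz.1
    have pq := hq.1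
    have b0 := zeroB c
    have e0 := bo1 c (show 0 ≤ a - 1 by omega)
    have e1 := be2 c (show a + 1 ≤ z by omega)
    have e2 := bo1 c (show z + 1 ≤ q by omega)
    have e3 := bo1 c (show q + 1 ≤ k by omega)
    omega

theorem TN_zaq_bb (c : ℕ → Bool) {k q a z : ℕ} (hk : k % 2 = 1)
    (hf : 0 < z) (h0 : z < a) (h1 : a < q) (hl : q < k)
    (ka : KB c a) (kz : KB c z) (hq : ET c q)
    (hD : S c k < 0) (fD : S c q < S c k) (fa : S c q < Fv c a)
    (fz : c z = true → S c q < Fv c z) :
    J c k q a - J c k q z + 0 ≤ Be c k + 1 := by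
  rcases ka with ha | ha <;> rcases kz with hz | hz
  · clear hD fD fa
    replace fz := fz hz.2.1
    rw [Fv_ET hz] at fz
    have sa := st_ET c (by omega) ha
    have sz := st_ET c (by omega) hz
    have sq := st_ET c (by omega) hq
    have ja := (JET c (k := k) (q := q) (by omega) ha).2.1 (by omega)
    have jz := (JET c (k := k) (q := q) (by omega) hz).2.1 (by omega)
    rw [ja, jz]
    clear ja jz
    have pa := ha.1
    have pz := hz.1
    have pq := hq.1
    have b0 := zeroB c
    have e0 := be1 c (show 0 ≤ z by omega)
    have e1 := be1 c (show z + 1 ≤ a by omega)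
    have e2 := bo2 c (show a + 1 ≤ q by omega)
    have e3 := be1 c (show q + 1 ≤ k by omega)
    simp only [S] at fz
    omega
  · clear fa fz
    have sa := st_ET c (by omega) ha
    have sz := st_OF c (by omega) hz
    have sq := st_ET c (by omega) hq
    have ja := (JET c (k := k) (q := q) (by omega) ha).2.1 (by omega)
    have jz := (JOF c (k := k) (q := q) (by omega) hz).2.1 (by omega)
    rw [ja, jz]
    clear ja jz
    have pa := ha.1
    have pz := hz.1
    have pq := hq.1
    have b0 := zeroB c
    have e0 := bo2 c (show 0 ≤ z by omega)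
    have e1 := be1 c (show z + 1 ≤ a by omega)
    have e2 := bo2 c (show a + 1 ≤ q by omega)
    have e3 := be1 c (show q + 1 ≤ k by omega)
    simp only [S] at hD fD
    omega
  · clear hD fD fa
    replace fz := fz hz.2.1
    rw [Fv_ET hz] at fz
    have sa := st_OF c (by omega) ha
    have sz := st_ET c (by omega) hz
    have sq := st_ET c (by omega) hq
    have ja := (JOF c (k := k) (q := q) (by omega) ha).2.1 (by omega)
    have jz := (JET c (k := k) (q := q) (by omega) hz).2.1 (by omega)
    rw [ja, jz]
    clear ja jz
    have pa := ha.1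
    have pz := hz.1
    have pq := hq.1
    have b0 := zeroB c
    have e0 := be1 c (show 0 ≤ z by omega)
    have e1 := be1 c (show z + 1 ≤ a by omega)
    have e2 := bo2 c (show a + 1 ≤ q by omega)
    have e3 := be1 c (show q + 1 ≤ k by omega)
    simp only [S] at fz
    omega
  · clear fa fz
    have sa := st_OF c (by omega) ha
    have sz := st_OF c (by omega) hz
    have sq := st_ET c (by omega) hq
    have ja := (JOF c (k := k) (q := q) (by omega) ha).2.1 (by omega)
    have jz := (JOF c (k := k) (q := q) (by omega) hz).2.1 (by omega)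
    rw [ja, jz]
    clear ja jz
    have pa := ha.1
    have pz := hz.1
    have pq := hq.1
    have b0 := zeroB c
    have e0 := bo2 c (show 0 ≤ z by omega)
    have e1 := be1 c (show z + 1 ≤ a by omega)
    have e2 := bo2 c (show a + 1 ≤ q by omega)
    have e3 := be1 c (show q + 1 ≤ k by omega)
    simp only [S] at hD fD
    omega

theorem TN_zaq_bg (c : ℕ → Bool) {k q a z : ℕ} (hk : k % 2 = 1)
    (hf : 0 < z) (h0 : z < a) (h1 : a < q) (hl : q < k)
    (ka : KB c a) (kz : KG c z) (hq : ET c q)
    (hD : S c k < 0) (fD : S c q < S c k) (fa : S c q < Fv c a)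
    (fz : c z = true → S c q < Fv c z) :
    J c k q a - J c k q z + 2 ≤ Be c k + 1 := by
  rcases ka with ha | ha <;> rcases kz with hz | hz
  · clear fa fz
    have sa := st_ET c (by omega) ha
    have sz := st_OT c (by omega) hz
    have sq := st_ET c (by omega) hq
    have ja := (JET c (k := k) (q := q) (by omega) ha).2.1 (by omega)
    have jz := (JOT c (k := k) (q := q) (by omega) hz).2.1 (by omega)
    rw [ja, jz]
    clear ja jz
    have pa := ha.1
    have pz := hz.1
    have pq := hq.1
    have b0 := zeroB c
    have e0 := bo2 c (show 0 ≤ z - 1 by omega)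
    have e1 := be1 c (show z + 1 ≤ a by omega)
    have e2 := bo2 c (show a + 1 ≤ q by omega)
    have e3 := be1 c (show q + 1 ≤ k by omega)
    simp only [S] at hD fD
    omega
  · clear fa fz
    have sa := st_ET c (by omega) ha
    have sz := st_EF c (by omega) hz
    have sq := st_ET c (by omega) hq
    have ja := (JET c (k := k) (q := q) (by omega) ha).2.1 (by omega)
    have jz := (JEF c (k := k) (q := q) (by omega) hz).2.1 (by omega)
    rw [ja, jz]
    clear ja jz
    have pa := ha.1
    have pz := hz.1
    have pq := hq.1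
    have b0 := zeroB c
    have e0 := bo2 c (show 0 ≤ z by omega)
    have e1 := be1 c (show z + 1 ≤ a by omega)
    have e2 := bo2 c (show a + 1 ≤ q by omega)
    have e3 := be1 c (show q + 1 ≤ k by omega)
    simp only [S] at hD fD
    omega
  · clear fa fz
    have sa := st_OF c (by omega) ha
    have sz := st_OT c (by omega) hz
    have sq := st_ET c (by omega) hq
    have ja := (JOF c (k := k) (q := q) (by omega) ha).2.1 (by omega)
    have jz := (JOT c (k := k) (q := q) (by omega) hz).2.1 (by omega)
    rw [ja, jz]
    clear ja jz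
    have pa := ha.1
    have pz := hz.1
    have pq := hq.1
    have b0 := zeroB c
    have e0 := bo2 c (show 0 ≤ z - 1 by omega)
    have e1 := be1 c (show z + 1 ≤ a by omega)
    have e2 := bo2 c (show a + 1 ≤ q by omega)
    have e3 := be1 c (show q + 1 ≤ k by omega)
    simp only [S] at hD fD
    omega
  · clear fa fz
    have sa := st_OF c (by omega) ha
    have sz := st_EF c (by omega) hz
    have sq := st_ET c (by omega) hq
    have ja := (JOF c (k := k) (q := q) (by omega) ha).2.1 (by omega)
    have jz := (JEF c (k := k) (q := q) (by omega) hz).2.1 (by omega)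
    rw [ja, jz]
    clear ja jz
    have pa := ha.1
    have pz := hz.1
    have pq := hq.1
    have b0 := zeroB c
    have e0 := bo2 c (show 0 ≤ z by omega)
    have e1 := be1 c (show z + 1 ≤ a by omega)
    have e2 := bo2 c (show a + 1 ≤ q by omega)
    have e3 := be1 c (show q + 1 ≤ k by omega)
    simp only [S] at hD fD
    omega

theorem TN_zaq_gb (c : ℕ → Bool) {k q a z : ℕ} {n0 n1 n2 n3 : ℤ} (hk : k % 2 = 1)
    (hf : 0 < z) (h0 : z < a) (h1 : a < q) (hl : q < k)
    (ka : KG c a) (kz : KB c z) (hq : ET c q)
    (hD : S c k < 0) (fD : S c q < S c k) (fa : S c q < Fv c a)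
    (fz : c z = true → S c q < Fv c z)
    (n0z : 0 ≤ n0) (n0a : 2 * n0 ≤ Be c (z - 1) - Be c 0) (n0b : 2 * n0 ≤ Go c z - Go c 0)
    (n1z : 0 ≤ n1) (n1a : 2 * n1 ≤ Be c (a - 1) - Be c z) (n1b : 2 * n1 ≤ Go c a - Go c (z + 1))
    (n2z : 0 ≤ n2) (n2a : 2 * n2 ≤ Be c (q - 1) - Be c a) (n2b : 2 * n2 - 1 ≤ Go c q - Go c (a + 1))
    (n3z : 0 ≤ n3) (n3a : 2 * n3 ≤ Be c k - Be c q) (n3b : 2 * n3 ≤ Go c k - Go c (q + 1)) :
    J c k q a - J c k q z + (n0 + n1 + n2 + n3) + 1 ≤ Be c k + 1 := by
  rcases ka with ha | ha <;> rcases kz with hz | hz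
  · clear hD fD fa n0z n0b n1z n1b n2a n3z n3b
    replace fz := fz hz.2.1
    rw [Fv_ET hz] at fz
    have sa := st_OT c (by omega) ha
    have sz := st_ET c (by omega) hz
    have sq := st_ET c (by omega) hq
    have ja := (JOT c (k := k) (q := q) (by omega) ha).2.1 (by omega)
    have jz := (JET c (k := k) (q := q) (by omega) hz).2.1 (by omega)
    rw [ja, jz]
    clear ja jz
    have n2c : n2 ≤ Go c q - Go c (a + 1) := by
      have := go0 c (show a + 1 ≤ q by omega)
      omega
    clear n2z n2b
    have pa := ha.1
    have pz := hz.1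
    have pq := hq.1
    have b0 := zeroB c
    have e0 := be1 c (show 0 ≤ z by omega)
    have e1 := be1 c (show z + 1 ≤ a by omega)
    have e2 := be1 c (show q + 1 ≤ k by omega)
    simp only [S, Go] at fz n2c
    omega
  · clear fa fz n0z n0a n1z n1b n2a n3z n3b
    have sa := st_OT c (by omega) ha
    have sz := st_OF c (by omega) hz
    have sq := st_ET c (by omega) hq
    have ja := (JOT c (k := k) (q := q) (by omega) ha).2.1 (by omega)
    have jz := (JOF c (k := k) (q := q) (by omega) hz).2.1 (by omega)
    rw [ja, jz]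
    clear ja jz
    have n2c : n2 ≤ Go c q - Go c (a + 1) := by
      have := go0 c (show a + 1 ≤ q by omega)
      omega
    clear n2z n2b
    have pa := ha.1
    have pz := hz.1
    have pq := hq.1
    have b0 := zeroB c
    have e0 := bo2 c (show 0 ≤ z by omega)
    have e1 := be1 c (show z + 1 ≤ a by omega)
    have e2 := be1 c (show q + 1 ≤ k by omega)
    simp only [S, Go] at hD fD n0b n2c
    omega
  · clear hD fD fa n0z n0b n1z n1b n2a n3z n3b
    replace fz := fz hz.2.1
    rw [Fv_ET hz] at fz
    have sa := st_EF c (by omega) ha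
    have sz := st_ET c (by omega) hz
    have sq := st_ET c (by omega) hq
    have ja := (JEF c (k := k) (q := q) (by omega) ha).2.1 (by omega)
    have jz := (JET c (k := k) (q := q) (by omega) hz).2.1 (by omega)
    rw [ja, jz]
    clear ja jz
    have n2c : n2 ≤ Go c q - Go c (a + 1) := by
      have := go0 c (show a + 1 ≤ q by omega)
      omega
    clear n2z n2b
    have pa := ha.1
    have pz := hz.1
    have pq := hq.1
    have b0 := zeroB c
    have e0 := be1 c (show 0 ≤ z by omega)
    have e1 := be1 c (show z ≤ a - 1 by omega)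
    have e2 := be1 c (show q + 1 ≤ k by omega)
    simp only [S, Go] at fz n2c
    omega
  · clear fa fz n0z n0a n1z n1b n2a n3z n3b
    have sa := st_EF c (by omega) ha
    have sz := st_OF c (by omega) hz
    have sq := st_ET c (by omega) hq
    have ja := (JEF c (k := k) (q := q) (by omega) ha).2.1 (by omega)
    have jz := (JOF c (k := k) (q := q) (by omega) hz).2.1 (by omega)
    rw [ja, jz]
    clear ja jz
    have n2c : n2 ≤ Go c q - Go c (a + 1) := by
      have := go0 c (show a + 1 ≤ q by omega)
      omega
    clear n2z n2b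
    have pa := ha.1
    have pz := hz.1
    have pq := hq.1
    have b0 := zeroB c
    have e0 := bo2 c (show 0 ≤ z by omega)
    have e1 := be1 c (show z ≤ a - 1 by omega)
    have e2 := be1 c (show q + 1 ≤ k by omega)
    simp only [S, Go] at hD fD n0b n2c
    omega

theorem TN_zaq_gg (c : ℕ → Bool) {k q a z : ℕ} (hk : k % 2 = 1)
    (hf : 0 < z) (h0 : z < a) (h1 : a < q) (hl : q < k)
    (ka : KG c a) (kz : KG c z) (hq : ET c q)
    (hD : S c k < 0) (fD : S c q < S c k) (fa : S c q < Fv c a)
    (fz : c z = true → S c q < Fv c z) :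
    J c k q a - J c k q z + 2 ≤ Be c k + 1 := by
  rcases ka with ha | ha <;> rcases kz with hz | hz
  · clear fa fz
    have sa := st_OT c (by omega) ha
    have sz := st_OT c (by omega) hz
    have sq := st_ET c (by omega) hq
    have ja := (JOT c (k := k) (q := q) (by omega) ha).2.1 (by omega)
    have jz := (JOT c (k := k) (q := q) (by omega) hz).2.1 (by omega)
    rw [ja, jz]
    clear ja jz
    have pa := ha.1
    have pz := hz.1
    have pq := hq.1
    have b0 := zeroB c
    have e0 := bo2 c (show 0 ≤ z - 1 by omega)
    have e1 := be1 c (show z + 1 ≤ a by omega)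
    have e2 := bo2 c (show a + 1 ≤ q by omega)
    have e3 := be1 c (show q + 1 ≤ k by omega)
    simp only [S] at hD fD
    omega
  · clear fa fz
    have sa := st_OT c (by omega) ha
    have sz := st_EF c (by omega) hz
    have sq := st_ET c (by omega) hq
    have ja := (JOT c (k := k) (q := q) (by omega) ha).2.1 (by omega)
    have jz := (JEF c (k := k) (q := q) (by omega) hz).2.1 (by omega)
    rw [ja, jz]
    clear ja jz
    have pa := ha.1
    have pz := hz.1
    have pq := hq.1
    have b0 := zeroB c
    have e0 := bo2 c (show 0 ≤ z by omega)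
    have e1 := be1 c (show z + 1 ≤ a by omega)
    have e2 := bo2 c (show a + 1 ≤ q by omega)
    have e3 := be1 c (show q + 1 ≤ k by omega)
    simp only [S] at hD fD
    omega
  · clear fa fz
    have sa := st_EF c (by omega) ha
    have sz := st_OT c (by omega) hz
    have sq := st_ET c (by omega) hq
    have ja := (JEF c (k := k) (q := q) (by omega) ha).2.1 (by omega)
    have jz := (JOT c (k := k) (q := q) (by omega) hz).2.1 (by omega)
    rw [ja, jz]
    clear ja jz
    have pa := ha.1
    have pz := hz.1
    have pq := hq.1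
    have b0 := zeroB c
    have e0 := bo2 c (show 0 ≤ z - 1 by omega)
    have e1 := be1 c (show z + 1 ≤ a by omega)
    have e2 := bo2 c (show a + 1 ≤ q by omega)
    have e3 := be1 c (show q + 1 ≤ k by omega)
    simp only [S] at hD fD
    omega
  · clear fa fz
    have sa := st_EF c (by omega) ha
    have sz := st_EF c (by omega) hz
    have sq := st_ET c (by omega) hq
    have ja := (JEF c (k := k) (q := q) (by omega) ha).2.1 (by omega)
    have jz := (JEF c (k := k) (q := q) (by omega) hz).2.1 (by omega)
    rw [ja, jz]
    clear ja jz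
    have pa := ha.1
    have pz := hz.1
    have pq := hq.1
    have b0 := zeroB c
    have e0 := bo2 c (show 0 ≤ z by omega)
    have e1 := be1 c (show z ≤ a - 1 by omega)
    have e2 := bo2 c (show a + 1 ≤ q by omega)
    have e3 := be1 c (show q + 1 ≤ k by omega)
    simp only [S] at hD fD
    omega

theorem HN_zaq_bb (c : ℕ → Bool) {k q a z : ℕ} (hk : k % 2 = 1)
    (hf : 0 < z) (h0 : z < a) (h1 : a < q) (hl : q < k)
    (ka : KB c a) (kz : KB c z) (hq : ET c q)
    (hD : S c k < 0) (fD : S c q < S c k) (fa : S c q < Fv c a)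
    (fz : c z = true → S c q < Fv c z) :
    J c k q a - J c k q z + 1 ≤ Bo c k := by
  rcases ka with ha | ha <;> rcases kz with hz | hz
  · clear fa fz
    have sa := st_ET c (by omega) ha
    have sz := st_ET c (by omega) hz
    have sq := st_ET c (by omega) hq
    have ja := (JET c (k := k) (q := q) (by omega) ha).2.1 (by omega)
    have jz := (JET c (k := k) (q := q) (by omega) hz).2.1 (by omega)
    rw [ja, jz]
    clear ja jz
    have pa := ha.1
    have pz := hz.1
    have pq := hq.1
    have b0 := zeroB c
    have e0 := be2 c (show 0 ≤ z - 1 by omega)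
    have e1 := bo1 c (show z + 1 ≤ a by omega)
    have e2 := be2 c (show a ≤ q - 1 by omega)
    have e3 := bo1 c (show q + 1 ≤ k by omega)
    simp only [S] at hD fD
    omega
  · clear fa fz
    have sa := st_ET c (by omega) ha
    have sz := st_OF c (by omega) hz
    have sq := st_ET c (by omega) hq
    have ja := (JET c (k := k) (q := q) (by omega) ha).2.1 (by omega)
    have jz := (JOF c (k := k) (q := q) (by omega) hz).2.1 (by omega)
    rw [ja, jz]
    clear ja jz
    have pa := ha.1
    have pz := hz.1
    have pq := hq.1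
    have b0 := zeroB c
    have e0 := be2 c (show 0 ≤ z by omega)
    have e1 := bo1 c (show z + 1 ≤ a by omega)
    have e2 := be2 c (show a ≤ q - 1 by omega)
    have e3 := bo1 c (show q + 1 ≤ k by omega)
    simp only [S] at hD fD
    omega
  · clear fa fz
    have sa := st_OF c (by omega) ha
    have sz := st_ET c (by omega) hz
    have sq := st_ET c (by omega) hq
    have ja := (JOF c (k := k) (q := q) (by omega) ha).2.1 (by omega)
    have jz := (JET c (k := k) (q := q) (by omega) hz).2.1 (by omega)
    rw [ja, jz]
    clear ja jz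
    have pa := ha.1
    have pz := hz.1
    have pq := hq.1
    have b0 := zeroB c
    have e0 := be2 c (show 0 ≤ z - 1 by omega)
    have e1 := bo1 c (show z + 1 ≤ a by omega)
    have e2 := be2 c (show a + 1 ≤ q by omega)
    have e3 := bo1 c (show q + 1 ≤ k by omega)
    simp only [S] at hD fD
    omega
  · clear fa fz
    have sa := st_OF c (by omega) ha
    have sz := st_OF c (by omega) hz
    have sq := st_ET c (by omega) hq
    have ja := (JOF c (k := k) (q := q) (by omega) ha).2.1 (by omega)
    have jz := (JOF c (k := k) (q := q) (by omega) hz).2.1 (by omega)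
    rw [ja, jz]
    clear ja jz
    have pa := ha.1
    have pz := hz.1
    have pq := hq.1
    have b0 := zeroB c
    have e0 := be2 c (show 0 ≤ z by omega)
    have e1 := bo1 c (show z ≤ a - 1 by omega)
    have e2 := be2 c (show a + 1 ≤ q by omega)
    have e3 := bo1 c (show q + 1 ≤ k by omega)
    simp only [S] at hD fD
    omega

theorem HN_zaq_bg (c : ℕ → Bool) {k q a z : ℕ} (hk : k % 2 = 1)
    (hf : 0 < z) (h0 : z < a) (h1 : a < q) (hl : q < k)
    (ka : KB c a) (kz : KG c z) (hq : ET c q)
    (hD : S c k < 0) (fD : S c q < S c k) (fa : S c q < Fv c a)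
    (fz : c z = true → S c q < Fv c z) :
    J c k q a - J c k q z + 1 ≤ Bo c k := by
  rcases ka with ha | ha <;> rcases kz with hz | hz
  · clear fa fz
    have sa := st_ET c (by omega) ha
    have sz := st_OT c (by omega) hz
    have sq := st_ET c (by omega) hq
    have ja := (JET c (k := k) (q := q) (by omega) ha).2.1 (by omega)
    have jz := (JOT c (k := k) (q := q) (by omega) hz).2.1 (by omega)
    rw [ja, jz]
    clear ja jz
    have pa := ha.1
    have pz := hz.1
    have pq := hq.1
    have b0 := zeroB c
    have e0 := be2 c (show 0 ≤ z by omega)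
    have e1 := bo1 c (show z + 1 ≤ a by omega)
    have e2 := be2 c (show a ≤ q - 1 by omega)
    have e3 := bo1 c (show q + 1 ≤ k by omega)
    simp only [S] at hD fD
    omega
  · clear fa fz
    have sa := st_ET c (by omega) ha
    have sz := st_EF c (by omega) hz
    have sq := st_ET c (by omega) hq
    have ja := (JET c (k := k) (q := q) (by omega) ha).2.1 (by omega)
    have jz := (JEF c (k := k) (q := q) (by omega) hz).2.1 (by omega)
    rw [ja, jz]
    clear ja jz
    have pa := ha.1
    have pz := hz.1
    have pq := hq.1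
    have b0 := zeroB c
    have e0 := be2 c (show 0 ≤ z by omega)
    have e1 := bo1 c (show z + 1 ≤ a by omega)
    have e2 := be2 c (show a ≤ q - 1 by omega)
    have e3 := bo1 c (show q + 1 ≤ k by omega)
    simp only [S] at hD fD
    omega
  · clear fa fz
    have sa := st_OF c (by omega) ha
    have sz := st_OT c (by omega) hz
    have sq := st_ET c (by omega) hq
    have ja := (JOF c (k := k) (q := q) (by omega) ha).2.1 (by omega)
    have jz := (JOT c (k := k) (q := q) (by omega) hz).2.1 (by omega)
    rw [ja, jz]
    clear ja jz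
    have pa := ha.1
    have pz := hz.1
    have pq := hq.1
    have b0 := zeroB c
    have e0 := be2 c (show 0 ≤ z by omega)
    have e1 := bo1 c (show z ≤ a - 1 by omega)
    have e2 := be2 c (show a + 1 ≤ q by omega)
    have e3 := bo1 c (show q + 1 ≤ k by omega)
    simp only [S] at hD fD
    omega
  · clear fa fz
    have sa := st_OF c (by omega) ha
    have sz := st_EF c (by omega) hz
    have sq := st_ET c (by omega) hq
    have ja := (JOF c (k := k) (q := q) (by omega) ha).2.1 (by omega)
    have jz := (JEF c (k := k) (q := q) (by omega) hz).2.1 (by omega)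
    rw [ja, jz]
    clear ja jz
    have pa := ha.1
    have pz := hz.1
    have pq := hq.1
    have b0 := zeroB c
    have e0 := be2 c (show 0 ≤ z by omega)
    have e1 := bo1 c (show z ≤ a - 1 by omega)
    have e2 := be2 c (show a + 1 ≤ q by omega)
    have e3 := bo1 c (show q + 1 ≤ k by omega)
    simp only [S] at hD fD
    omega

theorem TN_qa_b (c : ℕ → Bool) {k q a : ℕ} (hk : k % 2 = 1)
    (hf : 0 < q) (h0 : q < a) (hl : a < k)
    (ka : KB c a) (hq : ET c q)
    (hD : S c k < 0) (fD : S c q < S c k) (fa : S c q ≤ Fv c a) :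
    J c k q a - J c k q q + 0 ≤ Be c k + 1 := by
  rcases ka with ha | ha
  · clear hD fD fa
    have sa := st_ET c (by omega) ha
    have sq := st_ET c (by omega) hq
    have ja := (JET c (k := k) (q := q) (by omega) ha).1 (by omega)
    have jz := (JET c (k := k) (q := q) (by omega) hq).2.2 rfl
    rw [ja, jz]
    clear ja jz
    have pa := ha.1
    have pq := hq.1
    have e0 := bo1 c (show q + 1 ≤ a by omega)
    have e1 := be1 c (show q + 1 ≤ a by omega)
    omega
  · clear hD fD fa
    have sa := st_OF c (by omega) ha
    have sq := st_ET c (by omega) hq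
    have ja := (JOF c (k := k) (q := q) (by omega) ha).1 (by omega)
    have jz := (JET c (k := k) (q := q) (by omega) hq).2.2 rfl
    rw [ja, jz]
    clear ja jz
    have pa := ha.1
    have pq := hq.1
    have e0 := bo1 c (show q + 1 ≤ a by omega)
    have e1 := be1 c (show q + 1 ≤ a by omega)
    omega

theorem TN_qa_g (c : ℕ → Bool) {k q a : ℕ} {n0 n1 n2 : ℤ} (hk : k % 2 = 1)
    (hf : 0 < q) (h0 : q < a) (hl : a < k)
    (ka : KG c a) (hq : ET c q)
    (hD : S c k < 0) (fD : S c q < S c k) (fa : S c q ≤ Fv c a)
    (n0z : 0 ≤ n0) (n0a : 2 * n0 ≤ Be c (q - 1) - Be c 0) (n0b : 2 * n0 - 1 ≤ Go c q - Go c 0)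
    (n1z : 0 ≤ n1) (n1a : 2 * n1 ≤ Be c (a - 1) - Be c q) (n1b : 2 * n1 ≤ Go c a - Go c (q + 1))
    (n2z : 0 ≤ n2) (n2a : 2 * n2 ≤ Be c k - Be c a) (n2b : 2 * n2 ≤ Go c k - Go c (a + 1)) :
    J c k q a - J c k q q + (n0 + n1 + n2) + 1 ≤ Be c k + 1 := by
  rcases ka with ha | ha
  · clear fD fa n1z n1b n2z n2a
    have sa := st_OT c (by omega) ha
    have sq := st_ET c (by omega) hq
    have ja := (JOT c (k := k) (q := q) (by omega) ha).1 (by omega)
    have jz := (JET c (k := k) (q := q) (by omega) hq).2.2 rfl
    rw [ja, jz]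
    clear ja jz
    have n0c : n0 ≤ Go c q - Go c 0 := by
      have := go0 c (show 0 ≤ q by omega)
      omega
    clear n0z n0b
    have pa := ha.1
    have pq := hq.1
    have b0 := zeroB c
    have e0 := be2 c (show 0 ≤ q - 1 by omega)
    have e1 := bo1 c (show q + 1 ≤ a by omega)
    have e2 := bo2 c (show q ≤ a - 1 by omega)
    have e3 := be2 c (show a + 1 ≤ k by omega)
    simp only [S, Go] at hD n0c n2b
    omega
  · clear fa n0a n1z n1b n2z n2b
    have sa := st_EF c (by omega) ha
    have sq := st_ET c (by omega) hq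
    have ja := (JEF c (k := k) (q := q) (by omega) ha).1 (by omega)
    have jz := (JET c (k := k) (q := q) (by omega) hq).2.2 rfl
    rw [ja, jz]
    clear ja jz
    have n0c : n0 ≤ Go c q - Go c 0 := by
      have := go0 c (show 0 ≤ q by omega)
      omega
    clear n0z n0b
    have pa := ha.1
    have pq := hq.1
    have b0 := zeroB c
    have e0 := be2 c (show 0 ≤ q - 1 by omega)
    have e1 := bo1 c (show q + 1 ≤ a by omega)
    have e2 := be1 c (show q ≤ a - 1 by omega)
    have e3 := be2 c (show a + 1 ≤ k by omega)
    simp only [S, Go] at hD fD n0c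
    omega

theorem HN_qa_b (c : ℕ → Bool) {k q a : ℕ} (hk : k % 2 = 1)
    (hf : 0 < q) (h0 : q < a) (hl : a < k)
    (ka : KB c a) (hq : ET c q)
    (hD : S c k < 0) (fD : S c q < S c k) (fa : S c q ≤ Fv c a) :
    J c k q a - J c k q q + 1 ≤ Bo c k := by
  rcases ka with ha | ha
  · clear fa
    have sa := st_ET c (by omega) ha
    have sq := st_ET c (by omega) hq
    have ja := (JET c (k := k) (q := q) (by omega) ha).1 (by omega)
    have jz := (JET c (k := k) (q := q) (by omega) hq).2.2 rfl
    rw [ja, jz]
    clear ja jz
    have pa := ha.1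
    have pq := hq.1
    have b0 := zeroB c
    have e0 := be2 c (show 0 ≤ q - 1 by omega)
    have e1 := bo1 c (show q + 1 ≤ a by omega)
    have e2 := bo1 c (show a + 1 ≤ k by omega)
    have e3 := be2 c (show a + 1 ≤ k by omega)
    simp only [S] at hD fD
    omega
  · clear fD fa
    have sa := st_OF c (by omega) ha
    have sq := st_ET c (by omega) hq
    have ja := (JOF c (k := k) (q := q) (by omega) ha).1 (by omega)
    have jz := (JET c (k := k) (q := q) (by omega) hq).2.2 rfl
    rw [ja, jz]
    clear ja jz
    have pa := ha.1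
    have pq := hq.1
    have b0 := zeroB c
    have e0 := be2 c (show 0 ≤ q - 1 by omega)
    have e1 := bo1 c (show q + 1 ≤ a by omega)
    have e2 := be2 c (show q + 1 ≤ a by omega)
    have e3 := be2 c (show a + 1 ≤ k by omega)
    simp only [S] at hD
    omega

theorem TN_aq_b (c : ℕ → Bool) {k q a : ℕ} (hk : k % 2 = 1)
    (hf : 0 < a) (h0 : a < q) (hl : q < k)
    (ka : KB c a) (hq : ET c q)
    (hD : S c k < 0) (fD : S c q < S c k) (fa : S c q < Fv c a) :
    J c k q a - J c k q q + 0 ≤ Be c k + 1 := by
  rcases ka with ha | ha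
  · clear fD fa
    have sa := st_ET c (by omega) ha
    have sq := st_ET c (by omega) hq
    have ja := (JET c (k := k) (q := q) (by omega) ha).2.1 (by omega)
    have jz := (JET c (k := k) (q := q) (by omega) hq).2.2 rfl
    rw [ja, jz]
    clear ja jz
    have pa := ha.1
    have pq := hq.1
    have e0 := bo2 c (show a + 1 ≤ q by omega)
    have e1 := be2 c (show a ≤ q - 1 by omega)
    simp only [S] at hD
    omega
  · clear hD fD fa
    have sa := st_OF c (by omega) ha
    have sq := st_ET c (by omega) hq
    have ja := (JOF c (k := k) (q := q) (by omega) ha).2.1 (by omega)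
    have jz := (JET c (k := k) (q := q) (by omega) hq).2.2 rfl
    rw [ja, jz]
    clear ja jz
    have pa := ha.1
    have pq := hq.1
    have b0 := zeroB c
    have e0 := be1 c (show 0 ≤ a by omega)
    have e1 := bo1 c (show 0 ≤ a - 1 by omega)
    have e2 := bo1 c (show q + 1 ≤ k by omega)
    have e3 := be1 c (show q + 1 ≤ k by omega)
    omega

theorem TN_aq_g (c : ℕ → Bool) {k q a : ℕ} {n0 n1 n2 : ℤ} (hk : k % 2 = 1)
    (hf : 0 < a) (h0 : a < q) (hl : q < k)
    (ka : KG c a) (hq : ET c q)
    (hD : S c k < 0) (fD : S c q < S c k) (fa : S c q < Fv c a)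
    (n0z : 0 ≤ n0) (n0a : 2 * n0 ≤ Be c (a - 1) - Be c 0) (n0b : 2 * n0 ≤ Go c a - Go c 0)
    (n1z : 0 ≤ n1) (n1a : 2 * n1 ≤ Be c (q - 1) - Be c a) (n1b : 2 * n1 - 1 ≤ Go c q - Go c (a + 1))
    (n2z : 0 ≤ n2) (n2a : 2 * n2 ≤ Be c k - Be c q) (n2b : 2 * n2 ≤ Go c k - Go c (q + 1)) :
    J c k q a - J c k q q + (n0 + n1 + n2) + 1 ≤ Be c k + 1 := by
  rcases ka with ha | ha
  · clear fa n0z n0b n1a n2z n2b
    have sa := st_OT c (by omega) ha
    have sq := st_ET c (by omega) hq
    have ja := (JOT c (k := k) (q := q) (by omega) ha).2.1 (by omega)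
    have jz := (JET c (k := k) (q := q) (by omega) hq).2.2 rfl
    rw [ja, jz]
    clear ja jz
    have n1c : n1 ≤ Go c q - Go c (a + 1) := by
      have := go0 c (show a + 1 ≤ q by omega)
      omega
    clear n1z n1b
    have pa := ha.1
    have pq := hq.1
    have b0 := zeroB c
    have e0 := be2 c (show 0 ≤ a by omega)
    have e1 := be2 c (show a ≤ q - 1 by omega)
    have e2 := bo1 c (show q + 1 ≤ k by omega)
    have e3 := be1 c (show q + 1 ≤ k by omega)
    simp only [S, Go] at hD fD n1c
    omega
  · clear fa n0z n0b n1a n2z n2b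
    have sa := st_EF c (by omega) ha
    have sq := st_ET c (by omega) hq
    have ja := (JEF c (k := k) (q := q) (by omega) ha).2.1 (by omega)
    have jz := (JET c (k := k) (q := q) (by omega) hq).2.2 rfl
    rw [ja, jz]
    clear ja jz
    have n1c : n1 ≤ Go c q - Go c (a + 1) := by
      have := go0 c (show a + 1 ≤ q by omega)
      omega
    clear n1z n1b
    have pa := ha.1
    have pq := hq.1
    have b0 := zeroB c
    have e0 := be2 c (show 0 ≤ a by omega)
    have e1 := be2 c (show a ≤ q - 1 by omega)
    have e2 := bo1 c (show q + 1 ≤ k by omega)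
    have e3 := be1 c (show q + 1 ≤ k by omega)
    simp only [S, Go] at hD fD n1c
    omega

theorem HN_aq_b (c : ℕ → Bool) {k q a : ℕ} (hk : k % 2 = 1)
    (hf : 0 < a) (h0 : a < q) (hl : q < k)
    (ka : KB c a) (hq : ET c q)
    (hD : S c k < 0) (fD : S c q < S c k) (fa : S c q < Fv c a) :
    J c k q a - J c k q q + 1 ≤ Bo c k := by
  rcases ka with ha | ha
  · clear fa
    have sa := st_ET c (by omega) ha
    have sq := st_ET c (by omega) hq
    have ja := (JET c (k := k) (q := q) (by omega) ha).2.1 (by omega)
    have jz := (JET c (k := k) (q := q) (by omega) hq).2.2 rfl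
    rw [ja, jz]
    clear ja jz
    have pa := ha.1
    have pq := hq.1
    have b0 := zeroB c
    have e0 := bo1 c (show 0 ≤ a by omega)
    have e1 := be2 c (show 0 ≤ a - 1 by omega)
    have e2 := be2 c (show a ≤ q - 1 by omega)
    have e3 := bo1 c (show q + 1 ≤ k by omega)
    simp only [S] at hD fD
    omega
  · clear fa
    have sa := st_OF c (by omega) ha
    have sq := st_ET c (by omega) hq
    have ja := (JOF c (k := k) (q := q) (by omega) ha).2.1 (by omega)
    have jz := (JET c (k := k) (q := q) (by omega) hq).2.2 rfl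
    rw [ja, jz]
    clear ja jz
    have pa := ha.1
    have pq := hq.1
    have b0 := zeroB c
    have e0 := be2 c (show 0 ≤ a by omega)
    have e1 := bo1 c (show 0 ≤ a - 1 by omega)
    have e2 := be2 c (show a + 1 ≤ q by omega)
    have e3 := bo1 c (show q + 1 ≤ k by omega)
    simp only [S] at hD fD
    omega

theorem AN_qz_b (c : ℕ → Bool) {k q z : ℕ} (hk : k % 2 = 1)
    (hf : 0 < q) (h0 : q < z) (hl : z < k) (kz : KB c z) (hq : ET c q)
    (hD : S c k < 0) (fD : S c q < S c k) (fz : S c q ≤ Fv c z) :
    ((k / 2 + 1 : ℕ) : ℤ) ≤ J c k q z := by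
  rcases kz with hz | hz
  · clear fD
    rw [Fv_ET hz] at fz
    have sz := st_ET c (by omega) hz
    have sq := st_ET c (by omega) hq
    have jz := (JET c (k := k) (q := q) (by omega) hz).1 (by omega)
    rw [jz]
    clear jz
    have pz := hz.1
    have pq := hq.1
    simp only [S] at hD fz
    omega
  · clear fD
    rw [Fv_OF hz] at fz
    have sz := st_OF c (by omega) hz
    have sq := st_ET c (by omega) hq
    have jz := (JOF c (k := k) (q := q) (by omega) hz).1 (by omega)
    rw [jz]
    clear jz
    have pz := hz.1
    have pq := hq.1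
    simp only [S] at hD fz
    omega

theorem PN_qz_b (c : ℕ → Bool) {k q z : ℕ} (hk : k % 2 = 1)
    (hf : 0 < q) (h0 : q < z) (hl : z < k) (kz : KB c z) (hq : ET c q)
    (hD : S c k < 0) (fD : S c q < S c k)
    (fz : c z = true → S c q ≤ Fv c z) :
    Bo c k ≤ J c k q z ∧ Be c k + 2 ≤ J c k q z := by
  rcases kz with hz | hz
  · clear fz
    have sz := st_ET c (by omega) hz
    have sq := st_ET c (by omega) hq
    have jz := (JET c (k := k) (q := q) (by omega) hz).1 (by omega)
    rw [jz]
    clear jz
    have pz := hz.1
    have pq := hq.1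
    have b0 := zeroB c
    have e0 := bo2 c (show 0 ≤ q by omega)
    have e1 := be2 c (show 0 ≤ q - 1 by omega)
    have e2 := bo2 c (show q + 1 ≤ z by omega)
    have e3 := be2 c (show q ≤ z - 1 by omega)
    have e4 := bo1 c (show z + 1 ≤ k by omega)
    have e5 := be1 c (show z + 1 ≤ k by omega)
    simp only [S] at hD fD
    constructor <;> omega
  · clear fz
    have sz := st_OF c (by omega) hz
    have sq := st_ET c (by omega) hq
    have jz := (JOF c (k := k) (q := q) (by omega) hz).1 (by omega)
    rw [jz]
    clear jz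
    have pz := hz.1
    have pq := hq.1
    have b0 := zeroB c
    have e0 := be1 c (show 0 ≤ q by omega)
    have e1 := be2 c (show 0 ≤ q - 1 by omega)
    have e2 := bo2 c (show q + 1 ≤ z by omega)
    have e3 := be2 c (show q + 1 ≤ z by omega)
    have e4 := bo1 c (show z + 1 ≤ k by omega)
    have e5 := be1 c (show z + 1 ≤ k by omega)
    simp only [S] at hD fD
    constructor <;> omega

theorem AN_qz_g (c : ℕ → Bool) {k q z : ℕ} (hk : k % 2 = 1)
    (hf : 0 < q) (h0 : q < z) (hl : z < k) (kz : KG c z) (hq : ET c q)
    (hD : S c k < 0) (fD : S c q < S c k) (fz : S c q ≤ Fv c z) :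
    ((k / 2 + 1 : ℕ) : ℤ) ≤ J c k q z := by
  rcases kz with hz | hz
  · clear fD
    rw [Fv_OT hz] at fz
    have sz := st_OT c (by omega) hz
    have sq := st_ET c (by omega) hq
    have jz := (JOT c (k := k) (q := q) (by omega) hz).1 (by omega)
    rw [jz]
    clear jz
    have pz := hz.1
    have pq := hq.1
    simp only [S] at hD fz
    omega
  · clear fD
    rw [Fv_EF hz] at fz
    have sz := st_EF c (by omega) hz
    have sq := st_ET c (by omega) hq
    have jz := (JEF c (k := k) (q := q) (by omega) hz).1 (by omega)
    rw [jz]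
    clear jz
    have pz := hz.1
    have pq := hq.1
    simp only [S] at hD fz
    omega

theorem PN_qz_g (c : ℕ → Bool) {k q z : ℕ} (hk : k % 2 = 1)
    (hf : 0 < q) (h0 : q < z) (hl : z < k) (kz : KG c z) (hq : ET c q)
    (hD : S c k < 0) (fD : S c q < S c k)
    (fz : c z = true → S c q ≤ Fv c z) :
    Bo c k + 2 ≤ J c k q z ∧ Be c k ≤ J c k q z := by
  rcases kz with hz | hz
  · replace fz := fz hz.2.1
    rw [Fv_OT hz] at fz
    have sz := st_OT c (by omega) hz
    have sq := st_ET c (by omega) hq
    have jz := (JOT c (k := k) (q := q) (by omega) hz).1 (by omega)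
    rw [jz]
    clear jz
    have pz := hz.1
    have pq := hq.1
    have b0 := zeroB c
    have e0 := bo2 c (show 0 ≤ q by omega)
    have e1 := be2 c (show 0 ≤ q - 1 by omega)
    have e2 := bo1 c (show q + 1 ≤ z by omega)
    have e3 := bo2 c (show q ≤ z - 1 by omega)
    have e4 := bo1 c (show z + 1 ≤ k by omega)
    have e5 := be1 c (show z + 1 ≤ k by omega)
    simp only [S] at hD fD fz
    constructor <;> omega
  · clear fz
    have sz := st_EF c (by omega) hz
    have sq := st_ET c (by omega) hq
    have jz := (JEF c (k := k) (q := q) (by omega) hz).1 (by omega)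
    rw [jz]
    clear jz
    have pz := hz.1
    have pq := hq.1
    have b0 := zeroB c
    have e0 := bo2 c (show 0 ≤ q by omega)
    have e1 := be2 c (show 0 ≤ q - 1 by omega)
    have e2 := bo2 c (show q + 1 ≤ z by omega)
    have e3 := be2 c (show q + 1 ≤ z by omega)
    have e4 := bo1 c (show z + 1 ≤ k by omega)
    have e5 := be1 c (show z + 1 ≤ k by omega)
    simp only [S] at hD fD
    constructor <;> omega

theorem AN_zq_b (c : ℕ → Bool) {k q z : ℕ} (hk : k % 2 = 1)
    (hf : 0 < z) (h0 : z < q) (hl : q < k) (kz : KB c z) (hq : ET c q)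
    (hD : S c k < 0) (fD : S c q < S c k) (fz : S c q < Fv c z) :
    ((k / 2 + 1 : ℕ) : ℤ) ≤ J c k q z := by
  rcases kz with hz | hz
  · clear hD fD
    rw [Fv_ET hz] at fz
    have sz := st_ET c (by omega) hz
    have sq := st_ET c (by omega) hq
    have jz := (JET c (k := k) (q := q) (by omega) hz).2.1 (by omega)
    rw [jz]
    clear jz
    have pz := hz.1
    have pq := hq.1
    simp only [S] at fz
    omega
  · clear hD fD
    rw [Fv_OF hz] at fz
    have sz := st_OF c (by omega) hz
    have sq := st_ET c (by omega) hq
    have jz := (JOF c (k := k) (q := q) (by omega) hz).2.1 (by omega)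
    rw [jz]
    clear jz
    have pz := hz.1
    have pq := hq.1
    simp only [S] at fz
    omega

theorem PN_zq_b (c : ℕ → Bool) {k q z : ℕ} (hk : k % 2 = 1)
    (hf : 0 < z) (h0 : z < q) (hl : q < k) (kz : KB c z) (hq : ET c q)
    (hD : S c k < 0) (fD : S c q < S c k)
    (fz : c z = true → S c q < Fv c z) :
    Bo c k ≤ J c k q z ∧ Be c k + 2 ≤ J c k q z := by
  rcases kz with hz | hz
  · clear hD
    replace fz := fz hz.2.1
    rw [Fv_ET hz] at fz
    have sz := st_ET c (by omega) hz
    have sq := st_ET c (by omega) hq
    have jz := (JET c (k := k) (q := q) (by omega) hz).2.1 (by omega)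
    rw [jz]
    clear jz
    have pz := hz.1
    have pq := hq.1
    have b0 := zeroB c
    have e0 := bo2 c (show 0 ≤ z by omega)
    have e1 := be2 c (show 0 ≤ z - 1 by omega)
    have e2 := bo2 c (show z + 1 ≤ q by omega)
    have e3 := be2 c (show z ≤ q - 1 by omega)
    have e4 := bo1 c (show q + 1 ≤ k by omega)
    have e5 := be1 c (show q + 1 ≤ k by omega)
    simp only [S] at fD fz
    constructor <;> omega
  · clear hD fz
    have sz := st_OF c (by omega) hz
    have sq := st_ET c (by omega) hq
    have jz := (JOF c (k := k) (q := q) (by omega) hz).2.1 (by omega)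
    rw [jz]
    clear jz
    have pz := hz.1
    have pq := hq.1
    have b0 := zeroB c
    have e0 := bo2 c (show 0 ≤ z by omega)
    have e1 := be2 c (show 0 ≤ z by omega)
    have e2 := bo1 c (show z + 1 ≤ q by omega)
    have e3 := be1 c (show z + 1 ≤ q by omega)
    have e4 := bo1 c (show q + 1 ≤ k by omega)
    have e5 := be1 c (show q + 1 ≤ k by omega)
    simp only [S] at fD
    constructor <;> omega

theorem AN_zq_g (c : ℕ → Bool) {k q z : ℕ} (hk : k % 2 = 1)
    (hf : 0 < z) (h0 : z < q) (hl : q < k) (kz : KG c z) (hq : ET c q)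
    (hD : S c k < 0) (fD : S c q < S c k) (fz : S c q < Fv c z) :
    ((k / 2 + 1 : ℕ) : ℤ) ≤ J c k q z := by
  rcases kz with hz | hz
  · clear hD fD
    rw [Fv_OT hz] at fz
    have sz := st_OT c (by omega) hz
    have sq := st_ET c (by omega) hq
    have jz := (JOT c (k := k) (q := q) (by omega) hz).2.1 (by omega)
    rw [jz]
    clear jz
    have pz := hz.1
    have pq := hq.1
    simp only [S] at fz
    omega
  · clear hD fD
    rw [Fv_EF hz] at fz
    have sz := st_EF c (by omega) hz
    have sq := st_ET c (by omega) hq
    have jz := (JEF c (k := k) (q := q) (by omega) hz).2.1 (by omega)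
    rw [jz]
    clear jz
    have pz := hz.1
    have pq := hq.1
    simp only [S] at fz
    omega

theorem PN_zq_g (c : ℕ → Bool) {k q z : ℕ} (hk : k % 2 = 1)
    (hf : 0 < z) (h0 : z < q) (hl : q < k) (kz : KG c z) (hq : ET c q)
    (hD : S c k < 0) (fD : S c q < S c k)
    (fz : c z = true → S c q < Fv c z) :
    Bo c k + 2 ≤ J c k q z ∧ Be c k ≤ J c k q z := by
  rcases kz with hz | hz
  · clear hD
    replace fz := fz hz.2.1
    rw [Fv_OT hz] at fz
    have sz := st_OT c (by omega) hz
    have sq := st_ET c (by omega) hq
    have jz := (JOT c (k := k) (q := q) (by omega) hz).2.1 (by omega)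
    rw [jz]
    clear jz
    have pz := hz.1
    have pq := hq.1
    have b0 := zeroB c
    have e0 := be2 c (show 0 ≤ z by omega)
    have e1 := bo2 c (show 0 ≤ z - 1 by omega)
    have e2 := be1 c (show z + 1 ≤ q by omega)
    have e3 := be2 c (show z ≤ q - 1 by omega)
    have e4 := bo1 c (show q + 1 ≤ k by omega)
    have e5 := be1 c (show q + 1 ≤ k by omega)
    simp only [S] at fD fz
    constructor <;> omega
  · clear hD fz
    have sz := st_EF c (by omega) hz
    have sq := st_ET c (by omega) hq
    have jz := (JEF c (k := k) (q := q) (by omega) hz).2.1 (by omega)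
    rw [jz]
    clear jz
    have pz := hz.1
    have pq := hq.1
    have b0 := zeroB c
    have e0 := bo2 c (show 0 ≤ z by omega)
    have e1 := be2 c (show 0 ≤ z by omega)
    have e2 := bo1 c (show z + 1 ≤ q by omega)
    have e3 := be1 c (show z + 1 ≤ q by omega)
    have e4 := bo1 c (show q + 1 ≤ k by omega)
    have e5 := be1 c (show q + 1 ≤ k by omega)
    simp only [S] at fD
    constructor <;> omega

end Pool.Agent.Lob34
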