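import Pool.Agent.Lob34.Out
import Pool.Agent.Lob34.TabO

/-! Assembly for the mode O. -/

namespace Pool.Agent.Lob34

theorem mode_O (c al : ℕ → Bool) {k q : ℕ} (hk : k % 2 = 1) (hq1 : 0 < q) (hqk : q < k)
    (hq : OT c q)
    (hD : S c k < 0) (fD : S c q < S c k)
    (hle : ∀ i, Ld c k i → (c i = true ∨ al i = true) → S c q ≤ Fv c i)
    (hlt : ∀ i, Ld c k i → i < q → (c i = true ∨ al i = true) → S c q < Fv c i) :
    SeamOut c al k q 1 2 2 2 := by
  have high : ∀ z, Ld c k z → z ≠ q → (c z = true ∨ al z = true) →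
      ((k / 2 + 1 : ℕ) : ℤ) ≤ J c k q z := by
    intro z lz hzq hz
    rcases kinds c lz.2.2 with kz | kz <;> rcases lt_or_gt_of_ne hzq with h | h
    · exact AO_zq_b c hk lz.1 h hqk kz hq hD fD (hlt z lz h hz)
    · exact AO_qz_b c hk hq1 h lz.2.1 kz hq hD fD (hle z lz hz)
    · exact AO_zq_g c hk lz.1 h hqk kz hq hD fD (hlt z lz h hz)
    · exact AO_qz_g c hk hq1 h lz.2.1 kz hq hD fD (hle z lz hz)
  have F : ∀ z, LowF c k q (LowP c al k q z) := fun z =>
    lowF_of c al (F := S c q) hk (by omega) fD hD high (fun i li hi => by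
      have := hle i li (Or.inl hi)
      simpa [Fv, hi] using this) (fun h2 i li h hi => by
      have := hq.1
      omega)
  refine ⟨high, ?_, ?_, ?_, ?_, ?_, ?_, ?_⟩
  · intro a z la ha haq lz hz ka kz
    have la1 := la.1
    have lz1 := lz.1
    have haz : a ≠ z := by rintro rfl; rw [ha] at hz; cases hz
    by_cases hzq : z = q
    · subst hzq
      exact absurd kz (by
        rintro (⟨w1, w2, w3⟩ | ⟨w1, w2, w3⟩)
        · have := hq.1
          have h2 := hq.2.1
          first | omega | (rw [w2] at h2; cases h2)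
        · have := hq.1
          have h2 := hq.2.1
          first | omega | (rw [w2] at h2; cases h2))
    · skip
      rcases lt_or_gt_of_ne haq with h1 | h1 <;> rcases lt_or_gt_of_ne hzq with h2 | h2 <;>
        rcases lt_or_gt_of_ne haz with h3 | h3
      · exact TO_azq_bb c hk la.1 (by omega) (by omega) hqk ka kz hq hD fD (hlt a la (by omega) (Or.inr ha)) (fun h => hlt z lz (by omega) (Or.inl h))
      · exact TO_zaq_bb c hk lz.1 (by omega) (by omega) hqk ka kz hq hD fD (hlt a la (by omega) (Or.inr ha)) (fun h => hlt z lz (by omega) (Or.inl h))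
      · exact TO_aqz_bb c hk la.1 (by omega) (by omega) lz.2.1 ka kz hq hD fD (hlt a la (by omega) (Or.inr ha)) (fun h => hle z lz (Or.inl h))
      · omega
      · omega
      · exact TO_zqa_bb c hk lz.1 (by omega) (by omega) la.2.1 ka kz hq hD fD (hle a la (Or.inr ha)) (fun h => hlt z lz (by omega) (Or.inl h))
      · exact TO_qaz_bb c hk hq1 (by omega) (by omega) lz.2.1 ka kz hq hD fD (hle a la (Or.inr ha)) (fun h => hle z lz (Or.inl h))
      · exact TO_qza_bb c hk hq1 (by omega) (by omega) la.2.1 ka kz hq hD fD (hle a la (Or.inr ha)) (fun h => hle z lz (Or.inl h))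
  · intro a z la ha haq lz hz ka kz
    have la1 := la.1
    have lz1 := lz.1
    have haz : a ≠ z := by rintro rfl; rw [ha] at hz; cases hz
    by_cases hzq : z = q
    · subst hzq
      rcases lt_or_gt_of_ne haq with h1 | h1
      · exact TO_aq_b c hk la.1 (by omega) hqk ka hq hD fD (hlt a la (by omega) (Or.inr ha))
      · exact TO_qa_b c hk hq1 (by omega) la.2.1 ka hq hD fD (hle a la (Or.inr ha))
    · skip
      rcases lt_or_gt_of_ne haq with h1 | h1 <;> rcases lt_or_gt_of_ne hzq with h2 | h2 <;>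
        rcases lt_or_gt_of_ne haz with h3 | h3
      · exact TO_azq_bg c hk la.1 (by omega) (by omega) hqk ka kz hq hD fD (hlt a la (by omega) (Or.inr ha)) (fun h => hlt z lz (by omega) (Or.inl h))
      · exact TO_zaq_bg c hk lz.1 (by omega) (by omega) hqk ka kz hq hD fD (hlt a la (by omega) (Or.inr ha)) (fun h => hlt z lz (by omega) (Or.inl h))
      · exact TO_aqz_bg c hk la.1 (by omega) (by omega) lz.2.1 ka kz hq hD fD (hlt a la (by omega) (Or.inr ha)) (fun h => hle z lz (Or.inl h))
      · omega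
      · omega
      · exact TO_zqa_bg c hk lz.1 (by omega) (by omega) la.2.1 ka kz hq hD fD (hle a la (Or.inr ha)) (fun h => hlt z lz (by omega) (Or.inl h))
      · exact TO_qaz_bg c hk hq1 (by omega) (by omega) lz.2.1 ka kz hq hD fD (hle a la (Or.inr ha)) (fun h => hle z lz (Or.inl h))
      · exact TO_qza_bg c hk hq1 (by omega) (by omega) la.2.1 ka kz hq hD fD (hle a la (Or.inr ha)) (fun h => hle z lz (Or.inl h))
  · intro a z la ha haq lz hz ka kz
    have la1 := la.1
    have lz1 := lz.1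
    have haz : a ≠ z := by rintro rfl; rw [ha] at hz; cases hz
    by_cases hzq : z = q
    · subst hzq
      exact absurd kz (by
        rintro (⟨w1, w2, w3⟩ | ⟨w1, w2, w3⟩)
        · have := hq.1
          have h2 := hq.2.1
          first | omega | (rw [w2] at h2; cases h2)
        · have := hq.1
          have h2 := hq.2.1
          first | omega | (rw [w2] at h2; cases h2))
    · skip
      rcases lt_or_gt_of_ne haq with h1 | h1 <;> rcases lt_or_gt_of_ne hzq with h2 | h2 <;>
        rcases lt_or_gt_of_ne haz with h3 | h3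
      · obtain ⟨n0, n1, n2, n3, hs, ⟨n0z, n0a, n0b, n0c⟩, ⟨n1z, n1a, n1b, n1c⟩, ⟨n2z, n2a, n2b, n2c⟩, ⟨n3z, n3a, n3b⟩⟩ := regs4 c (q := q) (LowP c al k q z) (F z)
          la.1 (by omega) (by omega) hqk la.2.2 lz.2.2 (show c q ≠ c (q + 1) by rw [hq.2.1, hq.2.2]; decide)
          (fun h => by have := h.1.1; omega) (fun h => by have := h.2.1; rw [ha] at this; cases this) (fun h => h.2.2.2.1 rfl) (fun h => h.2.2.1 rfl) (by omega)
        have := TO_azq_gb c hk la.1 (by omega) (by omega) hqk ka kz hq hD fD (hlt a la (by omega) (Or.inr ha)) (fun h => hlt z lz (by omega) (Or.inl h)) n0z n0a (n0c (by omega)) n1z n1a (n1c (by omega)) n2z n2a n2b n3z n3a n3b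
        rw [lowc_eq]
        omega
      · obtain ⟨n0, n1, n2, n3, hs, ⟨n0z, n0a, n0b, n0c⟩, ⟨n1z, n1a, n1b, n1c⟩, ⟨n2z, n2a, n2b, n2c⟩, ⟨n3z, n3a, n3b⟩⟩ := regs4 c (q := q) (LowP c al k q z) (F z)
          lz.1 (by omega) (by omega) hqk lz.2.2 la.2.2 (show c q ≠ c (q + 1) by rw [hq.2.1, hq.2.2]; decide)
          (fun h => by have := h.1.1; omega) (fun h => h.2.2.2.1 rfl) (fun h => by have := h.2.1; rw [ha] at this; cases this) (fun h => h.2.2.1 rfl) (by omega)
        have := TO_zaq_gb c hk lz.1 (by omega) (by omega) hqk ka kz hq hD fD (hlt a la (by omega) (Or.inr ha)) (fun h => hlt z lz (by omega) (Or.inl h)) n0z n0a (n0c (by omega)) n1z n1a (n1c (by omega)) n2z n2a n2b n3z n3a n3b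
        rw [lowc_eq]
        omega
      · obtain ⟨n0, n1, n2, n3, hs, ⟨n0z, n0a, n0b, n0c⟩, ⟨n1z, n1a, n1b, n1c⟩, ⟨n2z, n2a, n2b, n2c⟩, ⟨n3z, n3a, n3b⟩⟩ := regs4 c (q := q) (LowP c al k q z) (F z)
          la.1 (by omega) (by omega) lz.2.1 la.2.2 (show c q ≠ c (q + 1) by rw [hq.2.1, hq.2.2]; decide) lz.2.2
          (fun h => by have := h.1.1; omega) (fun h => by have := h.2.1; rw [ha] at this; cases this) (fun h => h.2.2.1 rfl) (fun h => h.2.2.2.1 rfl) (by omega)
        have := TO_aqz_gb c hk la.1 (by omega) (by omega) lz.2.1 ka kz hq hD fD (hlt a la (by omega) (Or.inr ha)) (fun h => hle z lz (Or.inl h)) n0z n0a (n0c (by omega)) n1z n1a n1b n2z n2a (n2c (by omega)) n3z n3a n3b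
        rw [lowc_eq]
        omega
      · omega
      · omega
      · obtain ⟨n0, n1, n2, n3, hs, ⟨n0z, n0a, n0b, n0c⟩, ⟨n1z, n1a, n1b, n1c⟩, ⟨n2z, n2a, n2b, n2c⟩, ⟨n3z, n3a, n3b⟩⟩ := regs4 c (q := q) (LowP c al k q z) (F z)
          lz.1 (by omega) (by omega) la.2.1 lz.2.2 (show c q ≠ c (q + 1) by rw [hq.2.1, hq.2.2]; decide) la.2.2
          (fun h => by have := h.1.1; omega) (fun h => h.2.2.2.1 rfl) (fun h => h.2.2.1 rfl) (fun h => by have := h.2.1; rw [ha] at this; cases this) (by omega)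
        have := TO_zqa_gb c hk lz.1 (by omega) (by omega) la.2.1 ka kz hq hD fD (hle a la (Or.inr ha)) (fun h => hlt z lz (by omega) (Or.inl h)) n0z n0a (n0c (by omega)) n1z n1a n1b n2z n2a (n2c (by omega)) n3z n3a n3b
        rw [lowc_eq]
        omega
      · obtain ⟨n0, n1, n2, n3, hs, ⟨n0z, n0a, n0b, n0c⟩, ⟨n1z, n1a, n1b, n1c⟩, ⟨n2z, n2a, n2b, n2c⟩, ⟨n3z, n3a, n3b⟩⟩ := regs4 c (q := q) (LowP c al k q z) (F z)
          hq1 (by omega) (by omega) lz.2.1 (show c q ≠ c (q + 1) by rw [hq.2.1, hq.2.2]; decide) la.2.2 lz.2.2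
          (fun h => by have := h.1.1; omega) (fun h => h.2.2.1 rfl) (fun h => by have := h.2.1; rw [ha] at this; cases this) (fun h => h.2.2.2.1 rfl) (by omega)
        have := TO_qaz_gb c hk hq1 (by omega) (by omega) lz.2.1 ka kz hq hD fD (hle a la (Or.inr ha)) (fun h => hle z lz (Or.inl h)) n0z n0a n0b n1z n1a (n1c (by omega)) n2z n2a (n2c (by omega)) n3z n3a n3b
        rw [lowc_eq]
        omega
      · obtain ⟨n0, n1, n2, n3, hs, ⟨n0z, n0a, n0b, n0c⟩, ⟨n1z, n1a, n1b, n1c⟩, ⟨n2z, n2a, n2b, n2c⟩, ⟨n3z, n3a, n3b⟩⟩ := regs4 c (q := q) (LowP c al k q z) (F z)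
          hq1 (by omega) (by omega) la.2.1 (show c q ≠ c (q + 1) by rw [hq.2.1, hq.2.2]; decide) lz.2.2 la.2.2
          (fun h => by have := h.1.1; omega) (fun h => h.2.2.1 rfl) (fun h => h.2.2.2.1 rfl) (fun h => by have := h.2.1; rw [ha] at this; cases this) (by omega)
        have := TO_qza_gb c hk hq1 (by omega) (by omega) la.2.1 ka kz hq hD fD (hle a la (Or.inr ha)) (fun h => hle z lz (Or.inl h)) n0z n0a n0b n1z n1a (n1c (by omega)) n2z n2a (n2c (by omega)) n3z n3a n3b
        rw [lowc_eq]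
        omega
  · intro a z la ha haq lz hz ka kz
    have la1 := la.1
    have lz1 := lz.1
    have haz : a ≠ z := by rintro rfl; rw [ha] at hz; cases hz
    by_cases hzq : z = q
    · subst hzq
      rcases lt_or_gt_of_ne haq with h1 | h1
      · exact TO_aq_g c hk la.1 (by omega) hqk ka hq hD fD (hlt a la (by omega) (Or.inr ha))
      · exact TO_qa_g c hk hq1 (by omega) la.2.1 ka hq hD fD (hle a la (Or.inr ha))
    · skip
      rcases lt_or_gt_of_ne haq with h1 | h1 <;> rcases lt_or_gt_of_ne hzq with h2 | h2 <;>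
        rcases lt_or_gt_of_ne haz with h3 | h3
      · exact TO_azq_gg c hk la.1 (by omega) (by omega) hqk ka kz hq hD fD (hlt a la (by omega) (Or.inr ha)) (fun h => hlt z lz (by omega) (Or.inl h))
      · exact TO_zaq_gg c hk lz.1 (by omega) (by omega) hqk ka kz hq hD fD (hlt a la (by omega) (Or.inr ha)) (fun h => hlt z lz (by omega) (Or.inl h))
      · exact TO_aqz_gg c hk la.1 (by omega) (by omega) lz.2.1 ka kz hq hD fD (hlt a la (by omega) (Or.inr ha)) (fun h => hle z lz (Or.inl h))
      · omega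
      · omega
      · exact TO_zqa_gg c hk lz.1 (by omega) (by omega) la.2.1 ka kz hq hD fD (hle a la (Or.inr ha)) (fun h => hlt z lz (by omega) (Or.inl h))
      · exact TO_qaz_gg c hk hq1 (by omega) (by omega) lz.2.1 ka kz hq hD fD (hle a la (Or.inr ha)) (fun h => hle z lz (Or.inl h))
      · exact TO_qza_gg c hk hq1 (by omega) (by omega) la.2.1 ka kz hq hD fD (hle a la (Or.inr ha)) (fun h => hle z lz (Or.inl h))
  · intro a z la ha haq lz hz ka
    have la1 := la.1
    have lz1 := lz.1
    have haz : a ≠ z := by rintro rfl; rw [ha] at hz; cases hz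
    rcases kinds c lz.2.2 with kz | kz
    · skip
      by_cases hzq : z = q
      · subst hzq
        exact absurd kz (by
          rintro (⟨w1, w2, w3⟩ | ⟨w1, w2, w3⟩)
          · have := hq.1
            have h2 := hq.2.1
            first | omega | (rw [w2] at h2; cases h2)
          · have := hq.1
            have h2 := hq.2.1
            first | omega | (rw [w2] at h2; cases h2))
      · skip
        rcases lt_or_gt_of_ne haq with h1 | h1 <;> rcases lt_or_gt_of_ne hzq with h2 | h2 <;>
          rcases lt_or_gt_of_ne haz with h3 | h3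
        · exact HO_azq_bb c hk la.1 (by omega) (by omega) hqk ka kz hq hD fD (hlt a la (by omega) (Or.inr ha)) (fun h => hlt z lz (by omega) (Or.inl h))
        · exact HO_zaq_bb c hk lz.1 (by omega) (by omega) hqk ka kz hq hD fD (hlt a la (by omega) (Or.inr ha)) (fun h => hlt z lz (by omega) (Or.inl h))
        · exact HO_aqz_bb c hk la.1 (by omega) (by omega) lz.2.1 ka kz hq hD fD (hlt a la (by omega) (Or.inr ha)) (fun h => hle z lz (Or.inl h))
        · omega
        · omega
        · exact HO_zqa_bb c hk lz.1 (by omega) (by omega) la.2.1 ka kz hq hD fD (hle a la (Or.inr ha)) (fun h => hlt z lz (by omega) (Or.inl h))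
        · exact HO_qaz_bb c hk hq1 (by omega) (by omega) lz.2.1 ka kz hq hD fD (hle a la (Or.inr ha)) (fun h => hle z lz (Or.inl h))
        · exact HO_qza_bb c hk hq1 (by omega) (by omega) la.2.1 ka kz hq hD fD (hle a la (Or.inr ha)) (fun h => hle z lz (Or.inl h))
    · skip
      by_cases hzq : z = q
      · subst hzq
        rcases lt_or_gt_of_ne haq with h1 | h1
        · exact HO_aq_b c hk la.1 (by omega) hqk ka hq hD fD (hlt a la (by omega) (Or.inr ha))
        · exact HO_qa_b c hk hq1 (by omega) la.2.1 ka hq hD fD (hle a la (Or.inr ha))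
      · skip
        rcases lt_or_gt_of_ne haq with h1 | h1 <;> rcases lt_or_gt_of_ne hzq with h2 | h2 <;>
          rcases lt_or_gt_of_ne haz with h3 | h3
        · exact HO_azq_bg c hk la.1 (by omega) (by omega) hqk ka kz hq hD fD (hlt a la (by omega) (Or.inr ha)) (fun h => hlt z lz (by omega) (Or.inl h))
        · exact HO_zaq_bg c hk lz.1 (by omega) (by omega) hqk ka kz hq hD fD (hlt a la (by omega) (Or.inr ha)) (fun h => hlt z lz (by omega) (Or.inl h))
        · exact HO_aqz_bg c hk la.1 (by omega) (by omega) lz.2.1 ka kz hq hD fD (hlt a la (by omega) (Or.inr ha)) (fun h => hle z lz (Or.inl h))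
        · omega
        · omega
        · exact HO_zqa_bg c hk lz.1 (by omega) (by omega) la.2.1 ka kz hq hD fD (hle a la (Or.inr ha)) (fun h => hlt z lz (by omega) (Or.inl h))
        · exact HO_qaz_bg c hk hq1 (by omega) (by omega) lz.2.1 ka kz hq hD fD (hle a la (Or.inr ha)) (fun h => hle z lz (Or.inl h))
        · exact HO_qza_bg c hk hq1 (by omega) (by omega) la.2.1 ka kz hq hD fD (hle a la (Or.inr ha)) (fun h => hle z lz (Or.inl h))
  · intro z lz hzq kz
    rcases lt_or_gt_of_ne hzq with h | h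
    · exact PO_zq_b c hk lz.1 h hqk kz hq hD fD (fun h5 => hlt z lz h (Or.inl h5))
    · exact PO_qz_b c hk hq1 h lz.2.1 kz hq hD fD (fun h5 => hle z lz (Or.inl h5))
  · intro z lz hzq kz
    rcases lt_or_gt_of_ne hzq with h | h
    · exact PO_zq_g c hk lz.1 h hqk kz hq hD fD (fun h5 => hlt z lz h (Or.inl h5))
    · exact PO_qz_g c hk hq1 h lz.2.1 kz hq hD fD (fun h5 => hle z lz (Or.inl h5))

end Pool.Agent.Lob34
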