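import Pool.Agent.Lob34.ModeZ
import Pool.Agent.Lob34.ModeN
import Pool.Agent.Lob34.ModeO
import Pool.Agent.Lob34.ModeK
import Pool.Agent.Lob34.ModeM
import Pool.Agent.Lob34.ModeE
import Mathlib.Data.Finset.Max

/-! The seam lemma for an odd number of edges. -/

namespace Pool.Agent.Lob34

/-- The candidates for the seam. -/
def Cand (c al : ℕ → Bool) (k i : ℕ) : Prop := Ld c k i ∧ (c i = true ∨ al i = true)

instance (c al : ℕ → Bool) (k : ℕ) : DecidablePred (Cand c al k) := fun i => by
  unfold Cand; infer_instance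

/-- The minimality facts for the seam `q > 0`, with the value `F`. -/
structure MinF (c al : ℕ → Bool) (k q : ℕ) (F : ℤ) : Prop where
  le : ∀ i, Ld c k i → (c i = true ∨ al i = true) → F ≤ Fv c i
  lt : ∀ i, Ld c k i → i + 1 < q → (c i = true ∨ al i = true) → F < Fv c i
  lt' : ∀ i, Ld c k i → i < q → c i = true → al i = false → F < Fv c i
  top : F < S c k

/-- The alternatives for the seam. -/
inductive Seam (c al : ℕ → Bool) (k : ℕ) : ℕ → Prop
  | q0 : (∀ i, Ld c k i → (c i = true ∨ al i = true) → S c k ≤ Fz c i) →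
      SeamOut c al k 0 0 2 1 2 → Seam c al k 0
  | N1 {q : ℕ} : 0 < q → q < k → OT c q → al q = false → MinF c al k q (S c q) →
      SeamOut c al k q 1 2 2 2 → Seam c al k q
  | K1 {q : ℕ} : 0 < q → q < k → OT c q → al q = true → MinF c al k q (S c q) →
      SeamOut c al k q 1 2 2 2 → Seam c al k q
  | N2 {q : ℕ} : 0 < q → q < k → ET c q → al q = false → MinF c al k q (S c q) →
      SeamOut c al k q 0 2 1 2 → Seam c al k q
  | K2ii {q : ℕ} : 0 < q → q < k → ET c q → al q = true → Ld c k (q + 1) →
      al (q + 1) = false → MinF c al k q (S c q) →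
      SeamOut c al k q 0 2 1 2 → Seam c al k q
  | K2 {q : ℕ} : 0 < q → q < k → ET c q → al q = true → q + 1 < k → c (q + 2) = false →
      MinF c al k q (S c q) → SeamOut c al k q 1 2 2 2 → Seam c al k q
  | K3 {q : ℕ} : 0 < q → q < k → OF c q → al q = true → MinF c al k q (S c q + 1) →
      (S c q + 2 < S c k ∨ 2 ≤ q ∧ ET c (q - 1) ∧ al (q - 1) = true) →
      SeamOut c al k q 0 1 2 2 → Seam c al k q
  | K4 {q : ℕ} : 0 < q → q < k → EF c q → al q = true → MinF c al k q (S c q + 4) →
      SeamOut c al k q 1 2 2 2 → Seam c al k q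

/-- The leftmost minimum. -/
theorem leftmost (c al : ℕ → Bool) {k : ℕ} (h : ∃ i, Cand c al k i ∧ Fv c i < S c k) :
    ∃ q, Cand c al k q ∧ Fv c q < S c k ∧ (∀ i, Cand c al k i → Fv c q ≤ Fv c i) ∧
      ∀ i, Cand c al k i → i < q → Fv c q < Fv c i := by
  classical
  obtain ⟨i, hi, hi2⟩ := h
  have hne : ((Finset.range k).filter (Cand c al k)).Nonempty :=
    ⟨i, by rw [Finset.mem_filter, Finset.mem_range]; exact ⟨hi.1.2.1, hi⟩⟩
  obtain ⟨m, hm, hmin⟩ := Finset.exists_min_image _ (Fv c) hne
  rw [Finset.mem_filter, Finset.mem_range] at hm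
  have hmin' : ∀ i, Cand c al k i → Fv c m ≤ Fv c i := by
    intro j hj
    exact hmin j (by rw [Finset.mem_filter, Finset.mem_range]; exact ⟨hj.1.2.1, hj⟩)
  have hex : ∃ j, Cand c al k j ∧ Fv c j ≤ Fv c m := ⟨m, hm.2, le_refl _⟩
  obtain ⟨q1, q2⟩ := Nat.find_spec hex
  refine ⟨Nat.find hex, q1, ?_, ?_, ?_⟩
  · have := hmin' i hi
    omega
  · intro j hj
    have := hmin' j hj
    omega
  · intro j hj hlt
    have h1 := Nat.find_min hex hlt
    have h2 := hmin' j hj
    by_contra hcon
    exact h1 ⟨hj, by omega⟩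

/-- The seam lemma for `k` odd. -/
theorem seam (c al : ℕ → Bool) {k : ℕ} (hk : k % 2 = 1) (hD : S c k < 0) :
    ∃ q, Seam c al k q := by
  by_cases h0 : ∀ i, Ld c k i → (c i = true ∨ al i = true) → S c k ≤ Fz c i
  · exact ⟨0, Seam.q0 h0 (mode_Z c al hk hD h0)⟩
  · have hex : ∃ i, Cand c al k i ∧ Fv c i < S c k := by
      by_contra hcon
      apply h0
      intro i hl hc
      by_contra h1
      apply hcon
      refine ⟨i, ⟨hl, hc⟩, ?_⟩
      rcases loaded_cases c hl.2.2 with h | h | h | h
      · rw [Fz_OT h] at h1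
        rw [Fv_OT h]
        omega
      · rw [Fz_ET h] at h1
        rw [Fv_ET h]
        omega
      · rw [Fz_OF h] at h1
        rw [Fv_OF h]
        omega
      · rw [Fz_EF h] at h1
        rw [Fv_EF h]
        have := h.1
        unfold S at *
        omega
    obtain ⟨q, hq, hlt0, hmin, hleft⟩ := leftmost c al hex
    obtain ⟨⟨hq1, hq2, hq3⟩, hq4⟩ := hq
    have hq0 : 0 < q := hq1
    rcases loaded_cases c hq3 with h | h | h | h
    · rw [Fv_OT h] at hlt0 hmin hleft
      have M : MinF c al k q (S c q) :=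
        ⟨fun i a b => hmin i ⟨a, b⟩, fun i a b d => hleft i ⟨a, d⟩ (by omega),
          fun i a b d e => hleft i ⟨a, Or.inl d⟩ b, hlt0⟩
      have out := mode_O c al hk hq0 hq2 h hD hlt0 (fun i a b => hmin i ⟨a, b⟩)
        (fun i a b d => hleft i ⟨a, d⟩ b)
      rcases Bool.eq_false_or_eq_true (al q) with ha | ha
      · exact ⟨q, Seam.K1 hq0 hq2 h ha M out⟩
      · exact ⟨q, Seam.N1 hq0 hq2 h ha M out⟩
    · rw [Fv_ET h] at hlt0 hmin hleft
      have M : MinF c al k q (S c q) :=
        ⟨fun i a b => hmin i ⟨a, b⟩, fun i a b d => hleft i ⟨a, d⟩ (by omega),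
          fun i a b d e => hleft i ⟨a, Or.inl d⟩ b, hlt0⟩
      have outN := mode_N c al hk hq0 hq2 h hD hlt0 (fun i a b => hmin i ⟨a, b⟩)
        (fun i a b d => hleft i ⟨a, d⟩ b)
      rcases Bool.eq_false_or_eq_true (al q) with ha | ha
      · have s1 := S_succ c q
        rw [h.2.2] at s1
        simp only [Bool.false_eq_true, if_false] at s1
        have hk1 : q + 1 < k := by
          rcases Nat.eq_or_lt_of_le (show q + 1 ≤ k by omega) with h1 | h1
          · subst h1
            omega
          · exact h1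
        rcases Bool.eq_false_or_eq_true (c (q + 2)) with h2 | h2
        · have ld1 : Ld c k (q + 1) := by
            refine ⟨by omega, hk1, ?_⟩
            have e : q + 1 + 1 = q + 2 := rfl
            rw [e, h.2.2, h2]
            decide
          have hOF : OF c (q + 1) := ⟨by have := h.1; omega, h.2.2, h2⟩
          rcases Bool.eq_false_or_eq_true (al (q + 1)) with h3 | h3
          · have e1 : S c (q + 1) + 1 = S c q := by omega
            have M' : MinF c al k (q + 1) (S c (q + 1) + 1) := by
              rw [e1]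
              refine ⟨fun i a b => hmin i ⟨a, b⟩, fun i a b d => hleft i ⟨a, d⟩ (by omega),
                fun i a b d e => hleft i ⟨a, Or.inl d⟩ ?_, hlt0⟩
              rcases Nat.eq_or_lt_of_le (show i ≤ q by omega) with h4 | h4
              · subst h4
                rw [ha] at e
                cases e
              · exact h4
            have out := mode_M c al hk (Nat.succ_pos q) hk1 hOF h3 hD M'.top M'.le M'.lt'
            exact ⟨q + 1, Seam.K3 (Nat.succ_pos q) hk1 hOF h3 M'
              (Or.inr ⟨by omega, h, ha⟩) out⟩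
          · exact ⟨q, Seam.K2ii hq0 hq2 h ha ld1 h3 M outN⟩
        · exact ⟨q, Seam.K2 hq0 hq2 h ha hk1 h2 M
            (mode_K c al hk hq0 hq2 h ha hk1 h2 hD hlt0 (fun i a b => hmin i ⟨a, b⟩)
              (fun i a b d => hleft i ⟨a, d⟩ b))⟩
      · exact ⟨q, Seam.N2 hq0 hq2 h ha M outN⟩
    · have ha : al q = true := by
        rcases hq4 with h1 | h1
        · rw [h.2.1] at h1
          cases h1
        · exact h1
      rw [Fv_OF h] at hlt0 hmin hleft
      have M : MinF c al k q (S c q + 1) := by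
        refine ⟨fun i a b => ?_, fun i a b d => ?_, fun i a b d e => ?_, by omega⟩
        · have := hmin i ⟨a, b⟩
          omega
        · have := hleft i ⟨a, d⟩ (by omega)
          omega
        · have := hleft i ⟨a, Or.inl d⟩ b
          omega
      exact ⟨q, Seam.K3 hq0 hq2 h ha M (Or.inl hlt0)
        (mode_M c al hk hq0 hq2 h ha hD M.top M.le M.lt')⟩
    · have ha : al q = true := by
        rcases hq4 with h1 | h1
        · rw [h.2.1] at h1
          cases h1
        · exact h1
      rw [Fv_EF h] at hlt0 hmin hleft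
      have M : MinF c al k q (S c q + 4) :=
        ⟨fun i a b => hmin i ⟨a, b⟩, fun i a b d => hleft i ⟨a, d⟩ (by omega),
          fun i a b d e => hleft i ⟨a, Or.inl d⟩ b, hlt0⟩
      exact ⟨q, Seam.K4 hq0 hq2 h ha M (mode_E c al hk hq0 hq2 h ha hD hlt0
        (fun i a b => hmin i ⟨a, b⟩) (fun i a b d => hleft i ⟨a, d⟩ b))⟩

end Pool.Agent.Lob34
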