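import Pool.Agent.Lob34.Out
import Pool.Agent.Lob34.TabX

/-! The seam `0` for an even number of edges. -/

namespace Pool.Agent.Lob34

/-- Three bad edges at the start. -/
theorem start3 (c : ℕ → Bool) (h : S c 3 + 3 ≤ 0) : c 1 = false ∧ c 2 = false ∧ c 3 = false := by
  have s1 := S_succ c 0
  have s2 := S_succ c 1
  have s3 := S_succ c 2
  have s0 := S_zero c
  have e1 : 0 + 1 = 1 := rfl
  have e2 : 1 + 1 = 2 := rfl
  have e3 : 2 + 1 = 3 := rfl
  rw [e1] at s1
  rw [e2] at s2
  rw [e3] at s3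
  rcases Bool.eq_false_or_eq_true (c 1) with h1 | h1 <;>
    rcases Bool.eq_false_or_eq_true (c 2) with h2 | h2 <;>
    rcases Bool.eq_false_or_eq_true (c 3) with h3 | h3 <;>
    simp only [h1, h2, h3, if_true, if_false, Bool.false_eq_true] at s1 s2 s3 <;>
    first
    | exact ⟨h1, h2, h3⟩
    | omega

/-- The facts about the low vertices, `k` even. -/
structure LowE (c : ℕ → Bool) (k : ℕ) (P : ℕ → Prop) : Prop where
  rng : ∀ i, P i → 1 ≤ i ∧ i < k ∧ c i = false ∧ c (i + 1) = true
  mx : ∀ i, P i → ∀ m, 1 ≤ m → m < k → c m = true → c (m + 1) = false → S c i + 4 ≤ S c m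
  z3 : ∀ i, P i → S c i + 3 ≤ 0

/-- Bad edges before a low vertex. -/
theorem backE (c : ℕ → Bool) {i : ℕ} (hi : c i = false) (h0 : S c i + 3 ≤ 0)
    (X : ∀ m, 1 ≤ m → m < i → c m = true → c (m + 1) = false → S c i + 4 ≤ S c m) :
    (4 ≤ i ∧ c (i - 1) = false ∧ c (i - 2) = false ∧ c (i - 3) = false) ∨
    (i = 3 ∧ c 1 = false ∧ c 2 = false ∧ c 3 = false) := by
  have h3 : 3 ≤ i := by
    have := bd c (Nat.zero_le i)
    have := zeroB c
    unfold S at h0
    omega
  rcases Nat.eq_or_lt_of_le h3 with h | h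
  · subst h
    obtain ⟨a, b, d⟩ := start3 c h0
    exact Or.inr ⟨rfl, a, b, d⟩
  · left
    obtain ⟨n, rfl⟩ : ∃ n, i = n + 4 := ⟨i - 4, by omega⟩
    have e1 : n + 4 - 1 = n + 3 := by omega
    have e2 : n + 4 - 2 = n + 2 := by omega
    have e3 : n + 4 - 3 = n + 1 := by omega
    rw [e1, e2, e3]
    have s4 := S_succ c (n + 3)
    have s3 := S_succ c (n + 2)
    have s2 := S_succ c (n + 1)
    have f4 : n + 3 + 1 = n + 4 := rfl
    have f3 : n + 2 + 1 = n + 3 := rfl
    have f2 : n + 1 + 1 = n + 2 := rfl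
    rw [f4, hi] at s4
    rw [f3] at s3
    rw [f2] at s2
    simp only [Bool.false_eq_true, if_false] at s4
    have c3 : c (n + 3) = false := by
      rcases Bool.eq_false_or_eq_true (c (n + 3)) with h | h
      · have := X (n + 3) (by omega) (by omega) h hi
        omega
      · exact h
    rw [c3] at s3
    simp only [Bool.false_eq_true, if_false] at s3
    have c2 : c (n + 2) = false := by
      rcases Bool.eq_false_or_eq_true (c (n + 2)) with h | h
      · have := X (n + 2) (by omega) (by omega) h c3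
        omega
      · exact h
    rw [c2] at s2
    simp only [Bool.false_eq_true, if_false] at s2
    have c1 : c (n + 1) = false := by
      rcases Bool.eq_false_or_eq_true (c (n + 1)) with h | h
      · have := X (n + 1) (by omega) (by omega) h c2
        omega
      · exact h
    exact ⟨by omega, c3, c2, c1⟩

/-- Good edges after a low vertex. -/
theorem fwdE (c : ℕ → Bool) {i k : ℕ} (hik : i < k) (hi : c (i + 1) = true)
    (hk : c k = false)
    (X : ∀ m, i < m → m < k → c m = true → c (m + 1) = false → S c i + 4 ≤ S c m) :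
    i + 4 ≤ k ∧ c (i + 2) = true ∧ c (i + 3) = true ∧ c (i + 4) = true := by
  have s1 := S_succ c i
  have s2 := S_succ c (i + 1)
  have s3 := S_succ c (i + 2)
  have f3 : i + 2 + 1 = i + 3 := rfl
  have f2 : i + 1 + 1 = i + 2 := rfl
  rw [f3] at s3
  rw [f2] at s2
  rw [hi] at s1
  simp only [if_true] at s1
  have k1 : i + 1 ≠ k := by
    rintro rfl
    rw [hi] at hk
    cases hk
  have c2 : c (i + 2) = true := by
    rcases Bool.eq_false_or_eq_true (c (i + 2)) with h | h
    · exact h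
    · have := X (i + 1) (by omega) (by omega) hi h
      omega
  rw [c2] at s2
  simp only [if_true] at s2
  have k2 : i + 2 ≠ k := by
    rintro rfl
    rw [c2] at hk
    cases hk
  have c3 : c (i + 3) = true := by
    rcases Bool.eq_false_or_eq_true (c (i + 3)) with h | h
    · exact h
    · have := X (i + 2) (by omega) (by omega) c2 h
      omega
  rw [c3] at s3
  simp only [if_true] at s3
  have k3 : i + 3 ≠ k := by
    rintro rfl
    rw [c3] at hk
    cases hk
  refine ⟨by omega, c2, c3, ?_⟩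
  rcases Bool.eq_false_or_eq_true (c (i + 4)) with h | h
  · exact h
  · have := X (i + 3) (by omega) (by omega) c3 h
    omega

/-- The region lemma, `k` even. -/
theorem regionE (c : ℕ → Bool) {k : ℕ} (P : ℕ → Prop) [DecidablePred P]
    (F : LowE c k P) (hk : c k = false) {p p' : ℕ} {d : ℤ} (hpp : p < p') (hpk : p' ≤ k)
    (hp : (p = 0 ∧ d = 1) ∨ (0 < p ∧ c p ≠ c (p + 1) ∧ d = 0))
    (hp' : p' = k ∨ c p' ≠ c (p' + 1)) :
    0 ≤ NL P p' - NL P (p + 1) ∧
    2 * (NL P p' - NL P (p + 1)) ≤ Be c (p' - 1) - Be c p + d ∧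
    NL P p' - NL P (p + 1) ≤ Be c (p' - 1) - Be c p ∧
    2 * (NL P p' - NL P (p + 1)) ≤ Go c p' - Go c (p + 1) := by
  refine ⟨?_, ?_⟩
  · have := NL_mono P (show p + 1 ≤ p' by omega)
    omega
  rw [← and_assoc]
  refine ⟨?_, ?_⟩
  · have h := low_bad c P (p := p) (p' := p') (d := d) (by omega)
      (fun i hi => (F.rng i hi).2.2.2) ?_ (p' - 1) (by omega) (by omega)
    · have e : p' - 1 + 1 = p' := by omega
      rw [e] at h
      exact h
    · intro i h1 h2 hi
      obtain ⟨r1, r2, r4, r5⟩ := F.rng i hi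
      rcases backE c r4 (F.z3 i hi) (fun m m1 m2 m4 m5 =>
        F.mx i hi m m1 (by omega) m4 m5) with ⟨b1, b2, b3, b4⟩ | ⟨b1, b2, b3, b4⟩
      · left
        refine ⟨?_, r4, b2, b3, b4⟩
        rcases hp with ⟨hp, -⟩ | ⟨-, hp, -⟩
        · omega
        · by_contra hcon
          have hc : p = i - 1 ∨ p = i - 2 ∨ p = i - 3 := by omega
          rcases hc with rfl | rfl | rfl
          · have e : i - 1 + 1 = i := by omega
            rw [e, b2, r4] at hp
            exact hp rfl
          · have e : i - 2 + 1 = i - 1 := by omega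
            rw [e, b3, b2] at hp
            exact hp rfl
          · have e : i - 3 + 1 = i - 2 := by omega
            rw [e, b4, b3] at hp
            exact hp rfl
      · rcases hp with ⟨hp, hd⟩ | ⟨h0, hp, hd⟩
        · right
          exact ⟨by omega, hp, b1, b2, b3, b4⟩
        · exfalso
          have hc : p = 1 ∨ p = 2 := by omega
          rcases hc with rfl | rfl
          · rw [b2, b3] at hp
            exact hp rfl
          · rw [b3, b4] at hp
            exact hp rfl
  · have h := low_good c P (p := p) (p' := p') (d := 0) (le_refl _)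
      (fun i hi => (F.rng i hi).2.2.1) ?_ (p' - (p + 1)) (p + 1) (by omega) (by omega)
    · omega
    · intro i h1 h2 hi
      obtain ⟨r1, r2, r4, r5⟩ := F.rng i hi
      obtain ⟨f1, f2, f3, f4⟩ := fwdE c r2 r5 hk (fun m m1 m3 m4 m5 =>
        F.mx i hi m (by omega) m3 m4 m5)
      left
      refine ⟨?_, r5, f2, f3, f4⟩
      rcases hp' with hp' | hp'
      · omega
      · by_contra hcon
        have hc : p' = i + 1 ∨ p' = i + 2 ∨ p' = i + 3 := by omega
        rcases hc with rfl | rfl | rfl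
        · have e : i + 1 + 1 = i + 2 := rfl
          rw [e, r5, f2] at hp'
          exact hp' rfl
        · have e : i + 2 + 1 = i + 3 := rfl
          rw [e, f2, f3] at hp'
          exact hp' rfl
        · have e : i + 3 + 1 = i + 4 := rfl
          rw [e, f3, f4] at hp'
          exact hp' rfl

/-- The regions for two places, `k` even. -/
theorem regsE (c : ℕ → Bool) {k x y : ℕ} (P : ℕ → Prop) [DecidablePred P]
    (F : LowE c k P) (hb : c k = false) (hx : 0 < x) (hxy : x < y) (hyk : y < k)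
    (lx : c x ≠ c (x + 1)) (ly : c y ≠ c (y + 1))
    (p0 : ¬ P 0) (px : ¬ P x) (py : ¬ P y) :
    ∃ n0 n1 n2 : ℤ, NL P k = n0 + n1 + n2 ∧
      (0 ≤ n0 ∧ 2 * n0 - 1 ≤ Be c (x - 1) - Be c 0 ∧ n0 ≤ Be c (x - 1) - Be c 0 ∧
        2 * n0 ≤ Go c x - Go c 0) ∧
      (0 ≤ n1 ∧ 2 * n1 ≤ Be c (y - 1) - Be c x ∧ 2 * n1 ≤ Go c y - Go c (x + 1)) ∧
      (0 ≤ n2 ∧ 2 * n2 ≤ Be c (k - 1) - Be c y ∧ 2 * n2 ≤ Go c k - Go c (y + 1)) := by
  have r0 := regionE c P F hb (p := 0) (p' := x) hx (by omega) (Or.inl ⟨rfl, rfl⟩) (Or.inr lx)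
  have r1 := regionE c P F hb (p := x) (p' := y) hxy (by omega) (Or.inr ⟨hx, lx, rfl⟩)
    (Or.inr ly)
  have r3 := regionE c P F hb (p := y) (p' := k) hyk (by omega)
    (Or.inr ⟨by omega, ly, rfl⟩) (Or.inl rfl)
  have g0 := go0 c (show 0 ≤ 0 + 1 by omega)
  have z0 := NL_not P p0
  have z1 := NL_not P px
  have z2 := NL_not P py
  have z4 : NL P 0 = 0 := by simp [NL]
  refine ⟨_, _, _, ?_, ⟨r0.1, ?_, r0.2.2.1, ?_⟩, ⟨r1.1, ?_, r1.2.2.2⟩, ⟨r3.1, ?_, r3.2.2.2⟩⟩
  · omega
  · omega
  · omega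
  · omega
  · omega

theorem lowE_of (c al : ℕ → Bool) {k z : ℕ} (hk : k % 2 = 0) (hD : S c k ≤ 0)
    (high : ∀ i, Ld c k i → (c i = true ∨ al i = true) →
      ((k / 2 + 1 : ℕ) : ℤ) ≤ J c k 0 i) :
    LowE c k (LowP c al k 0 z) := by
  have hf : ∀ i, LowP c al k 0 z i → c i = false ∧ c (i + 1) = true := by
    intro i ⟨h1, h2, h3, h4, h5⟩
    rcases Bool.eq_false_or_eq_true (c i) with h | h
    · have := high i h1 (Or.inl h)
      omega
    · refine ⟨h, ?_⟩
      have h6 := h1.2.2
      rw [h] at h6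
      rcases Bool.eq_false_or_eq_true (c (i + 1)) with h' | h'
      · exact h'
      · rw [h'] at h6
        exact absurd rfl h6
  have nv : ∀ i, LowP c al k 0 z i → S c i + 3 ≤ S c k := by
    intro i hi
    obtain ⟨h1, h2⟩ := hf i hi
    have h3 := hi.2.2.2.2
    have hpos : 0 < i := hi.1.1
    have b0 := zeroB c
    rcases Nat.mod_two_eq_zero_or_one i with h | h
    · rw [(J_eF c (k := k) (q := 0) hpos h h1 h2).1 hpos] at h3
      unfold S
      omega
    · rw [(J_oF c (k := k) (q := 0) hpos h h1 h2).1 hpos] at h3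
      unfold S
      omega
  have mx : ∀ m, 1 ≤ m → m < k → c m = true → c (m + 1) = false → S c k + 1 ≤ S c m := by
    intro m m1 m2 m3 m4
    have h3 := high m ⟨m1, m2, by rw [m3, m4]; decide⟩ (Or.inl m3)
    have b0 := zeroB c
    rcases Nat.mod_two_eq_zero_or_one m with h | h
    · rw [(J_eT c (k := k) (q := 0) m1 h m3 m4).1 m1] at h3
      unfold S
      omega
    · rw [(J_oT c (k := k) (q := 0) m1 h m3 m4).1 m1] at h3
      unfold S
      omega
  refine ⟨?_, ?_, ?_⟩
  · intro i hi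
    exact ⟨hi.1.1, hi.1.2.1, (hf i hi).1, (hf i hi).2⟩
  · intro i hi m m1 m2 m3 m4
    have := nv i hi
    have := mx m m1 m2 m3 m4
    omega
  · intro i hi
    have := nv i hi
    omega

/-- The output for the seam `0` and an even number of edges. -/
theorem mode_X (c al : ℕ → Bool) {k : ℕ} (hk : k % 2 = 0) (hb : c k = false)
    (hD : S c k ≤ 0)
    (high : ∀ i, Ld c k i → (c i = true ∨ al i = true) →
      ((k / 2 + 1 : ℕ) : ℤ) ≤ J c k 0 i) :
    SeamOut c al k 0 1 2 2 2 := by
  refine ⟨fun i a _ b => high i a b, ?_, ?_, ?_, ?_, ?_, ?_, ?_⟩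
  · intro a z la ha haq lz hz ka kz
    have la1 := la.1
    have lz1 := lz.1
    have haz : a ≠ z := by rintro rfl; rw [ha] at hz; cases hz
    rcases lt_or_gt_of_ne haz with h3 | h3
    · exact TX_az_bb c hk hb la.1 h3 lz.2.1 ka kz hD (high a la (Or.inr ha)) (fun h => high z lz (Or.inl h))
    · exact TX_za_bb c hk hb lz.1 h3 la.2.1 ka kz hD (high a la (Or.inr ha)) (fun h => high z lz (Or.inl h))
  · intro a z la ha haq lz hz ka kz
    have la1 := la.1
    have lz1 := lz.1
    have haz : a ≠ z := by rintro rfl; rw [ha] at hz; cases hz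
    rcases lt_or_gt_of_ne haz with h3 | h3
    · exact TX_az_bg c hk hb la.1 h3 lz.2.1 ka kz hD (high a la (Or.inr ha)) (fun h => high z lz (Or.inl h))
    · exact TX_za_bg c hk hb lz.1 h3 la.2.1 ka kz hD (high a la (Or.inr ha)) (fun h => high z lz (Or.inl h))
  · intro a z la ha haq lz hz ka kz
    have la1 := la.1
    have lz1 := lz.1
    have haz : a ≠ z := by rintro rfl; rw [ha] at hz; cases hz
    rcases lt_or_gt_of_ne haz with h3 | h3
    · obtain ⟨n0, n1, n2, hs, ⟨n0z, n0a, n0d, n0b⟩, ⟨n1z, n1a, n1b⟩, ⟨n2z, n2a, n2b⟩⟩ :=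
        regsE c (LowP c al k 0 z) (lowE_of c al hk hD high) hb la.1 h3 lz.2.1 la.2.2 lz.2.2
        (fun h => by have := h.1.1; omega) (fun h => by have := h.2.1; rw [ha] at this; cases this) (fun h => h.2.2.2.1 rfl)
      have := TX_az_gb c hk hb la.1 h3 lz.2.1 ka kz hD (high a la (Or.inr ha)) (fun h => high z lz (Or.inl h)) n0z n0a n0d n0b n1z n1a n1b n2z n2a n2b
      rw [lowc_eq]
      omega
    · obtain ⟨n0, n1, n2, hs, ⟨n0z, n0a, n0d, n0b⟩, ⟨n1z, n1a, n1b⟩, ⟨n2z, n2a, n2b⟩⟩ :=
        regsE c (LowP c al k 0 z) (lowE_of c al hk hD high) hb lz.1 h3 la.2.1 lz.2.2 la.2.2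
        (fun h => by have := h.1.1; omega) (fun h => h.2.2.2.1 rfl) (fun h => by have := h.2.1; rw [ha] at this; cases this)
      have := TX_za_gb c hk hb lz.1 h3 la.2.1 ka kz hD (high a la (Or.inr ha)) (fun h => high z lz (Or.inl h)) n0z n0a n0d n0b n1z n1a n1b n2z n2a n2b
      rw [lowc_eq]
      omega
  · intro a z la ha haq lz hz ka kz
    have la1 := la.1
    have lz1 := lz.1
    have haz : a ≠ z := by rintro rfl; rw [ha] at hz; cases hz
    rcases lt_or_gt_of_ne haz with h3 | h3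
    · exact TX_az_gg c hk hb la.1 h3 lz.2.1 ka kz hD (high a la (Or.inr ha)) (fun h => high z lz (Or.inl h))
    · exact TX_za_gg c hk hb lz.1 h3 la.2.1 ka kz hD (high a la (Or.inr ha)) (fun h => high z lz (Or.inl h))
  · intro a z la ha haq lz hz ka
    have la1 := la.1
    have lz1 := lz.1
    have haz : a ≠ z := by rintro rfl; rw [ha] at hz; cases hz
    rcases kinds c lz.2.2 with kz | kz <;> rcases lt_or_gt_of_ne haz with h3 | h3
    · exact HX_az_bb c hk hb la.1 h3 lz.2.1 ka kz hD (high a la (Or.inr ha)) (fun h => high z lz (Or.inl h))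
    · exact HX_za_bb c hk hb lz.1 h3 la.2.1 ka kz hD (high a la (Or.inr ha)) (fun h => high z lz (Or.inl h))
    · exact HX_az_bg c hk hb la.1 h3 lz.2.1 ka kz hD (high a la (Or.inr ha)) (fun h => high z lz (Or.inl h))
    · exact HX_za_bg c hk hb lz.1 h3 la.2.1 ka kz hD (high a la (Or.inr ha)) (fun h => high z lz (Or.inl h))
  · intro z lz hzq kz
    exact PX_z_b c hk hb lz.1 lz.2.1 kz hD (fun h => high z lz (Or.inl h))
  · intro z lz hzq kz
    exact PX_z_g c hk hb lz.1 lz.2.1 kz hD (fun h => high z lz (Or.inl h))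

end Pool.Agent.Lob34
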