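import Pool.Agent.Lob34.TabX

/-! Inequalities for the seam `0` and an even number of edges, relaxed form. -/

namespace Pool.Agent.Lob34

theorem TY_az_bb (c : ℕ → Bool) {k a z : ℕ} (hk : k % 2 = 0) (hb : c k = false)
    (hf : 0 < a) (h0 : a < z) (hl : z < k)
    (ka : KB c a) (kz : KB c z) (hD : S c k ≤ 0)
    (fa : ((k / 2 : ℕ) : ℤ) ≤ J c k 0 a) (fz : c z = true → ((k / 2 : ℕ) : ℤ) ≤ J c k 0 z) :
    J c k 0 a - J c k 0 z + 0 ≤ Be c k + 1 := by
  rcases ka with ha | ha <;> rcases kz with hz | hz
  · clear hD fa fz
    have sa := st_ET c (by omega) ha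
    have sz := st_ET c (by omega) hz
    have ja := (JET c (k := k) (q := 0) (by omega) ha).1 (by omega)
    have jz := (JET c (k := k) (q := 0) (by omega) hz).1 (by omega)
    rw [ja, jz]
    clear ja jz
    have pa := ha.1
    have pz := hz.1
    have b0 := zeroB c
    have sk := stK c hk (by omega) hb
    have e0 := be1 c (show 0 ≤ a by omega)
    have e1 := bo2 c (show a + 1 ≤ z by omega)
    have e2 := be1 c (show z ≤ k - 1 by omega)
    omega
  · clear hD fa fz
    have sa := st_ET c (by omega) ha
    have sz := st_OF c (by omega) hz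
    have ja := (JET c (k := k) (q := 0) (by omega) ha).1 (by omega)
    have jz := (JOF c (k := k) (q := 0) (by omega) hz).1 (by omega)
    rw [ja, jz]
    clear ja jz
    have pa := ha.1
    have pz := hz.1
    have b0 := zeroB c
    have sk := stK c hk (by omega) hb
    have e0 := be1 c (show 0 ≤ a by omega)
    have e1 := bo2 c (show a + 1 ≤ z by omega)
    have e2 := be1 c (show z ≤ k - 1 by omega)
    omega
  · clear hD fa fz
    have sa := st_OF c (by omega) ha
    have sz := st_ET c (by omega) hz
    have ja := (JOF c (k := k) (q := 0) (by omega) ha).1 (by omega)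
    have jz := (JET c (k := k) (q := 0) (by omega) hz).1 (by omega)
    rw [ja, jz]
    clear ja jz
    have pa := ha.1
    have pz := hz.1
    have b0 := zeroB c
    have sk := stK c hk (by omega) hb
    have e0 := be1 c (show 0 ≤ a by omega)
    have e1 := bo2 c (show a + 1 ≤ z by omega)
    have e2 := be1 c (show z ≤ k - 1 by omega)
    omega
  · clear hD fa fz
    have sa := st_OF c (by omega) ha
    have sz := st_OF c (by omega) hz
    have ja := (JOF c (k := k) (q := 0) (by omega) ha).1 (by omega)
    have jz := (JOF c (k := k) (q := 0) (by omega) hz).1 (by omega)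
    rw [ja, jz]
    clear ja jz
    have pa := ha.1
    have pz := hz.1
    have b0 := zeroB c
    have sk := stK c hk (by omega) hb
    have e0 := be1 c (show 0 ≤ a by omega)
    have e1 := bo2 c (show a + 1 ≤ z by omega)
    have e2 := be1 c (show z ≤ k - 1 by omega)
    omega

theorem TY_az_bg (c : ℕ → Bool) {k a z : ℕ} (hk : k % 2 = 0) (hb : c k = false)
    (hf : 0 < a) (h0 : a < z) (hl : z < k)
    (ka : KB c a) (kz : KG c z) (hD : S c k ≤ 0)
    (fa : ((k / 2 : ℕ) : ℤ) ≤ J c k 0 a) (fz : c z = true → ((k / 2 : ℕ) : ℤ) ≤ J c k 0 z) :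
    J c k 0 a - J c k 0 z + 2 ≤ Be c k + 1 := by
  rcases ka with ha | ha <;> rcases kz with hz | hz
  · clear hD fa fz
    have sa := st_ET c (by omega) ha
    have sz := st_OT c (by omega) hz
    have ja := (JET c (k := k) (q := 0) (by omega) ha).1 (by omega)
    have jz := (JOT c (k := k) (q := 0) (by omega) hz).1 (by omega)
    rw [ja, jz]
    clear ja jz
    have pa := ha.1
    have pz := hz.1
    have b0 := zeroB c
    have e0 := be1 c (show 0 ≤ a by omega)
    have e1 := bo2 c (show a ≤ z - 1 by omega)
    have e2 := be1 c (show z + 1 ≤ k by omega)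
    omega
  · clear hD fa fz
    have sa := st_ET c (by omega) ha
    have sz := st_EF c (by omega) hz
    have ja := (JET c (k := k) (q := 0) (by omega) ha).1 (by omega)
    have jz := (JEF c (k := k) (q := 0) (by omega) hz).1 (by omega)
    rw [ja, jz]
    clear ja jz
    have pa := ha.1
    have pz := hz.1
    have b0 := zeroB c
    have sk := stK c hk (by omega) hb
    have e0 := be1 c (show 0 ≤ a by omega)
    have e1 := bo2 c (show a + 1 ≤ z by omega)
    have e2 := be1 c (show z ≤ k - 1 by omega)
    omega
  · clear hD fa fz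
    have sa := st_OF c (by omega) ha
    have sz := st_OT c (by omega) hz
    have ja := (JOF c (k := k) (q := 0) (by omega) ha).1 (by omega)
    have jz := (JOT c (k := k) (q := 0) (by omega) hz).1 (by omega)
    rw [ja, jz]
    clear ja jz
    have pa := ha.1
    have pz := hz.1
    have b0 := zeroB c
    have e0 := be1 c (show 0 ≤ a by omega)
    have e1 := bo2 c (show a ≤ z - 1 by omega)
    have e2 := be1 c (show z + 1 ≤ k by omega)
    omega
  · clear hD fa fz
    have sa := st_OF c (by omega) ha
    have sz := st_EF c (by omega) hz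
    have ja := (JOF c (k := k) (q := 0) (by omega) ha).1 (by omega)
    have jz := (JEF c (k := k) (q := 0) (by omega) hz).1 (by omega)
    rw [ja, jz]
    clear ja jz
    have pa := ha.1
    have pz := hz.1
    have b0 := zeroB c
    have sk := stK c hk (by omega) hb
    have e0 := be1 c (show 0 ≤ a by omega)
    have e1 := bo2 c (show a + 1 ≤ z by omega)
    have e2 := be1 c (show z ≤ k - 1 by omega)
    omega

theorem TY_az_gb (c : ℕ → Bool) {k a z : ℕ} {n0 n1 n2 : ℤ} (hk : k % 2 = 0) (hb : c k = false)
    (hf : 0 < a) (h0 : a < z) (hl : z < k)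
    (ka : KG c a) (kz : KB c z) (hD : S c k ≤ 0)
    (fa : ((k / 2 : ℕ) : ℤ) ≤ J c k 0 a) (fz : c z = true → ((k / 2 : ℕ) : ℤ) ≤ J c k 0 z)
    (n0z : 0 ≤ n0) (n0a : 2 * n0 ≤ Be c (a - 1) - Be c 0)
    (n0b : 2 * n0 ≤ Go c a - Go c 0)
    (n1z : 0 ≤ n1) (n1a : 2 * n1 ≤ Be c (z - 1) - Be c a) (n1b : 2 * n1 ≤ Go c z - Go c (a + 1))
    (n2z : 0 ≤ n2) (n2a : 2 * n2 ≤ Be c (k - 1) - Be c z) (n2b : 2 * n2 ≤ Go c k - Go c (z + 1)) :
    J c k 0 a - J c k 0 z + (n0 + n1 + n2) + 1 ≤ Be c k + 1 := by
  rcases ka with ha | ha <;> rcases kz with hz | hz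
  · clear hD fa fz n0z n0b n1z n1a n2z n2b
    have sa := st_OT c (by omega) ha
    have sz := st_ET c (by omega) hz
    have ja := (JOT c (k := k) (q := 0) (by omega) ha).1 (by omega)
    have jz := (JET c (k := k) (q := 0) (by omega) hz).1 (by omega)
    rw [ja, jz]
    clear ja jz
    have pa := ha.1
    have pz := hz.1
    have b0 := zeroB c
    have sk := stK c hk (by omega) hb
    have e0 := be1 c (show 0 ≤ a by omega)
    have e1 := bo2 c (show a + 1 ≤ z by omega)
    have e2 := be1 c (show z ≤ k - 1 by omega)
    simp only [Go] at n1b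
    omega
  · clear hD fa fz n0z n0b n1z n1a n2z n2b
    have sa := st_OT c (by omega) ha
    have sz := st_OF c (by omega) hz
    have ja := (JOT c (k := k) (q := 0) (by omega) ha).1 (by omega)
    have jz := (JOF c (k := k) (q := 0) (by omega) hz).1 (by omega)
    rw [ja, jz]
    clear ja jz
    have pa := ha.1
    have pz := hz.1
    have b0 := zeroB c
    have sk := stK c hk (by omega) hb
    have e0 := be1 c (show 0 ≤ a by omega)
    have e1 := bo2 c (show a + 1 ≤ z by omega)
    have e2 := be1 c (show z ≤ k - 1 by omega)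
    simp only [Go] at n1b
    omega
  · clear hD fa fz n0z n0b n1z n1a n2z n2b
    have sa := st_EF c (by omega) ha
    have sz := st_ET c (by omega) hz
    have ja := (JEF c (k := k) (q := 0) (by omega) ha).1 (by omega)
    have jz := (JET c (k := k) (q := 0) (by omega) hz).1 (by omega)
    rw [ja, jz]
    clear ja jz
    have pa := ha.1
    have pz := hz.1
    have b0 := zeroB c
    have sk := stK c hk (by omega) hb
    have e0 := be1 c (show 0 ≤ a - 1 by omega)
    have e1 := bo2 c (show a + 1 ≤ z by omega)
    have e2 := be1 c (show z ≤ k - 1 by omega)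
    simp only [Go] at n1b
    omega
  · clear hD fa fz n0z n0b n1z n1a n2z n2b
    have sa := st_EF c (by omega) ha
    have sz := st_OF c (by omega) hz
    have ja := (JEF c (k := k) (q := 0) (by omega) ha).1 (by omega)
    have jz := (JOF c (k := k) (q := 0) (by omega) hz).1 (by omega)
    rw [ja, jz]
    clear ja jz
    have pa := ha.1
    have pz := hz.1
    have b0 := zeroB c
    have sk := stK c hk (by omega) hb
    have e0 := be1 c (show 0 ≤ a - 1 by omega)
    have e1 := bo2 c (show a + 1 ≤ z by omega)
    have e2 := be1 c (show z ≤ k - 1 by omega)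
    simp only [Go] at n1b
    omega

theorem TY_az_gg (c : ℕ → Bool) {k a z : ℕ} (hk : k % 2 = 0) (hb : c k = false)
    (hf : 0 < a) (h0 : a < z) (hl : z < k)
    (ka : KG c a) (kz : KG c z) (hD : S c k ≤ 0)
    (fa : ((k / 2 : ℕ) : ℤ) ≤ J c k 0 a) (fz : c z = true → ((k / 2 : ℕ) : ℤ) ≤ J c k 0 z) :
    J c k 0 a - J c k 0 z + 2 ≤ Be c k + 1 := by
  rcases ka with ha | ha <;> rcases kz with hz | hz
  · clear hD fa fz
    have sa := st_OT c (by omega) ha
    have sz := st_OT c (by omega) hz
    have ja := (JOT c (k := k) (q := 0) (by omega) ha).1 (by omega)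
    have jz := (JOT c (k := k) (q := 0) (by omega) hz).1 (by omega)
    rw [ja, jz]
    clear ja jz
    have pa := ha.1
    have pz := hz.1
    have b0 := zeroB c
    have e0 := be1 c (show 0 ≤ a by omega)
    have e1 := bo2 c (show a ≤ z - 1 by omega)
    have e2 := be1 c (show z + 1 ≤ k by omega)
    omega
  · clear hD fa fz
    have sa := st_OT c (by omega) ha
    have sz := st_EF c (by omega) hz
    have ja := (JOT c (k := k) (q := 0) (by omega) ha).1 (by omega)
    have jz := (JEF c (k := k) (q := 0) (by omega) hz).1 (by omega)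
    rw [ja, jz]
    clear ja jz
    have pa := ha.1
    have pz := hz.1
    have b0 := zeroB c
    have sk := stK c hk (by omega) hb
    have e0 := be1 c (show 0 ≤ a by omega)
    have e1 := bo2 c (show a + 1 ≤ z by omega)
    have e2 := be1 c (show z ≤ k - 1 by omega)
    omega
  · clear hD fa fz
    have sa := st_EF c (by omega) ha
    have sz := st_OT c (by omega) hz
    have ja := (JEF c (k := k) (q := 0) (by omega) ha).1 (by omega)
    have jz := (JOT c (k := k) (q := 0) (by omega) hz).1 (by omega)
    rw [ja, jz]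
    clear ja jz
    have pa := ha.1
    have pz := hz.1
    have b0 := zeroB c
    have e0 := be1 c (show 0 ≤ a - 1 by omega)
    have e1 := bo2 c (show a + 1 ≤ z by omega)
    have e2 := be1 c (show z + 1 ≤ k by omega)
    omega
  · clear hD fa fz
    have sa := st_EF c (by omega) ha
    have sz := st_EF c (by omega) hz
    have ja := (JEF c (k := k) (q := 0) (by omega) ha).1 (by omega)
    have jz := (JEF c (k := k) (q := 0) (by omega) hz).1 (by omega)
    rw [ja, jz]
    clear ja jz
    have pa := ha.1
    have pz := hz.1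
    have b0 := zeroB c
    have sk := stK c hk (by omega) hb
    have e0 := be1 c (show 0 ≤ a - 1 by omega)
    have e1 := bo2 c (show a + 1 ≤ z by omega)
    have e2 := be1 c (show z ≤ k - 1 by omega)
    omega

theorem HY_az_bb (c : ℕ → Bool) {k a z : ℕ} (hk : k % 2 = 0) (hb : c k = false)
    (hf : 0 < a) (h0 : a < z) (hl : z < k)
    (ka : KB c a) (kz : KB c z) (hD : S c k ≤ 0)
    (fa : ((k / 2 : ℕ) : ℤ) ≤ J c k 0 a) (fz : c z = true → ((k / 2 : ℕ) : ℤ) ≤ J c k 0 z) :
    J c k 0 a - J c k 0 z + 1 ≤ Bo c k := by
  rcases ka with ha | ha <;> rcases kz with hz | hz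
  · clear hD fa fz
    have sa := st_ET c (by omega) ha
    have sz := st_ET c (by omega) hz
    have ja := (JET c (k := k) (q := 0) (by omega) ha).1 (by omega)
    have jz := (JET c (k := k) (q := 0) (by omega) hz).1 (by omega)
    rw [ja, jz]
    clear ja jz
    have pa := ha.1
    have pz := hz.1
    have b0 := zeroB c
    have e0 := bo1 c (show 0 ≤ a by omega)
    have e1 := be2 c (show a ≤ z - 1 by omega)
    have e2 := bo1 c (show z + 1 ≤ k by omega)
    omega
  · clear hD fa fz
    have sa := st_ET c (by omega) ha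
    have sz := st_OF c (by omega) hz
    have ja := (JET c (k := k) (q := 0) (by omega) ha).1 (by omega)
    have jz := (JOF c (k := k) (q := 0) (by omega) hz).1 (by omega)
    rw [ja, jz]
    clear ja jz
    have pa := ha.1
    have pz := hz.1
    have b0 := zeroB c
    have e0 := bo1 c (show 0 ≤ a by omega)
    have e1 := be2 c (show a + 1 ≤ z by omega)
    have e2 := bo1 c (show z + 1 ≤ k by omega)
    omega
  · clear hD fa fz
    have sa := st_OF c (by omega) ha
    have sz := st_ET c (by omega) hz
    have ja := (JOF c (k := k) (q := 0) (by omega) ha).1 (by omega)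
    have jz := (JET c (k := k) (q := 0) (by omega) hz).1 (by omega)
    rw [ja, jz]
    clear ja jz
    have pa := ha.1
    have pz := hz.1
    have b0 := zeroB c
    have e0 := bo1 c (show 0 ≤ a - 1 by omega)
    have e1 := be2 c (show a + 1 ≤ z by omega)
    have e2 := bo1 c (show z + 1 ≤ k by omega)
    omega
  · clear hD fa fz
    have sa := st_OF c (by omega) ha
    have sz := st_OF c (by omega) hz
    have ja := (JOF c (k := k) (q := 0) (by omega) ha).1 (by omega)
    have jz := (JOF c (k := k) (q := 0) (by omega) hz).1 (by omega)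
    rw [ja, jz]
    clear ja jz
    have pa := ha.1
    have pz := hz.1
    have b0 := zeroB c
    have e0 := bo1 c (show 0 ≤ a - 1 by omega)
    have e1 := be2 c (show a + 1 ≤ z by omega)
    have e2 := bo1 c (show z + 1 ≤ k by omega)
    omega

theorem HY_az_bg (c : ℕ → Bool) {k a z : ℕ} (hk : k % 2 = 0) (hb : c k = false)
    (hf : 0 < a) (h0 : a < z) (hl : z < k)
    (ka : KB c a) (kz : KG c z) (hD : S c k ≤ 0)
    (fa : ((k / 2 : ℕ) : ℤ) ≤ J c k 0 a) (fz : c z = true → ((k / 2 : ℕ) : ℤ) ≤ J c k 0 z) :
    J c k 0 a - J c k 0 z + 1 ≤ Bo c k := by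
  rcases ka with ha | ha <;> rcases kz with hz | hz
  · clear hD fa fz
    have sa := st_ET c (by omega) ha
    have sz := st_OT c (by omega) hz
    have ja := (JET c (k := k) (q := 0) (by omega) ha).1 (by omega)
    have jz := (JOT c (k := k) (q := 0) (by omega) hz).1 (by omega)
    rw [ja, jz]
    clear ja jz
    have pa := ha.1
    have pz := hz.1
    have b0 := zeroB c
    have e0 := bo1 c (show 0 ≤ a by omega)
    have e1 := be2 c (show a + 1 ≤ z by omega)
    have e2 := bo1 c (show z + 1 ≤ k by omega)
    omega
  · clear hD fa fz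
    have sa := st_ET c (by omega) ha
    have sz := st_EF c (by omega) hz
    have ja := (JET c (k := k) (q := 0) (by omega) ha).1 (by omega)
    have jz := (JEF c (k := k) (q := 0) (by omega) hz).1 (by omega)
    rw [ja, jz]
    clear ja jz
    have pa := ha.1
    have pz := hz.1
    have b0 := zeroB c
    have e0 := bo1 c (show 0 ≤ a by omega)
    have e1 := be2 c (show a + 1 ≤ z by omega)
    have e2 := bo1 c (show z + 1 ≤ k by omega)
    omega
  · clear hD fa fz
    have sa := st_OF c (by omega) ha
    have sz := st_OT c (by omega) hz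
    have ja := (JOF c (k := k) (q := 0) (by omega) ha).1 (by omega)
    have jz := (JOT c (k := k) (q := 0) (by omega) hz).1 (by omega)
    rw [ja, jz]
    clear ja jz
    have pa := ha.1
    have pz := hz.1
    have b0 := zeroB c
    have e0 := bo1 c (show 0 ≤ a - 1 by omega)
    have e1 := be2 c (show a + 1 ≤ z by omega)
    have e2 := bo1 c (show z + 1 ≤ k by omega)
    omega
  · clear hD fa fz
    have sa := st_OF c (by omega) ha
    have sz := st_EF c (by omega) hz
    have ja := (JOF c (k := k) (q := 0) (by omega) ha).1 (by omega)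
    have jz := (JEF c (k := k) (q := 0) (by omega) hz).1 (by omega)
    rw [ja, jz]
    clear ja jz
    have pa := ha.1
    have pz := hz.1
    have b0 := zeroB c
    have e0 := bo1 c (show 0 ≤ a - 1 by omega)
    have e1 := be2 c (show a + 1 ≤ z by omega)
    have e2 := bo1 c (show z + 1 ≤ k by omega)
    omega

theorem TY_za_bb (c : ℕ → Bool) {k a z : ℕ} (hk : k % 2 = 0) (hb : c k = false)
    (hf : 0 < z) (h0 : z < a) (hl : a < k)
    (ka : KB c a) (kz : KB c z) (hD : S c k ≤ 0)
    (fa : ((k / 2 : ℕ) : ℤ) ≤ J c k 0 a) (fz : c z = true → ((k / 2 : ℕ) : ℤ) ≤ J c k 0 z) :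
    J c k 0 a - J c k 0 z + 0 ≤ Be c k + 1 := by
  rcases ka with ha | ha <;> rcases kz with hz | hz
  · clear fa fz
    have sa := st_ET c (by omega) ha
    have sz := st_ET c (by omega) hz
    have ja := (JET c (k := k) (q := 0) (by omega) ha).1 (by omega)
    have jz := (JET c (k := k) (q := 0) (by omega) hz).1 (by omega)
    rw [ja, jz]
    clear ja jz
    have pa := ha.1
    have pz := hz.1
    have b0 := zeroB c
    have e0 := bo2 c (show 0 ≤ z by omega)
    have e1 := be1 c (show z + 1 ≤ a by omega)
    have e2 := bo2 c (show a + 1 ≤ k by omega)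
    simp only [S] at hD
    omega
  · clear fa fz
    have sa := st_ET c (by omega) ha
    have sz := st_OF c (by omega) hz
    have ja := (JET c (k := k) (q := 0) (by omega) ha).1 (by omega)
    have jz := (JOF c (k := k) (q := 0) (by omega) hz).1 (by omega)
    rw [ja, jz]
    clear ja jz
    have pa := ha.1
    have pz := hz.1
    have b0 := zeroB c
    have e0 := bo2 c (show 0 ≤ z by omega)
    have e1 := be1 c (show z + 1 ≤ a by omega)
    have e2 := bo2 c (show a + 1 ≤ k by omega)
    simp only [S] at hD
    omega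
  · clear fa fz
    have sa := st_OF c (by omega) ha
    have sz := st_ET c (by omega) hz
    have ja := (JOF c (k := k) (q := 0) (by omega) ha).1 (by omega)
    have jz := (JET c (k := k) (q := 0) (by omega) hz).1 (by omega)
    rw [ja, jz]
    clear ja jz
    have pa := ha.1
    have pz := hz.1
    have b0 := zeroB c
    have e0 := bo2 c (show 0 ≤ z by omega)
    have e1 := be1 c (show z + 1 ≤ a by omega)
    have e2 := bo2 c (show a + 1 ≤ k by omega)
    simp only [S] at hD
    omega
  · clear fa fz
    have sa := st_OF c (by omega) ha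
    have sz := st_OF c (by omega) hz
    have ja := (JOF c (k := k) (q := 0) (by omega) ha).1 (by omega)
    have jz := (JOF c (k := k) (q := 0) (by omega) hz).1 (by omega)
    rw [ja, jz]
    clear ja jz
    have pa := ha.1
    have pz := hz.1
    have b0 := zeroB c
    have e0 := bo2 c (show 0 ≤ z by omega)
    have e1 := be1 c (show z + 1 ≤ a by omega)
    have e2 := bo2 c (show a + 1 ≤ k by omega)
    simp only [S] at hD
    omega

theorem TY_za_bg (c : ℕ → Bool) {k a z : ℕ} (hk : k % 2 = 0) (hb : c k = false)
    (hf : 0 < z) (h0 : z < a) (hl : a < k)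
    (ka : KB c a) (kz : KG c z) (hD : S c k ≤ 0)
    (fa : ((k / 2 : ℕ) : ℤ) ≤ J c k 0 a) (fz : c z = true → ((k / 2 : ℕ) : ℤ) ≤ J c k 0 z) :
    J c k 0 a - J c k 0 z + 2 ≤ Be c k + 1 := by
  rcases ka with ha | ha <;> rcases kz with hz | hz
  · clear fa fz
    have sa := st_ET c (by omega) ha
    have sz := st_OT c (by omega) hz
    have ja := (JET c (k := k) (q := 0) (by omega) ha).1 (by omega)
    have jz := (JOT c (k := k) (q := 0) (by omega) hz).1 (by omega)
    rw [ja, jz]
    clear ja jz
    have pa := ha.1
    have pz := hz.1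
    have b0 := zeroB c
    have e0 := bo2 c (show 0 ≤ z - 1 by omega)
    have e1 := be1 c (show z + 1 ≤ a by omega)
    have e2 := bo2 c (show a + 1 ≤ k by omega)
    simp only [S] at hD
    omega
  · clear fa fz
    have sa := st_ET c (by omega) ha
    have sz := st_EF c (by omega) hz
    have ja := (JET c (k := k) (q := 0) (by omega) ha).1 (by omega)
    have jz := (JEF c (k := k) (q := 0) (by omega) hz).1 (by omega)
    rw [ja, jz]
    clear ja jz
    have pa := ha.1
    have pz := hz.1
    have b0 := zeroB c
    have e0 := bo2 c (show 0 ≤ z by omega)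
    have e1 := be1 c (show z + 1 ≤ a by omega)
    have e2 := bo2 c (show a + 1 ≤ k by omega)
    simp only [S] at hD
    omega
  · clear fa fz
    have sa := st_OF c (by omega) ha
    have sz := st_OT c (by omega) hz
    have ja := (JOF c (k := k) (q := 0) (by omega) ha).1 (by omega)
    have jz := (JOT c (k := k) (q := 0) (by omega) hz).1 (by omega)
    rw [ja, jz]
    clear ja jz
    have pa := ha.1
    have pz := hz.1
    have b0 := zeroB c
    have e0 := bo2 c (show 0 ≤ z - 1 by omega)
    have e1 := be1 c (show z + 1 ≤ a by omega)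
    have e2 := bo2 c (show a + 1 ≤ k by omega)
    simp only [S] at hD
    omega
  · clear fa fz
    have sa := st_OF c (by omega) ha
    have sz := st_EF c (by omega) hz
    have ja := (JOF c (k := k) (q := 0) (by omega) ha).1 (by omega)
    have jz := (JEF c (k := k) (q := 0) (by omega) hz).1 (by omega)
    rw [ja, jz]
    clear ja jz
    have pa := ha.1
    have pz := hz.1
    have b0 := zeroB c
    have e0 := bo2 c (show 0 ≤ z by omega)
    have e1 := be1 c (show z + 1 ≤ a by omega)
    have e2 := bo2 c (show a + 1 ≤ k by omega)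
    simp only [S] at hD
    omega

theorem TY_za_gb (c : ℕ → Bool) {k a z : ℕ} {n0 n1 n2 : ℤ} (hk : k % 2 = 0) (hb : c k = false)
    (hf : 0 < z) (h0 : z < a) (hl : a < k)
    (ka : KG c a) (kz : KB c z) (hD : S c k ≤ 0)
    (fa : ((k / 2 : ℕ) : ℤ) ≤ J c k 0 a) (fz : c z = true → ((k / 2 : ℕ) : ℤ) ≤ J c k 0 z)
    (n0z : 0 ≤ n0) (n0a : 2 * n0 ≤ Be c (z - 1) - Be c 0)
    (n0b : 2 * n0 ≤ Go c z - Go c 0)
    (n1z : 0 ≤ n1) (n1a : 2 * n1 ≤ Be c (a - 1) - Be c z) (n1b : 2 * n1 ≤ Go c a - Go c (z + 1))
    (n2z : 0 ≤ n2) (n2a : 2 * n2 ≤ Be c (k - 1) - Be c a) (n2b : 2 * n2 ≤ Go c k - Go c (a + 1)) :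
    J c k 0 a - J c k 0 z + (n0 + n1 + n2) + 1 ≤ Be c k + 1 := by
  rcases ka with ha | ha <;> rcases kz with hz | hz
  · clear fa fz n0z n0a n1z n1b n2z n2a
    have sa := st_OT c (by omega) ha
    have sz := st_ET c (by omega) hz
    have ja := (JOT c (k := k) (q := 0) (by omega) ha).1 (by omega)
    have jz := (JET c (k := k) (q := 0) (by omega) hz).1 (by omega)
    rw [ja, jz]
    clear ja jz
    have pa := ha.1
    have pz := hz.1
    have b0 := zeroB c
    have e0 := bo2 c (show 0 ≤ z by omega)
    have e1 := be1 c (show z + 1 ≤ a by omega)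
    have e2 := bo2 c (show a + 1 ≤ k by omega)
    simp only [S, Go] at hD n0b n2b
    omega
  · clear fa fz n0z n0a n1z n1b n2z n2a
    have sa := st_OT c (by omega) ha
    have sz := st_OF c (by omega) hz
    have ja := (JOT c (k := k) (q := 0) (by omega) ha).1 (by omega)
    have jz := (JOF c (k := k) (q := 0) (by omega) hz).1 (by omega)
    rw [ja, jz]
    clear ja jz
    have pa := ha.1
    have pz := hz.1
    have b0 := zeroB c
    have e0 := bo2 c (show 0 ≤ z by omega)
    have e1 := be1 c (show z + 1 ≤ a by omega)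
    have e2 := bo2 c (show a + 1 ≤ k by omega)
    simp only [S, Go] at hD n0b n2b
    omega
  · clear fa fz n0z n0a n1z n1b n2z n2a
    have sa := st_EF c (by omega) ha
    have sz := st_ET c (by omega) hz
    have ja := (JEF c (k := k) (q := 0) (by omega) ha).1 (by omega)
    have jz := (JET c (k := k) (q := 0) (by omega) hz).1 (by omega)
    rw [ja, jz]
    clear ja jz
    have pa := ha.1
    have pz := hz.1
    have b0 := zeroB c
    have e0 := bo2 c (show 0 ≤ z by omega)
    have e1 := be1 c (show z ≤ a - 1 by omega)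
    have e2 := bo2 c (show a + 1 ≤ k by omega)
    simp only [S, Go] at hD n0b n2b
    omega
  · clear fa fz n0z n0a n1z n1b n2z n2a
    have sa := st_EF c (by omega) ha
    have sz := st_OF c (by omega) hz
    have ja := (JEF c (k := k) (q := 0) (by omega) ha).1 (by omega)
    have jz := (JOF c (k := k) (q := 0) (by omega) hz).1 (by omega)
    rw [ja, jz]
    clear ja jz
    have pa := ha.1
    have pz := hz.1
    have b0 := zeroB c
    have e0 := bo2 c (show 0 ≤ z by omega)
    have e1 := be1 c (show z ≤ a - 1 by omega)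
    have e2 := bo2 c (show a + 1 ≤ k by omega)
    simp only [S, Go] at hD n0b n2b
    omega

theorem TY_za_gg (c : ℕ → Bool) {k a z : ℕ} (hk : k % 2 = 0) (hb : c k = false)
    (hf : 0 < z) (h0 : z < a) (hl : a < k)
    (ka : KG c a) (kz : KG c z) (hD : S c k ≤ 0)
    (fa : ((k / 2 : ℕ) : ℤ) ≤ J c k 0 a) (fz : c z = true → ((k / 2 : ℕ) : ℤ) ≤ J c k 0 z) :
    J c k 0 a - J c k 0 z + 2 ≤ Be c k + 1 := by
  rcases ka with ha | ha <;> rcases kz with hz | hz
  · clear fa fz
    have sa := st_OT c (by omega) ha
    have sz := st_OT c (by omega) hz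
    have ja := (JOT c (k := k) (q := 0) (by omega) ha).1 (by omega)
    have jz := (JOT c (k := k) (q := 0) (by omega) hz).1 (by omega)
    rw [ja, jz]
    clear ja jz
    have pa := ha.1
    have pz := hz.1
    have b0 := zeroB c
    have e0 := bo2 c (show 0 ≤ z - 1 by omega)
    have e1 := be1 c (show z + 1 ≤ a by omega)
    have e2 := bo2 c (show a + 1 ≤ k by omega)
    simp only [S] at hD
    omega
  · clear fa fz
    have sa := st_OT c (by omega) ha
    have sz := st_EF c (by omega) hz
    have ja := (JOT c (k := k) (q := 0) (by omega) ha).1 (by omega)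
    have jz := (JEF c (k := k) (q := 0) (by omega) hz).1 (by omega)
    rw [ja, jz]
    clear ja jz
    have pa := ha.1
    have pz := hz.1
    have b0 := zeroB c
    have e0 := bo2 c (show 0 ≤ z by omega)
    have e1 := be1 c (show z + 1 ≤ a by omega)
    have e2 := bo2 c (show a + 1 ≤ k by omega)
    simp only [S] at hD
    omega
  · clear fa fz
    have sa := st_EF c (by omega) ha
    have sz := st_OT c (by omega) hz
    have ja := (JEF c (k := k) (q := 0) (by omega) ha).1 (by omega)
    have jz := (JOT c (k := k) (q := 0) (by omega) hz).1 (by omega)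
    rw [ja, jz]
    clear ja jz
    have pa := ha.1
    have pz := hz.1
    have b0 := zeroB c
    have e0 := bo2 c (show 0 ≤ z - 1 by omega)
    have e1 := be1 c (show z + 1 ≤ a by omega)
    have e2 := bo2 c (show a + 1 ≤ k by omega)
    simp only [S] at hD
    omega
  · clear fa fz
    have sa := st_EF c (by omega) ha
    have sz := st_EF c (by omega) hz
    have ja := (JEF c (k := k) (q := 0) (by omega) ha).1 (by omega)
    have jz := (JEF c (k := k) (q := 0) (by omega) hz).1 (by omega)
    rw [ja, jz]
    clear ja jz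
    have pa := ha.1
    have pz := hz.1
    have b0 := zeroB c
    have e0 := bo2 c (show 0 ≤ z by omega)
    have e1 := be1 c (show z ≤ a - 1 by omega)
    have e2 := bo2 c (show a + 1 ≤ k by omega)
    simp only [S] at hD
    omega

theorem HY_za_bb (c : ℕ → Bool) {k a z : ℕ} (hk : k % 2 = 0) (hb : c k = false)
    (hf : 0 < z) (h0 : z < a) (hl : a < k)
    (ka : KB c a) (kz : KB c z) (hD : S c k ≤ 0)
    (fa : ((k / 2 : ℕ) : ℤ) ≤ J c k 0 a) (fz : c z = true → ((k / 2 : ℕ) : ℤ) ≤ J c k 0 z) :
    J c k 0 a - J c k 0 z + 1 ≤ Bo c k := by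
  rcases ka with ha | ha <;> rcases kz with hz | hz
  · clear fa fz
    have sa := st_ET c (by omega) ha
    have sz := st_ET c (by omega) hz
    have ja := (JET c (k := k) (q := 0) (by omega) ha).1 (by omega)
    have jz := (JET c (k := k) (q := 0) (by omega) hz).1 (by omega)
    rw [ja, jz]
    clear ja jz
    have pa := ha.1
    have pz := hz.1
    have b0 := zeroB c
    have e0 := be2 c (show 0 ≤ z - 1 by omega)
    have e1 := bo1 c (show z + 1 ≤ a by omega)
    have e2 := be2 c (show a + 1 ≤ k by omega)
    simp only [S] at hD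
    omega
  · clear fa fz
    have sa := st_ET c (by omega) ha
    have sz := st_OF c (by omega) hz
    have ja := (JET c (k := k) (q := 0) (by omega) ha).1 (by omega)
    have jz := (JOF c (k := k) (q := 0) (by omega) hz).1 (by omega)
    rw [ja, jz]
    clear ja jz
    have pa := ha.1
    have pz := hz.1
    have b0 := zeroB c
    have e0 := be2 c (show 0 ≤ z by omega)
    have e1 := bo1 c (show z + 1 ≤ a by omega)
    have e2 := be2 c (show a + 1 ≤ k by omega)
    simp only [S] at hD
    omega
  · clear fa fz
    have sa := st_OF c (by omega) ha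
    have sz := st_ET c (by omega) hz
    have ja := (JOF c (k := k) (q := 0) (by omega) ha).1 (by omega)
    have jz := (JET c (k := k) (q := 0) (by omega) hz).1 (by omega)
    rw [ja, jz]
    clear ja jz
    have pa := ha.1
    have pz := hz.1
    have b0 := zeroB c
    have e0 := be2 c (show 0 ≤ z - 1 by omega)
    have e1 := bo1 c (show z + 1 ≤ a by omega)
    have e2 := be2 c (show a + 1 ≤ k by omega)
    simp only [S] at hD
    omega
  · clear fa fz
    have sa := st_OF c (by omega) ha
    have sz := st_OF c (by omega) hz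
    have ja := (JOF c (k := k) (q := 0) (by omega) ha).1 (by omega)
    have jz := (JOF c (k := k) (q := 0) (by omega) hz).1 (by omega)
    rw [ja, jz]
    clear ja jz
    have pa := ha.1
    have pz := hz.1
    have b0 := zeroB c
    have e0 := be2 c (show 0 ≤ z by omega)
    have e1 := bo1 c (show z ≤ a - 1 by omega)
    have e2 := be2 c (show a + 1 ≤ k by omega)
    simp only [S] at hD
    omega

theorem HY_za_bg (c : ℕ → Bool) {k a z : ℕ} (hk : k % 2 = 0) (hb : c k = false)
    (hf : 0 < z) (h0 : z < a) (hl : a < k)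
    (ka : KB c a) (kz : KG c z) (hD : S c k ≤ 0)
    (fa : ((k / 2 : ℕ) : ℤ) ≤ J c k 0 a) (fz : c z = true → ((k / 2 : ℕ) : ℤ) ≤ J c k 0 z) :
    J c k 0 a - J c k 0 z + 1 ≤ Bo c k := by
  rcases ka with ha | ha <;> rcases kz with hz | hz
  · clear fa fz
    have sa := st_ET c (by omega) ha
    have sz := st_OT c (by omega) hz
    have ja := (JET c (k := k) (q := 0) (by omega) ha).1 (by omega)
    have jz := (JOT c (k := k) (q := 0) (by omega) hz).1 (by omega)
    rw [ja, jz]
    clear ja jz
    have pa := ha.1
    have pz := hz.1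
    have b0 := zeroB c
    have e0 := be2 c (show 0 ≤ z by omega)
    have e1 := bo1 c (show z + 1 ≤ a by omega)
    have e2 := be2 c (show a + 1 ≤ k by omega)
    simp only [S] at hD
    omega
  · clear fa fz
    have sa := st_ET c (by omega) ha
    have sz := st_EF c (by omega) hz
    have ja := (JET c (k := k) (q := 0) (by omega) ha).1 (by omega)
    have jz := (JEF c (k := k) (q := 0) (by omega) hz).1 (by omega)
    rw [ja, jz]
    clear ja jz
    have pa := ha.1
    have pz := hz.1
    have b0 := zeroB c
    have e0 := be2 c (show 0 ≤ z by omega)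
    have e1 := bo1 c (show z + 1 ≤ a by omega)
    have e2 := be2 c (show a + 1 ≤ k by omega)
    simp only [S] at hD
    omega
  · clear fa fz
    have sa := st_OF c (by omega) ha
    have sz := st_OT c (by omega) hz
    have ja := (JOF c (k := k) (q := 0) (by omega) ha).1 (by omega)
    have jz := (JOT c (k := k) (q := 0) (by omega) hz).1 (by omega)
    rw [ja, jz]
    clear ja jz
    have pa := ha.1
    have pz := hz.1
    have b0 := zeroB c
    have e0 := be2 c (show 0 ≤ z by omega)
    have e1 := bo1 c (show z ≤ a - 1 by omega)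
    have e2 := be2 c (show a + 1 ≤ k by omega)
    simp only [S] at hD
    omega
  · clear fa fz
    have sa := st_OF c (by omega) ha
    have sz := st_EF c (by omega) hz
    have ja := (JOF c (k := k) (q := 0) (by omega) ha).1 (by omega)
    have jz := (JEF c (k := k) (q := 0) (by omega) hz).1 (by omega)
    rw [ja, jz]
    clear ja jz
    have pa := ha.1
    have pz := hz.1
    have b0 := zeroB c
    have e0 := be2 c (show 0 ≤ z by omega)
    have e1 := bo1 c (show z ≤ a - 1 by omega)
    have e2 := be2 c (show a + 1 ≤ k by omega)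
    simp only [S] at hD
    omega

theorem PY_z_b (c : ℕ → Bool) {k z : ℕ} (hk : k % 2 = 0) (hb : c k = false)
    (hf : 0 < z) (hl : z < k) (kz : KB c z) (hD : S c k ≤ 0)
    (fz : c z = true → ((k / 2 : ℕ) : ℤ) ≤ J c k 0 z) :
    Bo c k ≤ J c k 0 z ∧ Be c k + 2 ≤ J c k 0 z := by
  rcases kz with hz | hz
  · clear hD fz
    have sz := st_ET c (by omega) hz
    have jz := (JET c (k := k) (q := 0) (by omega) hz).1 (by omega)
    rw [jz]
    clear jz
    have pz := hz.1
    have b0 := zeroB c
    have sk := stK c hk (by omega) hb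
    have e0 := bo2 c (show 0 ≤ z by omega)
    have e1 := be2 c (show 0 ≤ z - 1 by omega)
    have e2 := bo1 c (show z + 1 ≤ k by omega)
    have e3 := be1 c (show z ≤ k - 1 by omega)
    constructor <;> omega
  · clear hD fz
    have sz := st_OF c (by omega) hz
    have jz := (JOF c (k := k) (q := 0) (by omega) hz).1 (by omega)
    rw [jz]
    clear jz
    have pz := hz.1
    have b0 := zeroB c
    have sk := stK c hk (by omega) hb
    have e0 := bo2 c (show 0 ≤ z by omega)
    have e1 := be2 c (show 0 ≤ z by omega)
    have e2 := bo1 c (show z + 1 ≤ k by omega)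
    have e3 := be1 c (show z ≤ k - 1 by omega)
    constructor <;> omega

theorem PY_z_g (c : ℕ → Bool) {k z : ℕ} (hk : k % 2 = 0) (hb : c k = false)
    (hf : 0 < z) (hl : z < k) (kz : KG c z) (hD : S c k ≤ 0)
    (fz : c z = true → ((k / 2 : ℕ) : ℤ) ≤ J c k 0 z) :
    Bo c k + 2 ≤ J c k 0 z ∧ Be c k ≤ J c k 0 z := by
  rcases kz with hz | hz
  · clear hD fz
    have sz := st_OT c (by omega) hz
    have jz := (JOT c (k := k) (q := 0) (by omega) hz).1 (by omega)
    rw [jz]
    clear jz
    have pz := hz.1
    have b0 := zeroB c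
    have e0 := be2 c (show 0 ≤ z by omega)
    have e1 := bo2 c (show 0 ≤ z - 1 by omega)
    have e2 := bo1 c (show z + 1 ≤ k by omega)
    have e3 := be1 c (show z + 1 ≤ k by omega)
    constructor <;> omega
  · clear hD fz
    have sz := st_EF c (by omega) hz
    have jz := (JEF c (k := k) (q := 0) (by omega) hz).1 (by omega)
    rw [jz]
    clear jz
    have pz := hz.1
    have b0 := zeroB c
    have sk := stK c hk (by omega) hb
    have e0 := bo2 c (show 0 ≤ z by omega)
    have e1 := be2 c (show 0 ≤ z by omega)
    have e2 := bo1 c (show z + 1 ≤ k by omega)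
    have e3 := be1 c (show z ≤ k - 1 by omega)
    constructor <;> omega

end Pool.Agent.Lob34
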