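import Pool.Agent.Lob34.ModeX
import Pool.Agent.Lob34.TabY

/-! The seam `0` for an even number of edges, relaxed form: all maxima and all marked vertices have
`k / 2 ≤ J`; low means `J < k / 2`. -/

namespace Pool.Agent.Lob34

/-- A low vertex (other than `q` and `z`, not marked) for the threshold `t`. -/
def LowT (c al : ℕ → Bool) (k q z t i : ℕ) : Prop :=
  Ld c k i ∧ al i = false ∧ i ≠ q ∧ i ≠ z ∧ J c k q i < (t : ℤ)

instance (c al : ℕ → Bool) (k q z t : ℕ) : DecidablePred (LowT c al k q z t) := fun i => by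
  unfold LowT; infer_instance

/-- Number of low vertices for the threshold `t`. -/
def lowt (c al : ℕ → Bool) (k q z t : ℕ) : ℤ :=
  (((Finset.range k).filter (LowT c al k q z t)).card : ℕ)

theorem lowt_eq (c al : ℕ → Bool) (k q z t : ℕ) :
    lowt c al k q z t = NL (LowT c al k q z t) k := rfl

/-- The output with threshold `t`: as `SeamOut`. -/
structure SeamOutT (c al : ℕ → Bool) (k q t : ℕ) (tbb tbg tgb tgg : ℤ) : Prop where
  high : ∀ i, Ld c k i → i ≠ q → (c i = true ∨ al i = true) → (t : ℤ) ≤ J c k q i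
  bb : ∀ a z, Ld c k a → al a = true → a ≠ q → Ld c k z → al z = false →
    KB c a → KB c z → J c k q a - J c k q z + tbb ≤ Be c k + 1
  bg : ∀ a z, Ld c k a → al a = true → a ≠ q → Ld c k z → al z = false →
    KB c a → KG c z → J c k q a - J c k q z + tbg ≤ Be c k + 1
  gb : ∀ a z, Ld c k a → al a = true → a ≠ q → Ld c k z → al z = false →
    KG c a → KB c z → J c k q a - J c k q z + lowt c al k q z t + tgb ≤ Be c k + 1
  gg : ∀ a z, Ld c k a → al a = true → a ≠ q → Ld c k z → al z = false →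
    KG c a → KG c z → J c k q a - J c k q z + tgg ≤ Be c k + 1
  hh : ∀ a z, Ld c k a → al a = true → a ≠ q → Ld c k z → al z = false →
    KB c a → J c k q a - J c k q z + 1 ≤ Bo c k
  lb : ∀ z, Ld c k z → z ≠ q → KB c z → Bo c k ≤ J c k q z ∧ Be c k + 2 ≤ J c k q z
  lg : ∀ z, Ld c k z → z ≠ q → KG c z → Bo c k + 2 ≤ J c k q z ∧ Be c k ≤ J c k q z

/-- The facts about the low vertices, `k` even, relaxed. -/
structure LowY (c : ℕ → Bool) (k : ℕ) (P : ℕ → Prop) : Prop where
  rng : ∀ i, P i → 1 ≤ i ∧ i < k ∧ c i = false ∧ c (i + 1) = true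
  mx : ∀ i, P i → ∀ m, 1 ≤ m → m < k → c m = true → c (m + 1) = false → S c i + 4 ≤ S c m
  z4 : ∀ i, P i → S c i + 4 ≤ 0

/-- The region lemma, `k` even. -/
theorem regionY (c : ℕ → Bool) {k : ℕ} (P : ℕ → Prop) [DecidablePred P]
    (F : LowY c k P) (hk : c k = false) {p p' : ℕ} (hpp : p < p') (hpk : p' ≤ k)
    (hp : p = 0 ∨ (0 < p ∧ c p ≠ c (p + 1)))
    (hp' : p' = k ∨ c p' ≠ c (p' + 1)) :
    0 ≤ NL P p' - NL P (p + 1) ∧
    2 * (NL P p' - NL P (p + 1)) ≤ Be c (p' - 1) - Be c p ∧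
    2 * (NL P p' - NL P (p + 1)) ≤ Go c p' - Go c (p + 1) := by
  refine ⟨?_, ?_⟩
  · have := NL_mono P (show p + 1 ≤ p' by omega)
    omega
  refine ⟨?_, ?_⟩
  · have h := (low_bad c P (p := p) (p' := p') (d := 0) (le_refl _)
      (fun i hi => (F.rng i hi).2.2.2) ?_ (p' - 1) (by omega) (by omega)).1
    · have e : p' - 1 + 1 = p' := by omega
      rw [e] at h
      omega
    · intro i h1 h2 hi
      left
      obtain ⟨r1, r2, r4, r5⟩ := F.rng i hi
      obtain ⟨b1, b2, b3, b4⟩ := back c r4 (F.z4 i hi) (fun m m1 m2 _ m4 m5 =>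
        F.mx i hi m m1 (by omega) m4 m5)
      refine ⟨?_, r4, b2, b3, b4⟩
      rcases hp with hp | ⟨-, hp⟩
      · omega
      · by_contra hcon
        have hc : p = i - 1 ∨ p = i - 2 ∨ p = i - 3 := by omega
        rcases hc with rfl | rfl | rfl
        · have e : i - 1 + 1 = i := by omega
          rw [e, b2, r4] at hp
          exact hp rfl
        · have e : i - 2 + 1 = i - 1 := by omega
          rw [e, b3, b2] at hp
          exact hp rfl
        · have e : i - 3 + 1 = i - 2 := by omega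
          rw [e, b4, b3] at hp
          exact hp rfl
  · have h := low_good c P (p := p) (p' := p') (d := 0) (le_refl _)
      (fun i hi => (F.rng i hi).2.2.1) ?_ (p' - (p + 1)) (p + 1) (by omega) (by omega)
    · omega
    · intro i h1 h2 hi
      obtain ⟨r1, r2, r4, r5⟩ := F.rng i hi
      obtain ⟨f1, f2, f3, f4⟩ := fwdE c r2 r5 hk (fun m m1 m3 m4 m5 =>
        F.mx i hi m (by omega) m3 m4 m5)
      left
      refine ⟨?_, r5, f2, f3, f4⟩
      rcases hp' with hp' | hp'
      · omega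
      · by_contra hcon
        have hc : p' = i + 1 ∨ p' = i + 2 ∨ p' = i + 3 := by omega
        rcases hc with rfl | rfl | rfl
        · have e : i + 1 + 1 = i + 2 := rfl
          rw [e, r5, f2] at hp'
          exact hp' rfl
        · have e : i + 2 + 1 = i + 3 := rfl
          rw [e, f2, f3] at hp'
          exact hp' rfl
        · have e : i + 3 + 1 = i + 4 := rfl
          rw [e, f3, f4] at hp'
          exact hp' rfl

/-- The regions for two places, `k` even. -/
theorem regsY (c : ℕ → Bool) {k x y : ℕ} (P : ℕ → Prop) [DecidablePred P]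
    (F : LowY c k P) (hb : c k = false) (hx : 0 < x) (hxy : x < y) (hyk : y < k)
    (lx : c x ≠ c (x + 1)) (ly : c y ≠ c (y + 1))
    (p0 : ¬ P 0) (px : ¬ P x) (py : ¬ P y) :
    ∃ n0 n1 n2 : ℤ, NL P k = n0 + n1 + n2 ∧
      (0 ≤ n0 ∧ 2 * n0 ≤ Be c (x - 1) - Be c 0 ∧ 2 * n0 ≤ Go c x - Go c 0) ∧
      (0 ≤ n1 ∧ 2 * n1 ≤ Be c (y - 1) - Be c x ∧ 2 * n1 ≤ Go c y - Go c (x + 1)) ∧
      (0 ≤ n2 ∧ 2 * n2 ≤ Be c (k - 1) - Be c y ∧ 2 * n2 ≤ Go c k - Go c (y + 1)) := by
  have r0 := regionY c P F hb (p := 0) (p' := x) hx (by omega) (Or.inl rfl) (Or.inr lx)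
  have r1 := regionY c P F hb (p := x) (p' := y) hxy (by omega) (Or.inr ⟨hx, lx⟩)
    (Or.inr ly)
  have r3 := regionY c P F hb (p := y) (p' := k) hyk (by omega)
    (Or.inr ⟨by omega, ly⟩) (Or.inl rfl)
  have g0 := go0 c (show 0 ≤ 0 + 1 by omega)
  have z0 := NL_not P p0
  have z1 := NL_not P px
  have z2 := NL_not P py
  have z4 : NL P 0 = 0 := by simp [NL]
  refine ⟨_, _, _, ?_, ⟨r0.1, r0.2.1, ?_⟩, ⟨r1.1, r1.2.1, r1.2.2⟩, ⟨r3.1, r3.2.1, r3.2.2⟩⟩
  · omega
  · omega

theorem lowY_of (c al : ℕ → Bool) {k z : ℕ} (hk : k % 2 = 0) (hD : S c k ≤ 0)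
    (high : ∀ i, Ld c k i → (c i = true ∨ al i = true) → ((k / 2 : ℕ) : ℤ) ≤ J c k 0 i) :
    LowY c k (LowT c al k 0 z (k / 2)) := by
  have hf : ∀ i, LowT c al k 0 z (k / 2) i → c i = false ∧ c (i + 1) = true := by
    intro i ⟨h1, h2, h3, h4, h5⟩
    rcases Bool.eq_false_or_eq_true (c i) with h | h
    · have := high i h1 (Or.inl h)
      omega
    · refine ⟨h, ?_⟩
      have h6 := h1.2.2
      rw [h] at h6
      rcases Bool.eq_false_or_eq_true (c (i + 1)) with h' | h'
      · exact h'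
      · rw [h'] at h6
        exact absurd rfl h6
  have nv : ∀ i, LowT c al k 0 z (k / 2) i → S c i + 5 ≤ S c k := by
    intro i hi
    obtain ⟨h1, h2⟩ := hf i hi
    have h3 := hi.2.2.2.2
    have hpos : 0 < i := hi.1.1
    have b0 := zeroB c
    rcases Nat.mod_two_eq_zero_or_one i with h | h
    · rw [(J_eF c (k := k) (q := 0) hpos h h1 h2).1 hpos] at h3
      unfold S
      omega
    · rw [(J_oF c (k := k) (q := 0) hpos h h1 h2).1 hpos] at h3
      unfold S
      omega
  have mx : ∀ m, 1 ≤ m → m < k → c m = true → c (m + 1) = false → S c k ≤ S c m + 1 := by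
    intro m m1 m2 m3 m4
    have h3 := high m ⟨m1, m2, by rw [m3, m4]; decide⟩ (Or.inl m3)
    have b0 := zeroB c
    rcases Nat.mod_two_eq_zero_or_one m with h | h
    · rw [(J_eT c (k := k) (q := 0) m1 h m3 m4).1 m1] at h3
      unfold S
      omega
    · rw [(J_oT c (k := k) (q := 0) m1 h m3 m4).1 m1] at h3
      unfold S
      omega
  refine ⟨?_, ?_, ?_⟩
  · intro i hi
    exact ⟨hi.1.1, hi.1.2.1, (hf i hi).1, (hf i hi).2⟩
  · intro i hi m m1 m2 m3 m4
    have := nv i hi
    have := mx m m1 m2 m3 m4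
    omega
  · intro i hi
    have := nv i hi
    omega

/-- The output for the seam `0` and an even number of edges, relaxed form. -/
theorem mode_Y (c al : ℕ → Bool) {k : ℕ} (hk : k % 2 = 0) (hb : c k = false)
    (hD : S c k ≤ 0)
    (high : ∀ i, Ld c k i → (c i = true ∨ al i = true) → ((k / 2 : ℕ) : ℤ) ≤ J c k 0 i) :
    SeamOutT c al k 0 (k / 2) 0 2 1 2 := by
  refine ⟨fun i a _ b => high i a b, ?_, ?_, ?_, ?_, ?_, ?_, ?_⟩
  · intro a z la ha haq lz hz ka kz
    have la1 := la.1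
    have lz1 := lz.1
    have haz : a ≠ z := by rintro rfl; rw [ha] at hz; cases hz
    rcases lt_or_gt_of_ne haz with h3 | h3
    · exact TY_az_bb c hk hb la.1 h3 lz.2.1 ka kz hD (high a la (Or.inr ha)) (fun h => high z lz (Or.inl h))
    · exact TY_za_bb c hk hb lz.1 h3 la.2.1 ka kz hD (high a la (Or.inr ha)) (fun h => high z lz (Or.inl h))
  · intro a z la ha haq lz hz ka kz
    have la1 := la.1
    have lz1 := lz.1
    have haz : a ≠ z := by rintro rfl; rw [ha] at hz; cases hz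
    rcases lt_or_gt_of_ne haz with h3 | h3
    · exact TY_az_bg c hk hb la.1 h3 lz.2.1 ka kz hD (high a la (Or.inr ha)) (fun h => high z lz (Or.inl h))
    · exact TY_za_bg c hk hb lz.1 h3 la.2.1 ka kz hD (high a la (Or.inr ha)) (fun h => high z lz (Or.inl h))
  · intro a z la ha haq lz hz ka kz
    have la1 := la.1
    have lz1 := lz.1
    have haz : a ≠ z := by rintro rfl; rw [ha] at hz; cases hz
    rcases lt_or_gt_of_ne haz with h3 | h3
    · obtain ⟨n0, n1, n2, hs, ⟨n0z, n0a, n0b⟩, ⟨n1z, n1a, n1b⟩, ⟨n2z, n2a, n2b⟩⟩ :=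
        regsY c (LowT c al k 0 z (k / 2)) (lowY_of c al hk hD high) hb la.1 h3 lz.2.1 la.2.2 lz.2.2
        (fun h => by have := h.1.1; omega) (fun h => by have := h.2.1; rw [ha] at this; cases this) (fun h => h.2.2.2.1 rfl)
      have := TY_az_gb c hk hb la.1 h3 lz.2.1 ka kz hD (high a la (Or.inr ha)) (fun h => high z lz (Or.inl h)) n0z n0a n0b n1z n1a n1b n2z n2a n2b
      rw [lowt_eq]
      omega
    · obtain ⟨n0, n1, n2, hs, ⟨n0z, n0a, n0b⟩, ⟨n1z, n1a, n1b⟩, ⟨n2z, n2a, n2b⟩⟩ :=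
        regsY c (LowT c al k 0 z (k / 2)) (lowY_of c al hk hD high) hb lz.1 h3 la.2.1 lz.2.2 la.2.2
        (fun h => by have := h.1.1; omega) (fun h => h.2.2.2.1 rfl) (fun h => by have := h.2.1; rw [ha] at this; cases this)
      have := TY_za_gb c hk hb lz.1 h3 la.2.1 ka kz hD (high a la (Or.inr ha)) (fun h => high z lz (Or.inl h)) n0z n0a n0b n1z n1a n1b n2z n2a n2b
      rw [lowt_eq]
      omega
  · intro a z la ha haq lz hz ka kz
    have la1 := la.1
    have lz1 := lz.1
    have haz : a ≠ z := by rintro rfl; rw [ha] at hz; cases hz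
    rcases lt_or_gt_of_ne haz with h3 | h3
    · exact TY_az_gg c hk hb la.1 h3 lz.2.1 ka kz hD (high a la (Or.inr ha)) (fun h => high z lz (Or.inl h))
    · exact TY_za_gg c hk hb lz.1 h3 la.2.1 ka kz hD (high a la (Or.inr ha)) (fun h => high z lz (Or.inl h))
  · intro a z la ha haq lz hz ka
    have la1 := la.1
    have lz1 := lz.1
    have haz : a ≠ z := by rintro rfl; rw [ha] at hz; cases hz
    rcases kinds c lz.2.2 with kz | kz <;> rcases lt_or_gt_of_ne haz with h3 | h3
    · exact HY_az_bb c hk hb la.1 h3 lz.2.1 ka kz hD (high a la (Or.inr ha)) (fun h => high z lz (Or.inl h))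
    · exact HY_za_bb c hk hb lz.1 h3 la.2.1 ka kz hD (high a la (Or.inr ha)) (fun h => high z lz (Or.inl h))
    · exact HY_az_bg c hk hb la.1 h3 lz.2.1 ka kz hD (high a la (Or.inr ha)) (fun h => high z lz (Or.inl h))
    · exact HY_za_bg c hk hb lz.1 h3 la.2.1 ka kz hD (high a la (Or.inr ha)) (fun h => high z lz (Or.inl h))
  · intro z lz hzq kz
    exact PY_z_b c hk hb lz.1 lz.2.1 kz hD (fun h => high z lz (Or.inl h))
  · intro z lz hzq kz
    exact PY_z_g c hk hb lz.1 lz.2.1 kz hD (fun h => high z lz (Or.inl h))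

end Pool.Agent.Lob34
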