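import Pool.Agent.Lob34.Out
import Pool.Agent.Lob34.TabZ

/-! Assembly for the mode Z. -/

namespace Pool.Agent.Lob34

theorem mode_Z (c al : ℕ → Bool) {k : ℕ} (hk : k % 2 = 1) (hD : S c k < 0)
    (hle : ∀ i, Ld c k i → (c i = true ∨ al i = true) → S c k ≤ Fz c i) :
    SeamOut c al k 0 0 2 1 2 := by
  have high : ∀ z, Ld c k z → z ≠ 0 → (c z = true ∨ al z = true) →
      ((k / 2 + 1 : ℕ) : ℤ) ≤ J c k 0 z := by
    intro z lz hzq hz
    rcases kinds c lz.2.2 with kz | kz
    · exact AZ_qz_b c hk lz.1 lz.2.1 kz hD (hle z lz hz)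
    · exact AZ_qz_g c hk lz.1 lz.2.1 kz hD (hle z lz hz)
  have F : ∀ z, LowF c k 0 (LowP c al k 0 z) := fun z =>
    lowF_zero c al hk hD high (fun i li hi => by
      have := hle i li (Or.inl hi)
      simpa [Fz, hi] using this)
  refine ⟨high, ?_, ?_, ?_, ?_, ?_, ?_, ?_⟩
  · intro a z la ha haq lz hz ka kz
    have la1 := la.1
    have lz1 := lz.1
    have haz : a ≠ z := by rintro rfl; rw [ha] at hz; cases hz
    rcases lt_or_gt_of_ne haz with h3 | h3
    · exact TZ_qaz_bb c hk la.1 (by omega) lz.2.1 ka kz hD (hle a la (Or.inr ha)) (fun h => hle z lz (Or.inl h))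
    · exact TZ_qza_bb c hk lz.1 (by omega) la.2.1 ka kz hD (hle a la (Or.inr ha)) (fun h => hle z lz (Or.inl h))
  · intro a z la ha haq lz hz ka kz
    have la1 := la.1
    have lz1 := lz.1
    have haz : a ≠ z := by rintro rfl; rw [ha] at hz; cases hz
    rcases lt_or_gt_of_ne haz with h3 | h3
    · exact TZ_qaz_bg c hk la.1 (by omega) lz.2.1 ka kz hD (hle a la (Or.inr ha)) (fun h => hle z lz (Or.inl h))
    · exact TZ_qza_bg c hk lz.1 (by omega) la.2.1 ka kz hD (hle a la (Or.inr ha)) (fun h => hle z lz (Or.inl h))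
  · intro a z la ha haq lz hz ka kz
    have la1 := la.1
    have lz1 := lz.1
    have haz : a ≠ z := by rintro rfl; rw [ha] at hz; cases hz
    rcases lt_or_gt_of_ne haz with h3 | h3
    · obtain ⟨n0, n1, n2, hs, ⟨n0z, n0a, n0b, n0c⟩, ⟨n1z, n1a, n1b, n1c⟩, ⟨n2z, n2a, n2b⟩⟩ := regs3 c (q := 0) (LowP c al k 0 z) (F z)
        la.1 (by omega) lz.2.1 la.2.2 lz.2.2
        (fun h => by have := h.1.1; omega) (fun h => by have := h.2.1; rw [ha] at this; cases this) (fun h => h.2.2.2.1 rfl) (by omega)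
      have := TZ_qaz_gb c hk la.1 (by omega) lz.2.1 ka kz hD (hle a la (Or.inr ha)) (fun h => hle z lz (Or.inl h)) n0z n0a (n0c (by omega)) n1z n1a (n1c (by omega)) n2z n2a n2b
      rw [lowc_eq]
      omega
    · obtain ⟨n0, n1, n2, hs, ⟨n0z, n0a, n0b, n0c⟩, ⟨n1z, n1a, n1b, n1c⟩, ⟨n2z, n2a, n2b⟩⟩ := regs3 c (q := 0) (LowP c al k 0 z) (F z)
        lz.1 (by omega) la.2.1 lz.2.2 la.2.2
        (fun h => by have := h.1.1; omega) (fun h => h.2.2.2.1 rfl) (fun h => by have := h.2.1; rw [ha] at this; cases this) (by omega)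
      have := TZ_qza_gb c hk lz.1 (by omega) la.2.1 ka kz hD (hle a la (Or.inr ha)) (fun h => hle z lz (Or.inl h)) n0z n0a (n0c (by omega)) n1z n1a (n1c (by omega)) n2z n2a n2b
      rw [lowc_eq]
      omega
  · intro a z la ha haq lz hz ka kz
    have la1 := la.1
    have lz1 := lz.1
    have haz : a ≠ z := by rintro rfl; rw [ha] at hz; cases hz
    rcases lt_or_gt_of_ne haz with h3 | h3
    · exact TZ_qaz_gg c hk la.1 (by omega) lz.2.1 ka kz hD (hle a la (Or.inr ha)) (fun h => hle z lz (Or.inl h))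
    · exact TZ_qza_gg c hk lz.1 (by omega) la.2.1 ka kz hD (hle a la (Or.inr ha)) (fun h => hle z lz (Or.inl h))
  · intro a z la ha haq lz hz ka
    have la1 := la.1
    have lz1 := lz.1
    have haz : a ≠ z := by rintro rfl; rw [ha] at hz; cases hz
    rcases kinds c lz.2.2 with kz | kz
    · skip
      rcases lt_or_gt_of_ne haz with h3 | h3
      · exact HZ_qaz_bb c hk la.1 (by omega) lz.2.1 ka kz hD (hle a la (Or.inr ha)) (fun h => hle z lz (Or.inl h))
      · exact HZ_qza_bb c hk lz.1 (by omega) la.2.1 ka kz hD (hle a la (Or.inr ha)) (fun h => hle z lz (Or.inl h))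
    · skip
      rcases lt_or_gt_of_ne haz with h3 | h3
      · exact HZ_qaz_bg c hk la.1 (by omega) lz.2.1 ka kz hD (hle a la (Or.inr ha)) (fun h => hle z lz (Or.inl h))
      · exact HZ_qza_bg c hk lz.1 (by omega) la.2.1 ka kz hD (hle a la (Or.inr ha)) (fun h => hle z lz (Or.inl h))
  · intro z lz hzq kz
    exact PZ_qz_b c hk lz.1 lz.2.1 kz hD (fun h => hle z lz (Or.inl h))
  · intro z lz hzq kz
    exact PZ_qz_g c hk lz.1 lz.2.1 kz hD (fun h => hle z lz (Or.inl h))

end Pool.Agent.Lob34
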