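import Pool.Agent.Lob34.Low

/-! The output of the seam lemma. -/

namespace Pool.Agent.Lob34

/-- The vertex `i` is loaded: its two edges have different colours. -/
def Ld (c : ℕ → Bool) (k i : ℕ) : Prop := 1 ≤ i ∧ i < k ∧ c i ≠ c (i + 1)

instance (c : ℕ → Bool) (k : ℕ) : DecidablePred (Ld c k) := fun i => by
  unfold Ld; infer_instance

/-- A low vertex (other than `q` and `z`, not marked). -/
def LowP (c al : ℕ → Bool) (k q z i : ℕ) : Prop :=
  Ld c k i ∧ al i = false ∧ i ≠ q ∧ i ≠ z ∧ J c k q i ≤ ((k / 2 : ℕ) : ℤ)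

instance (c al : ℕ → Bool) (k q z : ℕ) : DecidablePred (LowP c al k q z) := fun i => by
  unfold LowP; infer_instance

/-- Number of low vertices. -/
def lowc (c al : ℕ → Bool) (k q z : ℕ) : ℤ :=
  (((Finset.range k).filter (LowP c al k q z)).card : ℕ)

theorem lowc_eq (c al : ℕ → Bool) (k q z : ℕ) : lowc c al k q z = NL (LowP c al k q z) k := rfl

/-- The output of the seam lemma for the seam `q`. Marked vertices: `al i = true`. -/
structure SeamOut (c al : ℕ → Bool) (k q : ℕ) (tbb tbg tgb tgg : ℤ) : Prop where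
  high : ∀ i, Ld c k i → i ≠ q → (c i = true ∨ al i = true) →
    ((k / 2 + 1 : ℕ) : ℤ) ≤ J c k q i
  bb : ∀ a z, Ld c k a → al a = true → a ≠ q → Ld c k z → al z = false →
    KB c a → KB c z → J c k q a - J c k q z + tbb ≤ Be c k + 1
  bg : ∀ a z, Ld c k a → al a = true → a ≠ q → Ld c k z → al z = false →
    KB c a → KG c z → J c k q a - J c k q z + tbg ≤ Be c k + 1
  gb : ∀ a z, Ld c k a → al a = true → a ≠ q → Ld c k z → al z = false →
    KG c a → KB c z → J c k q a - J c k q z + lowc c al k q z + tgb ≤ Be c k + 1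
  gg : ∀ a z, Ld c k a → al a = true → a ≠ q → Ld c k z → al z = false →
    KG c a → KG c z → J c k q a - J c k q z + tgg ≤ Be c k + 1
  hh : ∀ a z, Ld c k a → al a = true → a ≠ q → Ld c k z → al z = false →
    KB c a → J c k q a - J c k q z + 1 ≤ Bo c k
  lb : ∀ z, Ld c k z → z ≠ q → KB c z → Bo c k ≤ J c k q z ∧ Be c k + 2 ≤ J c k q z
  lg : ∀ z, Ld c k z → z ≠ q → KG c z → Bo c k + 2 ≤ J c k q z ∧ Be c k ≤ J c k q z

theorem kinds (c : ℕ → Bool) {i : ℕ} (h : c i ≠ c (i + 1)) : KB c i ∨ KG c i := by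
  rcases loaded_cases c h with h | h | h | h
  · exact Or.inr (Or.inl h)
  · exact Or.inl (Or.inl h)
  · exact Or.inl (Or.inr h)
  · exact Or.inr (Or.inr h)

/-- The regions for three places. -/
theorem regs4 (c : ℕ → Bool) {k q x y w : ℕ} (P : ℕ → Prop) [DecidablePred P]
    (F : LowF c k q P) (hx : 0 < x) (hxy : x < y) (hyw : y < w) (hwk : w < k)
    (lx : c x ≠ c (x + 1)) (ly : c y ≠ c (y + 1)) (lw : c w ≠ c (w + 1))
    (p0 : ¬ P 0) (px : ¬ P x) (py : ¬ P y) (pw : ¬ P w) (hq : q = x ∨ q = y ∨ q = w) :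
    ∃ n0 n1 n2 n3 : ℤ, NL P k = n0 + n1 + n2 + n3 ∧
      (0 ≤ n0 ∧ 2 * n0 ≤ Be c (x - 1) - Be c 0 ∧ 2 * n0 - 1 ≤ Go c x - Go c 0 ∧
        (x ≠ q → 2 * n0 ≤ Go c x - Go c 0)) ∧
      (0 ≤ n1 ∧ 2 * n1 ≤ Be c (y - 1) - Be c x ∧ 2 * n1 - 1 ≤ Go c y - Go c (x + 1) ∧
        (y ≠ q → 2 * n1 ≤ Go c y - Go c (x + 1))) ∧
      (0 ≤ n2 ∧ 2 * n2 ≤ Be c (w - 1) - Be c y ∧ 2 * n2 - 1 ≤ Go c w - Go c (y + 1) ∧
        (w ≠ q → 2 * n2 ≤ Go c w - Go c (y + 1))) ∧
      (0 ≤ n3 ∧ 2 * n3 ≤ Be c k - Be c w ∧ 2 * n3 ≤ Go c k - Go c (w + 1)) := by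
  have hql : q = 0 ∨ c q ≠ c (q + 1) := by
    rcases hq with rfl | rfl | rfl
    · exact Or.inr lx
    · exact Or.inr ly
    · exact Or.inr lw
  have r0 := region c P F (p := 0) (p' := x) hx (by omega) (Or.inl rfl) (Or.inr lx)
    (by omega) hql
  have r1 := region c P F (p := x) (p' := y) hxy (by omega) (Or.inr lx) (Or.inr ly)
    (by omega) hql
  have r2 := region c P F (p := y) (p' := w) hyw (by omega) (Or.inr ly) (Or.inr lw)
    (by omega) hql
  have r3 := region c P F (p := w) (p' := k) hwk (by omega) (Or.inr lw) (Or.inl rfl)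
    (by omega) hql
  have g0 := go0 c (show 0 ≤ 0 + 1 by omega)
  have g1 := be1 c (show k - 1 ≤ k by omega)
  have z0 := NL_not P p0
  have z1 := NL_not P px
  have z2 := NL_not P py
  have z3 := NL_not P pw
  have z4 : NL P 0 = 0 := by simp [NL]
  rw [if_neg (show ¬ k = q by omega)] at r3
  refine ⟨_, _, _, _, ?_, ⟨r0.1, r0.2.1, ?_, ?_⟩, ⟨r1.1, r1.2.1, ?_, ?_⟩,
    ⟨r2.1, r2.2.1, ?_, ?_⟩, ⟨r3.1, ?_, ?_⟩⟩
  · omega
  · have := r0.2.2
    split_ifs at this <;> omega
  · intro h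
    have := r0.2.2
    rw [if_neg h] at this
    omega
  · have := r1.2.2
    split_ifs at this <;> omega
  · intro h
    have := r1.2.2
    rw [if_neg h] at this
    omega
  · have := r2.2.2
    split_ifs at this <;> omega
  · intro h
    have := r2.2.2
    rw [if_neg h] at this
    omega
  · omega
  · omega

/-- The regions for two places. -/
theorem regs3 (c : ℕ → Bool) {k q x y : ℕ} (P : ℕ → Prop) [DecidablePred P]
    (F : LowF c k q P) (hx : 0 < x) (hxy : x < y) (hyk : y < k)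
    (lx : c x ≠ c (x + 1)) (ly : c y ≠ c (y + 1))
    (p0 : ¬ P 0) (px : ¬ P x) (py : ¬ P y) (hq : q = x ∨ q = y ∨ q = 0) :
    ∃ n0 n1 n2 : ℤ, NL P k = n0 + n1 + n2 ∧
      (0 ≤ n0 ∧ 2 * n0 ≤ Be c (x - 1) - Be c 0 ∧ 2 * n0 - 1 ≤ Go c x - Go c 0 ∧
        (x ≠ q → 2 * n0 ≤ Go c x - Go c 0)) ∧
      (0 ≤ n1 ∧ 2 * n1 ≤ Be c (y - 1) - Be c x ∧ 2 * n1 - 1 ≤ Go c y - Go c (x + 1) ∧
        (y ≠ q → 2 * n1 ≤ Go c y - Go c (x + 1))) ∧
      (0 ≤ n2 ∧ 2 * n2 ≤ Be c k - Be c y ∧ 2 * n2 ≤ Go c k - Go c (y + 1)) := by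
  have hql : q = 0 ∨ c q ≠ c (q + 1) := by
    rcases hq with rfl | rfl | rfl
    · exact Or.inr lx
    · exact Or.inr ly
    · exact Or.inl rfl
  have r0 := region c P F (p := 0) (p' := x) hx (by omega) (Or.inl rfl) (Or.inr lx)
    (by omega) hql
  have r1 := region c P F (p := x) (p' := y) hxy (by omega) (Or.inr lx) (Or.inr ly)
    (by omega) hql
  have r3 := region c P F (p := y) (p' := k) hyk (by omega) (Or.inr ly) (Or.inl rfl)
    (by omega) hql
  have g0 := go0 c (show 0 ≤ 0 + 1 by omega)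
  have g1 := be1 c (show k - 1 ≤ k by omega)
  have z0 := NL_not P p0
  have z1 := NL_not P px
  have z2 := NL_not P py
  have z4 : NL P 0 = 0 := by simp [NL]
  rw [if_neg (show ¬ k = q by omega)] at r3
  refine ⟨_, _, _, ?_, ⟨r0.1, r0.2.1, ?_, ?_⟩, ⟨r1.1, r1.2.1, ?_, ?_⟩, ⟨r3.1, ?_, ?_⟩⟩
  · omega
  · have := r0.2.2
    split_ifs at this <;> omega
  · intro h
    have := r0.2.2
    rw [if_neg h] at this
    omega
  · have := r1.2.2
    split_ifs at this <;> omega
  · intro h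
    have := r1.2.2
    rw [if_neg h] at this
    omega
  · omega
  · omega

/-- Facts about low vertices, from the walk form. -/
theorem notV (c : ℕ → Bool) {k q i : ℕ} (hk : k % 2 = 1) (hl : Ld c k i) (hq : i ≠ q)
    (hi : c i = false) (hJ : J c k q i ≤ ((k / 2 : ℕ) : ℤ)) :
    (q < i → S c i + 4 ≤ S c q + S c k) ∧
    (i < q → S c i + 3 ≤ S c q) ∧ (i < q → q % 2 = 1 → S c i + 4 ≤ S c q) := by
  have h : ¬ V c k q i := by
    intro hV
    have h1 := (V_iff c hk hl.1 hl.2.2 hq).2 hV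
    omega
  unfold V at h
  rw [hi] at h
  simp only [Bool.false_eq_true, if_false] at h
  refine ⟨?_, ?_, ?_⟩
  · intro h1
    rw [if_pos h1] at h
    omega
  · intro h1
    rw [if_neg (by omega)] at h
    split_ifs at h with h2 h3
    · omega
    · unfold S at *
      omega
    · omega
  · intro h1 h2
    rw [if_neg (by omega), if_pos h2] at h
    omega

/-- The facts about the low vertices for a seam `q > 0`. -/
theorem lowF_of (c al : ℕ → Bool) {k q z : ℕ} {F : ℤ} (hk : k % 2 = 1)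
    (hF : S c q ≤ F) (fD : F < S c k) (hD : S c k < 0)
    (high : ∀ i, Ld c k i → i ≠ q → (c i = true ∨ al i = true) →
      ((k / 2 + 1 : ℕ) : ℤ) ≤ J c k q i)
    (hle : ∀ i, Ld c k i → c i = true → F ≤ S c i)
    (hlt : q % 2 = 0 → ∀ i, Ld c k i → i < q → c i = true → F < S c i) :
    LowF c k q (LowP c al k q z) := by
  have hf : ∀ i, LowP c al k q z i → c i = false ∧ c (i + 1) = true := by
    intro i ⟨h1, h2, h3, h4, h5⟩
    rcases Bool.eq_false_or_eq_true (c i) with h | h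
    · have := high i h1 h3 (Or.inl h)
      omega
    · refine ⟨h, ?_⟩
      have h6 := h1.2.2
      rw [h] at h6
      rcases Bool.eq_false_or_eq_true (c (i + 1)) with h' | h'
      · exact h'
      · rw [h'] at h6
        exact absurd rfl h6
  have nv := fun i (hi : LowP c al k q z i) => notV c hk hi.1 hi.2.2.1 (hf i hi).1 hi.2.2.2.2
  refine ⟨?_, ?_, ?_, ?_, ?_, ?_⟩
  · intro i hi
    exact ⟨hi.1.1, hi.1.2.1, hi.2.2.1, (hf i hi).1, (hf i hi).2⟩
  · intro i hi m m1 m2 m3 m4 m5 m6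
    obtain ⟨v1, v2, v3⟩ := nv i hi
    have lm : Ld c k m := ⟨m1, m2, by rw [m5, m6]; decide⟩
    have h1 := hle m lm m5
    have hne := hi.2.2.1
    rcases Nat.lt_or_ge q i with h | h
    · have := v1 h
      omega
    · have h2 := v2 (by omega)
      rcases Nat.mod_two_eq_zero_or_one q with h3 | h3
      · have := hlt h3 m lm (by omega) m5
        omega
      · have := v3 (by omega) h3
        omega
  · intro i hi h
    exact (nv i hi).2.1 h
  · intro i hi h
    have := (nv i hi).1 h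
    omega
  · intro i hi
    obtain ⟨v1, v2, v3⟩ := nv i hi
    have hne := hi.2.2.1
    rcases Nat.lt_or_ge q i with h | h
    · have := v1 h
      omega
    · have h2 := v2 (by omega)
      omega
  · intro i hi
    obtain ⟨v1, v2, v3⟩ := nv i hi
    have hne := hi.2.2.1
    rcases Nat.lt_or_ge q i with h | h
    · have := v1 h
      omega
    · have h2 := v2 (by omega)
      omega

/-- The facts about the low vertices for the seam `0`. -/
theorem lowF_zero (c al : ℕ → Bool) {k z : ℕ} (hk : k % 2 = 1) (hD : S c k < 0)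
    (high : ∀ i, Ld c k i → i ≠ 0 → (c i = true ∨ al i = true) →
      ((k / 2 + 1 : ℕ) : ℤ) ≤ J c k 0 i)
    (hle : ∀ i, Ld c k i → c i = true → S c k ≤ S c i) :
    LowF c k 0 (LowP c al k 0 z) := by
  have hf : ∀ i, LowP c al k 0 z i → c i = false ∧ c (i + 1) = true := by
    intro i ⟨h1, h2, h3, h4, h5⟩
    rcases Bool.eq_false_or_eq_true (c i) with h | h
    · have := high i h1 h3 (Or.inl h)
      omega
    · refine ⟨h, ?_⟩
      have h6 := h1.2.2
      rw [h] at h6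
      rcases Bool.eq_false_or_eq_true (c (i + 1)) with h' | h'
      · exact h'
      · rw [h'] at h6
        exact absurd rfl h6
  have nv : ∀ i, LowP c al k 0 z i → S c i + 4 ≤ S c k := by
    intro i hi
    have h := (notV c hk hi.1 hi.2.2.1 (hf i hi).1 hi.2.2.2.2).1 (by have := hi.1.1; omega)
    rw [S_zero] at h
    omega
  refine ⟨?_, ?_, ?_, ?_, ?_, ?_⟩
  · intro i hi
    exact ⟨hi.1.1, hi.1.2.1, hi.2.2.1, (hf i hi).1, (hf i hi).2⟩
  · intro i hi m m1 m2 m3 m4 m5 m6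
    have := nv i hi
    have := hle m ⟨m1, m2, by rw [m5, m6]; decide⟩ m5
    omega
  · intro i hi h
    omega
  · intro i hi h
    have := nv i hi
    rw [S_zero]
    omega
  · intro i hi
    have := nv i hi
    omega
  · intro i hi
    exact nv i hi

end Pool.Agent.Lob34
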