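import Pool.Agent.Lob34.FactsR

/-! `SeamR` from the description of the seam by the walk. -/

namespace Pool.Agent.Lob34

open Pool.Agent.Lob5

variable {k : ℕ} {ld al : ℕ → Prop} {s : Pool.Agent.Lob5.Seam k ld al} {c al' : ℕ → Bool}

theorem SeamW.good (w : SeamW s c al') {i : ℕ} (h : ¬ s.bad i) : c i = true := by
  rcases Bool.eq_false_or_eq_true (c i) with h1 | h1
  · exact h1
  · exact absurd ((w.bad i).2 h1) h

theorem SeamW.unl (w : SeamW s c al') {i : ℕ} (h1 : 1 ≤ i) (h2 : i < k) (h : ¬ ld i) :
    c i = c (i + 1) := by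
  by_contra hcon
  exact h ((w.ld_iff i).2 ⟨h1, h2, hcon⟩)

theorem SeamW.holeG (w : SeamW s c al') (h1 : ¬ s.bad 1) : ∃ R, HoleG s R := by
  have hk := s.hk
  have hh1 := s.h1
  have hq := s.hq
  have hD := w.neg
  have hPP := w.P
  have hQQ := w.Q
  have hh := w.h
  have kd := w.kd
  have Ph := s.Ph
  have Qh := s.Qh
  have PQ := s.PQ
  have c1 := w.good h1
  have g0 : goodO c 1 := ⟨by norm_num, c1⟩
  have r1 := w.rk 1 (le_refl 1) (by omega)
  have z := zeroG c
  have zB := zeroB c
  rcases Nat.eq_zero_or_pos s.q with q0 | q1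
  · -- `q = 0`
    have hr1 := (rk_oG c (k := k) (q := s.q) g0).2 (by omega)
    have hGq : Go c s.q = 0 := by rw [q0]; exact z.1
    have hGe : Ge c s.q = 0 := by rw [q0]; exact z.2
    rw [hGq, show 1 - 1 = 0 from rfl, z.1] at hr1
    refine ⟨s.Q, ⟨⟨le_refl _, Qh, ?_, ?_, ?_⟩, ?_, ?_, ?_, ?_⟩⟩
    · intro i i1 ik il ib hr
      obtain ⟨m1, m2, m3, m4, m5, m6⟩ := oE_mem i1 ik
      obtain ⟨g1, g2⟩ := oE_good c (w.unl i1 ik il) (w.good ib)
      have := (rank_range c (show s.q ≤ k by omega) m4 m5).2.2.2 g2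
      have e := w.rk (eE i) m4 m5
      rw [eE_eq] at hr
      omega
    · intro i i1 ik il ib hr
      obtain ⟨m1, m2, m3, m4, m5, m6⟩ := oE_mem i1 ik
      obtain ⟨g1, g2⟩ := oE_good c (w.unl i1 ik il) (w.good ib)
      have := (rank_range c (show s.q ≤ k by omega) m1 m2).2.1 g1
      have e := w.rk (oE i) m1 m2
      rw [oE_eq]
      omega
    · intro i i1 ik il ib hr
      obtain ⟨m1, m2, m3, m4, m5, m6⟩ := oE_mem i1 ik
      have e := w.rk (oE i) m1 m2
      have hi := w.unl i1 ik il
      have ht := w.good ib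
      rw [oE_eq] at hr
      have h5 := rank_inj c (show s.q ≤ k by omega) (le_refl 1) (by omega) m1 m2
        (by omega) (by rw [← r1, ← e, hr])
      have h6 : i = 1 := by
        unfold oE at h5
        split_ifs at h5 <;> omega
      subst h6
      rw [eE_eq]
      have e2 := w.rk 2 (by omega) (by omega)
      have hE : eE 1 = 2 := rfl
      rw [hE]
      have g2 : goodE c 2 := ⟨rfl, by rw [← hi]; exact ht⟩
      have h7 := (rk_eG c (k := k) (q := s.q) g2).2 (by omega)
      have h8 : Ge c 1 = 0 := by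
        have hbe : Be c 1 = 0 := by
          have := bd c (show 0 ≤ 1 by omega)
          omega
        unfold Ge
        rw [hbe]
        norm_num
      rw [hGe, show 2 - 1 = 1 from rfl, h8] at h7
      omega
    · intro r h5 h6
      omega
    · intro r h5 h6
      have h7 : 1 ≤ cutGd c k 0 r := cutGd_zero (by omega) c1 (by omega)
      rw [w.cutG, q0]
      omega
    · intro hm
      have := kd.pos hm hD
      omega
    · intro hm
      have := kd.pos (by omega) hD
      omega
  · -- `q ≥ 1`
    have hr1 := (rk_oG c (k := k) (q := s.q) g0).1 q1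
    rw [show 1 - 1 = 0 from rfl, z.1] at hr1
    have lt := kd.lt q1
    have u := bd c (show s.q ≤ k by omega)
    have hGo := Go_le c (show s.q ≤ k by omega)
    have hGe := Ge_le c (show s.q ≤ k by omega)
    obtain ⟨R, hR⟩ : ∃ R : ℕ, (R : ℤ) = Be c k + (Ge c k - Ge c s.q) :=
      ⟨(Be c k + (Ge c k - Ge c s.q)).toNat, by omega⟩
    have q2 : s.q = 1 → c 1 ≠ c 2 := by
      intro h
      have := kd.ne q1
      rw [h] at this
      exact this
    have uq := bd c (show 0 ≤ s.q by omega)
    refine ⟨R, ⟨⟨?_, ?_, ?_, ?_, ?_⟩, ?_, ?_, ?_, ?_⟩⟩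
    · unfold Ge at hR hGe
      omega
    · unfold Ge at hR hGe
      omega
    · intro i i1 ik il ib hr
      obtain ⟨m1, m2, m3, m4, m5, m6⟩ := oE_mem i1 ik
      have e := w.rk (oE i) m1 m2
      have e' := w.rk (eE i) m4 m5
      have := (sepG kd q1 c1 i1 ik (w.unl i1 ik il) (w.good ib)).1
      rw [eE_eq] at hr
      rw [oE_eq]
      omega
    · intro i i1 ik il ib hr
      obtain ⟨m1, m2, m3, m4, m5, m6⟩ := oE_mem i1 ik
      have e := w.rk (oE i) m1 m2
      have e' := w.rk (eE i) m4 m5
      have := (sepG kd q1 c1 i1 ik (w.unl i1 ik il) (w.good ib)).2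
      rw [eE_eq] at hr
      rw [oE_eq]
      omega
    · intro i i1 ik il ib hr
      obtain ⟨m1, m2, m3, m4, m5, m6⟩ := oE_mem i1 ik
      have e := w.rk (oE i) m1 m2
      have hi := w.unl i1 ik il
      have ht := w.good ib
      rw [oE_eq] at hr
      have h5 := rank_inj c (show s.q ≤ k by omega) (le_refl 1) (by omega) m1 m2
        (by omega) (by rw [← r1, ← e, hr])
      have h6 : i = 1 := by
        unfold oE at h5
        split_ifs at h5 <;> omega
      subst h6
      have h9 : 2 ≤ s.q := by
        by_contra hcon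
        exact q2 (by omega) hi
      rw [eE_eq]
      have e2 := w.rk 2 (by omega) (by omega)
      have hE : eE 1 = 2 := rfl
      rw [hE]
      have g2 : goodE c 2 := ⟨rfl, by rw [← hi]; exact ht⟩
      have h7 := (rk_eG c (k := k) (q := s.q) g2).1 h9
      have h8 : Ge c 1 = 0 := by
        have hbe : Be c 1 = 0 := by
          have := bd c (show 0 ≤ 1 by omega)
          omega
        unfold Ge
        rw [hbe]
        norm_num
      rw [show 2 - 1 = 1 from rfl, h8] at h7
      omega
    · intro r h5 h6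
      have h7 := cutGd_low (c := c) (k := k) (q := s.q) (r := r) (by omega) (by omega)
      rw [w.cutG]
      omega
    · intro r h5 h6
      have h7 := cutGd_high (c := c) (k := k) (q := s.q) (r := r) (by omega) q1 c1 (by omega)
      rw [w.cutG]
      omega
    · intro hm
      have h7 : 1 ≤ Go c k - Go c s.q + (Ge c k - Ge c s.q) := by
        unfold S at lt
        unfold Go Ge
        omega
      omega
    · intro hm
      -- the top block
      have hqT : c s.q = true := by
        rcases hm with hm | hm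
        · have hkd := kd
          rw [hm] at hkd
          cases hkd with
          | k1 ht _ _ => exact ht.2.1
        · have hkd := kd
          rw [hm] at hkd
          cases hkd with
          | k2 ht _ _ _ _ => exact ht.2.1
      have hbq : 1 ≤ Bo c s.q + Be c s.q := by
        unfold S at lt hD
        omega
      obtain ⟨p, p2, pq, pf, prun⟩ := exists_p c1 hbq hqT
      have rc := run_const prun s.q (by omega) (le_refl _)
      have b1 := Go_le c (show 1 ≤ p by omega)
      have e0 := Go_pred c g0 (le_refl 1)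
      rw [show 1 - 1 = 0 from rfl, z.1] at e0
      have b2 := Ge_le c (show 0 ≤ p by omega)
      have k1' : s.mode = 1 → s.q % 2 = 1 ∧ Be c (s.q + 1) = Be c s.q + 1 := by
        intro hm
        have hkd := kd
        rw [hm] at hkd
        cases hkd with
        | k1 ht _ _ => exact ⟨ht.1, (st_OT c q1 ht).2.2.2⟩
      have k2' : s.mode = 2 → s.q % 2 = 0 ∧ Bo c (s.q + 1) = Bo c s.q + 1 ∧
          s.q + 1 < k ∧ Be c (s.q + 2) = Be c (s.q + 1) + 1 ∧ Be c (s.q + 1) = Be c s.q := by
        intro hm
        have hkd := kd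
        rw [hm] at hkd
        cases hkd with
        | k2 ht _ h5 h6 _ =>
          have h7 := stepE c h6 ht.1
          have h8 := st_ET c q1 ht
          exact ⟨ht.1, h8.2.2.1, h5, h7.2, h8.2.2.2⟩
      have u1 := bd c (show s.q + 1 ≤ k by omega)
      have J : ∀ i, 1 ≤ i → i < k → ¬ ld i → ¬ s.bad i →
          (p < i ∧ i < s.q) ∨ s.rk (oe i) + s.rk (ee i) + (s.q - 1 - p) ≤ 2 * s.h := by
        intro i i1 ik il ib
        obtain ⟨m1, m2, m3, m4, m5, m6⟩ := oE_mem i1 ik
        have e := w.rk (oE i) m1 m2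
        have e' := w.rk (eE i) m4 m5
        have := topJ kd (by omega) c1 p2 pq pf prun i1 ik (w.unl i1 ik il) (w.good ib)
        rw [oE_eq, eE_eq]
        omega
      have J2 : ∀ i, 1 ≤ i → i < k → ¬ ld i → ¬ s.bad i → p < i → i < s.q →
          2 * s.h + 2 ≤ s.rk (oe i) + s.rk (ee i) + (s.q - 1 - p) := by
        intro i i1 ik il ib hp hi
        obtain ⟨m1, m2, m3, m4, m5, m6⟩ := oE_mem i1 ik
        have e := w.rk (oE i) m1 m2
        have e' := w.rk (eE i) m4 m5
        have := (topRun (c := c) (k := k) (q := s.q) (p := p) (by omega) prun hp hi ik).2.2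
        rw [oE_eq, eE_eq]
        omega
      have JJ : ∀ i, s.rk (oe i) + s.rk (ee i) = s.rk i + s.rk (i + 1) := by
        intro i
        unfold oe ee
        split_ifs
        · rfl
        · rw [add_comm]
      refine ⟨s.q - 1 - p, ⟨?_, ?_, ?_, ?_, ?_, ?_, ?_, ?_, ?_⟩⟩
      · intro i i1 ik il ib
        rw [← JJ]
        rcases J i i1 ik il ib with h | h
        · have := J2 i i1 ik il ib h.1 h.2
          omega
        · omega
      · unfold Go Ge at *
        omega
      · rcases hm with hm | hm
        · have := k1' hm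
          unfold S at lt
          unfold Go Ge at *
          omega
        · have := k2' hm
          have u2 := bd c (show s.q + 2 ≤ k by omega)
          unfold S at lt
          unfold Go Ge at *
          omega
      · unfold Go Ge at *
        omega
      · intro hm
        have := k2' hm
        unfold S at lt hD
        unfold Go Ge at *
        omega
      · intro hm
        have := k1' hm
        unfold S at lt hD
        unfold Go Ge at *
        omega
      · intro hm
        have := k1' hm
        unfold S at lt hD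
        unfold Go Ge at *
        omega
      · intro hm i i1 ik il ib hJ
        rw [← JJ] at hJ
        obtain ⟨m1, m2, m3, m4, m5, m6⟩ := oE_mem i1 ik
        have e := w.rk (oE i) m1 m2
        have e' := w.rk (eE i) m4 m5
        rcases J i i1 ik il ib with h | h
        · have := (topRun (c := c) (k := k) (q := s.q) (p := p) (by omega) prun h.1 h.2 ik).1
            (k1' hm).1
          rw [oE_eq, eE_eq]
          omega
        · omega
      · intro hm i i1 ik il ib hJ
        rw [← JJ] at hJ
        obtain ⟨m1, m2, m3, m4, m5, m6⟩ := oE_mem i1 ik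
        have e := w.rk (oE i) m1 m2
        have e' := w.rk (eE i) m4 m5
        rcases J i i1 ik il ib with h | h
        · have := (topRun (c := c) (k := k) (q := s.q) (p := p) (by omega) prun h.1 h.2 ik).2.1
            (k2' hm).1
          rw [oE_eq, eE_eq]
          omega
        · omega

/-- Edge `1` bad: its rank. -/
theorem SeamW.rk1 (w : SeamW s c al') (h1 : s.bad 1) :
    (s.q = 0 → (s.rk 1 : ℤ) = Bo c k) ∧ (1 ≤ s.q → (s.rk 1 : ℤ) = Bo c s.q) := by
  have c1 := (w.bad 1).1 h1
  have hk := s.hk
  have g0 : badO c 1 := ⟨by norm_num, c1⟩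
  have r1 := w.rk 1 (le_refl 1) (by omega)
  have z := zeroB c
  refine ⟨fun hq => ?_, fun hq => ?_⟩
  · have hr1 := (rk_oB c (k := k) (q := s.q) g0).2 (by omega)
    have hB : Bo c s.q = 0 := by rw [hq]; exact z.1
    rw [hB, show 1 - 1 = 0 from rfl, z.1] at hr1
    omega
  · have hr1 := (rk_oB c (k := k) (q := s.q) g0).1 hq
    rw [show 1 - 1 = 0 from rfl, z.1] at hr1
    omega

theorem SeamW.b12 (w : SeamW s c al') (h1 : s.bad 1) :
    s.P + s.Q ≤ s.rk 1 + s.h + 1 ∧ (1 ≤ s.mode → s.P + s.Q ≤ s.rk 1 + s.h) := by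
  have hk := s.hk
  have hq := s.hq
  have hD := w.neg
  have hPP := w.P
  have hQQ := w.Q
  have hh := w.h
  have kd := w.kd
  have Qh := s.Qh
  have r := w.rk1 h1
  have zB := zeroB c
  rcases Nat.eq_zero_or_pos s.q with q0 | q1
  · have := r.1 q0
    refine ⟨by omega, fun hm => ?_⟩
    have := kd.pos hm hD
    omega
  · have := r.2 q1
    have lt := kd.lt q1
    have u := bd c (show s.q ≤ k by omega)
    have u0 := bd c (show 0 ≤ s.q by omega)
    unfold S at lt
    refine ⟨by omega, fun _ => by omega⟩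

theorem SeamW.b1r (w : SeamW s c al') (hm : s.mode = 1) (h1 : s.bad 1) : s.rk 1 + 2 ≤ s.h := by
  have hk := s.hk
  have hq := s.hq
  have hD := w.neg
  have hh := w.h
  have kd := w.kd
  have r := w.rk1 h1
  have zB := zeroB c
  have q1 := kd.pos (by omega) hD
  have r1 := r.2 q1
  have lt := kd.lt q1
  rw [hm] at kd
  cases kd with
  | k1 ht _ _ =>
    have e := ht.1
    have st := st_OT c q1 ht
    have u := bd c (show s.q + 1 ≤ k by omega)
    have u0 := bd c (show 0 ≤ s.q - 1 by omega)
    unfold S at lt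
    omega

theorem SeamW.holeB (w : SeamW s c al') (h1 : s.bad 1) :
    ∃ R, HoleB s R ∧ (s.mode = 1 ∨ s.mode = 2 → R + 1 ≤ s.Q) := by
  have hk := s.hk
  have hq := s.hq
  have hD := w.neg
  have hPP := w.P
  have hQQ := w.Q
  have hh := w.h
  have kd := w.kd
  have Qh := s.Qh
  have r := w.rk1 h1
  have zB := zeroB c
  have c1 := (w.bad 1).1 h1
  have er := w.rk 1 (le_refl 1) (by omega)
  rcases Nat.eq_zero_or_pos s.q with q0 | q1
  · have r0 := r.1 q0
    refine ⟨s.Q, ⟨le_refl _, ?_, ?_⟩, ?_⟩
    · intro i i1 ik il ib hr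
      obtain ⟨m1, m2, m3, m4, m5, m6⟩ := oE_mem i1 ik
      have hb := (w.bad i).1 ib
      obtain ⟨g1, g2⟩ := oE_bad c (w.unl i1 ik il) hb
      have := (rank_range c (show s.q ≤ k by omega) m4 m5).2.2.1 g2
      have e := w.rk (eE i) m4 m5
      rw [eE_eq]
      omega
    · intro i i1 ik il ib hr
      obtain ⟨m1, m2, m3, m4, m5, m6⟩ := oE_mem i1 ik
      have hb := (w.bad i).1 ib
      obtain ⟨g1, g2⟩ := oE_bad c (w.unl i1 ik il) hb
      have := (rank_range c (show s.q ≤ k by omega) m1 m2).1 g1
      have e := w.rk (oE i) m1 m2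
      rw [oE_eq] at hr
      omega
    · intro hm
      have := kd.pos (by omega) hD
      omega
  · have r0 := r.2 q1
    have u := bd c (show s.q ≤ k by omega)
    have u0 := bd c (show 0 ≤ s.q by omega)
    obtain ⟨R, hR⟩ : ∃ R : ℕ, (R : ℤ) = Be c s.q := ⟨(Be c s.q).toNat, by omega⟩
    refine ⟨R, ⟨by omega, ?_, ?_⟩, ?_⟩
    · intro i i1 ik il ib hr
      obtain ⟨m1, m2, m3, m4, m5, m6⟩ := oE_mem i1 ik
      have e := w.rk (oE i) m1 m2
      have e' := w.rk (eE i) m4 m5
      have := (sepB kd q1 c1 i1 ik (w.unl i1 ik il) ((w.bad i).1 ib)).1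
      rw [eE_eq]
      rw [oE_eq] at hr
      omega
    · intro i i1 ik il ib hr
      obtain ⟨m1, m2, m3, m4, m5, m6⟩ := oE_mem i1 ik
      have e := w.rk (oE i) m1 m2
      have e' := w.rk (eE i) m4 m5
      have := (sepB kd q1 c1 i1 ik (w.unl i1 ik il) ((w.bad i).1 ib)).2
      rw [eE_eq]
      rw [oE_eq] at hr
      omega
    · intro hm
      rcases hm with hm | hm
      · rw [hm] at kd
        cases kd with
        | k1 ht _ _ =>
          have st := st_OT c q1 ht
          have u := bd c (show s.q + 1 ≤ k by omega)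
          omega
      · rw [hm] at kd
        cases kd with
        | k2 ht _ h5 h6 _ =>
          have h7 := stepE c h6 ht.1
          have st := st_ET c q1 ht
          have u := bd c (show s.q + 2 ≤ k by omega)
          omega

theorem SeamW.m2R (w : SeamW s c al') (hm : s.mode = 2) :
    s.q + 1 < k ∧ ¬ ld (s.q + 1) ∧ s.rk (s.q + 2) = s.Q := by
  have kd := w.kd
  have hQQ := w.Q
  rw [hm] at kd
  cases kd with
  | k2 ht _ h5 h6 _ =>
    have e := ht.1
    refine ⟨h5, ?_, ?_⟩
    · intro h
      have h7 := ((w.ld_iff _).1 h).2.2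
      rw [ht.2.2, h6] at h7
      exact h7 rfl
    · have h8 := w.rk (s.q + 2) (by omega) (by omega)
      have g : badE c (s.q + 2) := ⟨by omega, h6⟩
      have h9 := (rk_eB c (k := k) (q := s.q) g).2 (by omega)
      have h10 : Be c (s.q + 1) = Be c s.q := (stepFo c ht.2.2 (by omega)).2
      rw [show s.q + 2 - 1 = s.q + 1 from rfl] at h9
      omega

theorem SeamW.seamR (w : SeamW s c al') : SeamR s where
  Ph1 := by
    intro hm
    have := w.kd.PQh hm (by have := s.hk; omega) s.hq w.neg
    have := w.P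
    have := w.h
    omega
  Qh1 := by
    intro hm
    have := w.kd.PQh hm (by have := s.hk; omega) s.hq w.neg
    have := w.Q
    have := w.h
    omega
  P3 := by
    intro hm
    have := w.kd.P3 hm (by have := s.hk; omega) s.hq w.neg
    have := w.P
    omega
  Q1 := by
    intro hm
    have := w.kd.PQh hm (by have := s.hk; omega) s.hq w.neg
    have := w.Q
    omega
  g := w.holeG
  b1 := fun h => (w.b12 h).1
  b2 := fun h => (w.b12 h).2
  b3 := w.holeB
  m2 := w.m2R

open Classical in
/-- The seam with all facts. -/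
theorem exists_seamWR {k : ℕ} (hk : k % 2 = 1) (h3 : 3 ≤ k) (ld al : ℕ → Prop)
    (hal : ∀ i, al i → ld i) (hld : ∀ i, ld i → 1 ≤ i ∧ i < k) :
    ∃ s : Pool.Agent.Lob5.Seam k ld al, (2 ≤ s.mode → s.P ≠ 2) ∧
      (s.mode = 1 → s.P = 2 → ∀ i, ld i → ¬ s.bad (oe i)) ∧ SeamR s ∧
      (s.mode = 1 → s.bad 1 → s.rk 1 + 2 ≤ s.h) := by
  obtain ⟨s, c, al', w⟩ := exists_seamW hk h3 ld al hal hld
  exact ⟨s, w.m2P, fun hm hP i hi hb => w.m1P hm hP i hi hb, w.seamR, w.b1r⟩

end Pool.Agent.Lob34
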