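import Pool.Agent.Lob34.SeamR

/-! `SeamT` from the description of the seam by the walk. -/

namespace Pool.Agent.Lob34

open Pool.Agent.Lob5

variable {k : ℕ} {ld al : ℕ → Prop} {s : Pool.Agent.Lob5.Seam k ld al} {c al' : ℕ → Bool}

/-- The counting facts in the modes `3, 4, 5`. -/
theorem Kd.T {c al : ℕ → Bool} {k q m : ℕ} (kd : Kd c al k q m) (hm : 3 ≤ m)
    (hk : k % 2 = 1) (hq : q < k) (hD : S c k < 0) :
    Be c k + 2 ≤ (k / 2 : ℕ) ∧
    (m = 5 → Bo c k + 1 ≤ (k / 2 : ℕ) ∧ 1 ≤ Ge c k - Ge c q) ∧
    (4 ≤ m → Bo c k + Be c k + 2 ≤ Bo c q + (k / 2 : ℕ)) ∧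
    (c 1 = true → Bo c k + 2 ≤ (k / 2 : ℕ) + Go c q) := by
  have h1 := kd.pos (by omega) hD
  have u := bd c (show q ≤ k by omega)
  have u1 := bd c (show q - 1 ≤ k by omega)
  have u2 := bd c (show q + 1 ≤ k by omega)
  have u3 := bd c (show 0 ≤ q - 1 by omega)
  have u4 := bd c (show 0 ≤ q by omega)
  have u5 := bd c (show 1 ≤ q by omega)
  have z := zeroB c
  have hg1 : c 1 = true → Bo c 1 = 0 := by
    intro h
    have h2 := (stepT c (i := 0) h).1
    rw [h2]
    exact z.1
  cases kd with
  | z _ _ => omega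
  | n1 _ _ _ => omega
  | n2 _ _ _ => omega
  | k1 ht ha M => omega
  | k2 ht ha _ _ M => omega
  | k2ii ht ha hl _ M =>
    have e := ht.1
    have s1 := st_ET c h1 ht
    have t := M.top
    have hl2 := hl.2.1
    have h2 : c (q + 2) = true := by
      have h3 := hl.2.2
      rw [ht.2.2] at h3
      rcases Bool.eq_false_or_eq_true (c (q + 2)) with h4 | h4
      · exact h4
      · exact absurd h4.symm h3
    have h5 := stepT c (i := q + 1) h2
    have u6 := bd c (show q + 1 + 1 ≤ k by omega)
    refine ⟨?_, fun h => by omega, fun h => by omega, fun h => ?_⟩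
    · omega
    · have := hg1 h
      unfold S at t hD
      unfold Go
      omega
  | k3 ht ha M h5 =>
    have e := ht.1
    have s1 := st_OF c h1 ht
    have t := M.top
    rcases h5 with h5 | ⟨h6, h7, h8⟩
    · refine ⟨?_, fun h => by omega, fun _ => ?_, fun h => ?_⟩
      · unfold S at t hD h5
        omega
      · unfold S at t hD h5
        omega
      · have := hg1 h
        have hq1 : q ≠ 1 := by
          rintro rfl
          rw [ht.2.1] at h
          cases h
        unfold S at t hD h5
        unfold Go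
        omega
    · have s2 := st_ET c (show 1 ≤ q - 1 by omega) h7
      have u7 := bd c (show 0 ≤ q - 1 - 1 by omega)
      refine ⟨?_, fun h => by omega, fun _ => ?_, fun h => ?_⟩
      · unfold S at t hD
        omega
      · unfold S at t hD
        omega
      · have := hg1 h
        have hq1 : q ≠ 1 := by
          rintro rfl
          rw [ht.2.1] at h
          cases h
        unfold S at t hD
        unfold Go
        omega
  | k4 ht ha M =>
    have e := ht.1
    have s1 := st_EF c h1 ht
    have t := M.top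
    refine ⟨?_, fun _ => ⟨?_, ?_⟩, fun _ => ?_, fun h => ?_⟩
    · unfold S at t hD
      omega
    · unfold S at t hD
      omega
    · unfold S at t hD
      unfold Ge
      omega
    · unfold S at t hD
      omega
    · have := hg1 h
      unfold S at t hD
      unfold Go
      omega

theorem SeamW.seamT (w : SeamW s c al') : SeamT s := by
  have hk := s.hk
  have hq := s.hq
  have hD := w.neg
  have hPP := w.P
  have hQQ := w.Q
  have hh := w.h
  have kd := w.kd
  have T := fun hm => kd.T hm (by omega) hq hD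
  have rg : 3 ≤ s.mode → ¬ s.bad 1 → (s.rk 1 : ℤ) = Bo c k + 1 + (Go c k - Go c s.q) := by
    intro hm h1
    have q1 := kd.pos (by omega) hD
    have c1 := w.good h1
    have g0 : goodO c 1 := ⟨by norm_num, c1⟩
    have r1 := w.rk 1 (le_refl 1) (by omega)
    have hr1 := (rk_oG c (k := k) (q := s.q) g0).1 q1
    have z := zeroG c
    rw [show 1 - 1 = 0 from rfl, z.1] at hr1
    omega
  refine ⟨?_, ?_, ?_, ?_, ?_⟩
  · intro hm
    have := ((T (by omega)).2.1 hm).1
    omega
  · intro hb hm
    have h1 := (T (by omega)).2.2.1 (by omega)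
    have q1 := kd.pos (by omega) hD
    have h2 := (w.rk1 hb).2 q1
    omega
  · intro hm h1
    obtain ⟨R, hR⟩ := w.holeG h1
    refine ⟨R, hR, ?_⟩
    by_contra hcon
    have hQR := hR.QR
    have h2 := ((T (by omega)).2.1 hm).2
    have h3 := (T (by omega)).1
    have h4 := hR.c2 (s.Q + 1) (by omega) (by omega)
    have h5 := cutGd_low (c := c) (k := k) (q := s.q) (r := s.Q + 1) (by omega)
      (by push_cast; omega)
    have h6 := rg (by omega) h1
    rw [w.cutG] at h4
    omega
  · intro hm h1
    have h2 := (T hm).2.2.2 (w.good h1)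
    have h3 := rg hm h1
    unfold Go at h2 h3
    omega
  · intro hm
    have := (T hm).1
    omega

open Classical in
/-- The seam with all facts. -/
theorem exists_seamWT {k : ℕ} (hk : k % 2 = 1) (h3 : 3 ≤ k) (ld al : ℕ → Prop)
    (hal : ∀ i, al i → ld i) (hld : ∀ i, ld i → 1 ≤ i ∧ i < k) :
    ∃ s : Pool.Agent.Lob5.Seam k ld al, (2 ≤ s.mode → s.P ≠ 2) ∧
      (s.mode = 1 → s.P = 2 → ∀ i, ld i → ¬ s.bad (oe i)) ∧ SeamR s ∧ SeamT s ∧
      (s.mode = 1 → s.bad 1 → s.rk 1 + 2 ≤ s.h) := by
  obtain ⟨s, c, al', w⟩ := exists_seamW hk h3 ld al hal hld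
  exact ⟨s, w.m2P, fun hm hP i hi hb => w.m1P hm hP i hi hb, w.seamR, w.seamT, w.b1r⟩

end Pool.Agent.Lob34
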