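import Mathlib.Tactic.Linarith
import Mathlib.Tactic.Ring
import Mathlib.Data.Finset.Card
import Mathlib.Order.Interval.Finset.Nat
import Mathlib.Algebra.Order.Group.Nat

/-!
# Seam lemma for lobsters: walk form, definitions and formulas

Edges `e_1, ..., e_k` (`k` odd) of a path are coloured good (`c i = true`) or bad.
-/

namespace Pool.Agent.Lob34

/-- Number of bad odd edges among `e_1, ..., e_i`. -/
def Bo (c : ℕ → Bool) : ℕ → ℤ
  | 0 => 0
  | i + 1 => Bo c i + if (i + 1) % 2 = 1 ∧ c (i + 1) = false then 1 else 0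

/-- Number of bad even edges among `e_1, ..., e_i`. -/
def Be (c : ℕ → Bool) : ℕ → ℤ
  | 0 => 0
  | i + 1 => Be c i + if (i + 1) % 2 = 0 ∧ c (i + 1) = false then 1 else 0

/-- Number of good odd edges among `e_1, ..., e_i`. -/
def Go (c : ℕ → Bool) (i : ℕ) : ℤ := ((i + 1) / 2 : ℕ) - Bo c i

/-- Number of good even edges among `e_1, ..., e_i`. -/
def Ge (c : ℕ → Bool) (i : ℕ) : ℤ := (i / 2 : ℕ) - Be c i

/-- The walk: good edges count `+1`, bad edges count `-1`. -/
def S (c : ℕ → Bool) (i : ℕ) : ℤ := (i : ℤ) - 2 * Bo c i - 2 * Be c i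

theorem S_succ (c : ℕ → Bool) (i : ℕ) :
    S c (i + 1) = S c i + if c (i + 1) then 1 else -1 := by
  unfold S
  simp only [Bo, Be]
  rcases Bool.eq_false_or_eq_true (c (i + 1)) with h | h <;>
    rcases Nat.mod_two_eq_zero_or_one (i + 1) with h2 | h2 <;> simp [h, h2] <;> ring

@[simp] theorem S_zero (c : ℕ → Bool) : S c 0 = 0 := by simp [S, Bo, Be]

/-- The basic bounds. -/
theorem bd (c : ℕ → Bool) {i j : ℕ} (h : i ≤ j) :
    0 ≤ Bo c j - Bo c i ∧ Bo c j - Bo c i ≤ ((j + 1) / 2 : ℕ) - ((i + 1) / 2 : ℕ) ∧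
    0 ≤ Be c j - Be c i ∧ Be c j - Be c i ≤ (j / 2 : ℕ) - (i / 2 : ℕ) := by
  induction j, h using Nat.le_induction with
  | base => refine ⟨by simp, by simp, by simp, by simp⟩
  | succ n hn ih =>
    obtain ⟨h1, h2, h3, h4⟩ := ih
    simp only [Bo, Be]
    rcases Bool.eq_false_or_eq_true (c (n + 1)) with h | h <;>
      rcases Nat.mod_two_eq_zero_or_one (n + 1) with h5 | h5 <;> simp [h, h5] <;> omega

/-- One step. -/
theorem stepT (c : ℕ → Bool) {i : ℕ} (h : c (i + 1) = true) :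
    Bo c (i + 1) = Bo c i ∧ Be c (i + 1) = Be c i := by
  simp [Bo, Be, h]

theorem stepFo (c : ℕ → Bool) {i : ℕ} (h : c (i + 1) = false) (h2 : (i + 1) % 2 = 1) :
    Bo c (i + 1) = Bo c i + 1 ∧ Be c (i + 1) = Be c i := by
  simp [Bo, Be, h, h2]

theorem stepFe (c : ℕ → Bool) {i : ℕ} (h : c (i + 1) = false) (h2 : (i + 1) % 2 = 0) :
    Bo c (i + 1) = Bo c i ∧ Be c (i + 1) = Be c i + 1 := by
  simp [Bo, Be, h, h2]

/-- Number of elements before `e_j` in the window order `e_{q+1}, ..., e_k, e_1, ..., e_q`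
for the initial counting function `X`. -/
def W (X : ℕ → ℤ) (k q j : ℕ) : ℤ :=
  if q < j then X (j - 1) - X q else X k - X q + X (j - 1)

/-- Rank of the edge `e_j` for the seam `q`. -/
def rank (c : ℕ → Bool) (k q j : ℕ) : ℤ :=
  if j % 2 = 1 then
    (if c j then Bo c k + 1 + W (Go c) k q j else Bo c k - W (Bo c) k q j)
  else
    (if c j then Be c k + 1 + W (Ge c) k q j else Be c k - W (Be c) k q j)

/-- Sum of the ranks of the two edges at the vertex `i`. -/
def J (c : ℕ → Bool) (k q i : ℕ) : ℤ := rank c k q i + rank c k q (i + 1)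

theorem J_oT (c : ℕ → Bool) {k q i : ℕ} (hi : 1 ≤ i) (ho : i % 2 = 1)
    (h1 : c i = true) (h2 : c (i + 1) = false) :
    (q < i → J c k q i = Bo c k + Be c k + 1 + (i / 2 : ℕ) - Bo c i - ((q + 1) / 2 : ℕ)
      + Bo c q - Be c i + Be c q) ∧
    (i < q → J c k q i = 1 + ((k + 1) / 2 : ℕ) + (i / 2 : ℕ) - Bo c i - ((q + 1) / 2 : ℕ)
      + Bo c q - Be c i + Be c q) ∧
    (i = q → J c k q i = 1 + (i / 2 : ℕ) - ((q + 1) / 2 : ℕ) + ((k + 1) / 2 : ℕ) + Be c k) := by
  obtain ⟨n, rfl⟩ : ∃ n, i = n + 1 := ⟨i - 1, by omega⟩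
  have s1 := stepT c h1
  have e1 : ¬ (n + 1 + 1) % 2 = 1 := by omega
  have e0 : (n + 1) % 2 = 1 := ho
  refine ⟨fun h => ?_, fun h => ?_, fun h => ?_⟩
  · have h3 : q < n + 1 + 1 := by omega
    simp only [J, rank, W, Go, Ge, h1, h2, e0, e1, h, h3, if_true, if_false, Nat.add_sub_cancel,
      Bool.false_eq_true]
    omega
  · have h3 : ¬ q < n + 1 + 1 := by omega
    have h4 : ¬ q < n + 1 := by omega
    simp only [J, rank, W, Go, Ge, h1, h2, e0, e1, h3, h4, if_true, if_false, Nat.add_sub_cancel,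
      Bool.false_eq_true]
    omega
  · subst h
    have h3 : (n + 1) < n + 1 + 1 := by omega
    have h4 : ¬ (n + 1) < n + 1 := by omega
    simp only [J, rank, W, Go, Ge, h1, h2, e0, e1, h3, h4, if_true, if_false, Nat.add_sub_cancel,
      Bool.false_eq_true]
    omega

theorem J_eT (c : ℕ → Bool) {k q i : ℕ} (hi : 1 ≤ i) (ho : i % 2 = 0)
    (h1 : c i = true) (h2 : c (i + 1) = false) :
    (q < i → J c k q i = Bo c k + Be c k + (i / 2 : ℕ) - Bo c i - (q / 2 : ℕ)
      + Bo c q - Be c i + Be c q) ∧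
    (i < q → J c k q i = (k / 2 : ℕ) + (i / 2 : ℕ) - Bo c i - (q / 2 : ℕ)
      + Bo c q - Be c i + Be c q) ∧
    (i = q → J c k q i = (k / 2 : ℕ) + Bo c k) := by
  obtain ⟨n, rfl⟩ : ∃ n, i = n + 1 := ⟨i - 1, by omega⟩
  have s1 := stepT c h1
  have e1 : (n + 1 + 1) % 2 = 1 := by omega
  have e0 : ¬ (n + 1) % 2 = 1 := by omega
  refine ⟨fun h => ?_, fun h => ?_, fun h => ?_⟩
  · have h3 : q < n + 1 + 1 := by omega
    simp only [J, rank, W, Go, Ge, h1, h2, e0, e1, h, h3, if_true, if_false, Nat.add_sub_cancel,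
      Bool.false_eq_true]
    omega
  · have h3 : ¬ q < n + 1 + 1 := by omega
    have h4 : ¬ q < n + 1 := by omega
    simp only [J, rank, W, Go, Ge, h1, h2, e0, e1, h3, h4, if_true, if_false, Nat.add_sub_cancel,
      Bool.false_eq_true]
    omega
  · subst h
    have h3 : (n + 1) < n + 1 + 1 := by omega
    have h4 : ¬ (n + 1) < n + 1 := by omega
    simp only [J, rank, W, Go, Ge, h1, h2, e0, e1, h3, h4, if_true, if_false, Nat.add_sub_cancel,
      Bool.false_eq_true]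
    omega

theorem J_oF (c : ℕ → Bool) {k q i : ℕ} (hi : 1 ≤ i) (ho : i % 2 = 1)
    (h1 : c i = false) (h2 : c (i + 1) = true) :
    (q < i → J c k q i = Bo c k + Be c k + 2 + (i / 2 : ℕ) - Bo c i - (q / 2 : ℕ)
      + Bo c q - Be c i + Be c q) ∧
    (i < q → J c k q i = 2 + (k / 2 : ℕ) + (i / 2 : ℕ) - Bo c i - (q / 2 : ℕ)
      + Bo c q - Be c i + Be c q) ∧
    (i = q → J c k q i = Be c k + 2) := by
  obtain ⟨n, rfl⟩ : ∃ n, i = n + 1 := ⟨i - 1, by omega⟩
  have s1 := stepFo c h1 ho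
  have e1 : ¬ (n + 1 + 1) % 2 = 1 := by omega
  have e0 : (n + 1) % 2 = 1 := ho
  refine ⟨fun h => ?_, fun h => ?_, fun h => ?_⟩
  · have h3 : q < n + 1 + 1 := by omega
    simp only [J, rank, W, Go, Ge, h1, h2, e0, e1, h, h3, if_true, if_false, Nat.add_sub_cancel,
      Bool.false_eq_true]
    omega
  · have h3 : ¬ q < n + 1 + 1 := by omega
    have h4 : ¬ q < n + 1 := by omega
    simp only [J, rank, W, Go, Ge, h1, h2, e0, e1, h3, h4, if_true, if_false, Nat.add_sub_cancel,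
      Bool.false_eq_true]
    omega
  · subst h
    have h3 : (n + 1) < n + 1 + 1 := by omega
    have h4 : ¬ (n + 1) < n + 1 := by omega
    simp only [J, rank, W, Go, Ge, h1, h2, e0, e1, h3, h4, if_true, if_false, Nat.add_sub_cancel,
      Bool.false_eq_true]
    omega

theorem J_eF (c : ℕ → Bool) {k q i : ℕ} (hi : 1 ≤ i) (ho : i % 2 = 0)
    (h1 : c i = false) (h2 : c (i + 1) = true) :
    (q < i → J c k q i = Bo c k + Be c k + 2 + (i / 2 : ℕ) - Bo c i - ((q + 1) / 2 : ℕ)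
      + Bo c q - Be c i + Be c q) ∧
    (i < q → J c k q i = 2 + ((k + 1) / 2 : ℕ) + (i / 2 : ℕ) - Bo c i - ((q + 1) / 2 : ℕ)
      + Bo c q - Be c i + Be c q) ∧
    (i = q → J c k q i = Bo c k + 2) := by
  obtain ⟨n, rfl⟩ : ∃ n, i = n + 1 := ⟨i - 1, by omega⟩
  have s1 := stepFe c h1 ho
  have e1 : (n + 1 + 1) % 2 = 1 := by omega
  have e0 : ¬ (n + 1) % 2 = 1 := by omega
  refine ⟨fun h => ?_, fun h => ?_, fun h => ?_⟩
  · have h3 : q < n + 1 + 1 := by omega
    simp only [J, rank, W, Go, Ge, h1, h2, e0, e1, h, h3, if_true, if_false, Nat.add_sub_cancel,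
      Bool.false_eq_true]
    omega
  · have h3 : ¬ q < n + 1 + 1 := by omega
    have h4 : ¬ q < n + 1 := by omega
    simp only [J, rank, W, Go, Ge, h1, h2, e0, e1, h3, h4, if_true, if_false, Nat.add_sub_cancel,
      Bool.false_eq_true]
    omega
  · subst h
    have h3 : (n + 1) < n + 1 + 1 := by omega
    have h4 : ¬ (n + 1) < n + 1 := by omega
    simp only [J, rank, W, Go, Ge, h1, h2, e0, e1, h3, h4, if_true, if_false, Nat.add_sub_cancel,
      Bool.false_eq_true]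
    omega

/-- Walk form of the condition `J i ≥ (k + 1) / 2`. -/
def V (c : ℕ → Bool) (k q i : ℕ) : Prop :=
  if q < i then
    (if c i then S c q + S c k ≤ S c i else S c q + S c k ≤ S c i + 3)
  else if q % 2 = 1 then
    (if c i then S c q ≤ S c i else S c q ≤ S c i + 3)
  else if i % 2 = 1 then S c q ≤ S c i + 1
  else if c i then S c q + 2 ≤ S c i else S c q ≤ S c i + 4

theorem V_iff (c : ℕ → Bool) {k q i : ℕ} (hk : k % 2 = 1) (hi : 1 ≤ i)
    (hl : c i ≠ c (i + 1)) (hq : i ≠ q) :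
    (((k + 1) / 2 : ℕ) : ℤ) ≤ J c k q i ↔ V c k q i := by
  have hcase : (c i = true ∧ c (i + 1) = false) ∨ (c i = false ∧ c (i + 1) = true) := by
    rcases Bool.eq_false_or_eq_true (c i) with h | h <;>
      rcases Bool.eq_false_or_eq_true (c (i + 1)) with h' | h' <;> simp_all
  rcases hcase with ⟨h1, h2⟩ | ⟨h1, h2⟩ <;>
    rcases Nat.mod_two_eq_zero_or_one i with h3 | h3 <;>
    rcases Nat.lt_or_gt_of_ne hq with h4 | h4
  · rw [(J_eT c hi h3 h1 h2).2.1 h4]
    have h5 : ¬ q < i := by omega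
    have h6 : ¬ i % 2 = 1 := by omega
    simp only [V, h5, h1, h6, if_false, if_true, S]
    split_ifs <;> omega
  · rw [(J_eT c hi h3 h1 h2).1 h4]
    simp only [V, h4, h1, if_true, S]
    omega
  · rw [(J_oT c hi h3 h1 h2).2.1 h4]
    have h5 : ¬ q < i := by omega
    simp only [V, h5, h1, h3, if_false, if_true, S]
    split_ifs <;> omega
  · rw [(J_oT c hi h3 h1 h2).1 h4]
    simp only [V, h4, h1, if_true, S]
    omega
  · rw [(J_eF c hi h3 h1 h2).2.1 h4]
    have h5 : ¬ q < i := by omega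
    have h6 : ¬ i % 2 = 1 := by omega
    simp only [V, h5, h1, h6, if_false, S, Bool.false_eq_true]
    split_ifs <;> omega
  · rw [(J_eF c hi h3 h1 h2).1 h4]
    simp only [V, h4, h1, if_true, if_false, S, Bool.false_eq_true]
    omega
  · rw [(J_oF c hi h3 h1 h2).2.1 h4]
    have h5 : ¬ q < i := by omega
    simp only [V, h5, h1, h3, if_false, if_true, S, Bool.false_eq_true]
    split_ifs <;> omega
  · rw [(J_oF c hi h3 h1 h2).1 h4]
    simp only [V, h4, h1, if_true, if_false, S, Bool.false_eq_true]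
    omega

/-- The seam `q` is valid: every marked loaded vertex other than `q` has a large rank sum. -/
def Valid (c : ℕ → Bool) (k : ℕ) (al : ℕ → Prop) (q : ℕ) : Prop :=
  ∀ i, 1 ≤ i → i < k → al i → c i ≠ c (i + 1) → i ≠ q → (((k + 1) / 2 : ℕ) : ℤ) ≤ J c k q i

theorem valid_iff (c : ℕ → Bool) {k : ℕ} (al : ℕ → Prop) (q : ℕ) (hk : k % 2 = 1) :
    Valid c k al q ↔ ∀ i, 1 ≤ i → i < k → al i → c i ≠ c (i + 1) → i ≠ q → V c k q i := by
  constructor
  · intro h i h1 h2 h3 h4 h5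
    exact (V_iff c hk h1 h4 h5).1 (h i h1 h2 h3 h4 h5)
  · intro h i h1 h2 h3 h4 h5
    exact (V_iff c hk h1 h4 h5).2 (h i h1 h2 h3 h4 h5)

end Pool.Agent.Lob34
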